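import Pool.Agent.Mg.Fa07d0e.G82d050

set_option maxRecDepth 100000

namespace Pool.Agent.MP_a07d0e_nt

noncomputable def t4 : Tr :=
(.nx 44585 (.nx 38815 (.lf (.cons w3 w1 w1 (.cons w7 w6 w4 (.cons w14 w6 w9 (.cons w12 w7 w7 (.cons w6 w3 w3 (.cons w12 w6 w6 (.cons w25 w24 w13 (.cons w9 w4 w5 (.cons w4 w1 w1 (.last w2 w1 w1)))))))))))
 (.ny 38815 (.lf (.cons w3 w1 w1 (.cons w7 w6 w4 (.cons w14 w12 w9 (.cons w13 w6 w7 (.cons w6 w3 w3 (.cons w4 w2 w2 (.last w2 w1 w1))))))))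
 (.nx 41600 (.lf (.cons w3 w1 w1 (.cons w14 w9 w6 (.cons w14 w18 w13 (.cons w13 w6 w7 (.cons w3 w3 w3 (.last w2 w1 w1)))))))
 (.lf (.cons w3 w1 w1 (.cons w7 w6 w9 (.cons w14 w13 w18 (.cons w9 w5 w4 (.cons w4 w1 w1 (.last w2 w1 w1)))))))
))) (.ny 44585 (.nx 51212 (.lf (.cons w3 w1 w1 (.cons w7 w6 w4 (.cons w9 w5 w4 (.cons w4 w2 w1 (.last w2 w1 w1))))))
 (.lf (.cons w3 w2 w1 (.cons w6 w4 w3 (.cons w3 w3 w2 (.cons w7 w6 w4 (.cons w4 w2 w1 (.last w2 w1 w1)))))))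
) (.nx 51212 (.lf (.cons w3 w1 w1 (.cons w9 w4 w5 (.cons w2 w2 w1 (.last w2 w1 w1)))))
 (.lf (.cons w7 w8 w4 (.cons w7 w4 w4 (.cons w6 w5 w3 (.cons w12 w5 w6 (.cons w24 w11 w13 (.cons w7 w10 w7 (.cons w14 w10 w7 (.cons w113 w82 w31 (.cons w56 w41 w30 (.cons w113 w82 w60 (.cons w59 w80 w31 (.cons w29 w20 w15 (.cons w29 w41 w30 (.cons w6 w4 w3 (.cons w3 w3 w4 (.cons w4 w2 w2 (.last w2 w1 w1))))))))))))))))))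
)))

theorem c4 : Cov true true 33792 58824 33792 102400 3660 4227 3660 4227 3660 4227 :=
  Cov.chk t4 (by decide +kernel)

noncomputable def t5 : Tr :=
(.ny 58824 (.nx 77612 (.ny 44585 (.lf (.cons w3 w2 w1 (.cons w6 w4 w3 (.cons w12 w9 w6 (.cons w7 w8 w3 (.cons w14 w32 w13 (.cons w28 w33 w13 (.cons w14 w9 w7 (.cons w3 w3 w2 (.cons w2 w2 w1 (.last w2 w1 w1)))))))))))
 (.nx 67568 (.lf (.cons w3 w4 w4 (.cons w7 w8 w4 (.cons w6 w5 w3 (.cons w12 w5 w6 (.cons w24 w11 w13 (.cons w7 w10 w7 (.cons w14 w20 w7 (.cons w13 w16 w7 (.cons w52 w33 w15 (.cons w24 w17 w7 (.cons w6 w4 w3 (.cons w3 w3 w2 (.last w2 w1 w1))))))))))))))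
 (.ny 51212 (.lf (.cons w3 w2 w1 (.cons w3 w4 w3 (.cons w3 w3 w4 (.last w2 w1 w1)))))
 (.nx 72416 (.ny 54886 (.lf (.cons w3 w4 w4 (.cons w6 w5 w6 (.cons w7 w10 w7 (.cons w7 w9 w9 (.cons w29 w36 w18 (.cons w29 w37 w36 (.cons w9 w10 w5 (.cons w7 w5 w6 (.cons w3 w4 w3 (.cons w2 w2 w1 (.last w2 w1 w1))))))))))))
 (.lf (.cons w3 w4 w4 (.cons w6 w5 w3 (.cons w7 w10 w7 (.cons w9 w5 w5 (.cons w18 w11 w11 (.cons w6 w6 w5 (.cons w3 w3 w2 (.last w2 w1 w1)))))))))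
) (.lf (.cons w3 w4 w4 (.cons w6 w5 w6 (.cons w7 w10 w7 (.cons w13 w17 w7 (.cons w7 w9 w9 (.cons w9 w5 w5 (.cons w12 w7 w5 (.cons w13 w24 w10 (.cons w6 w6 w5 (.cons w3 w3 w2 (.last w2 w1 w1))))))))))))
)))) (.ny 44585 (.nx 89149 (.lf (.cons w3 w2 w1 (.cons w6 w4 w3 (.cons w7 w8 w3 (.cons w9 w5 w4 (.cons w19 w22 w16 (.cons w4 w2 w2 (.last w2 w1 w1))))))))
 (.nx 95545 (.lf (.cons w3 w2 w1 (.cons w6 w4 w3 (.cons w7 w8 w3 (.cons w4 w5 w2 (.last w2 w1 w1))))))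
 (.ny 38815 (.lf (.cons w3 w4 w1 (.cons w6 w9 w3 (.cons w4 w5 w2 (.cons w2 w2 w1 (.cons w10 w9 w4 (.cons w40 w18 w9 (.cons w40 w37 w18 (.cons w43 w72 w19 (.cons w42 w36 w19 (.cons w21 w18 w9 (.cons w42 w37 w18 (.cons w11 w16 w7 (.cons w5 w4 w3 (.last w2 w3 w1)))))))))))))))
 (.lf (.cons w3 w2 w1 (.cons w4 w5 w2 (.last w2 w1 w1))))
))) (.nx 89149 (.ny 51212 (.lf (.cons w3 w2 w1 (.cons w3 w4 w3 (.cons w2 w2 w2 (.last w2 w1 w1)))))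
 (.lf (.cons w3 w4 w4 (.cons w6 w5 w6 (.cons w14 w10 w7 (.cons w15 w11 w14 (.cons w30 w23 w30 (.cons w62 w46 w31 (.cons w25 w11 w13 (.cons w50 w45 w52 (.cons w15 w21 w24 (.cons w15 w40 w25 (.cons w7 w10 w6 (.cons w7 w5 w6 (.cons w3 w4 w3 (.last w2 w1 w1)))))))))))))))
) (.lf (.cons w3 w4 w4 (.cons w3 w5 w3 (.cons w7 w5 w6 (.cons w14 w22 w24 (.cons w29 w22 w24 (.cons w59 w45 w49 (.cons w12 w17 w7 (.cons w3 w4 w3 (.cons w2 w2 w1 (.last w2 w1 w1)))))))))))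
))) (.nx 77612 (.nx 67568 (.nx 63045 (.lf (.cons w3 w4 w4 (.cons w7 w8 w9 (.cons w6 w5 w3 (.cons w3 w2 w3 (.last w2 w1 w1))))))
 (.lf (.cons w3 w4 w4 (.cons w7 w9 w8 (.cons w14 w18 w16 (.cons w56 w37 w66 (.cons w29 w36 w33 (.cons w12 w5 w7 (.cons w6 w5 w6 (.cons w3 w2 w3 (.last w2 w1 w1))))))))))
) (.ny 67568 (.nx 72416 (.lf (.cons w3 w4 w4 (.cons w7 w9 w8 (.cons w6 w5 w3 (.cons w3 w2 w3 (.last w2 w1 w1))))))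
 (.ny 63045 (.lf (.cons w3 w4 w4 (.cons w6 w5 w3 (.cons w9 w5 w5 (.cons w12 w7 w5 (.cons w13 w24 w10 (.cons w6 w6 w5 (.cons w3 w3 w2 (.last w2 w1 w1)))))))))
 (.lf (.cons w3 w4 w4 (.cons w7 w9 w8 (.cons w6 w5 w3 (.cons w3 w2 w3 (.last w2 w1 w1))))))
)) (.lf (.cons w3 w4 w4 (.cons w7 w8 w9 (.cons w14 w16 w18 (.cons w56 w66 w37 (.cons w29 w66 w36 (.cons w9 w10 w10 (.cons w9 w5 w5 (.cons w37 w22 w23 (.cons w6 w5 w3 (.cons w3 w2 w3 (.last w2 w1 w1))))))))))))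
)) (.ny 77612 (.nx 89149 (.ny 67568 (.nx 83181 (.lf (.cons w3 w4 w4 (.cons w6 w5 w3 (.cons w14 w20 w7 (.cons w15 w22 w14 (.cons w13 w17 w7 (.cons w14 w11 w14 (.cons w14 w11 w7 (.cons w7 w5 w6 (.cons w3 w4 w3 (.last w2 w1 w1)))))))))))
 (.lf (.cons w3 w4 w4 (.cons w3 w5 w3 (.cons w7 w5 w6 (.cons w3 w4 w3 (.last w2 w1 w1))))))
) (.lf (.cons w3 w4 w4 (.cons w7 w9 w8 (.cons w9 w5 w5 (.cons w6 w5 w3 (.cons w8 w5 w5 (.cons w9 w10 w8 (.cons w4 w2 w2 (.last w2 w1 w1)))))))))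
) (.lf (.cons w3 w4 w4 (.cons w7 w9 w8 (.cons w3 w5 w3 (.cons w7 w5 w6 (.cons w15 w11 w13 (.cons w6 w8 w3 (.cons w2 w2 w1 (.last w2 w1 w1)))))))))
) (.nx 89149 (.lf (.cons w3 w4 w4 (.cons w7 w16 w9 (.cons w4 w5 w5 (.cons w6 w5 w3 (.cons w3 w2 w3 (.last w2 w1 w1)))))))
 (.ny 89149 (.lf (.cons w3 w4 w4 (.cons w4 w5 w5 (.cons w3 w5 w3 (.cons w2 w2 w1 (.last w2 w1 w1))))))
 (.nx 95545 (.lf (.cons w3 w4 w4 (.cons w8 w5 w5 (.cons w6 w7 w5 (.cons w3 w3 w5 (.last w2 w1 w1))))))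
 (.ny 95545 (.lf (.cons w3 w4 w4 (.cons w8 w5 w5 (.cons w6 w5 w7 (.cons w3 w5 w3 (.last w2 w1 w1))))))
 (.lf (.cons w3 w4 w4 (.cons w8 w5 w5 (.cons w32 w11 w11 (.cons w13 w10 w7 (.cons w6 w5 w7 (.cons w2 w2 w2 (.last w2 w1 w1))))))))
)))))))

theorem c5 : Cov true true 58824 102400 33792 102400 3660 4227 3660 4227 3660 4227 :=
  Cov.chk t5 (by decide +kernel)

noncomputable def t7 : Tr :=
(.ny 36217 (.nx 41600 (.ny 34983 (.lf (.cons w3 w2 w1 (.cons w4 w3 w3 (.cons w16 w7 w7 (.cons w18 w24 w18 (.cons w9 w3 w4 (.last w2 w1 w1)))))))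
 (.lf (.cons w3 w2 w1 (.cons w8 w3 w3 (.cons w32 w14 w7 (.cons w9 w6 w9 (.cons w4 w1 w1 (.last w2 w2 w2)))))))
) (.lf (.cons w3 w2 w1 (.cons w8 w3 w3 (.cons w32 w7 w7 (.cons w65 w28 w14 (.cons w65 w29 w28 (.cons w18 w12 w9 (.cons w9 w3 w4 (.last w2 w1 w1)))))))))
) (.lf (.cons w3 w2 w1 (.cons w8 w3 w3 (.cons w32 w7 w7 (.cons w65 w28 w14 (.cons w18 w13 w9 (.cons w73 w26 w19 (.cons w37 w24 w18 (.cons w9 w12 w9 (.cons w4 w1 w1 (.last w2 w2 w2)))))))))))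
)

theorem c7 : Cov false false 38815 44585 33792 38815 5773 7321 3660 4227 3660 4227 :=
  Cov.chk t7 (by decide +kernel)

noncomputable def t8 : Tr :=
(.nx 39493 (.lf (.cons w3 w2 w1 (.cons w8 w3 w3 (.cons w32 w7 w7 (.cons w37 w18 w13 (.cons w18 w9 w13 (.cons w9 w9 w6 (.last w2 w1 w1))))))))
 (.lf (.cons w3 w2 w1 (.cons w8 w3 w3 (.cons w32 w7 w7 (.cons w32 w14 w14 (.cons w65 w29 w28 (.cons w37 w13 w18 (.cons w18 w13 w9 (.cons w9 w6 w9 (.last w2 w1 w1))))))))))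
)

theorem c8 : Cov false false 38815 40183 38815 102400 5773 7321 3660 4227 3660 4227 :=
  Cov.chk t8 (by decide +kernel)

noncomputable def t13 : Tr :=
(.ny 44585 (.nx 51212 (.ny 38815 (.nx 47784 (.nx 46157 (.lf (.cons w3 w2 w1 (.cons w7 w5 w4 (.cons w14 w10 w8 (.cons w28 w21 w17 (.cons w56 w42 w34 (.cons w18 w12 w9 (.cons w9 w3 w4 (.last w2 w1 w1)))))))))
 (.lf (.cons w3 w2 w1 (.cons w7 w5 w4 (.cons w9 w6 w4 (.last w2 w1 w1)))))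
) (.lf (.cons w3 w2 w1 (.cons w7 w5 w4 (.cons w9 w6 w8 (.last w2 w1 w1)))))
) (.lf (.cons w3 w2 w1 (.cons w7 w5 w4 (.cons w14 w10 w8 (.cons w28 w21 w17 (.cons w9 w6 w4 (.last w2 w1 w1)))))))
) (.lf (.cons w3 w2 w1 (.cons w14 w8 w5 (.cons w7 w5 w4 (.cons w4 w3 w2 (.last w2 w1 w1))))))
) (.nx 51212 (.lf (.cons w3 w1 w2 (.cons w6 w5 w5 (.cons w25 w10 w10 (.cons w9 w4 w6 (.last w2 w1 w1))))))
 (.lf (.cons w3 w3 w2 (.cons w6 w5 w3 (.cons w12 w10 w7 (.cons w25 w20 w14 (.cons w50 w40 w29 (.cons w101 w81 w59 (.cons w51 w43 w56 (.cons w51 w84 w57 (.cons w102 w85 w57 (.cons w25 w21 w14 (.cons w50 w42 w29 (.cons w7 w5 w6 (.cons w14 w10 w12 (.cons w56 w21 w25 (.cons w4 w3 w3 (.cons w3 w2 w2 (.last w2 w1 w1))))))))))))))))))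
))

theorem c13 : Cov false false 44585 58824 33792 102400 5773 7321 3660 4227 3660 4227 :=
  Cov.chk t13 (by decide +kernel)

noncomputable def t16 : Tr :=
(.nx 58824 (.nx 44585 (.nx 38815 (.lf (.cons w3 w2 w1 (.cons w6 w2 w3 (.cons w7 w4 w3 (.cons w4 w3 w2 (.last w2 w1 w1))))))
 (.lf (.cons w3 w2 w1 (.cons w6 w5 w3 (.cons w4 w3 w2 (.last w2 w1 w1)))))
) (.ny 44585 (.lf (.cons w3 w2 w1 (.cons w4 w3 w2 (.last w2 w1 w1))))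
 (.nx 51212 (.lf (.cons w3 w2 w1 (.cons w3 w2 w3 (.last w2 w1 w1))))
 (.ny 51212 (.lf (.cons w3 w2 w1 (.cons w7 w4 w3 (.last w2 w1 w1))))
 (.lf (.cons w3 w2 w2 (.cons w12 w10 w9 (.cons w4 w3 w2 (.last w2 w1 w1)))))
)))) (.ny 58824 (.nx 77612 (.ny 44585 (.lf (.cons w6 w4 w2 (.cons w3 w2 w1 (.cons w7 w8 w3 (.last w2 w1 w1)))))
 (.lf (.cons w6 w6 w3 (.cons w3 w3 w3 (.cons w3 w2 w2 (.cons w4 w3 w2 (.last w2 w1 w1))))))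
) (.ny 44585 (.nx 89149 (.ny 38815 (.lf (.cons w12 w9 w5 (.cons w13 w16 w5 (.cons w3 w4 w2 (.cons w2 w3 w1 (.last w2 w1 w1))))))
 (.lf (.cons w3 w3 w3 (.cons w7 w7 w7 (.cons w3 w4 w2 (.cons w3 w2 w1 (.last w2 w1 w1))))))
) (.nx 95545 (.ny 38815 (.nx 92292 (.ny 36217 (.lf (.cons w14 w15 w7 (.cons w7 w7 w3 (.cons w9 w13 w5 (.cons w3 w4 w2 (.cons w2 w3 w1 (.last w2 w1 w1)))))))
 (.nx 90707 (.lf (.cons w12 w9 w5 (.cons w7 w7 w3 (.cons w3 w4 w1 (.last w2 w1 w1)))))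
 (.n1 6547 (.lf (.cons w6 w9 w5 (.cons w7 w7 w3 (.cons w3 w4 w2 (.cons w2 w3 w1 (.last w2 w1 w1))))))
 (.lf (.cons w12 w18 w10 (.cons w12 w9 w5 (.cons w7 w7 w3 (.cons w3 w4 w1 (.last w2 w1 w1))))))
))) (.ny 36217 (.ny 34983 (.lf (.cons w7 w7 w3 (.cons w9 w13 w5 (.cons w9 w6 w5 (.cons w3 w2 w1 (.last w2 w1 w1))))))
 (.lf (.cons w6 w9 w5 (.cons w7 w7 w6 (.cons w9 w6 w5 (.cons w3 w2 w1 (.last w2 w1 w1))))))
) (.lf (.cons w6 w9 w5 (.cons w7 w7 w3 (.cons w6 w4 w2 (.cons w2 w3 w1 (.last w2 w1 w1))))))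
)) (.lf (.cons w3 w3 w3 (.cons w28 w25 w26 (.cons w112 w101 w53 (.cons w58 w51 w27 (.cons w59 w100 w27 (.cons w29 w25 w13 (.cons w7 w7 w7 (.cons w7 w7 w3 (.cons w3 w2 w2 (.last w2 w1 w1)))))))))))
) (.ny 38815 (.ny 36217 (.lf (.cons w13 w9 w5 (.cons w53 w38 w23 (.cons w26 w19 w11 (.cons w7 w7 w3 (.cons w28 w14 w13 (.cons w12 w9 w5 (.cons w9 w6 w5 (.cons w6 w4 w2 (.cons w2 w3 w1 (.cons w10 w7 w4 (.cons w11 w13 w6 (.cons w5 w6 w3 (.cons w2 w4 w2 (.last w2 w2 w1)))))))))))))))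
 (.lf (.cons w13 w9 w5 (.cons w6 w9 w5 (.cons w9 w6 w5 (.cons w19 w48 w11 (.cons w6 w4 w2 (.cons w2 w3 w1 (.last w2 w1 w1))))))))
) (.lf (.cons w13 w9 w5 (.cons w6 w9 w5 (.cons w9 w6 w5 (.cons w7 w7 w3 (.cons w14 w14 w13 (.cons w6 w4 w2 (.cons w2 w3 w1 (.last w2 w1 w1)))))))))
))) (.nx 89149 (.lf (.cons w3 w3 w3 (.cons w3 w2 w2 (.cons w2 w3 w2 (.last w2 w1 w1)))))
 (.ny 51212 (.nx 95545 (.lf (.cons w3 w3 w3 (.cons w7 w7 w7 (.cons w3 w4 w2 (.cons w3 w2 w1 (.last w2 w1 w1))))))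
 (.ny 47784 (.lf (.cons w3 w3 w3 (.cons w9 w6 w5 (.cons w7 w7 w3 (.cons w3 w2 w1 (.last w2 w1 w1))))))
 (.lf (.cons w3 w3 w3 (.cons w7 w7 w7 (.cons w3 w4 w2 (.cons w3 w2 w1 (.last w2 w1 w1))))))
)) (.lf (.cons w3 w3 w3 (.cons w14 w7 w7 (.cons w3 w2 w2 (.last w2 w1 w1)))))
)))) (.nx 77612 (.lf (.cons w12 w8 w5 (.cons w3 w2 w2 (.cons w6 w5 w4 (.cons w12 w10 w9 (.cons w4 w3 w4 (.last w2 w1 w1)))))))
 (.ny 77612 (.nx 89149 (.ny 67568 (.nx 83181 (.lf (.cons w6 w8 w5 (.cons w3 w2 w2 (.last w2 w1 w1))))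
 (.lf (.cons w6 w6 w3 (.cons w3 w4 w2 (.cons w2 w3 w2 (.last w2 w1 w1)))))
) (.lf (.cons w6 w4 w5 (.cons w3 w2 w2 (.last w2 w1 w1))))
) (.ny 67568 (.lf (.cons w3 w3 w3 (.cons w2 w3 w2 (.last w2 w1 w1))))
 (.lf (.cons w12 w9 w5 (.cons w13 w32 w10 (.cons w6 w8 w5 (.cons w3 w2 w2 (.last w2 w1 w1))))))
)) (.nx 89149 (.lf (.cons w6 w8 w5 (.cons w3 w2 w2 (.last w2 w1 w1))))
 (.ny 89149 (.lf (.cons w6 w4 w5 (.cons w3 w2 w2 (.last w2 w1 w1))))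
 (.lf (.cons w3 w4 w5 (.cons w3 w2 w2 (.last w2 w1 w1))))
))))))

theorem c16 : Cov false true 33792 102400 33792 102400 5773 7321 3660 4227 3660 4227 :=
  Cov.chk t16 (by decide +kernel)

noncomputable def t18 : Tr :=
(.ny 44585 (.nx 51212 (.ny 38815 (.lf (.cons w3 w1 w1 (.cons w7 w6 w4 (.cons w12 w7 w7 (.cons w6 w3 w3 (.cons w2 w2 w1 (.last w2 w1 w1)))))))
 (.lf (.cons w3 w1 w1 (.cons w7 w6 w4 (.cons w14 w24 w9 (.cons w9 w5 w8 (.cons w4 w2 w2 (.last w2 w1 w1)))))))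
) (.lf (.cons w3 w2 w1 (.cons w6 w4 w3 (.cons w3 w3 w2 (.cons w7 w6 w4 (.cons w4 w2 w2 (.last w2 w1 w1)))))))
) (.nx 51212 (.lf (.cons w3 w1 w1 (.cons w7 w9 w6 (.cons w9 w4 w5 (.cons w2 w2 w1 (.last w2 w1 w1))))))
 (.lf (.cons w7 w4 w4 (.cons w6 w5 w3 (.cons w12 w5 w6 (.cons w13 w8 w7 (.cons w27 w32 w15 (.cons w7 w10 w7 (.cons w14 w10 w7 (.cons w56 w41 w30 (.cons w6 w4 w3 (.cons w3 w3 w4 (.cons w7 w6 w4 (.cons w2 w2 w1 (.last w2 w1 w1))))))))))))))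
))

theorem c18 : Cov true true 44585 58824 33792 102400 5773 7321 3660 4227 3660 4227 :=
  Cov.chk t18 (by decide +kernel)

noncomputable def t22 : Tr :=
(.ny 58824 (.nx 77612 (.ny 44585 (.lf (.cons w6 w8 w3 (.cons w3 w2 w1 (.cons w4 w3 w2 (.last w2 w1 w1)))))
 (.lf (.cons w3 w4 w3 (.cons w7 w8 w6 (.cons w6 w5 w3 (.cons w12 w10 w7 (.cons w4 w3 w3 (.cons w8 w3 w3 (.cons w17 w7 w12 (.cons w3 w4 w4 (.cons w3 w2 w2 (.last w2 w1 w1)))))))))))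
) (.ny 44585 (.nx 89149 (.lf (.cons w6 w4 w3 (.cons w3 w2 w1 (.last w2 w1 w1))))
 (.nx 95545 (.lf (.cons w12 w9 w6 (.cons w6 w4 w3 (.cons w3 w2 w1 (.last w2 w1 w1)))))
 (.lf (.cons w9 w6 w3 (.cons w4 w6 w3 (.cons w2 w3 w1 (.cons w5 w3 w2 (.cons w8 w4 w3 (.last w2 w2 w1)))))))
)) (.nx 89149 (.lf (.cons w3 w4 w3 (.cons w4 w3 w3 (.cons w6 w5 w3 (.cons w12 w10 w7 (.cons w3 w4 w4 (.cons w2 w3 w2 (.last w2 w1 w1))))))))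
 (.ny 51212 (.lf (.cons w9 w6 w6 (.cons w4 w3 w3 (.cons w3 w2 w1 (.last w2 w1 w1)))))
 (.lf (.cons w3 w4 w3 (.cons w4 w3 w3 (.cons w8 w7 w6 (.cons w17 w14 w12 (.cons w16 w14 w7 (.cons w32 w14 w14 (.cons w34 w15 w15 (.cons w11 w13 w12 (.cons w23 w52 w25 (.cons w20 w26 w13 (.cons w5 w6 w3 (.cons w2 w3 w2 (.last w2 w1 w1))))))))))))))
)))) (.nx 77612 (.nx 67568 (.lf (.cons w3 w2 w3 (.cons w4 w3 w3 (.cons w6 w4 w4 (.cons w3 w2 w2 (.last w2 w1 w1))))))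
 (.ny 67568 (.lf (.cons w3 w2 w3 (.cons w8 w3 w3 (.cons w17 w14 w12 (.cons w16 w7 w7 (.cons w32 w14 w14 (.cons w65 w29 w56 (.cons w6 w4 w4 (.cons w3 w2 w2 (.last w2 w1 w1))))))))))
 (.lf (.cons w3 w2 w3 (.cons w8 w3 w3 (.cons w17 w14 w12 (.cons w34 w28 w25 (.cons w69 w56 w50 (.cons w34 w29 w25 (.cons w16 w7 w7 (.cons w8 w7 w7 (.cons w17 w14 w7 (.cons w5 w6 w6 (.cons w3 w2 w2 (.last w2 w1 w1)))))))))))))
)) (.ny 77612 (.nx 89149 (.ny 67568 (.lf (.cons w3 w4 w3 (.cons w8 w3 w3 (.cons w6 w5 w3 (.cons w12 w10 w7 (.cons w7 w10 w6 (.cons w6 w4 w4 (.cons w3 w2 w2 (.last w2 w1 w1)))))))))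
 (.nx 83181 (.nx 80348 (.lf (.cons w3 w2 w3 (.cons w12 w5 w7 (.cons w7 w10 w6 (.cons w8 w7 w7 (.cons w5 w6 w6 (.cons w3 w2 w2 (.last w2 w2 w1))))))))
 (.lf (.cons w3 w2 w3 (.cons w12 w5 w7 (.cons w7 w10 w6 (.cons w14 w10 w12 (.cons w28 w21 w25 (.cons w5 w6 w3 (.last w2 w1 w1))))))))
) (.lf (.cons w3 w2 w3 (.cons w6 w5 w3 (.cons w7 w5 w6 (.cons w5 w3 w3 (.last w2 w1 w1))))))
)) (.ny 67568 (.nx 95545 (.lf (.cons w4 w3 w3 (.cons w17 w7 w12 (.cons w3 w5 w3 (.cons w3 w2 w2 (.last w2 w1 w1))))))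
 (.nx 98913 (.lf (.cons w4 w3 w3 (.cons w17 w7 w12 (.cons w16 w7 w7 (.cons w6 w5 w3 (.cons w5 w3 w3 (.last w2 w1 w1)))))))
 (.lf (.cons w3 w4 w3 (.cons w8 w7 w6 (.cons w17 w14 w12 (.cons w16 w7 w7 (.cons w20 w13 w13 (.cons w5 w3 w3 (.last w2 w1 w1))))))))
)) (.lf (.cons w4 w3 w3 (.cons w8 w7 w6 (.cons w17 w14 w12 (.cons w32 w15 w15 (.cons w8 w7 w7 (.cons w5 w3 w3 (.last w2 w1 w1))))))))
)) (.nx 89149 (.nx 83181 (.lf (.cons w4 w3 w3 (.cons w6 w5 w7 (.cons w7 w10 w12 (.cons w8 w7 w7 (.cons w5 w3 w3 (.last w2 w1 w1)))))))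
 (.lf (.cons w3 w2 w3 (.cons w6 w5 w7 (.cons w7 w10 w12 (.cons w5 w3 w3 (.last w2 w1 w1))))))
) (.ny 89149 (.lf (.cons w3 w2 w3 (.cons w3 w5 w3 (.cons w5 w3 w3 (.last w2 w1 w1)))))
 (.lf (.cons w2 w3 w3 (.cons w5 w3 w3 (.last w2 w1 w1))))
)))))

theorem c22 : Cov false false 58824 102400 33792 102400 3660 4227 5773 7321 3660 4227 :=
  Cov.chk t22 (by decide +kernel)

noncomputable def t25 : Tr :=
(.nx 44585 (.nx 38815 (.lf (.cons w3 w1 w1 (.cons w7 w6 w4 (.cons w14 w12 w9 (.cons w13 w12 w7 (.cons w6 w3 w3 (.cons w12 w6 w6 (.cons w9 w5 w4 (.cons w4 w1 w1 (.last w2 w1 w1))))))))))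
 (.ny 38815 (.lf (.cons w3 w1 w1 (.cons w7 w6 w4 (.cons w14 w24 w9 (.cons w12 w7 w7 (.cons w6 w3 w3 (.cons w4 w2 w1 (.last w2 w1 w1))))))))
 (.nx 41600 (.lf (.cons w3 w1 w1 (.cons w7 w6 w9 (.cons w14 w13 w18 (.cons w13 w6 w7 (.cons w3 w3 w3 (.last w2 w1 w1)))))))
 (.lf (.cons w3 w1 w1 (.cons w7 w12 w9 (.cons w29 w24 w18 (.cons w59 w49 w37 (.cons w28 w26 w19 (.cons w14 w13 w9 (.cons w9 w4 w5 (.cons w4 w1 w1 (.last w2 w1 w1))))))))))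
))) (.ny 44585 (.nx 51212 (.lf (.cons w3 w1 w1 (.cons w7 w6 w4 (.cons w9 w5 w4 (.cons w4 w2 w1 (.last w2 w1 w1))))))
 (.lf (.cons w3 w2 w1 (.cons w6 w4 w3 (.cons w3 w3 w2 (.cons w7 w6 w4 (.cons w2 w2 w1 (.last w2 w1 w1)))))))
) (.nx 51212 (.lf (.cons w3 w1 w1 (.cons w9 w5 w4 (.cons w2 w1 w2 (.last w2 w1 w1)))))
 (.lf (.cons w3 w4 w4 (.cons w7 w4 w4 (.cons w6 w5 w3 (.cons w3 w2 w3 (.cons w7 w4 w6 (.cons w4 w2 w2 (.last w2 w1 w1))))))))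
)))

theorem c25 : Cov true true 33792 58824 33792 102400 3660 4227 5773 7321 3660 4227 :=
  Cov.chk t25 (by decide +kernel)

noncomputable def t26 : Tr :=
(.ny 58824 (.nx 77612 (.ny 44585 (.lf (.cons w3 w2 w1 (.cons w6 w4 w3 (.cons w12 w9 w6 (.cons w7 w8 w3 (.cons w14 w32 w13 (.cons w28 w33 w13 (.cons w14 w9 w7 (.cons w6 w3 w2 (.cons w3 w3 w2 (.cons w2 w2 w1 (.last w2 w1 w1))))))))))))
 (.nx 67568 (.lf (.cons w3 w4 w4 (.cons w7 w8 w4 (.cons w7 w9 w8 (.cons w6 w5 w3 (.cons w25 w20 w13 (.cons w24 w11 w13 (.cons w7 w10 w7 (.cons w13 w16 w7 (.cons w52 w33 w15 (.cons w24 w17 w7 (.cons w6 w4 w3 (.cons w3 w3 w2 (.last w2 w1 w1))))))))))))))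
 (.ny 51212 (.lf (.cons w3 w2 w1 (.cons w3 w4 w3 (.cons w3 w3 w2 (.last w2 w1 w1)))))
 (.ny 54886 (.lf (.cons w3 w4 w4 (.cons w6 w5 w6 (.cons w7 w10 w7 (.cons w15 w22 w14 (.cons w25 w22 w13 (.cons w50 w22 w26 (.cons w100 w45 w53 (.cons w7 w9 w9 (.cons w29 w36 w18 (.cons w29 w72 w37 (.cons w58 w37 w36 (.cons w58 w74 w72 (.cons w59 w75 w75 (.cons w13 w16 w14 (.cons w13 w16 w7 (.cons w24 w17 w7 (.cons w6 w4 w3 (.cons w3 w3 w2 (.last w2 w1 w1))))))))))))))))))))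
 (.lf (.cons w3 w4 w4 (.cons w6 w5 w3 (.cons w7 w10 w7 (.cons w9 w5 w5 (.cons w18 w11 w11 (.cons w36 w22 w22 (.cons w73 w45 w44 (.cons w7 w10 w12 (.cons w3 w4 w3 (.last w2 w1 w1)))))))))))
)))) (.ny 44585 (.nx 89149 (.lf (.cons w3 w2 w1 (.cons w6 w4 w3 (.cons w7 w8 w3 (.cons w14 w32 w13 (.cons w29 w64 w13 (.cons w9 w5 w4 (.cons w19 w20 w18 (.cons w38 w41 w36 (.cons w77 w82 w72 (.cons w37 w23 w18 (.cons w4 w2 w2 (.last w2 w1 w1)))))))))))))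
 (.nx 95545 (.lf (.cons w3 w2 w1 (.cons w6 w4 w3 (.cons w7 w8 w3 (.cons w4 w5 w2 (.last w2 w1 w1))))))
 (.ny 38815 (.lf (.cons w3 w4 w1 (.cons w6 w9 w3 (.cons w4 w5 w2 (.cons w2 w2 w1 (.cons w10 w9 w4 (.cons w40 w18 w18 (.cons w40 w37 w18 (.cons w43 w72 w19 (.cons w42 w36 w19 (.cons w21 w18 w9 (.cons w42 w37 w18 (.cons w11 w16 w7 (.cons w5 w4 w3 (.last w2 w3 w1)))))))))))))))
 (.lf (.cons w3 w2 w1 (.cons w3 w4 w3 (.cons w4 w2 w2 (.last w2 w1 w1)))))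
))) (.nx 89149 (.ny 51212 (.lf (.cons w3 w2 w1 (.cons w3 w4 w3 (.cons w2 w2 w2 (.last w2 w1 w1)))))
 (.nx 83181 (.lf (.cons w3 w4 w4 (.cons w6 w5 w6 (.cons w7 w10 w7 (.cons w15 w11 w14 (.cons w13 w17 w7 (.cons w52 w35 w30 (.cons w27 w68 w15 (.cons w7 w9 w9 (.cons w9 w5 w5 (.cons w18 w11 w11 (.cons w7 w5 w6 (.cons w3 w4 w3 (.last w2 w1 w1))))))))))))))
 (.lf (.cons w3 w4 w4 (.cons w12 w5 w6 (.cons w14 w10 w7 (.cons w15 w11 w14 (.cons w30 w23 w30 (.cons w25 w11 w13 (.cons w15 w21 w24 (.cons w15 w40 w25 (.cons w7 w10 w6 (.cons w7 w5 w6 (.cons w3 w4 w3 (.last w2 w1 w1)))))))))))))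
)) (.lf (.cons w3 w4 w4 (.cons w3 w5 w3 (.cons w7 w5 w6 (.cons w14 w22 w24 (.cons w12 w17 w7 (.cons w3 w4 w3 (.cons w2 w2 w1 (.last w2 w1 w1)))))))))
))) (.nx 77612 (.nx 67568 (.ny 63045 (.lf (.cons w3 w4 w4 (.cons w7 w9 w8 (.cons w14 w18 w16 (.cons w12 w5 w7 (.cons w6 w5 w6 (.cons w3 w2 w3 (.last w2 w1 w1))))))))
 (.lf (.cons w3 w4 w4 (.cons w7 w8 w9 (.cons w14 w16 w18 (.cons w56 w66 w37 (.cons w24 w10 w7 (.cons w6 w5 w3 (.cons w3 w3 w2 (.last w2 w1 w1)))))))))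
) (.ny 67568 (.lf (.cons w3 w4 w4 (.cons w7 w9 w8 (.cons w6 w5 w3 (.cons w3 w2 w3 (.last w2 w1 w1))))))
 (.nx 72416 (.lf (.cons w3 w4 w4 (.cons w7 w9 w16 (.cons w14 w16 w18 (.cons w56 w66 w37 (.cons w13 w11 w7 (.cons w6 w5 w3 (.cons w3 w2 w3 (.last w2 w1 w1)))))))))
 (.lf (.cons w3 w4 w4 (.cons w7 w9 w8 (.cons w9 w5 w5 (.cons w6 w5 w3 (.cons w3 w2 w3 (.last w2 w1 w1)))))))
))) (.ny 77612 (.nx 89149 (.ny 67568 (.nx 83181 (.lf (.cons w3 w4 w4 (.cons w6 w5 w3 (.cons w14 w10 w7 (.cons w15 w22 w14 (.cons w13 w17 w7 (.cons w52 w35 w15 (.cons w27 w34 w30 (.cons w14 w11 w14 (.cons w14 w11 w7 (.cons w7 w10 w6 (.cons w3 w4 w3 (.last w2 w1 w1)))))))))))))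
 (.nx 86113 (.lf (.cons w3 w4 w4 (.cons w6 w5 w3 (.cons w14 w20 w7 (.cons w7 w9 w9 (.cons w14 w18 w18 (.cons w29 w37 w36 (.cons w13 w7 w10 (.cons w6 w7 w5 (.cons w8 w5 w5 (.cons w9 w5 w8 (.cons w2 w2 w2 (.last w2 w1 w1)))))))))))))
 (.lf (.cons w3 w4 w4 (.cons w3 w5 w3 (.cons w7 w5 w6 (.cons w3 w4 w3 (.last w2 w1 w1))))))
)) (.lf (.cons w3 w4 w4 (.cons w7 w9 w8 (.cons w9 w5 w5 (.cons w6 w5 w3 (.cons w3 w2 w3 (.last w2 w1 w1)))))))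
) (.lf (.cons w3 w4 w4 (.cons w7 w9 w8 (.cons w3 w5 w3 (.cons w7 w5 w6 (.cons w15 w22 w13 (.cons w6 w4 w3 (.last w2 w1 w1))))))))
) (.nx 89149 (.lf (.cons w3 w4 w4 (.cons w7 w16 w9 (.cons w4 w5 w5 (.cons w6 w3 w5 (.cons w4 w2 w2 (.last w2 w1 w1)))))))
 (.ny 89149 (.lf (.cons w3 w4 w4 (.cons w4 w5 w5 (.cons w3 w5 w3 (.cons w2 w2 w1 (.last w2 w1 w1))))))
 (.nx 95545 (.lf (.cons w3 w4 w4 (.cons w4 w5 w5 (.cons w6 w7 w5 (.cons w3 w3 w5 (.last w2 w1 w1))))))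
 (.ny 95545 (.lf (.cons w3 w4 w4 (.cons w8 w5 w5 (.cons w6 w5 w7 (.cons w3 w5 w3 (.last w2 w1 w1))))))
 (.lf (.cons w3 w4 w4 (.cons w8 w5 w5 (.cons w32 w11 w11 (.cons w32 w22 w22 (.cons w65 w44 w45 (.cons w18 w17 w21 (.cons w9 w17 w10 (.cons w4 w2 w2 (.last w2 w1 w1))))))))))
)))))))

theorem c26 : Cov true true 58824 102400 33792 102400 3660 4227 5773 7321 3660 4227 :=
  Cov.chk t26 (by decide +kernel)

noncomputable def t37 : Tr :=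
(.ny 44585 (.nx 67568 (.lf (.cons w3 w2 w1 (.cons w7 w8 w3 (.last w2 w1 w1))))
 (.ny 38815 (.nx 72416 (.lf (.cons w3 w4 w2 (.cons w3 w2 w1 (.last w2 w1 w1))))
 (.ny 36217 (.lf (.cons w13 w16 w5 (.cons w3 w4 w2 (.cons w4 w3 w1 (.last w2 w1 w1)))))
 (.lf (.cons w7 w12 w6 (.cons w29 w48 w13 (.cons w28 w25 w26 (.cons w6 w4 w2 (.cons w3 w2 w1 (.last w2 w1 w1)))))))
)) (.lf (.cons w3 w3 w3 (.cons w3 w2 w2 (.cons w3 w2 w1 (.last w2 w1 w1)))))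
)) (.lf (.cons w6 w3 w3 (.cons w3 w3 w3 (.cons w3 w2 w2 (.cons w4 w3 w2 (.last w2 w1 w1))))))
)

theorem c37 : Cov false true 58824 77612 33792 58824 5773 7321 5773 7321 3660 4227 :=
  Cov.chk t37 (by decide +kernel)

noncomputable def t45 : Tr :=
(.nx 77612 (.ny 44585 (.lf (.cons w3 w2 w1 (.cons w6 w4 w3 (.cons w12 w9 w6 (.cons w7 w8 w3 (.cons w14 w16 w6 (.cons w29 w32 w13 (.cons w56 w33 w26 (.cons w14 w9 w7 (.cons w3 w3 w2 (.cons w2 w2 w2 (.last w2 w1 w1))))))))))))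
 (.nx 67568 (.ny 51212 (.lf (.cons w3 w2 w1 (.cons w6 w3 w2 (.cons w3 w3 w4 (.last w2 w1 w1)))))
 (.lf (.cons w3 w4 w4 (.cons w7 w8 w9 (.cons w6 w5 w3 (.cons w3 w2 w3 (.cons w4 w2 w2 (.last w2 w1 w1)))))))
) (.ny 51212 (.lf (.cons w3 w2 w1 (.cons w3 w4 w3 (.cons w3 w3 w2 (.last w2 w1 w1)))))
 (.ny 54886 (.lf (.cons w3 w2 w1 (.cons w3 w4 w3 (.cons w2 w2 w1 (.last w2 w1 w1)))))
 (.lf (.cons w3 w4 w4 (.cons w6 w5 w3 (.cons w7 w10 w7 (.cons w9 w10 w10 (.cons w9 w5 w5 (.cons w18 w11 w11 (.cons w7 w5 w6 (.cons w3 w4 w3 (.last w2 w1 w1))))))))))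
)))) (.ny 44585 (.nx 89149 (.ny 38815 (.lf (.cons w3 w2 w1 (.cons w6 w4 w3 (.cons w12 w9 w6 (.cons w7 w8 w6 (.cons w14 w16 w6 (.cons w29 w64 w13 (.cons w56 w33 w13 (.cons w4 w5 w2 (.last w2 w1 w1))))))))))
 (.lf (.cons w3 w2 w1 (.cons w3 w4 w3 (.cons w7 w9 w7 (.cons w4 w5 w4 (.last w2 w1 w1))))))
) (.nx 95545 (.lf (.cons w3 w2 w1 (.cons w6 w4 w3 (.cons w7 w8 w3 (.cons w4 w5 w2 (.last w2 w1 w1))))))
 (.ny 38815 (.nx 98913 (.lf (.cons w3 w4 w1 (.cons w6 w9 w3 (.cons w4 w5 w2 (.last w2 w1 w1)))))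
 (.lf (.cons w3 w4 w1 (.cons w6 w9 w3 (.cons w4 w5 w2 (.cons w2 w2 w1 (.cons w10 w9 w4 (.cons w40 w18 w18 (.cons w40 w37 w18 (.cons w42 w73 w19 (.cons w21 w18 w9 (.cons w42 w37 w18 (.cons w11 w16 w7 (.cons w5 w4 w3 (.last w2 w3 w1))))))))))))))
) (.lf (.cons w3 w2 w1 (.cons w3 w4 w3 (.cons w4 w5 w4 (.last w2 w1 w1)))))
))) (.nx 89149 (.ny 51212 (.lf (.cons w3 w2 w1 (.cons w3 w4 w3 (.cons w4 w2 w2 (.last w2 w1 w1)))))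
 (.nx 83181 (.ny 54886 (.lf (.cons w3 w2 w1 (.cons w3 w4 w3 (.cons w2 w2 w1 (.last w2 w3 w2)))))
 (.lf (.cons w3 w4 w4 (.cons w6 w5 w6 (.cons w7 w10 w7 (.cons w9 w10 w5 (.cons w9 w5 w5 (.cons w18 w11 w11 (.cons w7 w5 w6 (.cons w3 w4 w3 (.last w2 w1 w1))))))))))
) (.ny 54886 (.lf (.cons w3 w2 w1 (.cons w3 w4 w3 (.last w2 w1 w1))))
 (.lf (.cons w3 w4 w4 (.cons w12 w5 w6 (.cons w14 w10 w7 (.cons w9 w5 w5 (.cons w7 w10 w6 (.cons w6 w4 w3 (.cons w2 w2 w2 (.last w2 w1 w1)))))))))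
))) (.ny 51212 (.lf (.cons w3 w2 w1 (.cons w3 w4 w3 (.cons w2 w2 w2 (.last w2 w1 w1)))))
 (.lf (.cons w3 w4 w4 (.cons w14 w16 w9 (.cons w7 w9 w8 (.cons w9 w5 w5 (.cons w7 w5 w6 (.cons w15 w22 w26 (.cons w6 w8 w3 (.cons w3 w4 w3 (.last w2 w1 w1))))))))))
))))

theorem c45 : Cov true true 58824 102400 33792 58824 5773 7321 5773 7321 3660 4227 :=
  Cov.chk t45 (by decide +kernel)

noncomputable def t47 : Tr :=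
(.nx 44585 (.nx 38815 (.ny 36217 (.lf (.cons w3 w2 w1 (.cons w4 w3 w3 (.cons w16 w7 w7 (.cons w34 w25 w14 (.cons w36 w13 w9 (.cons w18 w6 w9 (.cons w9 w3 w4 (.last w2 w1 w1)))))))))
 (.lf (.cons w3 w2 w1 (.cons w8 w3 w3 (.cons w32 w14 w7 (.cons w18 w9 w13 (.cons w9 w9 w6 (.cons w4 w1 w1 (.last w2 w2 w2))))))))
) (.ny 38815 (.nx 41600 (.ny 36217 (.ny 34983 (.lf (.cons w3 w2 w1 (.cons w8 w3 w3 (.cons w32 w14 w7 (.cons w65 w28 w29 (.cons w65 w29 w56 (.cons w18 w24 w9 (.cons w9 w3 w4 (.last w2 w1 w1)))))))))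
 (.lf (.cons w3 w2 w1 (.cons w8 w3 w3 (.cons w32 w7 w14 (.cons w9 w6 w9 (.cons w4 w1 w1 (.last w2 w2 w2)))))))
) (.nx 40183 (.ny 37494 (.lf (.cons w3 w2 w1 (.cons w8 w3 w3 (.cons w32 w14 w7 (.cons w18 w13 w9 (.cons w9 w6 w9 (.cons w4 w1 w1 (.last w2 w2 w2))))))))
 (.nx 39493 (.lf (.cons w3 w2 w1 (.cons w8 w3 w3 (.cons w32 w7 w7 (.cons w65 w14 w28 (.cons w18 w9 w13 (.cons w9 w9 w6 (.last w2 w1 w1))))))))
 (.lf (.cons w3 w2 w1 (.cons w8 w3 w3 (.cons w32 w7 w7 (.cons w32 w14 w14 (.cons w65 w28 w29 (.cons w18 w13 w9 (.cons w9 w6 w9 (.last w2 w1 w1)))))))))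
)) (.lf (.cons w3 w2 w1 (.cons w7 w5 w4 (.cons w14 w10 w8 (.cons w29 w20 w17 (.cons w16 w7 w7 (.cons w32 w14 w14 (.cons w65 w29 w28 (.cons w18 w13 w9 (.cons w9 w6 w9 (.cons w4 w1 w1 (.last w2 w2 w2))))))))))))
)) (.ny 36217 (.ny 34983 (.lf (.cons w3 w2 w1 (.cons w7 w5 w4 (.cons w14 w10 w8 (.cons w56 w21 w17 (.cons w16 w7 w7 (.cons w65 w28 w14 (.cons w18 w12 w9 (.cons w9 w3 w4 (.last w2 w1 w1))))))))))
 (.nx 43067 (.ny 35595 (.lf (.cons w3 w2 w1 (.cons w7 w5 w4 (.cons w16 w7 w7 (.cons w65 w28 w14 (.cons w65 w29 w56 (.cons w18 w12 w9 (.cons w9 w3 w4 (.last w2 w1 w1)))))))))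
 (.lf (.cons w3 w2 w1 (.cons w7 w5 w4 (.cons w16 w7 w7 (.cons w65 w28 w14 (.cons w65 w29 w56 (.cons w37 w24 w18 (.cons w9 w12 w9 (.cons w4 w1 w1 (.last w2 w2 w2))))))))))
) (.lf (.cons w3 w2 w1 (.cons w7 w5 w4 (.cons w14 w10 w8 (.cons w28 w21 w17 (.cons w56 w42 w34 (.cons w113 w84 w69 (.cons w18 w12 w9 (.cons w9 w3 w4 (.last w2 w1 w1))))))))))
)) (.nx 43067 (.nx 42327 (.nx 41962 (.lf (.cons w3 w2 w1 (.cons w7 w5 w4 (.cons w14 w10 w8 (.cons w18 w13 w9 (.cons w9 w6 w9 (.cons w4 w1 w1 (.last w2 w2 w2))))))))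
 (.lf (.cons w3 w2 w1 (.cons w7 w5 w4 (.cons w18 w13 w9 (.cons w9 w6 w9 (.cons w4 w1 w1 (.last w2 w2 w2)))))))
) (.lf (.cons w3 w2 w1 (.cons w7 w5 w4 (.cons w14 w10 w8 (.cons w18 w6 w9 (.cons w9 w3 w4 (.last w2 w1 w1)))))))
) (.lf (.cons w3 w2 w1 (.cons w7 w5 w4 (.cons w14 w10 w8 (.cons w28 w21 w17 (.cons w18 w12 w9 (.cons w9 w3 w4 (.last w2 w1 w1))))))))
))) (.nx 41600 (.nx 40183 (.lf (.cons w3 w2 w1 (.cons w7 w5 w4 (.cons w14 w17 w10 (.cons w16 w7 w7 (.cons w32 w14 w14 (.cons w65 w28 w29 (.cons w18 w9 w13 (.cons w9 w9 w6 (.cons w4 w1 w1 (.last w2 w2 w2)))))))))))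
 (.nx 40885 (.ny 39837 (.ny 39323 (.lf (.cons w3 w2 w1 (.cons w7 w5 w4 (.cons w32 w7 w7 (.cons w32 w14 w14 (.cons w37 w13 w18 (.cons w18 w13 w9 (.cons w9 w6 w9 (.last w2 w1 w1)))))))))
 (.n3 6547 (.lf (.cons w3 w2 w1 (.cons w7 w5 w4 (.cons w14 w10 w17 (.cons w29 w17 w21 (.cons w18 w18 w13 (.cons w9 w9 w6 (.last w2 w1 w1))))))))
 (.lf (.cons w3 w2 w1 (.cons w7 w5 w4 (.cons w14 w10 w17 (.cons w18 w9 w13 (.cons w9 w9 w6 (.last w2 w1 w1)))))))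
)) (.lf (.cons w3 w2 w1 (.cons w7 w5 w8 (.cons w14 w10 w17 (.cons w18 w9 w13 (.cons w9 w9 w6 (.last w2 w1 w1)))))))
) (.lf (.cons w3 w2 w1 (.cons w7 w5 w4 (.cons w28 w10 w17 (.cons w29 w40 w17 (.cons w18 w13 w9 (.cons w9 w6 w9 (.last w2 w1 w1))))))))
)) (.lf (.cons w3 w2 w1 (.cons w7 w5 w4 (.cons w14 w10 w8 (.cons w28 w21 w17 (.cons w9 w6 w9 (.cons w4 w1 w1 (.last w2 w2 w2))))))))
))) (.ny 44585 (.nx 51212 (.lf (.cons w3 w2 w1 (.cons w7 w5 w4 (.cons w9 w6 w4 (.cons w4 w3 w2 (.last w2 w1 w1))))))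
 (.lf (.cons w3 w2 w1 (.cons w6 w5 w5 (.cons w7 w10 w8 (.last w2 w1 w1)))))
) (.nx 51212 (.lf (.cons w3 w2 w1 (.cons w6 w5 w5 (.last w2 w1 w1))))
 (.lf (.cons w3 w2 w3 (.cons w12 w10 w7 (.cons w25 w20 w14 (.cons w50 w40 w29 (.cons w7 w5 w6 (.cons w4 w3 w3 (.cons w3 w2 w2 (.last w2 w1 w1)))))))))
)))

theorem c47 : Cov false false 33792 58824 33792 102400 3660 4227 3660 4227 5773 7321 :=
  Cov.chk t47 (by decide +kernel)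

noncomputable def t52 : Tr :=
(.ny 58824 (.nx 77612 (.ny 44585 (.lf (.cons w3 w2 w1 (.cons w3 w4 w3 (.cons w7 w9 w7 (.cons w3 w3 w2 (.cons w2 w2 w1 (.last w2 w1 w1)))))))
 (.nx 67568 (.lf (.cons w3 w4 w4 (.cons w7 w8 w4 (.cons w7 w9 w8 (.cons w6 w5 w3 (.cons w25 w20 w13 (.cons w7 w10 w7 (.cons w14 w20 w7 (.cons w13 w16 w7 (.cons w24 w17 w14 (.cons w12 w8 w7 (.cons w3 w4 w3 (.cons w3 w3 w4 (.last w2 w1 w1))))))))))))))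
 (.ny 51212 (.lf (.cons w3 w2 w1 (.cons w3 w4 w3 (.cons w4 w2 w2 (.last w2 w1 w1)))))
 (.nx 72416 (.ny 54886 (.nx 69950 (.lf (.cons w3 w4 w4 (.cons w6 w5 w3 (.cons w3 w2 w3 (.cons w2 w2 w1 (.last w2 w1 w1))))))
 (.lf (.cons w3 w4 w4 (.cons w6 w5 w6 (.cons w14 w10 w7 (.cons w7 w9 w9 (.cons w18 w10 w10 (.cons w9 w5 w5 (.cons w6 w8 w3 (.cons w3 w3 w2 (.last w2 w1 w1))))))))))
) (.lf (.cons w3 w4 w4 (.cons w6 w5 w3 (.cons w3 w2 w3 (.last w2 w1 w1)))))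
) (.lf (.cons w3 w4 w4 (.cons w6 w5 w3 (.cons w7 w10 w7 (.cons w13 w17 w7 (.cons w7 w9 w9 (.cons w9 w5 w5 (.cons w12 w7 w5 (.cons w13 w24 w10 (.cons w6 w6 w5 (.cons w3 w3 w2 (.last w2 w1 w1))))))))))))
)))) (.ny 44585 (.nx 89149 (.ny 38815 (.lf (.cons w3 w2 w1 (.cons w3 w4 w3 (.cons w4 w5 w2 (.last w2 w1 w1)))))
 (.lf (.cons w3 w2 w1 (.cons w3 w4 w3 (.cons w4 w5 w4 (.last w2 w1 w1)))))
) (.nx 95545 (.lf (.cons w3 w2 w1 (.cons w3 w4 w3 (.cons w4 w5 w2 (.last w2 w1 w1)))))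
 (.ny 38815 (.nx 98913 (.lf (.cons w3 w4 w1 (.cons w3 w4 w3 (.cons w8 w5 w2 (.last w2 w1 w1)))))
 (.lf (.cons w3 w4 w1 (.cons w3 w4 w3 (.cons w8 w5 w2 (.cons w2 w2 w1 (.cons w10 w9 w4 (.cons w40 w18 w9 (.cons w40 w37 w18 (.cons w81 w75 w37 (.cons w42 w73 w19 (.cons w21 w18 w9 (.cons w42 w37 w18 (.cons w11 w16 w7 (.cons w5 w4 w3 (.last w2 w3 w1)))))))))))))))
) (.lf (.cons w3 w2 w1 (.cons w4 w5 w2 (.last w2 w1 w1))))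
))) (.nx 89149 (.ny 51212 (.lf (.cons w3 w2 w1 (.cons w3 w4 w3 (.cons w2 w2 w2 (.last w2 w1 w1)))))
 (.nx 83181 (.lf (.cons w3 w4 w4 (.cons w6 w5 w6 (.cons w14 w10 w7 (.cons w15 w11 w14 (.cons w13 w17 w7 (.cons w52 w35 w30 (.cons w14 w11 w7 (.cons w7 w5 w6 (.cons w3 w4 w3 (.last w2 w1 w1)))))))))))
 (.lf (.cons w3 w4 w4 (.cons w3 w5 w3 (.cons w7 w5 w6 (.cons w3 w4 w3 (.last w2 w1 w1))))))
)) (.lf (.cons w3 w4 w4 (.cons w3 w5 w3 (.cons w7 w5 w6 (.cons w15 w22 w13 (.cons w31 w88 w53 (.cons w29 w22 w24 (.cons w12 w17 w7 (.cons w3 w4 w3 (.cons w2 w2 w1 (.last w2 w1 w1)))))))))))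
))) (.nx 77612 (.nx 67568 (.ny 63045 (.lf (.cons w3 w4 w4 (.cons w7 w9 w8 (.cons w14 w18 w16 (.cons w12 w10 w7 (.cons w6 w5 w3 (.cons w3 w2 w3 (.last w2 w1 w1))))))))
 (.lf (.cons w3 w4 w4 (.cons w7 w9 w8 (.cons w14 w18 w16 (.cons w56 w37 w66 (.cons w24 w7 w10 (.cons w6 w3 w5 (.cons w3 w2 w3 (.last w2 w1 w1)))))))))
) (.ny 67568 (.lf (.cons w3 w4 w4 (.cons w7 w9 w8 (.cons w14 w18 w16 (.cons w6 w5 w3 (.cons w3 w2 w3 (.last w2 w1 w1)))))))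
 (.nx 72416 (.lf (.cons w3 w4 w4 (.cons w7 w16 w9 (.cons w14 w18 w16 (.cons w56 w37 w66 (.cons w13 w7 w11 (.cons w6 w3 w5 (.cons w3 w3 w2 (.last w2 w1 w1)))))))))
 (.lf (.cons w3 w4 w4 (.cons w7 w9 w8 (.cons w9 w5 w5 (.cons w12 w7 w5 (.cons w6 w3 w5 (.cons w3 w3 w2 (.last w2 w1 w1))))))))
))) (.ny 77612 (.nx 89149 (.ny 67568 (.nx 83181 (.lf (.cons w3 w4 w4 (.cons w6 w5 w3 (.cons w14 w20 w7 (.cons w15 w22 w14 (.cons w13 w17 w7 (.cons w14 w11 w7 (.cons w13 w16 w14 (.cons w7 w10 w6 (.cons w3 w4 w3 (.last w2 w1 w1)))))))))))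
 (.lf (.cons w3 w4 w4 (.cons w3 w5 w3 (.cons w7 w5 w6 (.cons w3 w4 w3 (.last w2 w1 w1))))))
) (.lf (.cons w3 w4 w4 (.cons w7 w9 w8 (.cons w9 w5 w5 (.cons w19 w22 w20 (.cons w18 w11 w11 (.cons w6 w5 w3 (.cons w3 w2 w3 (.last w2 w1 w1)))))))))
) (.lf (.cons w3 w4 w4 (.cons w14 w16 w9 (.cons w3 w5 w3 (.cons w7 w5 w6 (.cons w15 w11 w13 (.cons w6 w8 w3 (.cons w2 w2 w1 (.last w2 w1 w1)))))))))
) (.nx 89149 (.lf (.cons w3 w4 w4 (.cons w7 w9 w16 (.cons w4 w5 w5 (.cons w6 w5 w3 (.cons w4 w2 w2 (.last w2 w1 w1)))))))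
 (.ny 89149 (.lf (.cons w3 w4 w4 (.cons w4 w5 w5 (.cons w3 w5 w3 (.cons w2 w2 w1 (.last w2 w1 w1))))))
 (.nx 95545 (.lf (.cons w3 w4 w4 (.cons w4 w5 w5 (.cons w6 w5 w7 (.cons w3 w5 w3 (.last w2 w1 w1))))))
 (.ny 95545 (.lf (.cons w3 w4 w4 (.cons w8 w5 w5 (.cons w6 w5 w7 (.cons w3 w5 w3 (.last w2 w1 w1))))))
 (.lf (.cons w3 w4 w4 (.cons w8 w5 w5 (.cons w32 w11 w11 (.cons w32 w22 w22 (.cons w65 w45 w44 (.cons w18 w21 w17 (.cons w9 w10 w17 (.cons w4 w2 w2 (.last w2 w1 w1))))))))))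
)))))))

theorem c52 : Cov true true 58824 102400 33792 102400 3660 4227 3660 4227 5773 7321 :=
  Cov.chk t52 (by decide +kernel)

noncomputable def t54 : Tr :=
(.nx 41600 (.ny 36217 (.nx 40183 (.lf (.cons w3 w2 w1 (.cons w4 w3 w3 (.cons w16 w7 w7 (.cons w65 w28 w14 (.cons w18 w6 w9 (.cons w9 w3 w4 (.last w2 w1 w1))))))))
 (.ny 34983 (.lf (.cons w3 w2 w1 (.cons w8 w3 w3 (.cons w32 w7 w7 (.cons w65 w28 w14 (.cons w65 w29 w56 (.cons w18 w12 w9 (.cons w9 w3 w4 (.last w2 w1 w1)))))))))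
 (.lf (.cons w3 w2 w1 (.cons w8 w3 w3 (.cons w32 w7 w7 (.cons w9 w6 w9 (.cons w4 w1 w1 (.last w2 w2 w2)))))))
)) (.nx 40183 (.ny 37494 (.lf (.cons w3 w2 w1 (.cons w8 w3 w3 (.cons w32 w7 w7 (.cons w18 w13 w9 (.cons w9 w6 w9 (.cons w4 w1 w1 (.last w2 w2 w2))))))))
 (.nx 39493 (.lf (.cons w3 w2 w1 (.cons w8 w3 w3 (.cons w32 w7 w7 (.cons w32 w14 w14 (.cons w65 w28 w29 (.cons w18 w9 w13 (.cons w9 w9 w6 (.last w2 w1 w1)))))))))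
 (.lf (.cons w3 w2 w1 (.cons w8 w3 w3 (.cons w32 w7 w7 (.cons w32 w14 w14 (.cons w65 w28 w29 (.cons w37 w18 w13 (.cons w18 w9 w13 (.cons w9 w9 w6 (.last w2 w1 w1))))))))))
)) (.lf (.cons w3 w2 w1 (.cons w8 w3 w3 (.cons w32 w7 w7 (.cons w32 w14 w14 (.cons w65 w29 w28 (.cons w18 w13 w18 (.cons w9 w6 w9 (.cons w4 w1 w1 (.last w2 w2 w2))))))))))
)) (.ny 36217 (.ny 34983 (.lf (.cons w3 w2 w1 (.cons w8 w3 w3 (.cons w32 w7 w7 (.cons w65 w28 w14 (.cons w18 w12 w9 (.cons w9 w3 w4 (.last w2 w1 w1))))))))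
 (.nx 43067 (.ny 35595 (.lf (.cons w3 w2 w1 (.cons w8 w3 w3 (.cons w32 w7 w7 (.cons w37 w24 w18 (.cons w9 w12 w9 (.cons w4 w1 w1 (.last w2 w2 w2))))))))
 (.nx 42327 (.lf (.cons w3 w2 w1 (.cons w8 w3 w3 (.cons w32 w7 w7 (.cons w9 w6 w9 (.cons w4 w1 w1 (.last w2 w2 w2)))))))
 (.lf (.cons w3 w2 w1 (.cons w8 w3 w3 (.cons w32 w7 w7 (.cons w65 w28 w14 (.cons w65 w29 w56 (.cons w37 w24 w18 (.cons w9 w12 w9 (.cons w4 w1 w1 (.last w2 w2 w2))))))))))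
)) (.ny 35595 (.lf (.cons w3 w2 w1 (.cons w7 w5 w4 (.cons w17 w7 w6 (.cons w32 w14 w14 (.cons w65 w29 w28 (.cons w18 w12 w9 (.cons w9 w3 w4 (.last w2 w1 w1)))))))))
 (.lf (.cons w3 w2 w1 (.cons w7 w5 w4 (.cons w16 w7 w7 (.cons w65 w28 w14 (.cons w37 w24 w18 (.cons w9 w12 w9 (.cons w4 w1 w1 (.last w2 w2 w2)))))))))
))) (.nx 43067 (.ny 37494 (.lf (.cons w3 w2 w1 (.cons w7 w5 w4 (.cons w14 w10 w8 (.cons w29 w20 w17 (.cons w16 w7 w7 (.cons w36 w13 w9 (.cons w9 w6 w9 (.cons w4 w1 w1 (.last w2 w2 w2))))))))))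
 (.lf (.cons w3 w2 w1 (.cons w7 w5 w4 (.cons w16 w7 w7 (.cons w32 w14 w14 (.cons w18 w13 w9 (.cons w9 w6 w9 (.cons w4 w1 w1 (.last w2 w2 w2)))))))))
) (.ny 37494 (.nx 43819 (.lf (.cons w3 w2 w1 (.cons w7 w5 w4 (.cons w16 w7 w7 (.cons w36 w13 w9 (.cons w72 w27 w19 (.cons w37 w24 w18 (.cons w9 w12 w9 (.cons w4 w1 w1 (.last w2 w2 w2))))))))))
 (.nx 44200 (.n1 6547 (.n2 3943 (.lf (.cons w3 w2 w1 (.cons w7 w5 w4 (.cons w14 w10 w8 (.cons w56 w21 w17 (.cons w18 w12 w18 (.cons w9 w3 w4 (.last w2 w1 w1))))))))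
 (.lf (.cons w3 w2 w1 (.cons w7 w5 w4 (.cons w14 w10 w8 (.cons w56 w21 w17 (.cons w18 w12 w9 (.cons w9 w3 w4 (.last w2 w1 w1))))))))
) (.ny 36850 (.n3 6547 (.lf (.cons w3 w2 w1 (.cons w7 w5 w4 (.cons w32 w14 w7 (.cons w65 w28 w29 (.cons w37 w24 w18 (.cons w9 w12 w9 (.cons w4 w1 w1 (.last w2 w2 w2)))))))))
 (.ny 36532 (.lf (.cons w3 w2 w1 (.cons w7 w5 w4 (.cons w32 w14 w7 (.cons w65 w29 w28 (.cons w37 w24 w18 (.cons w9 w12 w9 (.cons w4 w1 w1 (.last w2 w2 w2)))))))))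
 (.n1 6934 (.n2 3943 (.lf (.cons w3 w2 w1 (.cons w7 w5 w4 (.cons w14 w10 w8 (.cons w56 w21 w17 (.cons w58 w40 w34 (.cons w18 w24 w18 (.cons w9 w3 w4 (.last w2 w1 w1)))))))))
 (.lf (.cons w3 w2 w1 (.cons w7 w5 w4 (.cons w14 w10 w8 (.cons w29 w40 w17 (.cons w18 w24 w18 (.cons w9 w3 w4 (.last w2 w1 w1))))))))
) (.n1 7127 (.nx 44009 (.lf (.cons w3 w2 w1 (.cons w7 w5 w4 (.cons w14 w10 w8 (.cons w29 w40 w17 (.cons w37 w24 w18 (.cons w9 w12 w9 (.cons w4 w1 w1 (.last w2 w2 w2)))))))))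
 (.lf (.cons w3 w2 w1 (.cons w7 w5 w4 (.cons w14 w10 w8 (.cons w29 w40 w17 (.cons w58 w40 w34 (.cons w18 w24 w18 (.cons w9 w3 w4 (.last w2 w1 w1)))))))))
) (.lf (.cons w3 w2 w1 (.cons w7 w5 w4 (.cons w14 w10 w8 (.cons w29 w40 w17 (.cons w37 w24 w18 (.cons w9 w12 w9 (.cons w4 w1 w1 (.last w2 w2 w2)))))))))
)))) (.ny 37171 (.n1 6934 (.n2 3943 (.lf (.cons w3 w2 w1 (.cons w7 w5 w4 (.cons w14 w10 w8 (.cons w56 w21 w17 (.cons w18 w24 w18 (.cons w9 w3 w4 (.last w2 w1 w1))))))))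
 (.lf (.cons w3 w2 w1 (.cons w7 w5 w4 (.cons w14 w10 w8 (.cons w29 w40 w17 (.cons w18 w12 w18 (.cons w9 w3 w4 (.last w2 w1 w1))))))))
) (.nx 44009 (.lf (.cons w3 w2 w1 (.cons w7 w5 w4 (.cons w14 w10 w8 (.cons w29 w40 w17 (.cons w37 w24 w18 (.cons w9 w12 w9 (.cons w4 w1 w1 (.last w2 w2 w2)))))))))
 (.n2 3943 (.lf (.cons w3 w2 w1 (.cons w7 w5 w4 (.cons w14 w10 w8 (.cons w29 w40 w17 (.cons w18 w12 w18 (.cons w9 w3 w4 (.last w2 w1 w1))))))))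
 (.lf (.cons w3 w2 w1 (.cons w7 w5 w4 (.cons w14 w10 w8 (.cons w29 w40 w17 (.cons w18 w12 w9 (.cons w9 w3 w4 (.last w2 w1 w1))))))))
))) (.lf (.cons w3 w2 w1 (.cons w7 w5 w4 (.cons w14 w10 w8 (.cons w9 w6 w9 (.cons w4 w1 w1 (.last w2 w2 w2)))))))
))) (.lf (.cons w3 w2 w1 (.cons w7 w5 w4 (.cons w14 w10 w8 (.cons w56 w21 w17 (.cons w18 w24 w18 (.cons w9 w3 w4 (.last w2 w1 w1))))))))
)) (.lf (.cons w3 w2 w1 (.cons w7 w5 w4 (.cons w14 w10 w8 (.cons w29 w20 w17 (.cons w9 w6 w9 (.cons w4 w1 w1 (.last w2 w2 w2))))))))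
))))

theorem c54 : Cov false false 38815 44585 33792 38815 5773 7321 3660 4227 5773 7321 :=
  Cov.chk t54 (by decide +kernel)

noncomputable def t59 : Tr :=
(.ny 58824 (.nx 77612 (.ny 44585 (.lf (.cons w6 w8 w3 (.cons w3 w2 w1 (.cons w4 w3 w2 (.last w2 w1 w1)))))
 (.lf (.cons w3 w4 w3 (.cons w7 w8 w6 (.cons w6 w5 w3 (.cons w12 w10 w7 (.cons w4 w3 w3 (.cons w3 w4 w4 (.cons w3 w2 w2 (.last w2 w1 w1)))))))))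
) (.ny 44585 (.nx 89149 (.lf (.cons w6 w4 w3 (.cons w3 w2 w1 (.last w2 w1 w1))))
 (.lf (.cons w12 w9 w6 (.cons w6 w4 w3 (.cons w3 w2 w1 (.cons w3 w5 w2 (.cons w4 w4 w3 (.last w2 w2 w1)))))))
) (.nx 89149 (.lf (.cons w3 w4 w3 (.cons w4 w3 w3 (.cons w6 w5 w3 (.cons w12 w10 w7 (.cons w3 w4 w2 (.last w2 w1 w1)))))))
 (.ny 51212 (.lf (.cons w3 w4 w3 (.cons w3 w2 w1 (.last w2 w1 w1))))
 (.lf (.cons w3 w4 w3 (.cons w4 w3 w3 (.cons w8 w7 w6 (.cons w17 w14 w12 (.cons w16 w7 w7 (.cons w32 w14 w14 (.cons w65 w29 w28 (.cons w6 w5 w6 (.cons w3 w5 w3 (.cons w3 w2 w2 (.last w2 w1 w1))))))))))))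
)))) (.nx 77612 (.nx 67568 (.lf (.cons w3 w3 w2 (.cons w4 w3 w3 (.cons w3 w4 w4 (.cons w3 w2 w2 (.last w2 w1 w1))))))
 (.ny 67568 (.lf (.cons w3 w2 w3 (.cons w8 w3 w3 (.cons w17 w14 w12 (.cons w34 w28 w25 (.cons w32 w15 w15 (.cons w16 w7 w7 (.cons w3 w4 w4 (.last w2 w1 w1)))))))))
 (.lf (.cons w3 w3 w2 (.cons w8 w3 w3 (.cons w17 w12 w14 (.cons w34 w25 w28 (.cons w69 w50 w56 (.cons w34 w25 w29 (.cons w33 w15 w14 (.cons w8 w7 w7 (.cons w17 w7 w14 (.cons w5 w3 w6 (.last w2 w1 w1))))))))))))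
)) (.ny 77612 (.nx 89149 (.ny 67568 (.lf (.cons w3 w4 w3 (.cons w4 w3 w3 (.cons w6 w5 w3 (.cons w12 w10 w7 (.cons w7 w10 w6 (.cons w3 w4 w4 (.last w2 w1 w1))))))))
 (.nx 83181 (.lf (.cons w3 w2 w3 (.cons w12 w5 w7 (.cons w7 w10 w6 (.cons w8 w7 w7 (.cons w5 w6 w3 (.last w2 w1 w1)))))))
 (.lf (.cons w3 w2 w3 (.cons w6 w5 w3 (.cons w7 w5 w6 (.cons w5 w3 w3 (.last w2 w1 w1))))))
)) (.ny 67568 (.lf (.cons w3 w4 w3 (.cons w4 w3 w3 (.cons w17 w7 w12 (.cons w34 w56 w25 (.cons w16 w7 w7 (.cons w6 w5 w3 (.cons w3 w5 w3 (.cons w3 w2 w2 (.last w2 w1 w1))))))))))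
 (.nx 95545 (.lf (.cons w4 w3 w3 (.cons w3 w5 w3 (.cons w5 w3 w3 (.last w2 w1 w1)))))
 (.nx 98913 (.lf (.cons w4 w3 w3 (.cons w7 w8 w7 (.cons w3 w5 w3 (.cons w3 w4 w4 (.last w2 w1 w1))))))
 (.lf (.cons w4 w3 w3 (.cons w17 w14 w12 (.cons w34 w56 w25 (.cons w69 w56 w50 (.cons w64 w15 w15 (.cons w7 w8 w7 (.cons w3 w5 w3 (.cons w3 w4 w2 (.last w2 w1 w1))))))))))
)))) (.nx 89149 (.lf (.cons w2 w3 w3 (.cons w5 w3 w3 (.last w2 w1 w1))))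
 (.ny 89149 (.lf (.cons w2 w3 w3 (.cons w5 w3 w3 (.last w2 w1 w1))))
 (.nx 95545 (.lf (.cons w2 w3 w3 (.cons w5 w3 w3 (.last w2 w1 w1))))
 (.ny 95545 (.lf (.cons w2 w3 w3 (.cons w5 w3 w3 (.last w2 w1 w1))))
 (.lf (.cons w2 w3 w3 (.cons w5 w3 w3 (.cons w21 w25 w14 (.cons w42 w25 w29 (.cons w11 w7 w7 (.last w2 w1 w1)))))))
)))))))

theorem c59 : Cov false false 58824 102400 33792 102400 5773 7321 3660 4227 5773 7321 :=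
  Cov.chk t59 (by decide +kernel)

noncomputable def t60 : Tr :=
(.nx 58824 (.nx 44585 (.lf (.cons w3 w1 w1 (.cons w6 w3 w2 (.cons w7 w3 w4 (.cons w4 w2 w3 (.last w2 w1 w1))))))
 (.ny 44585 (.nx 51212 (.lf (.cons w3 w1 w1 (.cons w3 w3 w2 (.cons w2 w2 w1 (.last w2 w1 w1)))))
 (.ny 38815 (.lf (.cons w3 w4 w2 (.cons w14 w9 w8 (.cons w7 w8 w5 (.cons w9 w5 w3 (.cons w7 w6 w3 (.cons w15 w26 w14 (.cons w6 w3 w4 (.cons w3 w3 w2 (.last w2 w1 w1))))))))))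
 (.nx 54886 (.lf (.cons w3 w1 w1 (.cons w3 w3 w2 (.last w2 w1 w1))))
 (.lf (.cons w3 w4 w2 (.cons w3 w3 w3 (.cons w7 w6 w3 (.cons w8 w5 w3 (.cons w3 w3 w2 (.last w2 w1 w1)))))))
))) (.nx 51212 (.lf (.cons w3 w1 w1 (.cons w3 w3 w2 (.last w2 w1 w1))))
 (.ny 51212 (.lf (.cons w3 w4 w2 (.cons w12 w9 w10 (.cons w25 w18 w10 (.cons w25 w18 w21 (.cons w15 w17 w10 (.cons w7 w4 w5 (.cons w4 w2 w3 (.last w2 w1 w1)))))))))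
 (.lf (.cons w3 w2 w2 (.cons w12 w9 w10 (.cons w4 w2 w3 (.last w2 w1 w1)))))
)))) (.ny 58824 (.nx 77612 (.ny 44585 (.nx 67568 (.ny 38815 (.nx 63045 (.lf (.cons w3 w4 w2 (.cons w6 w6 w3 (.cons w9 w5 w3 (.cons w19 w20 w7 (.cons w18 w11 w14 (.cons w72 w45 w29 (.cons w32 w21 w13 (.cons w8 w5 w6 (.cons w9 w8 w3 (.cons w2 w2 w1 (.last w2 w1 w1))))))))))))
 (.ny 36217 (.nx 65267 (.lf (.cons w3 w4 w2 (.cons w6 w6 w3 (.cons w14 w7 w12 (.cons w15 w14 w7 (.cons w30 w15 w15 (.cons w7 w9 w5 (.cons w16 w10 w6 (.cons w8 w5 w3 (.cons w6 w3 w2 (.last w2 w1 w1)))))))))))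
 (.lf (.cons w3 w4 w2 (.cons w6 w3 w3 (.cons w14 w7 w12 (.cons w24 w13 w7 (.cons w7 w9 w5 (.cons w8 w5 w3 (.cons w9 w8 w3 (.cons w2 w2 w1 (.last w2 w1 w1))))))))))
) (.lf (.cons w3 w4 w2 (.cons w3 w3 w3 (.cons w7 w6 w3 (.cons w6 w3 w2 (.last w2 w1 w1))))))
)) (.lf (.cons w3 w4 w2 (.cons w3 w3 w3 (.cons w7 w6 w3 (.cons w8 w5 w3 (.cons w17 w10 w7 (.cons w18 w17 w7 (.cons w4 w4 w3 (.last w2 w1 w1)))))))))
) (.lf (.cons w3 w4 w2 (.cons w7 w8 w5 (.cons w6 w3 w3 (.cons w12 w12 w7 (.cons w8 w5 w6 (.cons w8 w5 w3 (.cons w9 w8 w6 (.cons w4 w4 w3 (.last w2 w1 w1))))))))))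
) (.nx 67568 (.ny 51212 (.lf (.cons w3 w2 w2 (.cons w3 w3 w3 (.cons w7 w6 w6 (.cons w8 w5 w3 (.cons w17 w10 w7 (.cons w4 w4 w3 (.last w2 w1 w1))))))))
 (.lf (.cons w3 w2 w2 (.cons w4 w2 w3 (.last w2 w1 w1))))
) (.lf (.cons w3 w2 w2 (.cons w3 w3 w3 (.cons w7 w6 w6 (.cons w14 w13 w12 (.cons w7 w12 w7 (.cons w4 w4 w3 (.last w2 w1 w1))))))))
)) (.ny 44585 (.nx 89149 (.lf (.cons w3 w2 w2 (.cons w7 w8 w5 (.cons w4 w5 w3 (.cons w6 w3 w3 (.cons w6 w6 w3 (.cons w25 w24 w7 (.cons w50 w49 w28 (.cons w101 w98 w56 (.cons w48 w27 w15 (.cons w12 w13 w7 (.cons w4 w2 w1 (.last w2 w1 w1)))))))))))))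
 (.nx 95545 (.lf (.cons w3 w2 w2 (.cons w4 w5 w3 (.cons w16 w11 w7 (.cons w65 w22 w28 (.cons w65 w44 w29 (.cons w6 w3 w3 (.last w2 w1 w1))))))))
 (.ny 38815 (.nx 98913 (.lf (.cons w3 w4 w2 (.cons w4 w5 w3 (.cons w16 w11 w7 (.cons w6 w7 w3 (.cons w4 w2 w1 (.last w2 w1 w1)))))))
 (.ny 36217 (.lf (.cons w3 w4 w2 (.cons w8 w5 w3 (.cons w32 w11 w7 (.cons w13 w7 w6 (.cons w6 w7 w3 (.cons w2 w2 w1 (.cons w5 w4 w2 (.cons w4 w6 w3 (.last w2 w3 w1))))))))))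
 (.lf (.cons w3 w4 w2 (.cons w8 w5 w3 (.cons w32 w11 w7 (.cons w32 w22 w14 (.cons w18 w21 w9 (.cons w9 w10 w9 (.cons w4 w2 w1 (.last w2 w1 w1)))))))))
)) (.nx 98913 (.lf (.cons w3 w2 w2 (.cons w7 w8 w5 (.cons w14 w16 w10 (.cons w29 w33 w20 (.cons w6 w7 w3 (.cons w3 w3 w3 (.last w2 w1 w1))))))))
 (.ny 41600 (.nx 100641 (.lf (.cons w3 w2 w2 (.cons w8 w5 w3 (.cons w32 w11 w7 (.cons w6 w7 w3 (.cons w2 w2 w1 (.last w2 w1 w1)))))))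
 (.lf (.cons w3 w2 w2 (.cons w7 w8 w5 (.cons w28 w33 w10 (.cons w13 w7 w6 (.cons w6 w7 w3 (.cons w2 w2 w1 (.last w2 w1 w1))))))))
) (.lf (.cons w3 w2 w2 (.cons w7 w8 w5 (.cons w6 w7 w3 (.cons w2 w2 w1 (.last w2 w1 w1))))))
))))) (.nx 89149 (.lf (.cons w3 w2 w2 (.cons w3 w3 w3 (.cons w4 w4 w3 (.last w2 w1 w1)))))
 (.ny 51212 (.nx 95545 (.lf (.cons w3 w2 w2 (.cons w7 w8 w5 (.cons w3 w3 w3 (.last w2 w1 w1)))))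
 (.lf (.cons w3 w2 w2 (.cons w7 w8 w5 (.cons w14 w16 w10 (.cons w28 w33 w21 (.cons w9 w8 w6 (.cons w2 w2 w1 (.last w2 w1 w1))))))))
) (.lf (.cons w3 w2 w2 (.cons w7 w8 w5 (.cons w4 w4 w3 (.last w2 w1 w1)))))
)))) (.nx 77612 (.lf (.cons w6 w5 w8 (.cons w3 w2 w2 (.cons w4 w2 w3 (.last w2 w1 w1)))))
 (.ny 77612 (.nx 89149 (.ny 67568 (.lf (.cons w3 w2 w2 (.cons w4 w4 w3 (.last w2 w1 w1))))
 (.lf (.cons w12 w5 w8 (.cons w3 w2 w2 (.cons w2 w2 w1 (.last w2 w1 w1)))))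
) (.lf (.cons w3 w2 w2 (.cons w4 w4 w3 (.last w2 w1 w1))))
) (.nx 89149 (.lf (.cons w6 w5 w8 (.cons w3 w2 w2 (.last w2 w1 w1))))
 (.ny 89149 (.lf (.cons w3 w5 w4 (.cons w3 w2 w2 (.last w2 w1 w1))))
 (.lf (.cons w3 w5 w4 (.cons w2 w2 w3 (.last w2 w1 w1))))
))))))

theorem c60 : Cov true false 33792 102400 33792 102400 5773 7321 3660 4227 5773 7321 :=
  Cov.chk t60 (by decide +kernel)

noncomputable def t63 : Tr :=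
(.ny 58824 (.nx 77612 (.ny 44585 (.lf (.cons w3 w2 w1 (.cons w6 w4 w3 (.cons w12 w9 w6 (.cons w7 w8 w3 (.cons w14 w32 w13 (.cons w28 w33 w13 (.cons w6 w3 w2 (.cons w3 w3 w2 (.cons w4 w2 w1 (.last w2 w1 w1)))))))))))
 (.nx 67568 (.ny 51212 (.lf (.cons w3 w2 w1 (.cons w3 w3 w2 (.cons w2 w2 w1 (.last w2 w1 w1)))))
 (.lf (.cons w3 w4 w4 (.cons w7 w8 w9 (.cons w6 w5 w3 (.cons w3 w2 w3 (.cons w4 w2 w2 (.last w2 w1 w1)))))))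
) (.ny 51212 (.lf (.cons w3 w2 w1 (.cons w3 w4 w3 (.cons w3 w3 w4 (.last w2 w1 w1)))))
 (.nx 72416 (.lf (.cons w3 w4 w4 (.cons w6 w5 w3 (.cons w7 w10 w7 (.cons w15 w22 w28 (.cons w13 w16 w7 (.cons w24 w17 w7 (.cons w6 w4 w3 (.cons w3 w3 w4 (.last w2 w1 w1))))))))))
 (.lf (.cons w3 w4 w4 (.cons w6 w5 w3 (.cons w7 w10 w7 (.cons w15 w22 w14 (.cons w30 w23 w15 (.cons w31 w46 w31 (.cons w7 w9 w9 (.cons w29 w36 w18 (.cons w29 w72 w37 (.cons w9 w10 w10 (.cons w9 w5 w5 (.cons w18 w11 w11 (.cons w7 w10 w6 (.cons w3 w4 w3 (.cons w2 w2 w1 (.last w2 w1 w1)))))))))))))))))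
)))) (.ny 44585 (.nx 89149 (.lf (.cons w3 w2 w1 (.cons w6 w4 w3 (.cons w7 w8 w3 (.cons w14 w32 w13 (.cons w29 w64 w13 (.cons w9 w5 w4 (.cons w19 w22 w16 (.cons w4 w2 w2 (.last w2 w1 w1))))))))))
 (.nx 95545 (.lf (.cons w3 w2 w1 (.cons w6 w4 w3 (.cons w7 w8 w3 (.cons w4 w5 w2 (.last w2 w1 w1))))))
 (.ny 38815 (.ny 36217 (.lf (.cons w3 w4 w1 (.cons w6 w9 w3 (.cons w4 w5 w2 (.cons w2 w2 w1 (.cons w10 w9 w4 (.cons w40 w18 w9 (.cons w40 w37 w18 (.cons w42 w73 w19 (.cons w21 w18 w9 (.cons w11 w16 w7 (.cons w5 w4 w3 (.last w2 w3 w1)))))))))))))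
 (.lf (.cons w3 w4 w1 (.cons w3 w4 w3 (.cons w8 w5 w2 (.last w2 w1 w1)))))
) (.lf (.cons w3 w2 w1 (.cons w3 w4 w3 (.cons w4 w2 w2 (.last w2 w1 w1)))))
))) (.nx 89149 (.ny 51212 (.lf (.cons w3 w2 w1 (.cons w3 w4 w3 (.cons w4 w2 w2 (.last w2 w1 w1)))))
 (.nx 83181 (.ny 54886 (.lf (.cons w3 w2 w1 (.cons w3 w4 w3 (.last w2 w1 w1))))
 (.lf (.cons w3 w4 w4 (.cons w6 w5 w6 (.cons w14 w10 w7 (.cons w9 w10 w5 (.cons w9 w5 w5 (.cons w18 w11 w11 (.cons w7 w5 w6 (.cons w3 w4 w3 (.last w2 w1 w1))))))))))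
) (.ny 54886 (.lf (.cons w3 w2 w1 (.cons w3 w4 w3 (.last w2 w1 w1))))
 (.lf (.cons w3 w4 w4 (.cons w12 w5 w6 (.cons w14 w10 w7 (.cons w9 w10 w5 (.cons w9 w11 w10 (.cons w19 w22 w20 (.cons w18 w22 w11 (.cons w7 w5 w6 (.cons w3 w4 w3 (.last w2 w1 w1)))))))))))
))) (.lf (.cons w3 w4 w4 (.cons w3 w5 w3 (.cons w7 w5 w6 (.cons w14 w22 w24 (.cons w29 w22 w24 (.cons w6 w8 w3 (.cons w3 w4 w3 (.cons w2 w2 w1 (.last w2 w1 w1))))))))))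
))) (.nx 77612 (.nx 67568 (.nx 63045 (.lf (.cons w3 w4 w4 (.cons w7 w4 w4 (.cons w6 w5 w3 (.cons w3 w2 w3 (.last w2 w1 w1))))))
 (.lf (.cons w3 w4 w4 (.cons w7 w9 w8 (.cons w14 w18 w16 (.cons w56 w37 w66 (.cons w29 w36 w33 (.cons w12 w5 w7 (.cons w6 w5 w6 (.cons w3 w2 w3 (.last w2 w1 w1))))))))))
) (.ny 67568 (.lf (.cons w3 w4 w4 (.cons w7 w9 w8 (.cons w6 w5 w3 (.cons w3 w2 w3 (.last w2 w1 w1))))))
 (.nx 72416 (.lf (.cons w3 w4 w4 (.cons w7 w9 w8 (.cons w14 w18 w16 (.cons w56 w37 w66 (.cons w29 w36 w33 (.cons w24 w7 w10 (.cons w6 w3 w5 (.cons w3 w2 w3 (.last w2 w1 w1))))))))))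
 (.lf (.cons w3 w4 w4 (.cons w7 w9 w8 (.cons w14 w18 w16 (.cons w56 w37 w66 (.cons w29 w72 w33 (.cons w9 w10 w10 (.cons w9 w5 w5 (.cons w6 w3 w5 (.cons w3 w3 w2 (.last w2 w1 w1)))))))))))
))) (.ny 77612 (.nx 89149 (.ny 67568 (.nx 83181 (.nx 80348 (.lf (.cons w3 w4 w4 (.cons w6 w5 w3 (.cons w3 w2 w3 (.last w2 w1 w1)))))
 (.lf (.cons w3 w4 w4 (.cons w6 w5 w3 (.cons w14 w10 w7 (.cons w13 w17 w7 (.cons w52 w35 w15 (.cons w27 w34 w30 (.cons w28 w11 w14 (.cons w14 w11 w7 (.cons w7 w10 w6 (.cons w3 w4 w3 (.last w2 w1 w1))))))))))))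
) (.ny 63045 (.lf (.cons w3 w4 w4 (.cons w6 w5 w6 (.cons w9 w5 w5 (.cons w7 w9 w9 (.cons w14 w18 w18 (.cons w29 w37 w36 (.cons w13 w7 w10 (.cons w26 w15 w20 (.cons w13 w14 w11 (.cons w27 w28 w22 (.cons w12 w7 w5 (.cons w8 w5 w5 (.cons w3 w4 w3 (.last w2 w1 w1)))))))))))))))
 (.lf (.cons w3 w4 w4 (.cons w6 w5 w3 (.cons w14 w20 w7 (.cons w15 w22 w14 (.cons w24 w11 w13 (.cons w13 w17 w7 (.cons w14 w11 w7 (.cons w7 w5 w6 (.cons w3 w4 w3 (.last w2 w1 w1)))))))))))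
)) (.lf (.cons w3 w4 w4 (.cons w7 w9 w8 (.cons w9 w5 w5 (.cons w6 w5 w3 (.cons w3 w2 w3 (.last w2 w1 w1)))))))
) (.lf (.cons w3 w4 w4 (.cons w7 w16 w9 (.cons w3 w5 w3 (.cons w7 w5 w6 (.cons w6 w8 w3 (.cons w2 w2 w1 (.last w2 w1 w1))))))))
) (.nx 89149 (.lf (.cons w3 w4 w4 (.cons w7 w9 w16 (.cons w14 w18 w16 (.cons w56 w37 w33 (.cons w4 w5 w5 (.cons w6 w5 w3 (.cons w3 w2 w3 (.last w2 w1 w1)))))))))
 (.ny 89149 (.lf (.cons w3 w4 w4 (.cons w4 w5 w5 (.cons w3 w5 w3 (.cons w2 w2 w1 (.last w2 w1 w1))))))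
 (.nx 95545 (.lf (.cons w3 w4 w4 (.cons w4 w5 w5 (.cons w6 w5 w7 (.cons w3 w5 w3 (.last w2 w1 w1))))))
 (.ny 95545 (.lf (.cons w3 w4 w4 (.cons w8 w5 w5 (.cons w6 w5 w7 (.cons w3 w5 w3 (.last w2 w1 w1))))))
 (.nx 98913 (.lf (.cons w3 w4 w4 (.cons w8 w5 w5 (.cons w6 w7 w5 (.cons w4 w2 w2 (.last w2 w1 w1))))))
 (.lf (.cons w3 w4 w4 (.cons w8 w5 w5 (.cons w32 w11 w11 (.cons w32 w22 w22 (.cons w65 w45 w44 (.cons w18 w21 w17 (.cons w6 w5 w7 (.cons w4 w2 w2 (.last w2 w1 w1))))))))))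
))))))))

theorem c63 : Cov true true 58824 102400 33792 102400 5773 7321 3660 4227 5773 7321 :=
  Cov.chk t63 (by decide +kernel)

noncomputable def t65 : Tr :=
(.ny 36217 (.ny 34983 (.lf (.cons w3 w2 w1 (.cons w8 w3 w3 (.cons w32 w7 w7 (.cons w65 w28 w14 (.cons w18 w12 w9 (.cons w9 w3 w4 (.last w2 w1 w1))))))))
 (.nx 40183 (.ny 35595 (.lf (.cons w3 w2 w1 (.cons w8 w3 w3 (.cons w32 w7 w7 (.cons w37 w24 w18 (.cons w9 w12 w9 (.cons w4 w1 w1 (.last w2 w2 w2))))))))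
 (.nx 39493 (.n2 6547 (.lf (.cons w3 w2 w1 (.cons w8 w3 w3 (.cons w32 w14 w7 (.cons w9 w6 w9 (.cons w4 w1 w1 (.last w2 w2 w2)))))))
 (.lf (.cons w3 w2 w1 (.cons w8 w3 w3 (.cons w32 w7 w14 (.cons w65 w28 w29 (.cons w37 w24 w18 (.cons w9 w12 w9 (.cons w4 w1 w1 (.last w2 w2 w2)))))))))
) (.lf (.cons w3 w2 w1 (.cons w8 w3 w3 (.cons w32 w7 w14 (.cons w65 w28 w29 (.cons w37 w24 w18 (.cons w9 w12 w9 (.cons w4 w1 w1 (.last w2 w2 w2)))))))))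
)) (.ny 35595 (.lf (.cons w3 w2 w1 (.cons w8 w3 w3 (.cons w32 w7 w7 (.cons w65 w28 w14 (.cons w18 w24 w18 (.cons w9 w3 w4 (.last w2 w1 w1))))))))
 (.n3 6547 (.lf (.cons w3 w2 w1 (.cons w8 w3 w3 (.cons w32 w7 w7 (.cons w37 w24 w18 (.cons w9 w12 w9 (.cons w4 w1 w1 (.last w2 w2 w2))))))))
 (.lf (.cons w3 w2 w1 (.cons w8 w3 w3 (.cons w32 w7 w7 (.cons w65 w28 w14 (.cons w65 w29 w56 (.cons w37 w48 w18 (.cons w9 w12 w9 (.cons w4 w1 w1 (.last w2 w2 w2))))))))))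
)))) (.lf (.cons w3 w2 w1 (.cons w8 w3 w3 (.cons w32 w7 w7 (.cons w32 w14 w14 (.cons w18 w13 w9 (.cons w73 w26 w19 (.cons w37 w24 w18 (.cons w9 w12 w9 (.cons w4 w1 w1 (.last w2 w2 w2)))))))))))
)

theorem c65 : Cov false false 38815 41600 33792 38815 3660 4227 5773 7321 5773 7321 :=
  Cov.chk t65 (by decide +kernel)

noncomputable def t66 : Tr :=
(.nx 43067 (.lf (.cons w3 w2 w1 (.cons w7 w5 w4 (.cons w14 w10 w8 (.cons w29 w20 w17 (.cons w17 w7 w6 (.cons w32 w14 w14 (.cons w65 w29 w28 (.cons w18 w24 w9 (.cons w9 w3 w4 (.last w2 w1 w1)))))))))))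
 (.nx 43819 (.lf (.cons w3 w2 w1 (.cons w7 w5 w4 (.cons w16 w7 w7 (.cons w65 w28 w14 (.cons w18 w12 w9 (.cons w9 w3 w4 (.last w2 w1 w1))))))))
 (.lf (.cons w3 w2 w1 (.cons w7 w5 w4 (.cons w14 w10 w8 (.cons w29 w40 w17 (.cons w9 w6 w4 (.last w2 w1 w1)))))))
))

theorem c66 : Cov false false 41600 44585 33792 36217 3660 4227 5773 7321 5773 7321 :=
  Cov.chk t66 (by decide +kernel)

noncomputable def t67 : Tr :=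
(.ny 36850 (.lf (.cons w3 w2 w1 (.cons w7 w5 w4 (.cons w16 w7 w7 (.cons w65 w28 w14 (.cons w65 w29 w28 (.cons w37 w24 w18 (.cons w9 w12 w9 (.cons w4 w1 w1 (.last w2 w2 w2))))))))))
 (.nx 42327 (.n2 6547 (.lf (.cons w3 w2 w1 (.cons w7 w5 w4 (.cons w18 w13 w9 (.cons w73 w26 w19 (.cons w37 w24 w18 (.cons w9 w12 w9 (.cons w4 w1 w1 (.last w2 w2 w2)))))))))
 (.ny 37171 (.lf (.cons w3 w2 w1 (.cons w7 w5 w4 (.cons w32 w7 w7 (.cons w65 w28 w14 (.cons w65 w29 w56 (.cons w37 w24 w18 (.cons w9 w12 w9 (.cons w4 w1 w1 (.last w2 w2 w2))))))))))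
 (.n1 3943 (.n3 6547 (.nx 41962 (.n2 6934 (.lf (.cons w3 w2 w1 (.cons w7 w5 w4 (.cons w28 w10 w17 (.cons w29 w40 w17 (.cons w113 w84 w69 (.cons w113 w42 w69 (.cons w59 w43 w70 (.cons w59 w43 w35 (.cons w37 w24 w18 (.cons w9 w12 w9 (.cons w4 w1 w1 (.last w2 w2 w2)))))))))))))
 (.lf (.cons w3 w2 w1 (.cons w7 w5 w4 (.cons w28 w10 w17 (.cons w29 w40 w17 (.cons w113 w42 w69 (.cons w59 w43 w70 (.cons w37 w24 w18 (.cons w9 w12 w9 (.cons w4 w1 w1 (.last w2 w2 w2)))))))))))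
) (.n2 6934 (.lf (.cons w3 w2 w1 (.cons w7 w5 w4 (.cons w28 w10 w17 (.cons w29 w40 w17 (.cons w58 w40 w34 (.cons w113 w84 w69 (.cons w116 w81 w69 (.cons w18 w24 w18 (.cons w9 w3 w4 (.last w2 w1 w1)))))))))))
 (.lf (.cons w3 w2 w1 (.cons w7 w5 w4 (.cons w28 w10 w17 (.cons w29 w40 w17 (.cons w58 w40 w34 (.cons w18 w24 w18 (.cons w9 w3 w4 (.last w2 w1 w1)))))))))
)) (.nx 41962 (.n2 6934 (.lf (.cons w3 w2 w1 (.cons w7 w5 w4 (.cons w28 w10 w17 (.cons w29 w40 w17 (.cons w113 w84 w69 (.cons w113 w42 w69 (.cons w59 w43 w70 (.cons w59 w43 w35 (.cons w37 w24 w18 (.cons w9 w12 w9 (.cons w4 w1 w1 (.last w2 w2 w2)))))))))))))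
 (.lf (.cons w3 w2 w1 (.cons w7 w5 w4 (.cons w28 w10 w17 (.cons w29 w40 w17 (.cons w113 w42 w69 (.cons w59 w86 w70 (.cons w37 w24 w18 (.cons w9 w12 w9 (.cons w4 w1 w1 (.last w2 w2 w2)))))))))))
) (.n2 6934 (.lf (.cons w3 w2 w1 (.cons w7 w5 w4 (.cons w14 w10 w8 (.cons w29 w20 w17 (.cons w58 w40 w34 (.cons w113 w84 w69 (.cons w116 w81 w69 (.cons w113 w85 w69 (.cons w18 w24 w18 (.cons w9 w3 w4 (.last w2 w1 w1))))))))))))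
 (.lf (.cons w3 w2 w1 (.cons w7 w5 w4 (.cons w28 w10 w17 (.cons w29 w40 w17 (.cons w58 w40 w34 (.cons w113 w42 w69 (.cons w18 w24 w9 (.cons w9 w3 w4 (.last w2 w1 w1))))))))))
))) (.n2 6934 (.lf (.cons w3 w2 w1 (.cons w7 w5 w4 (.cons w36 w13 w9 (.cons w73 w52 w19 (.cons w37 w24 w18 (.cons w9 w12 w9 (.cons w4 w1 w1 (.last w2 w2 w2)))))))))
 (.n2 7127 (.lf (.cons w3 w2 w1 (.cons w7 w5 w4 (.cons w28 w10 w17 (.cons w29 w40 w17 (.cons w113 w42 w69 (.cons w113 w85 w69 (.cons w59 w43 w35 (.cons w119 w86 w71 (.cons w37 w24 w18 (.cons w9 w12 w9 (.cons w4 w1 w1 (.last w2 w2 w2)))))))))))))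
 (.lf (.cons w3 w2 w1 (.cons w7 w5 w4 (.cons w28 w10 w17 (.cons w29 w40 w17 (.cons w113 w42 w69 (.cons w113 w85 w69 (.cons w59 w43 w35 (.cons w37 w24 w18 (.cons w9 w12 w9 (.cons w4 w1 w1 (.last w2 w2 w2))))))))))))
))))) (.n2 6547 (.n1 3943 (.lf (.cons w3 w2 w1 (.cons w7 w5 w4 (.cons w14 w10 w8 (.cons w29 w20 w17 (.cons w58 w40 w34 (.cons w18 w24 w18 (.cons w9 w3 w4 (.last w2 w1 w1)))))))))
 (.n2 6160 (.lf (.cons w3 w2 w1 (.cons w7 w5 w4 (.cons w14 w10 w8 (.cons w29 w20 w17 (.cons w58 w40 w34 (.cons w18 w24 w18 (.cons w9 w3 w4 (.last w2 w1 w1)))))))))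
 (.lf (.cons w3 w2 w1 (.cons w7 w5 w4 (.cons w14 w10 w8 (.cons w29 w20 w17 (.cons w18 w24 w18 (.cons w9 w3 w4 (.last w2 w1 w1))))))))
)) (.lf (.cons w3 w2 w1 (.cons w7 w5 w4 (.cons w14 w10 w8 (.cons w29 w20 w17 (.cons w58 w40 w34 (.cons w113 w84 w69 (.cons w18 w24 w18 (.cons w9 w3 w4 (.last w2 w1 w1))))))))))
)))

theorem c67 : Cov false false 41600 43067 36217 37494 3660 4227 5773 7321 5773 7321 :=
  Cov.chk t67 (by decide +kernel)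

noncomputable def t69 : Tr :=
(.lf (.cons w3 w2 w1 (.cons w7 w5 w4 (.cons w14 w10 w8 (.cons w28 w21 w17 (.cons w18 w12 w9 (.cons w9 w6 w4 (.last w2 w1 w1))))))))


theorem c69 : Cov false false 43067 44585 36217 38815 3660 4227 5773 7321 5773 7321 :=
  Cov.chk t69 (by decide +kernel)

noncomputable def t70 : Tr :=
(.ny 41600 (.nx 41600 (.nx 40183 (.nx 39493 (.n2 6547 (.lf (.cons w3 w2 w1 (.cons w7 w5 w8 (.cons w16 w7 w7 (.cons w37 w18 w13 (.cons w18 w9 w13 (.cons w9 w9 w6 (.last w2 w1 w1))))))))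
 (.lf (.cons w3 w1 w2 (.cons w7 w8 w5 (.cons w16 w7 w7 (.cons w32 w14 w14 (.cons w65 w29 w28 (.cons w18 w13 w9 (.cons w9 w6 w9 (.last w2 w1 w1)))))))))
) (.ny 39493 (.lf (.cons w3 w2 w1 (.cons w7 w5 w8 (.cons w16 w7 w7 (.cons w32 w14 w14 (.cons w65 w29 w28 (.cons w18 w13 w9 (.cons w9 w6 w9 (.last w2 w1 w1)))))))))
 (.n1 3943 (.n2 6547 (.ny 39837 (.n3 6547 (.n2 6160 (.lf (.cons w3 w2 w1 (.cons w7 w5 w8 (.cons w14 w10 w17 (.cons w118 w43 w71 (.cons w117 w81 w69 (.cons w37 w18 w13 (.cons w18 w9 w13 (.cons w9 w9 w6 (.last w2 w1 w1))))))))))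
 (.lf (.cons w3 w2 w1 (.cons w7 w5 w8 (.cons w14 w17 w10 (.cons w37 w13 w18 (.cons w18 w13 w9 (.cons w9 w6 w9 (.last w2 w1 w1))))))))
) (.nx 39837 (.n2 6160 (.lf (.cons w3 w2 w1 (.cons w7 w5 w8 (.cons w14 w10 w17 (.cons w118 w43 w71 (.cons w117 w81 w69 (.cons w37 w26 w18 (.cons w18 w13 w9 (.cons w9 w6 w9 (.last w2 w1 w1))))))))))
 (.lf (.cons w3 w2 w1 (.cons w7 w5 w8 (.cons w14 w10 w17 (.cons w37 w13 w18 (.cons w18 w13 w9 (.cons w9 w6 w9 (.last w2 w1 w1))))))))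
) (.lf (.cons w3 w2 w1 (.cons w7 w5 w8 (.cons w14 w10 w17 (.cons w118 w43 w71 (.cons w18 w18 w13 (.cons w9 w9 w6 (.last w2 w1 w1))))))))
)) (.lf (.cons w3 w2 w1 (.cons w7 w5 w8 (.cons w14 w10 w17 (.cons w118 w43 w71 (.cons w117 w81 w69 (.cons w18 w18 w13 (.cons w9 w9 w6 (.last w2 w1 w1)))))))))
) (.nx 39837 (.lf (.cons w3 w1 w2 (.cons w7 w8 w5 (.cons w14 w17 w10 (.cons w37 w13 w18 (.cons w18 w13 w9 (.cons w9 w6 w9 (.last w2 w1 w1))))))))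
 (.lf (.cons w3 w2 w1 (.cons w7 w5 w8 (.cons w14 w10 w17 (.cons w18 w13 w18 (.cons w9 w6 w9 (.last w2 w1 w1)))))))
)) (.n2 6547 (.nx 39837 (.lf (.cons w3 w2 w1 (.cons w7 w5 w8 (.cons w14 w10 w17 (.cons w32 w14 w14 (.cons w37 w13 w18 (.cons w18 w13 w9 (.cons w9 w6 w9 (.last w2 w1 w1)))))))))
 (.n2 6160 (.lf (.cons w3 w2 w1 (.cons w7 w5 w8 (.cons w14 w17 w10 (.cons w37 w13 w18 (.cons w18 w13 w9 (.cons w9 w6 w9 (.last w2 w1 w1))))))))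
 (.nx 40010 (.lf (.cons w3 w2 w1 (.cons w7 w5 w8 (.cons w14 w10 w17 (.cons w37 w13 w18 (.cons w18 w13 w9 (.cons w9 w9 w6 (.last w2 w1 w1))))))))
 (.lf (.cons w3 w2 w1 (.cons w7 w5 w8 (.cons w14 w10 w17 (.cons w18 w13 w9 (.cons w9 w6 w9 (.last w2 w1 w1)))))))
))) (.ny 39837 (.n2 6934 (.lf (.cons w3 w2 w1 (.cons w7 w5 w8 (.cons w14 w10 w17 (.cons w118 w43 w71 (.cons w117 w81 w69 (.cons w37 w13 w18 (.cons w18 w13 w9 (.cons w9 w6 w9 (.last w2 w1 w1))))))))))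
 (.nx 39837 (.lf (.cons w3 w1 w2 (.cons w7 w8 w5 (.cons w14 w17 w10 (.cons w37 w13 w18 (.cons w18 w13 w9 (.cons w9 w6 w9 (.last w2 w1 w1))))))))
 (.lf (.cons w3 w2 w1 (.cons w7 w5 w8 (.cons w14 w10 w17 (.cons w18 w13 w9 (.cons w9 w6 w9 (.last w2 w1 w1)))))))
)) (.lf (.cons w3 w1 w2 (.cons w7 w8 w5 (.cons w14 w17 w10 (.cons w18 w13 w18 (.cons w9 w6 w9 (.last w2 w1 w1)))))))
))))) (.n2 6547 (.lf (.cons w3 w2 w1 (.cons w7 w8 w5 (.cons w14 w10 w8 (.cons w29 w20 w17 (.cons w58 w40 w34 (.cons w113 w42 w69 (.cons w59 w43 w35 (.cons w117 w81 w69 (.cons w18 w13 w9 (.cons w9 w6 w9 (.cons w4 w1 w1 (.last w2 w2 w2)))))))))))))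
 (.lf (.cons w3 w2 w1 (.cons w7 w8 w5 (.cons w28 w10 w17 (.cons w29 w20 w34 (.cons w18 w13 w9 (.cons w9 w6 w9 (.cons w4 w1 w1 (.last w2 w2 w2)))))))))
)) (.nx 43067 (.ny 40183 (.nx 42327 (.lf (.cons w3 w2 w1 (.cons w7 w5 w4 (.cons w28 w10 w17 (.cons w29 w40 w17 (.cons w9 w6 w9 (.cons w4 w1 w1 (.last w2 w2 w2))))))))
 (.n2 6547 (.lf (.cons w3 w2 w1 (.cons w7 w5 w4 (.cons w9 w6 w9 (.cons w4 w1 w1 (.last w2 w2 w2))))))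
 (.lf (.cons w3 w2 w1 (.cons w7 w5 w4 (.cons w28 w10 w17 (.cons w29 w40 w17 (.cons w9 w12 w9 (.cons w4 w1 w1 (.last w2 w2 w2))))))))
)) (.lf (.cons w3 w2 w1 (.cons w7 w5 w8 (.cons w14 w10 w17 (.cons w9 w6 w9 (.cons w4 w1 w1 (.last w2 w2 w2)))))))
) (.lf (.cons w3 w2 w1 (.cons w7 w5 w4 (.cons w14 w10 w8 (.cons w28 w21 w17 (.cons w9 w6 w4 (.last w2 w1 w1)))))))
)) (.lf (.cons w3 w1 w2 (.cons w7 w8 w5 (.cons w14 w17 w10 (.cons w9 w9 w6 (.last w2 w1 w1))))))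
)

theorem c70 : Cov false false 38815 44585 38815 102400 3660 4227 5773 7321 5773 7321 :=
  Cov.chk t70 (by decide +kernel)

noncomputable def t79 : Tr :=
(.ny 36217 (.ny 34983 (.lf (.cons w3 w2 w1 (.cons w4 w3 w3 (.cons w16 w7 w7 (.cons w65 w28 w14 (.cons w65 w29 w28 (.cons w18 w12 w9 (.cons w9 w3 w4 (.last w2 w1 w1)))))))))
 (.nx 40183 (.n1 6547 (.n3 6547 (.lf (.cons w3 w2 w1 (.cons w8 w3 w3 (.cons w32 w7 w7 (.cons w65 w28 w14 (.cons w65 w29 w56 (.cons w37 w24 w18 (.cons w9 w12 w9 (.cons w4 w1 w1 (.last w2 w2 w2))))))))))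
 (.nx 39493 (.ny 35595 (.lf (.cons w3 w2 w1 (.cons w8 w3 w3 (.cons w32 w7 w14 (.cons w65 w28 w29 (.cons w37 w48 w18 (.cons w9 w12 w9 (.cons w4 w1 w1 (.last w2 w2 w2)))))))))
 (.ny 35905 (.lf (.cons w3 w2 w1 (.cons w8 w3 w3 (.cons w32 w7 w7 (.cons w65 w28 w14 (.cons w65 w29 w56 (.cons w37 w24 w18 (.cons w9 w12 w9 (.cons w4 w1 w1 (.last w2 w2 w2))))))))))
 (.lf (.cons w3 w2 w1 (.cons w8 w3 w3 (.cons w32 w7 w7 (.cons w9 w6 w9 (.cons w4 w1 w1 (.last w2 w2 w2)))))))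
)) (.n3 6934 (.lf (.cons w3 w2 w1 (.cons w8 w3 w3 (.cons w32 w7 w7 (.cons w65 w28 w14 (.cons w65 w29 w56 (.cons w37 w24 w18 (.cons w9 w12 w9 (.cons w4 w1 w1 (.last w2 w2 w2))))))))))
 (.lf (.cons w3 w2 w1 (.cons w8 w3 w3 (.cons w32 w7 w7 (.cons w65 w28 w14 (.cons w65 w29 w56 (.cons w37 w24 w18 (.cons w9 w12 w9 (.cons w4 w1 w1 (.last w2 w2 w2))))))))))
))) (.nx 39493 (.ny 35595 (.lf (.cons w3 w2 w1 (.cons w8 w3 w3 (.cons w32 w7 w7 (.cons w65 w28 w14 (.cons w65 w29 w56 (.cons w37 w48 w18 (.cons w9 w12 w9 (.cons w4 w1 w1 (.last w2 w2 w2))))))))))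
 (.ny 35905 (.lf (.cons w3 w2 w1 (.cons w8 w3 w3 (.cons w32 w7 w7 (.cons w65 w28 w14 (.cons w65 w29 w56 (.cons w37 w24 w18 (.cons w9 w12 w9 (.cons w4 w1 w1 (.last w2 w2 w2))))))))))
 (.lf (.cons w3 w2 w1 (.cons w8 w3 w3 (.cons w32 w7 w7 (.cons w9 w6 w9 (.cons w4 w1 w1 (.last w2 w2 w2)))))))
)) (.n2 6547 (.n3 6547 (.lf (.cons w3 w2 w1 (.cons w8 w3 w3 (.cons w32 w7 w7 (.cons w65 w28 w14 (.cons w65 w29 w56 (.cons w37 w24 w18 (.cons w9 w12 w9 (.cons w4 w1 w1 (.last w2 w2 w2))))))))))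
 (.ny 35595 (.lf (.cons w3 w2 w1 (.cons w8 w3 w3 (.cons w32 w7 w7 (.cons w65 w28 w14 (.cons w65 w29 w56 (.cons w37 w48 w18 (.cons w9 w12 w9 (.cons w4 w1 w1 (.last w2 w2 w2))))))))))
 (.nx 39837 (.lf (.cons w3 w2 w1 (.cons w8 w3 w3 (.cons w32 w7 w7 (.cons w9 w6 w9 (.cons w4 w1 w1 (.last w2 w2 w2)))))))
 (.lf (.cons w3 w2 w1 (.cons w8 w3 w3 (.cons w32 w7 w7 (.cons w65 w28 w14 (.cons w65 w29 w56 (.cons w37 w24 w18 (.cons w9 w12 w9 (.cons w4 w1 w1 (.last w2 w2 w2))))))))))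
))) (.lf (.cons w3 w2 w1 (.cons w8 w3 w3 (.cons w32 w7 w7 (.cons w65 w28 w14 (.cons w65 w29 w56 (.cons w37 w24 w18 (.cons w9 w12 w9 (.cons w4 w1 w1 (.last w2 w2 w2))))))))))
))) (.ny 35595 (.lf (.cons w3 w2 w1 (.cons w8 w3 w3 (.cons w32 w7 w7 (.cons w65 w28 w14 (.cons w65 w29 w28 (.cons w18 w24 w9 (.cons w9 w3 w4 (.last w2 w1 w1)))))))))
 (.lf (.cons w3 w2 w1 (.cons w8 w3 w3 (.cons w32 w7 w7 (.cons w65 w28 w14 (.cons w65 w29 w28 (.cons w37 w24 w18 (.cons w9 w12 w9 (.cons w4 w1 w1 (.last w2 w2 w2))))))))))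
))) (.lf (.cons w3 w2 w1 (.cons w8 w3 w3 (.cons w32 w7 w7 (.cons w32 w14 w14 (.cons w65 w29 w28 (.cons w18 w13 w9 (.cons w36 w26 w19 (.cons w72 w27 w19 (.cons w37 w24 w18 (.cons w9 w12 w9 (.cons w4 w1 w1 (.last w2 w2 w2)))))))))))))
)

theorem c79 : Cov false false 38815 41600 33792 38815 5773 7321 5773 7321 5773 7321 :=
  Cov.chk t79 (by decide +kernel)

noncomputable def t80 : Tr :=
(.ny 34983 (.lf (.cons w3 w2 w1 (.cons w8 w3 w3 (.cons w32 w7 w7 (.cons w18 w12 w9 (.cons w9 w6 w4 (.last w2 w1 w1)))))))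
 (.ny 35595 (.lf (.cons w3 w2 w1 (.cons w8 w3 w3 (.cons w32 w7 w7 (.cons w65 w28 w29 (.cons w9 w12 w9 (.cons w9 w6 w8 (.last w2 w1 w1))))))))
 (.nx 43067 (.nx 42327 (.ny 35905 (.lf (.cons w3 w2 w1 (.cons w8 w3 w3 (.cons w32 w7 w7 (.cons w37 w24 w18 (.cons w9 w12 w9 (.cons w4 w1 w1 (.last w2 w2 w2))))))))
 (.lf (.cons w3 w2 w1 (.cons w8 w3 w3 (.cons w32 w7 w7 (.cons w65 w28 w14 (.cons w37 w24 w18 (.cons w9 w12 w9 (.cons w4 w1 w1 (.last w2 w2 w2)))))))))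
) (.lf (.cons w3 w2 w1 (.cons w8 w3 w3 (.cons w32 w7 w7 (.cons w65 w28 w29 (.cons w18 w24 w18 (.cons w9 w3 w4 (.last w2 w1 w1))))))))
) (.lf (.cons w3 w2 w1 (.cons w7 w5 w4 (.cons w16 w7 w7 (.cons w65 w28 w14 (.cons w65 w29 w28 (.cons w18 w12 w9 (.cons w9 w6 w4 (.last w2 w1 w1)))))))))
)))

theorem c80 : Cov false false 41600 44585 33792 36217 5773 7321 5773 7321 5773 7321 :=
  Cov.chk t80 (by decide +kernel)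

noncomputable def t81 : Tr :=
(.nx 42327 (.ny 36850 (.n2 6547 (.n3 6547 (.lf (.cons w3 w2 w1 (.cons w8 w3 w3 (.cons w32 w7 w7 (.cons w65 w28 w14 (.cons w65 w29 w28 (.cons w37 w24 w18 (.cons w9 w12 w9 (.cons w4 w1 w1 (.last w2 w2 w2))))))))))
 (.nx 41962 (.ny 36532 (.lf (.cons w3 w2 w1 (.cons w8 w3 w3 (.cons w32 w7 w7 (.cons w65 w28 w14 (.cons w65 w29 w56 (.cons w37 w24 w18 (.cons w9 w12 w9 (.cons w4 w1 w1 (.last w2 w2 w2))))))))))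
 (.n2 6160 (.n3 6934 (.lf (.cons w3 w2 w1 (.cons w8 w3 w3 (.cons w32 w7 w7 (.cons w65 w28 w14 (.cons w65 w29 w56 (.cons w37 w24 w18 (.cons w9 w12 w9 (.cons w4 w1 w1 (.last w2 w2 w2))))))))))
 (.lf (.cons w3 w2 w1 (.cons w8 w3 w3 (.cons w32 w7 w7 (.cons w65 w28 w14 (.cons w65 w29 w28 (.cons w72 w27 w19 (.cons w37 w24 w18 (.cons w9 w12 w9 (.cons w4 w1 w1 (.last w2 w2 w2)))))))))))
) (.lf (.cons w3 w2 w1 (.cons w8 w3 w3 (.cons w32 w7 w7 (.cons w65 w28 w14 (.cons w65 w29 w56 (.cons w37 w24 w18 (.cons w9 w12 w9 (.cons w4 w1 w1 (.last w2 w2 w2))))))))))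
)) (.lf (.cons w3 w2 w1 (.cons w7 w5 w4 (.cons w16 w7 w7 (.cons w65 w28 w14 (.cons w65 w29 w56 (.cons w37 w24 w18 (.cons w9 w12 w9 (.cons w4 w1 w1 (.last w2 w2 w2))))))))))
)) (.lf (.cons w3 w2 w1 (.cons w8 w3 w3 (.cons w32 w7 w7 (.cons w65 w28 w14 (.cons w65 w29 w28 (.cons w37 w24 w18 (.cons w9 w12 w9 (.cons w4 w1 w1 (.last w2 w2 w2))))))))))
) (.lf (.cons w3 w2 w1 (.cons w7 w5 w4 (.cons w16 w7 w7 (.cons w36 w13 w9 (.cons w73 w52 w19 (.cons w72 w27 w38 (.cons w37 w24 w18 (.cons w9 w12 w9 (.cons w4 w1 w1 (.last w2 w2 w2)))))))))))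
) (.ny 36850 (.lf (.cons w3 w2 w1 (.cons w7 w5 w4 (.cons w16 w7 w7 (.cons w65 w28 w14 (.cons w65 w29 w28 (.cons w37 w24 w18 (.cons w9 w12 w9 (.cons w4 w1 w1 (.last w2 w2 w2))))))))))
 (.n1 6160 (.n2 6547 (.lf (.cons w3 w2 w1 (.cons w7 w5 w4 (.cons w18 w13 w9 (.cons w37 w49 w37 (.cons w72 w27 w19 (.cons w37 w24 w18 (.cons w9 w12 w9 (.cons w4 w1 w1 (.last w2 w2 w2))))))))))
 (.ny 37171 (.lf (.cons w3 w2 w1 (.cons w7 w5 w4 (.cons w32 w7 w7 (.cons w65 w28 w29 (.cons w65 w29 w56 (.cons w37 w24 w18 (.cons w9 w12 w9 (.cons w4 w1 w1 (.last w2 w2 w2))))))))))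
 (.nx 42695 (.lf (.cons w3 w2 w1 (.cons w7 w5 w4 (.cons w18 w13 w9 (.cons w37 w49 w37 (.cons w72 w27 w38 (.cons w37 w24 w18 (.cons w9 w12 w9 (.cons w4 w1 w1 (.last w2 w2 w2))))))))))
 (.n2 6934 (.lf (.cons w3 w2 w1 (.cons w7 w5 w4 (.cons w14 w10 w8 (.cons w29 w20 w17 (.cons w58 w40 w34 (.cons w37 w24 w18 (.cons w9 w12 w9 (.cons w4 w1 w1 (.last w2 w2 w2))))))))))
 (.lf (.cons w3 w2 w1 (.cons w7 w5 w4 (.cons w14 w10 w8 (.cons w29 w20 w17 (.cons w37 w24 w18 (.cons w9 w12 w9 (.cons w4 w1 w1 (.last w2 w2 w2)))))))))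
)))) (.n2 6547 (.nx 42695 (.lf (.cons w3 w2 w1 (.cons w7 w5 w4 (.cons w32 w7 w7 (.cons w36 w13 w9 (.cons w73 w52 w19 (.cons w37 w24 w18 (.cons w9 w12 w9 (.cons w4 w1 w1 (.last w2 w2 w2))))))))))
 (.lf (.cons w3 w2 w1 (.cons w7 w5 w4 (.cons w18 w13 w9 (.cons w37 w49 w37 (.cons w72 w27 w38 (.cons w37 w24 w18 (.cons w9 w12 w9 (.cons w4 w1 w1 (.last w2 w2 w2))))))))))
) (.ny 37171 (.lf (.cons w3 w2 w1 (.cons w7 w5 w4 (.cons w32 w7 w7 (.cons w65 w28 w29 (.cons w65 w29 w56 (.cons w37 w24 w18 (.cons w9 w12 w9 (.cons w4 w1 w1 (.last w2 w2 w2))))))))))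
 (.lf (.cons w3 w2 w1 (.cons w7 w5 w4 (.cons w18 w13 w9 (.cons w37 w49 w37 (.cons w72 w27 w38 (.cons w37 w24 w18 (.cons w9 w12 w9 (.cons w4 w1 w1 (.last w2 w2 w2))))))))))
)))))

theorem c81 : Cov false false 41600 43067 36217 37494 5773 6547 5773 7321 5773 7321 :=
  Cov.chk t81 (by decide +kernel)

noncomputable def t86 : Tr :=
(.nx 43819 (.ny 38149 (.n1 6160 (.n2 6547 (.lf (.cons w3 w2 w1 (.cons w7 w5 w4 (.cons w14 w10 w8 (.cons w29 w20 w17 (.cons w58 w40 w34 (.cons w113 w84 w69 (.cons w116 w81 w69 (.cons w113 w85 w69 (.cons w59 w43 w35 (.cons w18 w24 w18 (.cons w9 w3 w4 (.last w2 w1 w1)))))))))))))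
 (.lf (.cons w3 w2 w1 (.cons w7 w5 w4 (.cons w14 w10 w8 (.cons w29 w20 w17 (.cons w58 w40 w34 (.cons w18 w24 w18 (.cons w9 w3 w4 (.last w2 w1 w1)))))))))
) (.nx 43441 (.n2 6547 (.n2 6160 (.lf (.cons w3 w2 w1 (.cons w7 w5 w4 (.cons w14 w10 w8 (.cons w29 w20 w17 (.cons w58 w40 w34 (.cons w113 w84 w69 (.cons w116 w81 w69 (.cons w113 w85 w69 (.cons w59 w43 w35 (.cons w18 w24 w18 (.cons w9 w3 w4 (.last w2 w1 w1)))))))))))))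
 (.lf (.cons w3 w2 w1 (.cons w7 w5 w4 (.cons w14 w10 w8 (.cons w29 w20 w17 (.cons w58 w40 w34 (.cons w113 w84 w69 (.cons w116 w81 w69 (.cons w113 w85 w69 (.cons w59 w43 w35 (.cons w18 w24 w9 (.cons w9 w3 w4 (.last w2 w1 w1)))))))))))))
) (.lf (.cons w3 w2 w1 (.cons w7 w5 w4 (.cons w14 w10 w8 (.cons w29 w20 w17 (.cons w58 w40 w34 (.cons w116 w81 w69 (.cons w113 w85 w69 (.cons w59 w43 w35 (.cons w119 w86 w71 (.cons w18 w24 w18 (.cons w9 w3 w4 (.last w2 w1 w1)))))))))))))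
) (.lf (.cons w3 w2 w1 (.cons w7 w5 w4 (.cons w14 w10 w8 (.cons w29 w20 w17 (.cons w58 w40 w34 (.cons w113 w84 w69 (.cons w116 w81 w69 (.cons w113 w85 w69 (.cons w59 w43 w35 (.cons w119 w86 w71 (.cons w18 w24 w18 (.cons w9 w3 w4 (.last w2 w1 w1))))))))))))))
)) (.nx 43441 (.n1 6160 (.n2 6547 (.lf (.cons w3 w2 w1 (.cons w7 w5 w4 (.cons w14 w10 w8 (.cons w29 w20 w17 (.cons w58 w40 w34 (.cons w113 w84 w69 (.cons w116 w81 w69 (.cons w18 w24 w18 (.cons w9 w3 w4 (.last w2 w1 w1)))))))))))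
 (.lf (.cons w3 w2 w1 (.cons w7 w5 w4 (.cons w14 w10 w8 (.cons w29 w20 w17 (.cons w18 w24 w9 (.cons w9 w3 w4 (.last w2 w1 w1))))))))
) (.n2 6547 (.n2 6160 (.lf (.cons w3 w2 w1 (.cons w7 w5 w4 (.cons w14 w10 w8 (.cons w29 w20 w17 (.cons w58 w40 w34 (.cons w113 w84 w69 (.cons w116 w81 w69 (.cons w18 w24 w18 (.cons w9 w3 w4 (.last w2 w1 w1)))))))))))
 (.lf (.cons w3 w2 w1 (.cons w7 w5 w4 (.cons w14 w10 w8 (.cons w29 w20 w17 (.cons w58 w40 w34 (.cons w18 w24 w18 (.cons w9 w3 w4 (.last w2 w1 w1)))))))))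
) (.n2 6934 (.lf (.cons w3 w2 w1 (.cons w7 w5 w4 (.cons w14 w10 w8 (.cons w29 w20 w17 (.cons w18 w12 w18 (.cons w9 w3 w4 (.last w2 w1 w1))))))))
 (.lf (.cons w3 w2 w1 (.cons w7 w5 w4 (.cons w28 w10 w17 (.cons w29 w40 w17 (.cons w18 w12 w9 (.cons w9 w3 w4 (.last w2 w1 w1))))))))
))) (.lf (.cons w3 w2 w1 (.cons w7 w5 w4 (.cons w14 w10 w8 (.cons w29 w20 w17 (.cons w58 w40 w34 (.cons w113 w84 w69 (.cons w116 w81 w69 (.cons w18 w24 w18 (.cons w9 w3 w4 (.last w2 w1 w1)))))))))))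
)) (.lf (.cons w3 w2 w1 (.cons w7 w5 w4 (.cons w14 w10 w8 (.cons w29 w20 w17 (.cons w18 w12 w9 (.cons w9 w6 w4 (.last w2 w1 w1))))))))
)

theorem c86 : Cov false false 43067 44585 37494 38815 5773 6547 5773 7321 5773 7321 :=
  Cov.chk t86 (by decide +kernel)

noncomputable def t91 : Tr :=
(.ny 39493 (.lf (.cons w3 w2 w1 (.cons w7 w5 w4 (.cons w28 w10 w17 (.cons w16 w7 w7 (.cons w32 w14 w14 (.cons w65 w29 w28 (.cons w18 w13 w9 (.cons w9 w6 w9 (.cons w4 w1 w1 (.last w2 w2 w2)))))))))))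
 (.lf (.cons w3 w2 w1 (.cons w7 w5 w4 (.cons w16 w7 w7 (.cons w32 w14 w14 (.cons w65 w29 w28 (.cons w37 w13 w18 (.cons w18 w13 w9 (.cons w9 w6 w9 (.last w2 w1 w1))))))))))
)

theorem c91 : Cov false false 40183 41600 38815 40183 5773 7321 5773 7321 5773 7321 :=
  Cov.chk t91 (by decide +kernel)

noncomputable def t102 : Tr :=
(.lf (.cons w2 w3 w3 (.cons w5 w3 w3 (.last w2 w1 w1))))


theorem c102 : Cov false false 89149 95545 89149 102400 5773 7321 5773 7321 5773 7321 :=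
  Cov.chk t102 (by decide +kernel)

noncomputable def t104 : Tr :=
(.lf (.cons w2 w3 w3 (.cons w5 w3 w3 (.cons w42 w25 w29 (.cons w9 w13 w9 (.last w2 w1 w1))))))


theorem c104 : Cov false false 95545 98913 95545 102400 5773 7321 5773 7321 5773 7321 :=
  Cov.chk t104 (by decide +kernel)

noncomputable def t107 : Tr :=
(.n1 6547 (.lf (.cons w2 w3 w3 (.cons w5 w3 w3 (.cons w9 w13 w18 (.cons w9 w6 w9 (.last w2 w1 w1))))))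
 (.n3 6547 (.lf (.cons w2 w3 w3 (.cons w5 w3 w3 (.cons w9 w13 w9 (.last w2 w1 w1)))))
 (.lf (.cons w2 w3 w3 (.cons w5 w3 w3 (.cons w7 w7 w11 (.last w2 w1 w1)))))
))

theorem c107 : Cov false false 100641 102400 98913 100641 5773 7321 5773 7321 5773 7321 :=
  Cov.chk t107 (by decide +kernel)

end Pool.Agent.MP_a07d0e_nt
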