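import Pool.Agent.Mg.Fa07d0e.G82d050
import Pool.Agent.Mg.Fa07d0e.G64a355
import Pool.Agent.Mg.Fa07d0e.G187e11

section

namespace Pool.Agent.MP_a07d0e_nt

theorem top0 : Cov false false 33792 102400 33792 102400 3660 4227 3660 4227 3660 4227 :=
  (Cov.nx 58824 c0 c1)

theorem top1 : Cov true false 33792 102400 33792 102400 3660 4227 3660 4227 3660 4227 :=
  c2

theorem top2 : Cov false true 33792 102400 33792 102400 3660 4227 3660 4227 3660 4227 :=
  c3

theorem top3 : Cov true true 33792 102400 33792 102400 3660 4227 3660 4227 3660 4227 :=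
  (Cov.nx 58824 c4 c5)

theorem top4 : Cov false false 33792 102400 33792 102400 5773 7321 3660 4227 3660 4227 :=
  (Cov.nx 58824 (Cov.nx 44585 (Cov.nx 38815 c6 (Cov.ny 38815 c7 (Cov.nx 41600 (Cov.nx 40183 c8 (Cov.ny 40183 c9 (Cov.n1 6547 c10 c11))) c12))) c13) c14)

theorem top5 : Cov true false 33792 102400 33792 102400 5773 7321 3660 4227 3660 4227 :=
  c15

theorem top6 : Cov false true 33792 102400 33792 102400 5773 7321 3660 4227 3660 4227 :=
  c16

theorem top7 : Cov true true 33792 102400 33792 102400 5773 7321 3660 4227 3660 4227 :=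
  (Cov.nx 58824 (Cov.nx 44585 c17 c18) (Cov.ny 58824 c19 c20))

theorem top8 : Cov false false 33792 102400 33792 102400 3660 4227 5773 7321 3660 4227 :=
  (Cov.nx 58824 c21 c22)

theorem top9 : Cov true false 33792 102400 33792 102400 3660 4227 5773 7321 3660 4227 :=
  c23

theorem top10 : Cov false true 33792 102400 33792 102400 3660 4227 5773 7321 3660 4227 :=
  c24

theorem top11 : Cov true true 33792 102400 33792 102400 3660 4227 5773 7321 3660 4227 :=
  (Cov.nx 58824 c25 c26)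

theorem top12 : Cov false false 33792 102400 33792 102400 5773 7321 5773 7321 3660 4227 :=
  (Cov.nx 58824 (Cov.nx 44585 (Cov.nx 38815 c27 (Cov.ny 38815 (Cov.ny 36217 c28 (Cov.nx 41600 c29 (Cov.nx 43067 c30 c31))) c32)) c33) c34)

theorem top13 : Cov true false 33792 102400 33792 102400 5773 7321 5773 7321 3660 4227 :=
  c35

theorem top14 : Cov false true 33792 102400 33792 102400 5773 7321 5773 7321 3660 4227 :=
  (Cov.nx 58824 c36 (Cov.ny 58824 (Cov.nx 77612 c37 (Cov.ny 44585 (Cov.nx 89149 c38 c39) c40)) c41))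

theorem top15 : Cov true true 33792 102400 33792 102400 5773 7321 5773 7321 3660 4227 :=
  (Cov.nx 58824 (Cov.nx 44585 (Cov.nx 38815 c42 c43) c44) (Cov.ny 58824 c45 c46))

theorem top16 : Cov false false 33792 102400 33792 102400 3660 4227 3660 4227 5773 7321 :=
  (Cov.nx 58824 c47 c48)

theorem top17 : Cov true false 33792 102400 33792 102400 3660 4227 3660 4227 5773 7321 :=
  c49

theorem top18 : Cov false true 33792 102400 33792 102400 3660 4227 3660 4227 5773 7321 :=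
  c50

theorem top19 : Cov true true 33792 102400 33792 102400 3660 4227 3660 4227 5773 7321 :=
  (Cov.nx 58824 c51 c52)

theorem top20 : Cov false false 33792 102400 33792 102400 5773 7321 3660 4227 5773 7321 :=
  (Cov.nx 58824 (Cov.nx 44585 (Cov.nx 38815 c53 (Cov.ny 38815 c54 (Cov.ny 41600 (Cov.nx 41600 c55 c56) c57))) c58) c59)

theorem top21 : Cov true false 33792 102400 33792 102400 5773 7321 3660 4227 5773 7321 :=
  c60

theorem top22 : Cov false true 33792 102400 33792 102400 5773 7321 3660 4227 5773 7321 :=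
  c61

theorem top23 : Cov true true 33792 102400 33792 102400 5773 7321 3660 4227 5773 7321 :=
  (Cov.nx 58824 c62 c63)

theorem top24 : Cov false false 33792 102400 33792 102400 3660 4227 5773 7321 5773 7321 :=
  (Cov.nx 58824 (Cov.nx 44585 (Cov.nx 38815 c64 (Cov.ny 38815 (Cov.nx 41600 c65 (Cov.ny 36217 c66 (Cov.nx 43067 (Cov.ny 37494 c67 c68) c69))) c70)) c71) c72)

theorem top25 : Cov true false 33792 102400 33792 102400 3660 4227 5773 7321 5773 7321 :=
  c73

theorem top26 : Cov false true 33792 102400 33792 102400 3660 4227 5773 7321 5773 7321 :=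
  c74

theorem top27 : Cov true true 33792 102400 33792 102400 3660 4227 5773 7321 5773 7321 :=
  (Cov.nx 58824 c75 (Cov.ny 58824 c76 c77))

theorem top28 : Cov false false 33792 102400 33792 102400 5773 7321 5773 7321 5773 7321 :=
  (Cov.nx 58824 (Cov.nx 44585 (Cov.nx 38815 c78 (Cov.ny 38815 (Cov.nx 41600 c79 (Cov.ny 36217 c80 (Cov.nx 43067 (Cov.ny 37494 (Cov.n1 6547 c81 c82) c83) (Cov.ny 37494 (Cov.n1 6547 c84 c85) (Cov.n1 6547 c86 (Cov.nx 43819 (Cov.ny 38149 c87 c88) c89)))))) (Cov.nx 41600 (Cov.nx 40183 c90 (Cov.ny 40183 c91 (Cov.n1 6547 c92 (Cov.nx 40885 c93 c94)))) c95))) c96) (Cov.ny 58824 c97 (Cov.nx 77612 c98 (Cov.ny 77612 c99 (Cov.nx 89149 c100 (Cov.ny 89149 c101 (Cov.nx 95545 c102 (Cov.ny 95545 c103 (Cov.nx 98913 c104 (Cov.ny 98913 c105 (Cov.nx 100641 c106 (Cov.ny 100641 c107 (Cov.n1 6547 c108 (Cov.n2 6547 c109 (Cov.n3 6547 c110 c111)))))))))))))))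

theorem top29 : Cov true false 33792 102400 33792 102400 5773 7321 5773 7321 5773 7321 :=
  c112

theorem top30 : Cov false true 33792 102400 33792 102400 5773 7321 5773 7321 5773 7321 :=
  (Cov.nx 58824 c113 (Cov.ny 58824 (Cov.nx 77612 c114 c115) c116))

theorem top31 : Cov true true 33792 102400 33792 102400 5773 7321 5773 7321 5773 7321 :=
  (Cov.nx 58824 c117 (Cov.ny 58824 c118 c119))

def aa (b : Bool) : ℕ := cond b 5773 3660
def bb (b : Bool) : ℕ := cond b 7321 4227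

theorem top_all (s2 s3 k1 k2 k3 : Bool) :
    Cov s2 s3 33792 102400 33792 102400 (aa k1) (bb k1) (aa k2) (bb k2) (aa k3) (bb k3) :=
  match s2, s3, k1, k2, k3 with
  | false, false, false, false, false => top0
  | true, false, false, false, false => top1
  | false, true, false, false, false => top2
  | true, true, false, false, false => top3
  | false, false, true, false, false => top4
  | true, false, true, false, false => top5
  | false, true, true, false, false => top6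
  | true, true, true, false, false => top7
  | false, false, false, true, false => top8
  | true, false, false, true, false => top9
  | false, true, false, true, false => top10
  | true, true, false, true, false => top11
  | false, false, true, true, false => top12
  | true, false, true, true, false => top13
  | false, true, true, true, false => top14
  | true, true, true, true, false => top15
  | false, false, false, false, true => top16
  | true, false, false, false, true => top17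
  | false, true, false, false, true => top18
  | true, true, false, false, true => top19
  | false, false, true, false, true => top20
  | true, false, true, false, true => top21
  | false, true, true, false, true => top22
  | true, true, true, false, true => top23
  | false, false, false, true, true => top24
  | true, false, false, true, true => top25
  | false, true, false, true, true => top26
  | true, true, false, true, true => top27
  | false, false, true, true, true => top28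
  | true, false, true, true, true => top29
  | false, true, true, true, true => top30
  | true, true, true, true, true => top31

end Pool.Agent.MP_a07d0e_nt

end

section

namespace Pool.Agent.MP_a07d0e_nt

def Apx (u1 u2 u3 : St) (τ ε : ℝ) : Prop :=
  ∃ t1 ∈ E, ∃ t2 ∈ E, ∃ t3 ∈ E, |u1.f t1 + u2.f t2 + u3.f t3 - τ| ≤ ε

lemma f_close {s : St} (h : InI s.r) {p q : ℝ} (hp : InI p) (hq : InI q) :
    |s.f p - s.f q| ≤ s.L := by
  have hr := h.nonneg
  have hp0 := hp.nonneg
  have hq0 := hq.nonneg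
  rw [f_sub hr hp0 hq0, abs_div, abs_mul,
    abs_of_pos (by positivity : 0 < (1 + s.r * p) * (1 + s.r * q))]
  simp only [St.L, St.D]
  have h1 : |p - q| ≤ 38 / 100 := by
    have := hp.1; have := hp.2; have := hq.1; have := hq.2
    rw [abs_le]; constructor <;> linarith
  have h2 : 1 ≤ (1 + s.r * p) * (1 + s.r * q) := by
    nlinarith [mul_nonneg hr hp0, mul_nonneg hr hq0, mul_nonneg (mul_nonneg hr hp0) (mul_nonneg hr hq0)]
  have h3 : (1 + s.r * (57 / 100)) ^ 2 ≤ 5 / 2 := by have := h.2; nlinarith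
  have hW := abs_nonneg s.W
  calc |s.W| * |p - q| / ((1 + s.r * p) * (1 + s.r * q)) ≤ |s.W| * |p - q| :=
        div_le_self (by positivity) h2
    _ ≤ |s.W| * (38 / 100) := mul_le_mul_of_nonneg_left h1 hW
    _ ≤ |s.W| / (5 / 2) := by linarith
    _ ≤ _ := div_le_div_of_nonneg_left hW (by positivity) h3

lemma lo_close {s : St} (h : InI s.r) {p : ℝ} (hp : InI p) :
    s.f p - s.lo ≤ s.L ∧ s.hi - s.f p ≤ s.L := by
  have hA : InI (46 / 100) := by constructor <;> norm_num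
  have hB : InI (67 / 100) := by constructor <;> norm_num
  have h1 := abs_le.1 (f_close h hp hA)
  have h2 := abs_le.1 (f_close h hp hB)
  simp only [St.lo, St.hi]
  split_ifs <;> constructor <;> linarith [h1.1, h1.2, h2.1, h2.2]

lemma apx_base {u1 u2 u3 : St} {τ : ℝ} (G : Good u1 u2 u3 τ) :
    Apx u1 u2 u3 τ (u1.L + u2.L + u3.L) := by
  obtain ⟨t, ht⟩ := E_nonempty
  have h1 := lo_close G.x1.1 (E_InI ht)
  have h2 := lo_close G.x2.1 (E_InI ht)
  have h3 := lo_close G.x3.1 (E_InI ht)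
  refine ⟨t, ht, t, ht, t, ht, ?_⟩
  have := G.lo; have := G.hi
  rw [abs_le]; constructor <;> linarith [h1.1, h1.2, h2.1, h2.2, h3.1, h3.2]

def St.neg (s : St) : St := ⟨-s.c, -s.W, s.r⟩

lemma neg_f (s : St) (t : ℝ) : s.neg.f t = -s.f t := by simp only [St.neg, St.f]; ring

lemma neg_L (s : St) : s.neg.L = s.L := by simp only [St.neg, St.L, St.D, abs_neg]

lemma neg_lo {s : St} (h : s.W ≠ 0) : s.neg.lo = -s.hi ∧ s.neg.hi = -s.lo := by
  simp only [St.lo, St.hi, neg_f]
  have e : s.neg.W = -s.W := rfl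
  rw [e]
  rcases lt_or_gt_of_ne h with h | h
  · simp [h, not_lt.2 h.le]
  · simp [h, not_lt.2 h.le]

lemma Good.neg {u1 u2 u3 : St} {τ : ℝ} (G : Good u1 u2 u3 τ) :
    Good u1.neg u2.neg u3.neg (-τ) := by
  refine ⟨G.x1, G.x2, G.x3, neg_ne_zero.2 G.w1, neg_ne_zero.2 G.w2, neg_ne_zero.2 G.w3,
    ?_, ?_, ?_, ?_, ?_, ?_, ?_, ?_⟩
  · simpa only [neg_L] using G.r12
  · simpa only [neg_L] using G.r21
  · simpa only [neg_L] using G.r13
  · simpa only [neg_L] using G.r31
  · simpa only [neg_L] using G.r23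
  · simpa only [neg_L] using G.r32
  · rw [(neg_lo G.w1).1, (neg_lo G.w2).1, (neg_lo G.w3).1]; have := G.hi; linarith
  · rw [(neg_lo G.w1).2, (neg_lo G.w2).2, (neg_lo G.w3).2]; have := G.lo; linarith

lemma Apx.of_neg {u1 u2 u3 : St} {τ ε : ℝ} (h : Apx u1.neg u2.neg u3.neg (-τ) ε) :
    Apx u1 u2 u3 τ ε := by
  obtain ⟨t1, h1, t2, h2, t3, h3, h⟩ := h
  refine ⟨t1, h1, t2, h2, t3, h3, ?_⟩
  simp only [neg_f] at h
  rw [← abs_neg]; convert h using 2; ring

lemma Good.s12 {u1 u2 u3 : St} {τ : ℝ} (G : Good u1 u2 u3 τ) : Good u2 u1 u3 τ :=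
  ⟨G.x2, G.x1, G.x3, G.w2, G.w1, G.w3, G.r21, G.r12, G.r23, G.r32, G.r13, G.r31,
    by have := G.lo; linarith, by have := G.hi; linarith⟩

lemma Good.s23 {u1 u2 u3 : St} {τ : ℝ} (G : Good u1 u2 u3 τ) : Good u1 u3 u2 τ :=
  ⟨G.x1, G.x3, G.x2, G.w1, G.w3, G.w2, G.r13, G.r31, G.r12, G.r21, G.r32, G.r23,
    by have := G.lo; linarith, by have := G.hi; linarith⟩

lemma Apx.s12 {u1 u2 u3 : St} {τ ε : ℝ} (h : Apx u2 u1 u3 τ ε) : Apx u1 u2 u3 τ ε := by
  obtain ⟨t1, h1, t2, h2, t3, h3, h⟩ := h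
  exact ⟨t2, h2, t1, h1, t3, h3, by convert h using 2; ring⟩

lemma Apx.s23 {u1 u2 u3 : St} {τ ε : ℝ} (h : Apx u1 u3 u2 τ ε) : Apx u1 u2 u3 τ ε := by
  obtain ⟨t1, h1, t2, h2, t3, h3, h⟩ := h
  exact ⟨t1, h1, t3, h3, t2, h2, by convert h using 2; ring⟩

lemma exists_Sg {s : St} (h : s.W ≠ 0) : ∃ b, Sg b s := by
  rcases lt_or_gt_of_ne h with h | h
  · exact ⟨true, by simpa [Sg] using h⟩
  · exact ⟨false, by simpa [Sg] using h⟩

lemma exists_cls {r : ℝ} (h : InX r) : ∃ k, (aa k : ℝ) ≤ 10000 * r ∧ 10000 * r ≤ bb k := by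
  obtain ⟨⟨h1, h2⟩, h | h⟩ := h
  · exact ⟨false, by simp only [aa, bb, cond_false]; push_cast; constructor <;> linarith⟩
  · exact ⟨true, by simp only [aa, bb, cond_true]; push_cast; constructor <;> linarith⟩

lemma next_sorted {u1 u2 u3 : St} {τ : ℝ} (G : Good u1 u2 u3 τ) (hW : 0 < u1.W)
    (h21 : u2.L ≤ u1.L) (h32 : u3.L ≤ u2.L) : Next u1 u2 u3 τ := by
  obtain ⟨s2, g2⟩ := exists_Sg G.w2
  obtain ⟨s3, g3⟩ := exists_Sg G.w3
  obtain ⟨k1, a1, b1⟩ := exists_cls G.x1
  obtain ⟨k2, a2, b2⟩ := exists_cls G.x2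
  obtain ⟨k3, a3, b3⟩ := exists_cls G.x3
  refine top_all s2 s3 k1 k2 k3 u1 u2 u3 τ G h32
    ⟨by simpa [Sg] using hW, g2, g3, ?_, ?_, ?_, ?_, a1, b1, a2, b2, a3, b3⟩
  · have := G.r12; push_cast; linarith
  · push_cast; linarith
  · have := G.r13; push_cast; linarith
  · push_cast; linarith

theorem apx (n : ℕ) : ∀ (u1 u2 u3 : St) (τ : ℝ), Good u1 u2 u3 τ →
    Apx u1 u2 u3 τ ((5 / 6) ^ n * (u1.L + u2.L + u3.L)) := by
  induction n with
  | zero => intro u1 u2 u3 τ G; simpa using apx_base G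
  | succ n ih =>
    have key : ∀ (u1 u2 u3 : St) (τ : ℝ), Good u1 u2 u3 τ → 0 < u1.W → u2.L ≤ u1.L →
        u3.L ≤ u2.L → Apx u1 u2 u3 τ ((5 / 6) ^ (n + 1) * (u1.L + u2.L + u3.L)) := by
      intro u1 u2 u3 τ G hW h21 h32
      obtain ⟨l1, l2, l3, hl, G'⟩ := next_sorted G hW h21 h32
      obtain ⟨t1, h1, t2, h2, t3, h3, h⟩ := ih _ _ _ _ G'
      rw [f_child l1 G.x1.1.nonneg (E_InI h1).nonneg, f_child l2 G.x2.1.nonneg (E_InI h2).nonneg,
        f_child l3 G.x3.1.nonneg (E_InI h3).nonneg] at h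
      refine ⟨_, wd_mem l1 h1, _, wd_mem l2 h2, _, wd_mem l3 h3, h.trans ?_⟩
      have m1 := L_child_ne hl G.x1.1
      have m2 := L_child l2 G.x2.1
      have m3 := L_child l3 G.x3.1
      rw [pow_succ, mul_assoc]
      apply mul_le_mul_of_nonneg_left _ (by positivity)
      linarith
    have key2 : ∀ (u1 u2 u3 : St) (τ : ℝ), Good u1 u2 u3 τ → u2.L ≤ u1.L →
        u3.L ≤ u2.L → Apx u1 u2 u3 τ ((5 / 6) ^ (n + 1) * (u1.L + u2.L + u3.L)) := by
      intro u1 u2 u3 τ G h21 h32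
      rcases lt_or_gt_of_ne G.w1 with h | h
      · have := key _ _ _ _ G.neg (neg_pos.2 h) (by simpa only [neg_L] using h21)
          (by simpa only [neg_L] using h32)
        simp only [neg_L] at this
        exact this.of_neg
      · exact key _ _ _ _ G h h21 h32
    have key3 : ∀ (u1 u2 u3 : St) (τ : ℝ), Good u1 u2 u3 τ → u2.L ≤ u1.L →
        u3.L ≤ u1.L → Apx u1 u2 u3 τ ((5 / 6) ^ (n + 1) * (u1.L + u2.L + u3.L)) := by
      intro u1 u2 u3 τ G h21 h31
      rcases le_total u3.L u2.L with h | h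
      · exact key2 _ _ _ _ G h21 h
      · have := (key2 _ _ _ _ G.s23 h31 h).s23
        rwa [show u1.L + u3.L + u2.L = u1.L + u2.L + u3.L by ring] at this
    intro u1 u2 u3 τ G
    by_cases c1 : u2.L ≤ u1.L ∧ u3.L ≤ u1.L
    · exact key3 _ _ _ _ G c1.1 c1.2
    by_cases c2 : u1.L ≤ u2.L ∧ u3.L ≤ u2.L
    · have := (key3 _ _ _ _ G.s12 c2.1 c2.2).s12
      rwa [show u2.L + u1.L + u3.L = u1.L + u2.L + u3.L by ring] at this
    · have c3 : u1.L ≤ u3.L ∧ u2.L ≤ u3.L := by
        rw [not_and_or, not_le, not_le] at c1 c2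
        rcases c1 with c1 | c1 <;> rcases c2 with c2 | c2 <;> constructor <;> linarith
      have := (key3 _ _ _ _ G.s23.s12 c3.1 c3.2).s12.s23
      rwa [show u3.L + u1.L + u2.L = u1.L + u2.L + u3.L by ring] at this

lemma f_contOn {s : St} (hr : 0 ≤ s.r) : ContinuousOn s.f E := by
  apply ContinuousOn.add continuousOn_const
  apply ContinuousOn.div (by fun_prop) (by fun_prop)
  intro t ht
  have := (E_InI ht).nonneg
  positivity

theorem exists_sol {u1 u2 u3 : St} {τ : ℝ} (G : Good u1 u2 u3 τ) :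
    ∃ t1 ∈ E, ∃ t2 ∈ E, ∃ t3 ∈ E, u1.f t1 + u2.f t2 + u3.f t3 = τ := by
  have c1 := E_compact.image_of_continuousOn (f_contOn G.x1.1.nonneg)
  have c2 := E_compact.image_of_continuousOn (f_contOn G.x2.1.nonneg)
  have c3 := E_compact.image_of_continuousOn (f_contOn G.x3.1.nonneg)
  have hK := ((c1.add c2).add c3).isClosed
  have hmem := hK.closure_subset (a := τ) (by
    rw [Metric.mem_closure_iff]
    intro ε hε
    have hC : 0 ≤ u1.L + u2.L + u3.L := by
      have := L_nonneg u1; have := L_nonneg u2; have := L_nonneg u3; linarith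
    obtain ⟨n, hn⟩ := exists_pow_lt_of_lt_one (x := ε / (u1.L + u2.L + u3.L + 1))
      (y := (5 / 6 : ℝ)) (by positivity) (by norm_num)
    obtain ⟨t1, h1, t2, h2, t3, h3, h⟩ := apx n _ _ _ _ G
    refine ⟨u1.f t1 + u2.f t2 + u3.f t3, Set.add_mem_add (Set.add_mem_add ⟨t1, h1, rfl⟩
      ⟨t2, h2, rfl⟩) ⟨t3, h3, rfl⟩, ?_⟩
    rw [dist_comm, Real.dist_eq]
    rw [lt_div_iff₀ (by positivity)] at hn
    have : (0 : ℝ) < (5 / 6) ^ n := by positivity
    nlinarith)
  obtain ⟨_, ⟨_, ⟨t1, h1, rfl⟩, _, ⟨t2, h2, rfl⟩, rfl⟩, _, ⟨t3, h3, rfl⟩, h⟩ := hmem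
  exact ⟨t1, h1, t2, h2, t3, h3, h⟩

end Pool.Agent.MP_a07d0e_nt

end

section

namespace Pool.Agent.MP_a07d0e_nt

noncomputable def ts : ℝ := (Real.sqrt 10 - 2) / 3
noncomputable def tp : ℝ := (Real.sqrt 10 - 2) / 2
noncomputable def ta : ℝ := (Real.sqrt 10 - 1) / 3

lemma sq10 : Real.sqrt 10 * Real.sqrt 10 = 10 := Real.mul_self_sqrt (by norm_num)

lemma sq10_bd : 3162 / 1000 ≤ Real.sqrt 10 ∧ Real.sqrt 10 ≤ 3163 / 1000 := by
  have h := sq10
  have h0 := Real.sqrt_nonneg 10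
  constructor <;> nlinarith

lemma ts_bd : 387 / 1000 ≤ ts ∧ ts ≤ 388 / 1000 := by
  have := sq10_bd; simp only [ts]; constructor <;> linarith [this.1, this.2]

lemma tp_bd : 581 / 1000 ≤ tp ∧ tp ≤ 582 / 1000 := by
  have := sq10_bd; simp only [tp]; constructor <;> linarith [this.1, this.2]

lemma ta_bd : 72 / 100 ≤ ta ∧ ta ≤ 73 / 100 := by
  have := sq10_bd; simp only [ta]; constructor <;> linarith [this.1, this.2]

lemma e1 : 1 / (dg false + ts) = ta := by
  have := ts_bd.1; have h := sq10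
  simp only [dg, Bool.false_eq_true, if_false]
  rw [div_eq_iff (by linarith)]; simp only [ts, ta]; nlinarith

lemma e2 : 1 / (dg false + ta) = tp := by
  have := ta_bd.1; have h := sq10
  simp only [dg, Bool.false_eq_true, if_false]
  rw [div_eq_iff (by linarith)]; simp only [tp, ta]; nlinarith

lemma e3 : 1 / (dg true + tp) = ts := by
  have := tp_bd.1; have h := sq10
  simp only [dg, if_true]
  rw [div_eq_iff (by linarith)]; simp only [ts, tp]; nlinarith

def PP : List Bool := [true, false, false, true, false, false]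
def QQ : List Bool := [false, false, true, false, false, true]

noncomputable def lam : ℝ := ((2 + tp) * (1 + ta) * (1 + ts)) ^ 2

lemma wd_PP : wd PP ts = ts ∧ den PP ts = lam := by
  simp only [PP, wd, den, e1, e2, e3, true_and]
  simp only [lam, dg, Bool.false_eq_true, if_false, if_true]; ring

lemma wd_QQ : wd QQ tp = tp ∧ den QQ tp = lam := by
  simp only [QQ, wd, den, e1, e2, e3, true_and]
  simp only [lam, dg, Bool.false_eq_true, if_false, if_true]; ring

lemma lam_ge : 2 ≤ lam ^ 2 := by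
  have h1 := tp_bd.1; have h2 := ta_bd.1; have h3 := ts_bd.1
  have : 2 ≤ (2 + tp) * (1 + ta) * (1 + ts) := by
    have : 2 ≤ (2 + tp) * (1 + ta) := by nlinarith
    nlinarith
  have : 2 ≤ lam := by simp only [lam]; nlinarith
  nlinarith

structure J (u1 u2 u3 : St) (y δ : ℝ) : Prop where
  r1 : 0 ≤ u1.r
  r2 : 0 ≤ u2.r
  r3 : 0 ≤ u3.r
  g1 : Sg false u1
  g2 : Sg false u2
  g3 : Sg false u3
  sum : u1.f ts + u2.f ts + u3.f tp = 1
  d2 : 5 * u2.D ts = 2 * u1.D ts
  d3 : 5 * u3.D tp = 2 * u1.D ts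
  c1 : ∀ t ∈ E, ∃ t' ∈ E, u1.f t = 1 / ((3 : ℤ) + 1 / ((1 : ℤ) + t'))
  c2 : ∀ t ∈ E, ∃ t' ∈ E, u2.f t = 1 / ((3 : ℤ) + 1 / ((2 : ℤ) + t'))
  c3 : ∀ t ∈ E, ∃ t' ∈ E, u3.f t = 1 / ((2 : ℤ) + 1 / ((3 : ℤ) + t'))
  hy : u2.f ts = y
  hδ : u2.D ts ≤ δ

lemma D_nonneg (s : St) (t : ℝ) : 0 ≤ s.D t := by simp only [St.D]; positivity

lemma J.next {u1 u2 u3 : St} {y δ : ℝ} (h : J u1 u2 u3 y δ) :
    J (child PP u1) (child PP u2) (child QQ u3) y (δ / 2) := by
  have hs : 0 ≤ ts := by have := ts_bd.1; linarith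
  have hp : 0 ≤ tp := by have := tp_bd.1; linarith
  have hl := lam_ge
  refine ⟨child_r_nonneg _ h.r1, child_r_nonneg _ h.r2, child_r_nonneg _ h.r3,
    Sg_child PP h.r1 h.g1, Sg_child PP h.r2 h.g2, Sg_child QQ h.r3 h.g3, ?_, ?_, ?_, ?_, ?_, ?_,
    ?_, ?_⟩
  · rw [f_child _ h.r1 hs, f_child _ h.r2 hs, f_child _ h.r3 hp, wd_PP.1, wd_QQ.1]; exact h.sum
  · rw [D_child _ h.r1 hs, D_child _ h.r2 hs, wd_PP.1, wd_PP.2, ← mul_div_assoc, h.d2,
      mul_div_assoc]
  · rw [D_child _ h.r1 hs, D_child _ h.r3 hp, wd_PP.1, wd_PP.2, wd_QQ.1, wd_QQ.2,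
      ← mul_div_assoc, h.d3, mul_div_assoc]
  · intro t ht; rw [f_child _ h.r1 (E_InI ht).nonneg]; exact h.c1 _ (wd_mem _ ht)
  · intro t ht; rw [f_child _ h.r2 (E_InI ht).nonneg]; exact h.c2 _ (wd_mem _ ht)
  · intro t ht; rw [f_child _ h.r3 (E_InI ht).nonneg]; exact h.c3 _ (wd_mem _ ht)
  · rw [f_child _ h.r2 hs, wd_PP.1]; exact h.hy
  · rw [D_child _ h.r2 hs, wd_PP.1, wd_PP.2]
    have h0 := D_nonneg u2 ts
    have := h.hδ
    calc u2.D ts / lam ^ 2 ≤ u2.D ts / 2 := div_le_div_of_nonneg_left h0 (by norm_num) hl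
      _ ≤ δ / 2 := by linarith

noncomputable def v0 : St := ⟨0, 1, 0⟩
noncomputable def v1 : St := step 1 (step 3 v0)
noncomputable def v2 : St := step 2 (step 3 v0)
noncomputable def v3 : St := step 3 (step 2 v0)

lemma v_f {d e : ℝ} (hd : 1 ≤ d) (he : 1 ≤ e) {t : ℝ} (ht : 0 ≤ t) :
    (step e (step d v0)).f t = 1 / (d + 1 / (e + t)) ∧
      (step e (step d v0)).D t = 1 / (d * (e + t) + 1) ^ 2 := by
  have h0 : 0 ≤ v0.r := le_rfl
  have h1 := step_r_nonneg hd h0
  have h2 : 0 ≤ 1 / (e + t) := by positivity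
  rw [f_step he h1 ht, f_step hd h0 h2, D_step he h1 ht, D_step hd h0 h2]
  simp only [v0, St.f, St.D]
  have : e + t ≠ 0 := by positivity
  have : d * (e + t) + 1 ≠ 0 := by positivity
  constructor
  · simp
  · simp only [abs_one, zero_mul, add_zero, one_pow]
    field_simp

lemma J_base : J v1 v2 v3 (v2.f ts) (v2.D ts) := by
  have hs : 0 ≤ ts := by have := ts_bd.1; linarith
  have hp : 0 ≤ tp := by have := tp_bd.1; linarith
  have h0 : 0 ≤ v0.r := le_rfl
  have g0 : Sg false v0 := by simp [Sg, v0]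
  have n3 : (1 : ℝ) ≤ 3 := by norm_num
  have n2 : (1 : ℝ) ≤ 2 := by norm_num
  have n1 : (1 : ℝ) ≤ 1 := le_rfl
  have h := sq10
  have hb := sq10_bd.1
  have a1 : 3 * (1 + ts) + 1 = 2 + Real.sqrt 10 := by simp only [ts]; ring
  have a2 : 3 * (2 + ts) + 1 = 5 + Real.sqrt 10 := by simp only [ts]; ring
  have a3 : 2 * (3 + tp) + 1 = 5 + Real.sqrt 10 := by simp only [tp]; ring
  have dd : 5 * (1 / (5 + Real.sqrt 10) ^ 2) = 2 * (1 / (2 + Real.sqrt 10) ^ 2) := by
    field_simp; nlinarith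
  refine ⟨step_r_nonneg n1 (step_r_nonneg n3 h0), step_r_nonneg n2 (step_r_nonneg n3 h0),
    step_r_nonneg n3 (step_r_nonneg n2 h0),
    Sg_step n1 (step_r_nonneg n3 h0) (Sg_step n3 h0 g0),
    Sg_step n2 (step_r_nonneg n3 h0) (Sg_step n3 h0 g0),
    Sg_step n3 (step_r_nonneg n2 h0) (Sg_step n2 h0 g0), ?_, ?_, ?_, ?_, ?_, ?_, rfl, le_rfl⟩
  · rw [v1, v2, v3, (v_f n3 n1 hs).1, (v_f n3 n2 hs).1, (v_f n2 n3 hp).1]
    have b1 : 1 / (3 + 1 / (1 + ts)) = (8 - Real.sqrt 10) / 18 := by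
      have : 1 / (3 + 1 / (1 + ts)) = (1 + ts) / (3 * (1 + ts) + 1) := by field_simp
      rw [this, a1, div_eq_iff (by linarith)]; simp only [ts]; nlinarith
    have b2 : 1 / (3 + 1 / (2 + ts)) = (10 + Real.sqrt 10) / 45 := by
      have : 1 / (3 + 1 / (2 + ts)) = (2 + ts) / (3 * (2 + ts) + 1) := by field_simp
      rw [this, a2, div_eq_iff (by linarith)]; simp only [ts]; nlinarith
    have b3 : 1 / (2 + 1 / (3 + tp)) = (10 + Real.sqrt 10) / 30 := by
      have : 1 / (2 + 1 / (3 + tp)) = (3 + tp) / (2 * (3 + tp) + 1) := by field_simp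
      rw [this, a3, div_eq_iff (by linarith)]; simp only [tp]; nlinarith
    rw [b1, b2, b3]; ring
  · rw [v1, v2, (v_f n3 n1 hs).2, (v_f n3 n2 hs).2, a1, a2]; exact dd
  · rw [v1, v3, (v_f n3 n1 hs).2, (v_f n2 n3 hp).2, a1, a3]; exact dd
  · intro t ht
    exact ⟨t, ht, by rw [v1, (v_f n3 n1 (E_InI ht).nonneg).1]; push_cast; rfl⟩
  · intro t ht
    exact ⟨t, ht, by rw [v2, (v_f n3 n2 (E_InI ht).nonneg).1]; push_cast; rfl⟩
  · intro t ht
    exact ⟨t, ht, by rw [v3, (v_f n2 n3 (E_InI ht).nonneg).1]; push_cast; rfl⟩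

lemma InI_base : InI (child PP v1).r ∧ InI (child PP v2).r ∧ InI (child QQ v3).r := by
  simp only [PP, QQ, child, v0, v1, v2, v3, step, dg, InI, Bool.false_eq_true, if_false, if_true]
  norm_num

lemma J_all (n : ℕ) : ∃ u1 u2 u3, J u1 u2 u3 (v2.f ts) (v2.D ts / 2 ^ n) ∧
    InI u1.r ∧ InI u2.r ∧ InI u3.r := by
  induction n with
  | zero =>
    refine ⟨_, _, _, { J_base.next with hδ := ?_ }, InI_base⟩
    have := J_base.next.hδ
    have := D_nonneg v2 ts
    simp only [pow_zero, div_one]; linarith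
  | succ n ih =>
    obtain ⟨u1, u2, u3, h, i1, i2, i3⟩ := ih
    refine ⟨_, _, _, ?_, InI_child PP i1, InI_child PP i2, InI_child QQ i3⟩
    have := h.next
    rwa [div_div, ← pow_succ] at this

lemma f_sub_D {s : St} (hr : 0 ≤ s.r) (h : Sg false s) {p t : ℝ} (hp : 0 ≤ p) (ht : 0 ≤ t) :
    s.f p - s.f t = s.D t * ((p - t) * ((1 + s.r * t) / (1 + s.r * p))) := by
  rw [f_sub hr hp ht]
  have hW : 0 < s.W := by simpa [Sg] using h
  simp only [St.D, abs_of_pos hW]
  have h1 : 1 + s.r * p ≠ 0 := by positivity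
  have h2 : 1 + s.r * t ≠ 0 := by positivity
  field_simp

lemma f_concave {s : St} (hr : 0 ≤ s.r) (h : Sg false s) {p t : ℝ} (hp : 0 ≤ p) (ht : 0 ≤ t) :
    s.f p - s.f t ≤ s.D t * (p - t) := by
  rw [f_sub_D hr h hp ht]
  apply mul_le_mul_of_nonneg_left _ (D_nonneg _ _)
  rw [← mul_div_assoc, div_le_iff₀ (by positivity)]
  nlinarith [mul_nonneg hr (sq_nonneg (p - t))]

lemma L_step_D {s : St} (hr : 0 ≤ s.r) {d t a b : ℝ} (hd : 1 ≤ d) (ht : 0 ≤ t) (ha : 0 ≤ a)
    (h1 : a * (d + 57 / 100 + s.r) ≤ 1 + s.r * t) (h2 : 1 + s.r * t ≤ b * (d + 57 / 100 + s.r)) :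
    a ^ 2 * s.D t ≤ (step d s).L ∧ (step d s).L ≤ b ^ 2 * s.D t := by
  have e : (step d s).L = ((1 + s.r * t) / (d + 57 / 100 + s.r)) ^ 2 * s.D t := by
    simp only [St.L]
    rw [D_step hd hr (by norm_num)]
    simp only [St.D]
    have : 1 + s.r * t ≠ 0 := by positivity
    have : d + 57 / 100 ≠ 0 := by positivity
    have : d + 57 / 100 + s.r ≠ 0 := by positivity
    have e : (1 + s.r * (1 / (d + 57 / 100))) ^ 2 * (d + 57 / 100) ^ 2
        = (d + 57 / 100 + s.r) ^ 2 := by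
      field_simp
    rw [div_div, e, div_pow, div_mul_div_comm, mul_comm ((1 + s.r * t) ^ 2),
      mul_div_mul_right _ _ (pow_ne_zero 2 ‹1 + s.r * t ≠ 0›)]
  have hp : 0 < d + 57 / 100 + s.r := by positivity
  rw [e]
  have k1 : a ≤ (1 + s.r * t) / (d + 57 / 100 + s.r) := by rwa [le_div_iff₀ hp]
  have k2 : (1 + s.r * t) / (d + 57 / 100 + s.r) ≤ b := by rwa [div_le_iff₀ hp]
  have := D_nonneg s t
  have k3 := ha.trans k1
  constructor <;> gcongr

lemma side_good {u1 u2 u3 : St} {y δ : ℝ} (h : J u1 u2 u3 y δ) (i1 : InI u1.r) (i2 : InI u2.r)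
    (i3 : InI u3.r) : Good (step (dg true) u1) (step (dg false) u2) (step (dg true) u3) 1 := by
  obtain ⟨s0, s1⟩ := ts_bd
  obtain ⟨p0, p1⟩ := tp_bd
  have hs : 0 ≤ ts := by linarith
  have hp : 0 ≤ tp := by linarith
  have g1 : (step (dg true) u1).W < 0 := by simpa [Sg] using Sg_step (dg_ge true) h.r1 h.g1
  have g2 : (step (dg false) u2).W < 0 := by simpa [Sg] using Sg_step (dg_ge false) h.r2 h.g2
  have g3 : (step (dg true) u3).W < 0 := by simpa [Sg] using Sg_step (dg_ge true) h.r3 h.g3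
  have d2 : dg true = 2 := by simp [dg]
  have d1 : dg false = 1 := by simp [dg]
  obtain ⟨a1, b1⟩ := i1
  obtain ⟨a2, b2⟩ := i2
  obtain ⟨a3, b3⟩ := i3
  obtain ⟨l1, m1⟩ := L_step_D h.r1 (dg_ge true) hs (a := 38 / 100) (b := 40 / 100) (by norm_num)
    (by rw [d2]; nlinarith) (by rw [d2]; nlinarith)
  obtain ⟨l2, m2⟩ := L_step_D h.r2 (dg_ge false) hs (a := 55 / 100) (b := 60 / 100) (by norm_num)
    (by rw [d1]; nlinarith) (by rw [d1]; nlinarith)
  obtain ⟨l3, m3⟩ := L_step_D h.r3 (dg_ge true) hp (a := 41 / 100) (b := 44 / 100) (by norm_num)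
    (by rw [d2]; nlinarith) (by rw [d2]; nlinarith)
  have hD := D_nonneg u1 ts
  have hD2 := D_nonneg u2 ts
  have hD3 := D_nonneg u3 tp
  have k2 := h.d2
  have k3 := h.d3
  have hsum := h.sum
  refine ⟨InX_T true ⟨a1, b1⟩, InX_T false ⟨a2, b2⟩, InX_T true ⟨a3, b3⟩, g1.ne, g2.ne, g3.ne,
    by linarith, by linarith, by linarith, by linarith, by linarith, by linarith, ?_, ?_⟩
  · simp only [St.lo, g1, g2, g3, if_true]
    rw [f_step (dg_ge _) h.r1 (by norm_num), f_step (dg_ge _) h.r2 (by norm_num),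
      f_step (dg_ge _) h.r3 (by norm_num), d1, d2]
    have c1 := f_concave h.r1 h.g1 (p := 1 / (2 + 67 / 100)) (by norm_num) hs
    have c2 := f_concave h.r2 h.g2 (p := 1 / (1 + 67 / 100)) (by norm_num) hs
    have c3 := f_concave h.r3 h.g3 (p := 1 / (2 + 67 / 100)) (by norm_num) hp
    have t1 : u1.D ts * (1 / (2 + 67 / 100) - ts) ≤ u1.D ts * (-(12 / 1000)) :=
      mul_le_mul_of_nonneg_left (by norm_num; linarith) hD
    have t2 : u2.D ts * (1 / (1 + 67 / 100) - ts) ≤ u2.D ts * (212 / 1000) :=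
      mul_le_mul_of_nonneg_left (by norm_num; linarith) hD2
    have t3 : u3.D tp * (1 / (2 + 67 / 100) - tp) ≤ u3.D tp * (-(206 / 1000)) :=
      mul_le_mul_of_nonneg_left (by norm_num; linarith) hD3
    linarith
  · simp only [St.hi, g1, g2, g3, if_true]
    rw [f_step (dg_ge _) h.r1 (by norm_num), f_step (dg_ge _) h.r2 (by norm_num),
      f_step (dg_ge _) h.r3 (by norm_num), d1, d2]
    have c1 := f_sub_D h.r1 h.g1 (p := 1 / (2 + 46 / 100)) (by norm_num) hs
    have c2 := f_sub_D h.r2 h.g2 (p := 1 / (1 + 46 / 100)) (by norm_num) hs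
    have c3 := f_sub_D h.r3 h.g3 (p := 1 / (2 + 46 / 100)) (by norm_num) hp
    have r1 := h.r1
    have r2 := h.r2
    have r3 := h.r3
    have t1 : u1.D ts * 0 ≤ u1.D ts * ((1 / (2 + 46 / 100) - ts) *
        ((1 + u1.r * ts) / (1 + u1.r * (1 / (2 + 46 / 100))))) :=
      mul_le_mul_of_nonneg_left (mul_nonneg (by norm_num; linarith) (by positivity)) hD
    have t2 : u2.D ts * ((29 / 100) * (84 / 100)) ≤ u2.D ts * ((1 / (1 + 46 / 100) - ts) *
        ((1 + u2.r * ts) / (1 + u2.r * (1 / (1 + 46 / 100))))) := by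
      apply mul_le_mul_of_nonneg_left _ hD2
      apply mul_le_mul (by norm_num; linarith) _ (by norm_num) (by norm_num; linarith)
      rw [le_div_iff₀ (by positivity)]
      norm_num
      nlinarith
    have t3 : u3.D tp * (-((18 / 100) * (12 / 10))) ≤ u3.D tp * ((1 / (2 + 46 / 100) - tp) *
        ((1 + u3.r * tp) / (1 + u3.r * (1 / (2 + 46 / 100))))) := by
      apply mul_le_mul_of_nonneg_left _ hD3
      have q1 : (tp - 1 / (2 + 46 / 100)) *
          ((1 + u3.r * tp) / (1 + u3.r * (1 / (2 + 46 / 100)))) ≤ (18 / 100) * (12 / 10) := by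
        apply mul_le_mul (by norm_num; linarith) _ (by positivity) (by norm_num)
        rw [div_le_iff₀ (by positivity)]
        norm_num
        nlinarith
      linarith
    linarith

theorem near_sol {j : ℕ} (hj : 2 ≤ j) (n : ℕ) :
    ∃ p ∈ Sset j, 0 < p.2.1 - v2.f ts ∧ p.2.1 - v2.f ts ≤ v2.D ts / 2 ^ n := by
  obtain ⟨u1, u2, u3, h, i1, i2, i3⟩ := J_all n
  obtain ⟨t1, h1, t2, h2, t3, h3, hs⟩ := exists_sol (side_good h i1 i2 i3)
  rw [f_step (dg_ge _) h.r1 (E_InI h1).nonneg, f_step (dg_ge _) h.r2 (E_InI h2).nonneg,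
    f_step (dg_ge _) h.r3 (E_InI h3).nonneg] at hs
  change u1.f (T true t1) + u2.f (T false t2) + u3.f (T true t3) = 1 at hs
  obtain ⟨x, hx, ex⟩ := h.c1 _ (T_mem h1 true)
  obtain ⟨y, hy, ey⟩ := h.c2 _ (T_mem h2 false)
  obtain ⟨z, hz, ez⟩ := h.c3 _ (T_mem h3 true)
  have x0 := (E_InI hx).nonneg
  have x1 := (E_InI hx).lt_one
  have y0 := (E_InI hy).nonneg
  have z0 := (E_InI hz).nonneg
  obtain ⟨s0, s1⟩ := ts_bd
  have hs0 : 0 ≤ ts := by linarith
  have hT := E_InI (T_mem h2 false)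
  have hT2 : 1 / 2 ≤ T false t2 := by
    have := (E_InI h2).lt_one
    have := (E_InI h2).nonneg
    simp only [T, dg, Bool.false_eq_true, if_false]
    exact one_div_le_one_div_of_le (by linarith) (by linarith)
  refine ⟨(u1.f (T true t1), u2.f (T false t2), u3.f (T true t3)), ⟨?_, ?_, ?_, ?_, ?_, hs⟩, ?_, ?_⟩
  · simp only [ex]; exact mem_Bset hx 3 1 (by norm_num) (by norm_num) (by norm_num) (by norm_num) hj
  · simp only [ey]; exact mem_Bset hy 3 2 (by norm_num) (by norm_num) (by norm_num) (by norm_num) hj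
  · simp only [ez]; exact mem_Bset hz 2 3 (by norm_num) (by norm_num) (by norm_num) (by norm_num) hj
  · simp only [ex, ey]; push_cast
    apply one_div_le_one_div_of_le (by positivity)
    have : 1 / (2 + y) ≤ 1 / (1 + x) := one_div_le_one_div_of_le (by positivity) (by linarith)
    linarith
  · simp only [ey, ez]; push_cast
    apply one_div_le_one_div_of_le (by positivity)
    have : 1 / (3 + z) ≤ 1 / 1 := one_div_le_one_div_of_le (by positivity) (by linarith)
    have : 0 ≤ 1 / (2 + y) := by positivity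
    linarith
  · rw [← h.hy]
    change 0 < u2.f (T false t2) - u2.f ts
    rw [f_sub h.r2 hT.nonneg hs0]
    have hW : 0 < u2.W := by simpa [Sg] using h.g2
    have := h.r2
    have := hT.nonneg
    exact div_pos (mul_pos hW (by linarith)) (by positivity)
  · have c := f_concave h.r2 h.g2 hT.nonneg hs0
    have := hT.lt_one
    have t : u2.D ts * (T false t2 - ts) ≤ u2.D ts * 1 :=
      mul_le_mul_of_nonneg_left (by linarith) (D_nonneg _ _)
    have := h.hδ
    have := h.hy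
    change u2.f (T false t2) - v2.f ts ≤ _
    linarith

theorem main {j : ℕ} (hj : 2 ≤ j) : (Sset j).Infinite := by
  intro hfin
  obtain ⟨M, hM⟩ := (hfin.image fun p => 1 / (p.2.1 - v2.f ts)).bddAbove
  have hD := D_nonneg v2 ts
  obtain ⟨n, hn⟩ := pow_unbounded_of_one_lt (|M| * v2.D ts) (by norm_num : (1 : ℝ) < 2)
  obtain ⟨p, hp, h0, h1⟩ := near_sol hj n
  have h2 : 1 / (p.2.1 - v2.f ts) ≤ |M| := (hM ⟨p, hp, rfl⟩).trans (le_abs_self M)
  rw [div_le_iff₀ h0] at h2
  rw [le_div_iff₀ (by positivity)] at h1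
  have h3 := mul_le_mul_of_nonneg_left h1 (abs_nonneg M)
  have h4 := mul_le_mul_of_nonneg_right h2 (by positivity : (0 : ℝ) ≤ 2 ^ n)
  nlinarith

end Pool.Agent.MP_a07d0e_nt

end
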