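import Mathlib
import Pool.Agent.MP_a07d0e_nt.Defs

section

namespace Pool.Agent.MP_a07d0e_nt

structure St where
  c : ℝ
  W : ℝ
  r : ℝ

noncomputable def St.f (s : St) (t : ℝ) : ℝ := s.c + s.W * t / (1 + s.r * t)

noncomputable def St.D (s : St) (t : ℝ) : ℝ := |s.W| / (1 + s.r * t) ^ 2

noncomputable def St.L (s : St) : ℝ := s.D (57 / 100)

noncomputable def step (d : ℝ) (s : St) : St :=
  ⟨s.c + s.W / (d + s.r), -s.W / (d + s.r) ^ 2, 1 / (d + s.r)⟩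

noncomputable def dg (b : Bool) : ℝ := if b then 2 else 1

noncomputable def child : List Bool → St → St
  | [], s => s
  | b :: l, s => child l (step (dg b) s)

noncomputable def wd : List Bool → ℝ → ℝ
  | [], t => t
  | b :: l, t => 1 / (dg b + wd l t)

noncomputable def den : List Bool → ℝ → ℝ
  | [], _ => 1
  | b :: l, t => (dg b + wd l t) * den l t

lemma dg_ge (b : Bool) : 1 ≤ dg b := by cases b <;> simp [dg]

lemma wd_nonneg (l : List Bool) {t : ℝ} (ht : 0 ≤ t) : 0 ≤ wd l t := by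
  induction l with
  | nil => exact ht
  | cons b l ih => have := dg_ge b; simp only [wd]; positivity

lemma den_pos (l : List Bool) {t : ℝ} (ht : 0 ≤ t) : 0 < den l t := by
  induction l with
  | nil => simp [den]
  | cons b l ih => have := dg_ge b; have := wd_nonneg l ht; simp only [den]; positivity

lemma step_r_nonneg {d : ℝ} (hd : 1 ≤ d) {s : St} (hr : 0 ≤ s.r) : 0 ≤ (step d s).r := by
  simp only [step]; positivity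

lemma f_step {d : ℝ} (hd : 1 ≤ d) {s : St} (hr : 0 ≤ s.r) {t : ℝ} (ht : 0 ≤ t) :
    (step d s).f t = s.f (1 / (d + t)) := by
  simp only [step, St.f]
  have h1 : d + s.r ≠ 0 := by positivity
  have h2 : d + t ≠ 0 := by positivity
  have h3 : d + s.r + t ≠ 0 := by positivity
  have h4 : d + t + s.r ≠ 0 := by positivity
  field_simp
  ring

lemma D_step {d : ℝ} (hd : 1 ≤ d) {s : St} (hr : 0 ≤ s.r) {t : ℝ} (ht : 0 ≤ t) :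
    (step d s).D t = s.D (1 / (d + t)) / (d + t) ^ 2 := by
  simp only [step, St.D]
  have h1 : 0 < d + s.r := by positivity
  have h2 : d + t ≠ 0 := by positivity
  have h3 : d + s.r + t ≠ 0 := by positivity
  have h4 : d + t + s.r ≠ 0 := by positivity
  rw [abs_div, abs_neg, abs_of_pos (pow_pos h1 2)]
  field_simp
  ring

lemma child_r_nonneg (l : List Bool) {s : St} (hr : 0 ≤ s.r) : 0 ≤ (child l s).r := by
  induction l generalizing s with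
  | nil => exact hr
  | cons b l ih => exact ih (step_r_nonneg (dg_ge b) hr)

lemma f_child (l : List Bool) {s : St} (hr : 0 ≤ s.r) {t : ℝ} (ht : 0 ≤ t) :
    (child l s).f t = s.f (wd l t) := by
  induction l generalizing s with
  | nil => rfl
  | cons b l ih =>
    simp only [child, wd]
    rw [ih (step_r_nonneg (dg_ge b) hr), f_step (dg_ge b) hr (wd_nonneg l ht)]

lemma D_child (l : List Bool) {s : St} (hr : 0 ≤ s.r) {t : ℝ} (ht : 0 ≤ t) :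
    (child l s).D t = s.D (wd l t) / (den l t) ^ 2 := by
  induction l generalizing s with
  | nil => simp [child, wd, den]
  | cons b l ih =>
    simp only [child, wd, den]
    rw [ih (step_r_nonneg (dg_ge b) hr), D_step (dg_ge b) hr (wd_nonneg l ht), div_div, mul_pow]

/-- sign of a state: `true` means negative -/
def Sg (b : Bool) (s : St) : Prop := if b then s.W < 0 else 0 < s.W

lemma Sg_step {d : ℝ} (hd : 1 ≤ d) {s : St} (hr : 0 ≤ s.r) {b : Bool} (h : Sg b s) :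
    Sg (!b) (step d s) := by
  have h1 : 0 < (d + s.r) ^ 2 := by positivity
  cases b
  · simp only [Sg, step, Bool.not_false, if_true, Bool.false_eq_true, if_false] at h ⊢
    exact div_neg_of_neg_of_pos (by linarith) h1
  · simp only [Sg, step, Bool.not_true, if_true, Bool.false_eq_true, if_false] at h ⊢
    exact div_pos (by linarith) h1

lemma Sg_child (l : List Bool) {s : St} (hr : 0 ≤ s.r) {b : Bool} (h : Sg b s) :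
    Sg (xor b l.length.bodd) (child l s) := by
  induction l generalizing s b with
  | nil => simpa [child] using h
  | cons a l ih =>
    have := ih (step_r_nonneg (dg_ge a) hr) (Sg_step (dg_ge a) hr h)
    simp only [child, List.length_cons, Nat.bodd_succ]
    convert this using 1
    cases b <;> cases l.length.bodd <;> rfl

/-- range of `r` -/
def InI (r : ℝ) : Prop := 3660 / 10000 ≤ r ∧ r ≤ 7321 / 10000

def InX (r : ℝ) : Prop := InI r ∧ (r ≤ 4227 / 10000 ∨ 5773 / 10000 ≤ r)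

lemma InI.nonneg {r : ℝ} (h : InI r) : 0 ≤ r := by have := h.1; linarith

lemma InX_T (b : Bool) {r : ℝ} (h : InI r) : InX (1 / (dg b + r)) := by
  obtain ⟨h1, h2⟩ := h
  cases b
  · simp only [dg, Bool.false_eq_true, if_false]
    have hp : 0 < 1 + r := by linarith
    refine ⟨⟨?_, ?_⟩, Or.inr ?_⟩
    · rw [le_div_iff₀ hp]; linarith
    · rw [div_le_iff₀ hp]; linarith
    · rw [le_div_iff₀ hp]; linarith
  · simp only [dg, if_true]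
    have hp : 0 < 2 + r := by linarith
    refine ⟨⟨?_, ?_⟩, Or.inl ?_⟩
    · rw [le_div_iff₀ hp]; linarith
    · rw [div_le_iff₀ hp]; linarith
    · rw [div_le_iff₀ hp]; linarith

lemma InX_child (l : List Bool) {s : St} (h : InX s.r) : InX (child l s).r := by
  induction l generalizing s with
  | nil => exact h
  | cons b l ih => exact ih (InX_T b h.1)

lemma InI_child (l : List Bool) {s : St} (h : InI s.r) : InI (child l s).r := by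
  induction l generalizing s with
  | nil => exact h
  | cons b l ih => exact ih (InX_T b h).1

lemma L_nonneg (s : St) : 0 ≤ s.L := by simp only [St.L, St.D]; positivity

lemma L_step (b : Bool) {s : St} (h : InI s.r) : (step (dg b) s).L ≤ s.L / 2 := by
  have hd := dg_ge b
  have hr := h.nonneg
  simp only [St.L]
  rw [D_step hd hr (by norm_num)]
  simp only [St.D]
  have h2 : 0 < dg b + 57 / 100 := by positivity
  have e : (1 + s.r * (1 / (dg b + 57 / 100))) ^ 2 * (dg b + 57 / 100) ^ 2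
      = (dg b + 57 / 100 + s.r) ^ 2 := by
    field_simp
  rw [div_div, e, div_div]
  apply div_le_div_of_nonneg_left (abs_nonneg _) (by positivity)
  have := h.1; have := h.2
  nlinarith

lemma L_child (l : List Bool) {s : St} (h : InI s.r) : (child l s).L ≤ s.L := by
  induction l generalizing s with
  | nil => exact le_rfl
  | cons b l ih =>
    have h1 := ih (s := step (dg b) s) (InX_T b h).1
    have h2 := L_step b h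
    have := L_nonneg s
    simp only [child]; linarith

lemma L_child_ne {l : List Bool} (hl : l ≠ []) {s : St} (h : InI s.r) :
    (child l s).L ≤ s.L / 2 := by
  cases l with
  | nil => exact absurd rfl hl
  | cons b l =>
    have h1 := L_child l (s := step (dg b) s) (InX_T b h).1
    have h2 := L_step b h
    simp only [child]; linarith

noncomputable def F (r p : ℝ) : ℝ := (1 + r * (57 / 100)) / (1 + r * p)

lemma F_pos {r p : ℝ} (hr : 0 ≤ r) (hp : 0 ≤ p) : 0 < F r p := by simp only [F]; positivity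

lemma F_anti {a r p : ℝ} (ha : 0 ≤ a) (h : a ≤ r) (hp : 57 / 100 ≤ p) : F r p ≤ F a p := by
  have hr : 0 ≤ r := ha.trans h
  have hp0 : 0 ≤ p := by linarith
  simp only [F]
  rw [div_le_div_iff₀ (by positivity) (by positivity)]
  nlinarith [mul_nonneg (sub_nonneg.2 h) (sub_nonneg.2 hp)]

lemma F_mono {a r p : ℝ} (ha : 0 ≤ a) (h : a ≤ r) (hp0 : 0 ≤ p) (hp : p ≤ 57 / 100) :
    F a p ≤ F r p := by
  have hr : 0 ≤ r := ha.trans h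
  simp only [F]
  rw [div_le_div_iff₀ (by positivity) (by positivity)]
  nlinarith [mul_nonneg (sub_nonneg.2 h) (sub_nonneg.2 hp)]

lemma f_sub {s : St} (hr : 0 ≤ s.r) {p q : ℝ} (hp : 0 ≤ p) (hq : 0 ≤ q) :
    s.f p - s.f q = s.W * (p - q) / ((1 + s.r * p) * (1 + s.r * q)) := by
  simp only [St.f]
  have h1 : 1 + s.r * p ≠ 0 := by positivity
  have h2 : 1 + s.r * q ≠ 0 := by positivity
  field_simp
  ring

lemma f_sub_pos {s : St} (hr : 0 ≤ s.r) (h : Sg false s) {p q : ℝ} (hp : 0 ≤ p) (hq : 0 ≤ q) :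
    s.f p - s.f q = s.L * ((p - q) * F s.r p * F s.r q) := by
  rw [f_sub hr hp hq]
  have hW : 0 < s.W := by simpa [Sg] using h
  simp only [St.L, St.D, F, abs_of_pos hW]
  have h1 : 1 + s.r * p ≠ 0 := by positivity
  have h2 : 1 + s.r * q ≠ 0 := by positivity
  have h3 : 1 + s.r * (57 / 100) ≠ 0 := by positivity
  field_simp

lemma f_sub_neg {s : St} (hr : 0 ≤ s.r) (h : Sg true s) {p q : ℝ} (hp : 0 ≤ p) (hq : 0 ≤ q) :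
    s.f p - s.f q = s.L * ((q - p) * F s.r q * F s.r p) := by
  rw [f_sub hr hp hq]
  have hW : s.W < 0 := by simpa [Sg] using h
  simp only [St.L, St.D, F, abs_of_neg hW]
  have h1 : 1 + s.r * p ≠ 0 := by positivity
  have h2 : 1 + s.r * q ≠ 0 := by positivity
  have h3 : 1 + s.r * (57 / 100) ≠ 0 := by positivity
  field_simp
  ring

lemma L_child_eq (l : List Bool) {s : St} (hr : 0 ≤ s.r) :
    (child l s).L = s.L * (F s.r (wd l (57 / 100)) / den l (57 / 100)) ^ 2 := by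
  simp only [St.L]
  rw [D_child l hr (by norm_num)]
  have h0 := wd_nonneg l (t := 57 / 100) (by norm_num)
  have h1 := den_pos l (t := 57 / 100) (by norm_num)
  simp only [St.D, F]
  have h3 : 1 + s.r * (57 / 100) ≠ 0 := by positivity
  have h4 : 1 + s.r * wd l (57 / 100) ≠ 0 := by positivity
  field_simp

noncomputable def St.lo (s : St) : ℝ := if s.W < 0 then s.f (67 / 100) else s.f (46 / 100)
noncomputable def St.hi (s : St) : ℝ := if s.W < 0 then s.f (46 / 100) else s.f (67 / 100)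

structure Good (s1 s2 s3 : St) (τ : ℝ) : Prop where
  x1 : InX s1.r
  x2 : InX s2.r
  x3 : InX s3.r
  w1 : s1.W ≠ 0
  w2 : s2.W ≠ 0
  w3 : s3.W ≠ 0
  r12 : 33 * s1.L ≤ 100 * s2.L
  r21 : 33 * s2.L ≤ 100 * s1.L
  r13 : 33 * s1.L ≤ 100 * s3.L
  r31 : 33 * s3.L ≤ 100 * s1.L
  r23 : 33 * s2.L ≤ 100 * s3.L
  r32 : 33 * s3.L ≤ 100 * s2.L
  lo : s1.lo + s2.lo + s3.lo ≤ τ
  hi : τ ≤ s1.hi + s2.hi + s3.hi

end Pool.Agent.MP_a07d0e_nt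

end

section

namespace Pool.Agent.MP_a07d0e_nt

structure Pt where
  n : ℕ
  d : ℕ

noncomputable def Pt.v (p : Pt) : ℝ := (p.n : ℝ) / p.d

lemma Pt.v_nonneg (p : Pt) : 0 ≤ p.v := by simp only [Pt.v]; positivity

def nd : List Bool → Pt → Pt
  | [], p => p
  | b :: l, p => ⟨(nd l p).d, cond b 2 1 * (nd l p).d + (nd l p).n⟩

lemma nd_spec (l : List Bool) (p : Pt) (hp : 0 < p.d) :
    0 < (nd l p).d ∧ wd l p.v = (nd l p).v ∧ den l p.v = ((nd l p).d : ℝ) / p.d := by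
  have hp' : (0 : ℝ) < p.d := by exact_mod_cast hp
  induction l with
  | nil => exact ⟨hp, rfl, by simp only [den, nd]; field_simp⟩
  | cons b l ih =>
    obtain ⟨h1, h2, h3⟩ := ih
    have h1' : (0 : ℝ) < (nd l p).d := by exact_mod_cast h1
    have hn : (0 : ℝ) ≤ (nd l p).n := by positivity
    have e : ((cond b 2 1 : ℕ) : ℝ) = dg b := by cases b <;> simp [dg]
    have hd := dg_ge b
    refine ⟨?_, ?_, ?_⟩
    · simp only [nd]; cases b <;> simp <;> omega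
    · rw [wd, h2]; simp only [nd, Pt.v]; push_cast; rw [e]
      have : dg b * (nd l p).d + (nd l p).n ≠ 0 := by positivity
      field_simp
    · rw [den, h2, h3]; simp only [nd, Pt.v]; push_cast; rw [e]
      field_simp

structure Wd where
  pa : Pt
  pb : Pt
  pz : Pt
  odd : Bool
  l : List Bool
  h : nd l ⟨46, 100⟩ = pa ∧ nd l ⟨67, 100⟩ = pb ∧ nd l ⟨57, 100⟩ = pz ∧ l.length.bodd = odd

def lowR (a b n d : ℕ) : ℕ := cond (Nat.ble (Nat.mul 57 d) (Nat.mul 100 n)) b a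
def uppR (a b n d : ℕ) : ℕ := cond (Nat.ble (Nat.mul 57 d) (Nat.mul 100 n)) a b

def KK (a : ℕ) : ℕ := Nat.add 1000000 (Nat.mul 57 a)
def DD (a n d : ℕ) : ℕ := Nat.add (Nat.mul 10000 d) (Nat.mul a n)

def quo (e u v pn pd qn qd : ℕ) : ℕ :=
  Nat.div (Nat.mul (Nat.mul (Nat.mul 1099511627776 e) (KK u)) (KK v))
    (Nat.mul (Nat.mul 10000 (DD u pn pd)) (DD v qn qd))

def posB (a b pn pd qn qd : ℕ) : ℕ :=
  cond (Nat.ble (Nat.mul pn qd) (Nat.mul qn pd)) 0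
    (quo (Nat.sub (Nat.mul pn qd) (Nat.mul qn pd)) (lowR a b pn pd) (lowR a b qn qd) pn pd qn qd)

def negB (a b pn pd qn qd : ℕ) : ℕ :=
  cond (Nat.ble (Nat.mul qn pd) (Nat.mul pn qd)) 0
    (Nat.succ
      (quo (Nat.sub (Nat.mul qn pd) (Nat.mul pn qd)) (uppR a b pn pd) (uppR a b qn qd) pn pd qn qd))

noncomputable def posP (a b : ℕ) (p q : Pt) : ℕ :=
  Pt.rec (fun pn pd => Pt.rec (fun qn qd => posB a b pn pd qn qd) q) p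
noncomputable def negP (a b : ℕ) (p q : Pt) : ℕ :=
  Pt.rec (fun pn pd => Pt.rec (fun qn qd => negB a b pn pd qn qd) q) p

noncomputable def posS (s : Bool) (a b : ℕ) (p q : Pt) : ℕ := cond s (posP a b q p) (posP a b p q)
noncomputable def negS (s : Bool) (a b : ℕ) (p q : Pt) : ℕ := cond s (negP a b q p) (negP a b p q)

lemma F_nat (u : ℕ) (p : Pt) (hp : 0 < p.d) :
    F ((u : ℝ) / 10000) p.v = (KK u : ℝ) * p.d / (100 * DD u p.n p.d) := by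
  have hp' : (0 : ℝ) < p.d := by exact_mod_cast hp
  simp only [F, Pt.v, KK, DD, Nat.add_eq, Nat.mul_eq]
  push_cast
  have : (10000 : ℝ) * p.d + u * p.n ≠ 0 := by positivity
  field_simp
  ring

lemma F_low {a b : ℕ} {r : ℝ} (ha : (a : ℝ) ≤ 10000 * r) (hb : 10000 * r ≤ b) (p : Pt)
    (hp : 0 < p.d) : F ((lowR a b p.n p.d : ℝ) / 10000) p.v ≤ F r p.v := by
  have hp' : (0 : ℝ) < p.d := by exact_mod_cast hp
  have ha0 : (0 : ℝ) ≤ a := by positivity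
  have hr : 0 ≤ r := by linarith
  simp only [lowR, Nat.mul_eq]
  by_cases h : 57 * p.d ≤ 100 * p.n
  · rw [Nat.ble_eq_true_of_le h, cond_true]
    apply F_anti hr (by linarith)
    have : (57 : ℝ) * p.d ≤ 100 * p.n := by exact_mod_cast h
    simp only [Pt.v]; rw [le_div_iff₀ hp']; linarith
  · have h' : Nat.ble (57 * p.d) (100 * p.n) = false := by
      rw [← Bool.not_eq_true, Nat.ble_eq]; exact h
    rw [h', cond_false]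
    apply F_mono (by positivity) (by linarith) p.v_nonneg
    have : (100 : ℝ) * p.n ≤ 57 * p.d := by exact_mod_cast (not_le.1 h).le
    simp only [Pt.v]; rw [div_le_iff₀ hp']; linarith

lemma F_upp {a b : ℕ} {r : ℝ} (ha : (a : ℝ) ≤ 10000 * r) (hb : 10000 * r ≤ b) (p : Pt)
    (hp : 0 < p.d) : F r p.v ≤ F ((uppR a b p.n p.d : ℝ) / 10000) p.v := by
  have hp' : (0 : ℝ) < p.d := by exact_mod_cast hp
  have ha0 : (0 : ℝ) ≤ a := by positivity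
  have hr : 0 ≤ r := by linarith
  simp only [uppR, Nat.mul_eq]
  by_cases h : 57 * p.d ≤ 100 * p.n
  · rw [Nat.ble_eq_true_of_le h, cond_true]
    apply F_anti (by positivity) (by linarith)
    have : (57 : ℝ) * p.d ≤ 100 * p.n := by exact_mod_cast h
    simp only [Pt.v]; rw [le_div_iff₀ hp']; linarith
  · have h' : Nat.ble (57 * p.d) (100 * p.n) = false := by
      rw [← Bool.not_eq_true, Nat.ble_eq]; exact h
    rw [h', cond_false]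
    apply F_mono hr (by linarith) p.v_nonneg
    have : (100 : ℝ) * p.n ≤ 57 * p.d := by exact_mod_cast (not_le.1 h).le
    simp only [Pt.v]; rw [div_le_iff₀ hp']; linarith

lemma DD_pos (u : ℕ) (p : Pt) (hp : 0 < p.d) : 0 < DD u p.n p.d := by
  simp only [DD, Nat.add_eq, Nat.mul_eq]; omega

lemma quo_real (e u v : ℕ) (p q : Pt) (hp : 0 < p.d) (hq : 0 < q.d) :
    (((1099511627776 * e * KK u * KK v : ℕ) : ℝ)) /
      ((10000 * DD u p.n p.d * DD v q.n q.d : ℕ) : ℝ)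
      = 1099511627776 * (((e : ℝ) / (p.d * q.d)) * F ((u : ℝ) / 10000) p.v *
        F ((v : ℝ) / 10000) q.v) := by
  have hp' : (0 : ℝ) < p.d := by exact_mod_cast hp
  have hq' : (0 : ℝ) < q.d := by exact_mod_cast hq
  have h1 : (0 : ℝ) < DD u p.n p.d := by exact_mod_cast DD_pos u p hp
  have h2 : (0 : ℝ) < DD v q.n q.d := by exact_mod_cast DD_pos v q hq
  rw [F_nat u p hp, F_nat v q hq]
  push_cast
  field_simp
  ring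

lemma quo_le (e u v : ℕ) (p q : Pt) (hp : 0 < p.d) (hq : 0 < q.d) :
    (quo e u v p.n p.d q.n q.d : ℝ) ≤ 1099511627776 * (((e : ℝ) / (p.d * q.d)) *
      F ((u : ℝ) / 10000) p.v * F ((v : ℝ) / 10000) q.v) := by
  rw [← quo_real e u v p q hp hq]
  exact Nat.cast_div_le

lemma cast_lt_div_succ (m n : ℕ) (hn : 0 < n) : (m : ℝ) / n ≤ ((m / n : ℕ) : ℝ) + 1 := by
  have hn' : (0 : ℝ) < n := by exact_mod_cast hn
  rw [div_le_iff₀ hn']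
  have := Nat.lt_div_mul_add (a := m) hn
  have h : (m : ℝ) ≤ ((m / n : ℕ) : ℝ) * n + n := by exact_mod_cast this.le
  linarith

lemma quo_ge (e u v : ℕ) (p q : Pt) (hp : 0 < p.d) (hq : 0 < q.d) :
    1099511627776 * (((e : ℝ) / (p.d * q.d)) *
      F ((u : ℝ) / 10000) p.v * F ((v : ℝ) / 10000) q.v) ≤ (quo e u v p.n p.d q.n q.d : ℝ) + 1 := by
  rw [← quo_real e u v p q hp hq]
  apply cast_lt_div_succ
  have := DD_pos u p hp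
  have := DD_pos v q hq
  positivity

lemma bound_P {a b : ℕ} {r : ℝ} (ha : (a : ℝ) ≤ 10000 * r) (hb : 10000 * r ≤ b) (p q : Pt)
    (hp : 0 < p.d) (hq : 0 < q.d) :
    (posP a b p q : ℝ) - negP a b p q ≤ 1099511627776 * ((p.v - q.v) * F r p.v * F r q.v) := by
  have hp' : (0 : ℝ) < p.d := by exact_mod_cast hp
  have hq' : (0 : ℝ) < q.d := by exact_mod_cast hq
  have ha0 : (0 : ℝ) ≤ a := by positivity
  have hr : 0 ≤ r := by linarith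
  have e0 : p.v - q.v = ((p.n : ℝ) * q.d - q.n * p.d) / (p.d * q.d) := by
    simp only [Pt.v]; field_simp
  have Fp := F_pos hr p.v_nonneg
  have Fq := F_pos hr q.v_nonneg
  change (posB a b p.n p.d q.n q.d : ℝ) - negB a b p.n p.d q.n q.d ≤ _
  simp only [posB, negB, Nat.mul_eq, Nat.sub_eq, Nat.succ_eq_add_one]
  rcases lt_trichotomy (p.n * q.d) (q.n * p.d) with h | h | h
  · have h1 : Nat.ble (q.n * p.d) (p.n * q.d) = false := by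
      rw [← Bool.not_eq_true, Nat.ble_eq]; omega
    rw [Nat.ble_eq_true_of_le h.le, h1, cond_true, cond_false]
    have h2 := quo_ge (q.n * p.d - p.n * q.d) (uppR a b p.n p.d) (uppR a b q.n q.d) p q hp hq
    rw [Nat.cast_sub h.le] at h2
    have h3 := F_upp ha hb p hp
    have h4 := F_upp ha hb q hq
    have h5 : (0 : ℝ) ≤ ((q.n * p.d : ℕ) - (p.n * q.d : ℕ) : ℝ) / (p.d * q.d) := by
      apply div_nonneg _ (by positivity)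
      have : ((p.n * q.d : ℕ) : ℝ) ≤ (q.n * p.d : ℕ) := by exact_mod_cast h.le
      linarith
    have h6 : ((q.n * p.d : ℕ) - (p.n * q.d : ℕ) : ℝ) / (p.d * q.d) * F r p.v * F r q.v ≤
        ((q.n * p.d : ℕ) - (p.n * q.d : ℕ) : ℝ) / (p.d * q.d) *
          F ((uppR a b p.n p.d : ℝ) / 10000) p.v * F ((uppR a b q.n q.d : ℝ) / 10000) q.v := by
      apply mul_le_mul (mul_le_mul_of_nonneg_left h3 h5) h4 Fq.le
      exact mul_nonneg h5 (Fp.le.trans h3)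
    have e1 : p.v - q.v = -(((q.n * p.d : ℕ) - (p.n * q.d : ℕ) : ℝ) / (p.d * q.d)) := by
      rw [e0]; push_cast; ring
    rw [e1]; push_cast at h2 h6 ⊢; linarith
  · rw [Nat.ble_eq_true_of_le h.le, Nat.ble_eq_true_of_le h.ge, cond_true, cond_true]
    have : (p.n : ℝ) * q.d = q.n * p.d := by exact_mod_cast h
    rw [e0, this]; simp
  · have h1 : Nat.ble (p.n * q.d) (q.n * p.d) = false := by
      rw [← Bool.not_eq_true, Nat.ble_eq]; omega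
    rw [Nat.ble_eq_true_of_le h.le, h1, cond_true, cond_false]
    have h2 := quo_le (p.n * q.d - q.n * p.d) (lowR a b p.n p.d) (lowR a b q.n q.d) p q hp hq
    rw [Nat.cast_sub h.le] at h2
    have h3 := F_low ha hb p hp
    have h4 := F_low ha hb q hq
    have h5 : (0 : ℝ) ≤ ((p.n * q.d : ℕ) - (q.n * p.d : ℕ) : ℝ) / (p.d * q.d) := by
      apply div_nonneg _ (by positivity)
      have : ((q.n * p.d : ℕ) : ℝ) ≤ (p.n * q.d : ℕ) := by exact_mod_cast h.le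
      linarith
    have h6 : ((p.n * q.d : ℕ) - (q.n * p.d : ℕ) : ℝ) / (p.d * q.d) *
          F ((lowR a b p.n p.d : ℝ) / 10000) p.v * F ((lowR a b q.n q.d : ℝ) / 10000) q.v ≤
        ((p.n * q.d : ℕ) - (q.n * p.d : ℕ) : ℝ) / (p.d * q.d) * F r p.v * F r q.v := by
      apply mul_le_mul (mul_le_mul_of_nonneg_left h3 h5) h4
        (F_pos (by positivity) q.v_nonneg).le
      exact mul_nonneg h5 Fp.le
    have e1 : p.v - q.v = (((p.n * q.d : ℕ) - (q.n * p.d : ℕ) : ℝ) / (p.d * q.d)) := by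
      rw [e0]; push_cast; ring
    rw [e1]; push_cast at h2 h6 ⊢; linarith

lemma bound_S {sb : Bool} {s : St} (hs : Sg sb s) {a b : ℕ} (ha : (a : ℝ) ≤ 10000 * s.r)
    (hb : 10000 * s.r ≤ b) (p q : Pt) (hp : 0 < p.d) (hq : 0 < q.d) :
    s.L * ((posS sb a b p q : ℝ) - negS sb a b p q) ≤ 1099511627776 * (s.f p.v - s.f q.v) := by
  have ha0 : (0 : ℝ) ≤ a := by positivity
  have hr : 0 ≤ s.r := by linarith
  have hL := L_nonneg s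
  cases sb
  · rw [f_sub_pos hr hs p.v_nonneg q.v_nonneg]
    have := mul_le_mul_of_nonneg_left (bound_P ha hb p q hp hq) hL
    simp only [posS, negS, cond_false]; linarith
  · rw [f_sub_neg hr hs p.v_nonneg q.v_nonneg]
    have := mul_le_mul_of_nonneg_left (bound_P ha hb q p hq hp) hL
    simp only [posS, negS, cond_true]; linarith

noncomputable def ge3 (s2 s3 : Bool) (x0 x1 y0 y1 a1 b1 a2 b2 a3 b3 : ℕ)
    (p1 p2 p3 q1 q2 q3 : Pt) : Bool :=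
  Nat.ble
    (Nat.add (Nat.add (Nat.mul (negP a1 b1 p1 q1) 102400) (Nat.mul (negS s2 a2 b2 p2 q2) x1))
      (Nat.mul (negS s3 a3 b3 p3 q3) y1))
    (Nat.add (Nat.add (Nat.mul (posP a1 b1 p1 q1) 102400) (Nat.mul (posS s2 a2 b2 p2 q2) x0))
      (Nat.mul (posS s3 a3 b3 p3 q3) y0))

structure InBox (u1 u2 u3 : St) (s2 s3 : Bool) (x0 x1 y0 y1 a1 b1 a2 b2 a3 b3 : ℕ) : Prop where
  g1 : Sg false u1
  g2 : Sg s2 u2
  g3 : Sg s3 u3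
  hx0 : x0 * u1.L ≤ 102400 * u2.L
  hx1 : 102400 * u2.L ≤ x1 * u1.L
  hy0 : y0 * u1.L ≤ 102400 * u3.L
  hy1 : 102400 * u3.L ≤ y1 * u1.L
  ha1 : (a1 : ℝ) ≤ 10000 * u1.r
  hb1 : 10000 * u1.r ≤ b1
  ha2 : (a2 : ℝ) ≤ 10000 * u2.r
  hb2 : 10000 * u2.r ≤ b2
  ha3 : (a3 : ℝ) ≤ 10000 * u3.r
  hb3 : 10000 * u3.r ≤ b3

lemma ge3_sound {u1 u2 u3 : St} {s2 s3 : Bool} {x0 x1 y0 y1 a1 b1 a2 b2 a3 b3 : ℕ}
    (H : InBox u1 u2 u3 s2 s3 x0 x1 y0 y1 a1 b1 a2 b2 a3 b3) {p1 p2 p3 q1 q2 q3 : Pt}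
    (hp1 : 0 < p1.d) (hp2 : 0 < p2.d) (hp3 : 0 < p3.d)
    (hq1 : 0 < q1.d) (hq2 : 0 < q2.d) (hq3 : 0 < q3.d)
    (h : ge3 s2 s3 x0 x1 y0 y1 a1 b1 a2 b2 a3 b3 p1 p2 p3 q1 q2 q3 = true) :
    u1.f q1.v + u2.f q2.v + u3.f q3.v ≤ u1.f p1.v + u2.f p2.v + u3.f p3.v := by
  simp only [ge3, Nat.ble_eq, Nat.add_eq, Nat.mul_eq] at h
  have h' : (negP a1 b1 p1 q1 : ℝ) * 102400 + negS s2 a2 b2 p2 q2 * x1 + negS s3 a3 b3 p3 q3 * y1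
      ≤ posP a1 b1 p1 q1 * 102400 + posS s2 a2 b2 p2 q2 * x0 + posS s3 a3 b3 p3 q3 * y0 := by
    exact_mod_cast h
  have k1 := bound_S H.g1 H.ha1 H.hb1 p1 q1 hp1 hq1
  have k2 := bound_S H.g2 H.ha2 H.hb2 p2 q2 hp2 hq2
  have k3 := bound_S H.g3 H.ha3 H.hb3 p3 q3 hp3 hq3
  simp only [posS, negS, cond_false] at k1
  have m1 := mul_le_mul_of_nonneg_left h' (L_nonneg u1)
  have m2 := mul_le_mul_of_nonneg_left H.hx0 (Nat.cast_nonneg (α := ℝ) (posS s2 a2 b2 p2 q2))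
  have m3 := mul_le_mul_of_nonneg_left H.hx1 (Nat.cast_nonneg (α := ℝ) (negS s2 a2 b2 p2 q2))
  have m4 := mul_le_mul_of_nonneg_left H.hy0 (Nat.cast_nonneg (α := ℝ) (posS s3 a3 b3 p3 q3))
  have m5 := mul_le_mul_of_nonneg_left H.hy1 (Nat.cast_nonneg (α := ℝ) (negS s3 a3 b3 p3 q3))
  nlinarith

def muL (a b n d : ℕ) : ℕ :=
  Nat.div (Nat.mul (Nat.mul 1099511627776 (KK (lowR a b n d))) (KK (lowR a b n d)))
    (Nat.mul (DD (lowR a b n d) n d) (DD (lowR a b n d) n d))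

def muH (a b n d : ℕ) : ℕ :=
  Nat.succ (Nat.div (Nat.mul (Nat.mul 1099511627776 (KK (uppR a b n d))) (KK (uppR a b n d)))
    (Nat.mul (DD (uppR a b n d) n d) (DD (uppR a b n d) n d)))

noncomputable def muLP (a b : ℕ) (p : Pt) : ℕ := Pt.rec (fun n d => muL a b n d) p
noncomputable def muHP (a b : ℕ) (p : Pt) : ℕ := Pt.rec (fun n d => muH a b n d) p

lemma Wd.facts (w : Wd) : 0 < w.pa.d ∧ 0 < w.pb.d ∧ 0 < w.pz.d ∧ wd w.l (46 / 100) = w.pa.v ∧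
    wd w.l (67 / 100) = w.pb.v ∧ wd w.l (57 / 100) = w.pz.v ∧
    den w.l (57 / 100) = (w.pz.d : ℝ) / 100 := by
  obtain ⟨h1, h2, h3, -⟩ := w.h
  have a := nd_spec w.l ⟨46, 100⟩ (by norm_num)
  have b := nd_spec w.l ⟨67, 100⟩ (by norm_num)
  have c := nd_spec w.l ⟨57, 100⟩ (by norm_num)
  rw [h1] at a; rw [h2] at b; rw [h3] at c
  simp only [Pt.v, Nat.cast_ofNat] at a b c ⊢
  exact ⟨a.1, b.1, c.1, a.2.1, b.2.1, c.2.1, c.2.2⟩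

lemma mu_real (u : ℕ) (p : Pt) (hp : 0 < p.d) :
    (((1099511627776 * KK u * KK u : ℕ) : ℝ)) / ((DD u p.n p.d * DD u p.n p.d : ℕ) : ℝ)
      = 1099511627776 * (F ((u : ℝ) / 10000) p.v / ((p.d : ℝ) / 100)) ^ 2 := by
  have hp' : (0 : ℝ) < p.d := by exact_mod_cast hp
  have h1 : (0 : ℝ) < DD u p.n p.d := by exact_mod_cast DD_pos u p hp
  rw [F_nat u p hp]
  push_cast
  field_simp

lemma mu_sound {s : St} {a b : ℕ} (ha : (a : ℝ) ≤ 10000 * s.r) (hb : 10000 * s.r ≤ b) (w : Wd) :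
    s.L * muLP a b w.pz ≤ 1099511627776 * (child w.l s).L ∧
      1099511627776 * (child w.l s).L ≤ s.L * muHP a b w.pz := by
  have ha0 : (0 : ℝ) ≤ a := by positivity
  have hr : 0 ≤ s.r := by linarith
  obtain ⟨-, -, hz, -, -, e1, e2⟩ := w.facts
  have hz' : (0 : ℝ) < w.pz.d := by exact_mod_cast hz
  rw [L_child_eq w.l hr, e1, e2]
  have hL := L_nonneg s
  have Fp := F_pos hr w.pz.v_nonneg
  constructor
  · have h1 : (muLP a b w.pz : ℝ) ≤ 1099511627776 *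
        (F ((lowR a b w.pz.n w.pz.d : ℝ) / 10000) w.pz.v / ((w.pz.d : ℝ) / 100)) ^ 2 := by
      rw [← mu_real _ _ hz]; exact Nat.cast_div_le
    have h2 := F_low ha hb w.pz hz
    have h3 := F_pos (r := (lowR a b w.pz.n w.pz.d : ℝ) / 10000) (by positivity) w.pz.v_nonneg
    have h4 : (F ((lowR a b w.pz.n w.pz.d : ℝ) / 10000) w.pz.v / ((w.pz.d : ℝ) / 100)) ^ 2 ≤
        (F s.r w.pz.v / ((w.pz.d : ℝ) / 100)) ^ 2 := by gcongr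
    have := mul_le_mul_of_nonneg_left (h1.trans (mul_le_mul_of_nonneg_left h4 (by norm_num))) hL
    linarith
  · have h1 : 1099511627776 *
        (F ((uppR a b w.pz.n w.pz.d : ℝ) / 10000) w.pz.v / ((w.pz.d : ℝ) / 100)) ^ 2 ≤
        (muHP a b w.pz : ℝ) := by
      rw [← mu_real _ _ hz]
      change _ ≤ ((muH a b w.pz.n w.pz.d : ℕ) : ℝ)
      simp only [muH, Nat.succ_eq_add_one, Nat.cast_add, Nat.cast_one]
      apply cast_lt_div_succ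
      have := DD_pos (uppR a b w.pz.n w.pz.d) w.pz hz
      positivity
    have h2 := F_upp ha hb w.pz hz
    have h4 : (F s.r w.pz.v / ((w.pz.d : ℝ) / 100)) ^ 2 ≤
        (F ((uppR a b w.pz.n w.pz.d : ℝ) / 10000) w.pz.v / ((w.pz.d : ℝ) / 100)) ^ 2 := by gcongr
    have := mul_le_mul_of_nonneg_left ((mul_le_mul_of_nonneg_left h4 (by norm_num)).trans h1) hL
    linarith

def rat6 (l1 l2 l3 h1 h2 h3 : ℕ) : Bool :=
  Nat.ble h1 l2 && Nat.ble h2 l1 && Nat.ble h1 l3 && Nat.ble h3 l1 && Nat.ble h2 l3 &&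
    Nat.ble h3 l2

noncomputable def ratChk (x0 x1 y0 y1 a1 b1 a2 b2 a3 b3 : ℕ) (w1 w2 w3 : Wd) : Bool :=
  Nat.blt 100 w1.pz.d &&
  rat6 (Nat.mul (muLP a1 b1 w1.pz) 10240000) (Nat.mul (muLP a2 b2 w2.pz) (Nat.mul 100 x0))
    (Nat.mul (muLP a3 b3 w3.pz) (Nat.mul 100 y0))
    (Nat.mul (muHP a1 b1 w1.pz) 3379200) (Nat.mul (muHP a2 b2 w2.pz) (Nat.mul 33 x1))
    (Nat.mul (muHP a3 b3 w3.pz) (Nat.mul 33 y1))

lemma rat_aux {L1 Li Lj Li' Lj' mh ml xh xl : ℝ} (hL : 0 ≤ L1) (hmh : 0 ≤ mh) (hml : 0 ≤ ml)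
    (h1 : 1099511627776 * Li' ≤ Li * mh) (h2 : Lj * ml ≤ 1099511627776 * Lj')
    (h3 : 102400 * Li ≤ xh * L1) (h4 : xl * L1 ≤ 102400 * Lj)
    (h5 : mh * (33 * xh) ≤ ml * (100 * xl)) : 33 * Li' ≤ 100 * Lj' := by
  have m1 := mul_le_mul_of_nonneg_left h5 hL
  have m2 := mul_le_mul_of_nonneg_left h3 hmh
  have m3 := mul_le_mul_of_nonneg_left h4 hml
  nlinarith

lemma ratChk_sound {u1 u2 u3 : St} {s2 s3 : Bool} {x0 x1 y0 y1 a1 b1 a2 b2 a3 b3 : ℕ}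
    (H : InBox u1 u2 u3 s2 s3 x0 x1 y0 y1 a1 b1 a2 b2 a3 b3) {w1 w2 w3 : Wd}
    (h : ratChk x0 x1 y0 y1 a1 b1 a2 b2 a3 b3 w1 w2 w3 = true) :
    w1.l ≠ [] ∧
    33 * (child w1.l u1).L ≤ 100 * (child w2.l u2).L ∧
    33 * (child w2.l u2).L ≤ 100 * (child w1.l u1).L ∧
    33 * (child w1.l u1).L ≤ 100 * (child w3.l u3).L ∧
    33 * (child w3.l u3).L ≤ 100 * (child w1.l u1).L ∧
    33 * (child w2.l u2).L ≤ 100 * (child w3.l u3).L ∧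
    33 * (child w3.l u3).L ≤ 100 * (child w2.l u2).L := by
  simp only [ratChk, rat6, Bool.and_eq_true, Nat.ble_eq, Nat.blt_eq, Nat.mul_eq] at h
  obtain ⟨h0, ⟨⟨⟨⟨h1, h2⟩, h3⟩, h4⟩, h5⟩, h6⟩ := h
  obtain ⟨l1, u1'⟩ := mu_sound H.ha1 H.hb1 w1
  obtain ⟨l2, u2'⟩ := mu_sound H.ha2 H.hb2 w2
  obtain ⟨l3, u3'⟩ := mu_sound H.ha3 H.hb3 w3
  have hL := L_nonneg u1
  have t1 : 102400 * u1.L ≤ (102400 : ℝ) * u1.L := le_rfl
  refine ⟨?_, ?_, ?_, ?_, ?_, ?_, ?_⟩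
  · intro hl
    have := w1.h.2.2.1
    rw [hl] at this
    rw [← this] at h0
    simp [nd] at h0
  · refine rat_aux hL (by positivity) (by positivity) u1' l2 t1 H.hx0 ?_
    have : ((muHP a1 b1 w1.pz * 3379200 : ℕ) : ℝ) ≤ (muLP a2 b2 w2.pz * (100 * x0) : ℕ) := by
      exact_mod_cast h1
    push_cast at this; linarith
  · refine rat_aux hL (by positivity) (by positivity) u2' l1 H.hx1 t1 ?_
    have : ((muHP a2 b2 w2.pz * (33 * x1) : ℕ) : ℝ) ≤ (muLP a1 b1 w1.pz * 10240000 : ℕ) := by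
      exact_mod_cast h2
    push_cast at this; linarith
  · refine rat_aux hL (by positivity) (by positivity) u1' l3 t1 H.hy0 ?_
    have : ((muHP a1 b1 w1.pz * 3379200 : ℕ) : ℝ) ≤ (muLP a3 b3 w3.pz * (100 * y0) : ℕ) := by
      exact_mod_cast h3
    push_cast at this; linarith
  · refine rat_aux hL (by positivity) (by positivity) u3' l1 H.hy1 t1 ?_
    have : ((muHP a3 b3 w3.pz * (33 * y1) : ℕ) : ℝ) ≤ (muLP a1 b1 w1.pz * 10240000 : ℕ) := by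
      exact_mod_cast h4
    push_cast at this; linarith
  · refine rat_aux hL (by positivity) (by positivity) u2' l3 H.hx1 H.hy0 ?_
    exact_mod_cast h5
  · refine rat_aux hL (by positivity) (by positivity) u3' l2 H.hy1 H.hx0 ?_
    exact_mod_cast h6

def loP (s : Bool) (w : Wd) : Pt := cond (xor s w.odd) w.pb w.pa
def hiP (s : Bool) (w : Wd) : Pt := cond (xor s w.odd) w.pa w.pb

lemma loP_d (s : Bool) (w : Wd) : 0 < (loP s w).d := by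
  obtain ⟨h1, h2, -⟩ := w.facts
  simp only [loP]; cases xor s w.odd <;> simpa

lemma hiP_d (s : Bool) (w : Wd) : 0 < (hiP s w).d := by
  obtain ⟨h1, h2, -⟩ := w.facts
  simp only [hiP]; cases xor s w.odd <;> simpa

lemma lo_child {sb : Bool} {s : St} (hs : Sg sb s) (hr : 0 ≤ s.r) (w : Wd) :
    (child w.l s).lo = s.f (loP sb w).v ∧ (child w.l s).hi = s.f (hiP sb w).v ∧
      (child w.l s).W ≠ 0 := by
  obtain ⟨-, -, -, e1, e2, -⟩ := w.facts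
  have h := Sg_child w.l hr hs
  rw [w.h.2.2.2] at h
  simp only [St.lo, St.hi, loP, hiP]
  rw [f_child w.l hr (by norm_num), f_child w.l hr (by norm_num), e1, e2]
  revert h
  cases xor sb w.odd
  · intro h
    have h' : 0 < (child w.l s).W := by simpa [Sg] using h
    simp [not_lt.2 h'.le, h'.ne']
  · intro h
    have h' : (child w.l s).W < 0 := by simpa [Sg] using h
    simp [h', h'.ne]

inductive Ch where
  | last (w1 w2 w3 : Wd)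
  | cons (w1 w2 w3 : Wd) (r : Ch)

def pA : Pt := ⟨46, 100⟩
def pB : Pt := ⟨67, 100⟩

noncomputable def chChk (s2 s3 : Bool) (x0 x1 y0 y1 a1 b1 a2 b2 a3 b3 : ℕ) (c : Ch) :
    Pt → Pt → Pt → Bool :=
  Ch.rec
    (fun w1 w2 w3 p1 p2 p3 =>
      ratChk x0 x1 y0 y1 a1 b1 a2 b2 a3 b3 w1 w2 w3 &&
      ge3 s2 s3 x0 x1 y0 y1 a1 b1 a2 b2 a3 b3 p1 p2 p3 (loP false w1) (loP s2 w2) (loP s3 w3) &&
      ge3 s2 s3 x0 x1 y0 y1 a1 b1 a2 b2 a3 b3 (hiP false w1) (hiP s2 w2) (hiP s3 w3)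
        pB (cond s2 pA pB) (cond s3 pA pB))
    (fun w1 w2 w3 _ k p1 p2 p3 =>
      ratChk x0 x1 y0 y1 a1 b1 a2 b2 a3 b3 w1 w2 w3 &&
      ge3 s2 s3 x0 x1 y0 y1 a1 b1 a2 b2 a3 b3 p1 p2 p3 (loP false w1) (loP s2 w2) (loP s3 w3) &&
      k (hiP false w1) (hiP s2 w2) (hiP s3 w3))
    c

def Next (u1 u2 u3 : St) (τ : ℝ) : Prop :=
  ∃ l1 l2 l3 : List Bool, l1 ≠ [] ∧ Good (child l1 u1) (child l2 u2) (child l3 u3) τ

lemma lo_hi_root {sb : Bool} {s : St} (hs : Sg sb s) :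
    s.lo = s.f (cond sb pB pA).v ∧ s.hi = s.f (cond sb pA pB).v := by
  cases sb
  · have h' : 0 < s.W := by simpa [Sg] using hs
    simp [St.lo, St.hi, not_lt.2 h'.le, pA, pB, Pt.v]
  · have h' : s.W < 0 := by simpa [Sg] using hs
    simp [St.lo, St.hi, h', pA, pB, Pt.v]

lemma cond_d (sb : Bool) : 0 < (cond sb pA pB).d ∧ 0 < (cond sb pB pA).d := by
  cases sb <;> simp [pA, pB]

lemma link_sound {u1 u2 u3 : St} {s2 s3 : Bool} {x0 x1 y0 y1 a1 b1 a2 b2 a3 b3 : ℕ} {τ : ℝ}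
    (H : InBox u1 u2 u3 s2 s3 x0 x1 y0 y1 a1 b1 a2 b2 a3 b3) (G : Good u1 u2 u3 τ)
    {w1 w2 w3 : Wd} (h : ratChk x0 x1 y0 y1 a1 b1 a2 b2 a3 b3 w1 w2 w3 = true)
    (hlo : u1.f (loP false w1).v + u2.f (loP s2 w2).v + u3.f (loP s3 w3).v ≤ τ)
    (hhi : τ ≤ u1.f (hiP false w1).v + u2.f (hiP s2 w2).v + u3.f (hiP s3 w3).v) :
    Next u1 u2 u3 τ := by
  obtain ⟨h0, h1, h2, h3, h4, h5, h6⟩ := ratChk_sound H h
  obtain ⟨e1, f1, g1⟩ := lo_child H.g1 G.x1.1.nonneg w1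
  obtain ⟨e2, f2, g2⟩ := lo_child H.g2 G.x2.1.nonneg w2
  obtain ⟨e3, f3, g3⟩ := lo_child H.g3 G.x3.1.nonneg w3
  refine ⟨w1.l, w2.l, w3.l, h0, InX_child _ G.x1, InX_child _ G.x2, InX_child _ G.x3,
    g1, g2, g3, h1, h2, h3, h4, h5, h6, ?_, ?_⟩
  · rw [e1, e2, e3]; exact hlo
  · rw [f1, f2, f3]; exact hhi

lemma chChk_sound {u1 u2 u3 : St} {s2 s3 : Bool} {x0 x1 y0 y1 a1 b1 a2 b2 a3 b3 : ℕ} {τ : ℝ}
    (H : InBox u1 u2 u3 s2 s3 x0 x1 y0 y1 a1 b1 a2 b2 a3 b3) (G : Good u1 u2 u3 τ) (c : Ch) :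
    ∀ p1 p2 p3 : Pt, 0 < p1.d → 0 < p2.d → 0 < p3.d →
      chChk s2 s3 x0 x1 y0 y1 a1 b1 a2 b2 a3 b3 c p1 p2 p3 = true →
      u1.f p1.v + u2.f p2.v + u3.f p3.v ≤ τ → Next u1 u2 u3 τ := by
  induction c with
  | last w1 w2 w3 =>
    intro p1 p2 p3 h1 h2 h3 h hτ
    simp only [chChk, Bool.and_eq_true] at h
    obtain ⟨⟨k1, k2⟩, k3⟩ := h
    have m2 := ge3_sound H h1 h2 h3 (loP_d _ _) (loP_d _ _) (loP_d _ _) k2
    have m3 := ge3_sound H (hiP_d _ _) (hiP_d _ _) (hiP_d _ _) (by simp [pB]) (cond_d s2).1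
      (cond_d s3).1 k3
    refine link_sound H G k1 (m2.trans hτ) (le_trans ?_ m3)
    have := G.hi
    rw [(lo_hi_root H.g1).2, (lo_hi_root H.g2).2, (lo_hi_root H.g3).2] at this
    exact this
  | cons w1 w2 w3 r ih =>
    intro p1 p2 p3 h1 h2 h3 h hτ
    simp only [chChk, Bool.and_eq_true] at h
    obtain ⟨⟨k1, k2⟩, k3⟩ := h
    have m2 := ge3_sound H h1 h2 h3 (loP_d _ _) (loP_d _ _) (loP_d _ _) k2
    rcases le_total τ (u1.f (hiP false w1).v + u2.f (hiP s2 w2).v + u3.f (hiP s3 w3).v) with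
      hh | hh
    · exact link_sound H G k1 (m2.trans hτ) hh
    · exact ih _ _ _ (hiP_d _ _) (hiP_d _ _) (hiP_d _ _) k3 hh

inductive Tr where
  | lf (c : Ch)
  | nx (m : ℕ) (l r : Tr)
  | ny (m : ℕ) (l r : Tr)
  | n1 (m : ℕ) (l r : Tr)
  | n2 (m : ℕ) (l r : Tr)
  | n3 (m : ℕ) (l r : Tr)

noncomputable def trChk (s2 s3 : Bool) (t : Tr) :
    ℕ → ℕ → ℕ → ℕ → ℕ → ℕ → ℕ → ℕ → ℕ → ℕ → Bool :=
  Tr.rec
    (fun c x0 x1 y0 y1 a1 b1 a2 b2 a3 b3 =>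
      chChk s2 s3 (cond (Nat.ble x0 y0) y0 x0) x1 y0 (cond (Nat.ble x1 y1) x1 y1)
        a1 b1 a2 b2 a3 b3 c pA (cond s2 pB pA) (cond s3 pB pA))
    (fun m _ _ L R x0 x1 y0 y1 a1 b1 a2 b2 a3 b3 =>
      L x0 m y0 y1 a1 b1 a2 b2 a3 b3 && R m x1 y0 y1 a1 b1 a2 b2 a3 b3)
    (fun m _ _ L R x0 x1 y0 y1 a1 b1 a2 b2 a3 b3 =>
      L x0 x1 y0 m a1 b1 a2 b2 a3 b3 && R x0 x1 m y1 a1 b1 a2 b2 a3 b3)
    (fun m _ _ L R x0 x1 y0 y1 a1 b1 a2 b2 a3 b3 =>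
      L x0 x1 y0 y1 a1 m a2 b2 a3 b3 && R x0 x1 y0 y1 m b1 a2 b2 a3 b3)
    (fun m _ _ L R x0 x1 y0 y1 a1 b1 a2 b2 a3 b3 =>
      L x0 x1 y0 y1 a1 b1 a2 m a3 b3 && R x0 x1 y0 y1 a1 b1 m b2 a3 b3)
    (fun m _ _ L R x0 x1 y0 y1 a1 b1 a2 b2 a3 b3 =>
      L x0 x1 y0 y1 a1 b1 a2 b2 a3 m && R x0 x1 y0 y1 a1 b1 a2 b2 m b3)
    t

lemma trChk_sound {u1 u2 u3 : St} {s2 s3 : Bool} {τ : ℝ} (G : Good u1 u2 u3 τ)
    (h32 : u3.L ≤ u2.L) (t : Tr) :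
    ∀ x0 x1 y0 y1 a1 b1 a2 b2 a3 b3 : ℕ, InBox u1 u2 u3 s2 s3 x0 x1 y0 y1 a1 b1 a2 b2 a3 b3 →
      trChk s2 s3 t x0 x1 y0 y1 a1 b1 a2 b2 a3 b3 = true → Next u1 u2 u3 τ := by
  induction t with
  | lf c =>
    intro x0 x1 y0 y1 a1 b1 a2 b2 a3 b3 H h
    simp only [trChk] at h
    have H' : InBox u1 u2 u3 s2 s3 (cond (Nat.ble x0 y0) y0 x0) x1 y0
        (cond (Nat.ble x1 y1) x1 y1) a1 b1 a2 b2 a3 b3 := by
      refine { H with hx0 := ?_, hy1 := ?_ }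
      · cases Nat.ble x0 y0
        · exact H.hx0
        · have := H.hy0; simp only [cond_true]; linarith
      · cases Nat.ble x1 y1
        · exact H.hy1
        · have := H.hx1; simp only [cond_true]; linarith
    refine chChk_sound H' G c _ _ _ (by simp [pA]) (cond_d s2).2 (cond_d s3).2 h ?_
    have := G.lo
    rw [(lo_hi_root H.g1).1, (lo_hi_root H.g2).1, (lo_hi_root H.g3).1] at this
    exact this
  | nx m l r ihl ihr =>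
    intro x0 x1 y0 y1 a1 b1 a2 b2 a3 b3 H h
    simp only [trChk, Bool.and_eq_true] at h
    rcases le_total (102400 * u2.L) (m * u1.L) with k | k
    · exact ihl _ _ _ _ _ _ _ _ _ _ { H with hx1 := k } h.1
    · exact ihr _ _ _ _ _ _ _ _ _ _ { H with hx0 := k } h.2
  | ny m l r ihl ihr =>
    intro x0 x1 y0 y1 a1 b1 a2 b2 a3 b3 H h
    simp only [trChk, Bool.and_eq_true] at h
    rcases le_total (102400 * u3.L) (m * u1.L) with k | k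
    · exact ihl _ _ _ _ _ _ _ _ _ _ { H with hy1 := k } h.1
    · exact ihr _ _ _ _ _ _ _ _ _ _ { H with hy0 := k } h.2
  | n1 m l r ihl ihr =>
    intro x0 x1 y0 y1 a1 b1 a2 b2 a3 b3 H h
    simp only [trChk, Bool.and_eq_true] at h
    rcases le_total (10000 * u1.r) m with k | k
    · exact ihl _ _ _ _ _ _ _ _ _ _ { H with hb1 := k } h.1
    · exact ihr _ _ _ _ _ _ _ _ _ _ { H with ha1 := k } h.2
  | n2 m l r ihl ihr =>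
    intro x0 x1 y0 y1 a1 b1 a2 b2 a3 b3 H h
    simp only [trChk, Bool.and_eq_true] at h
    rcases le_total (10000 * u2.r) m with k | k
    · exact ihl _ _ _ _ _ _ _ _ _ _ { H with hb2 := k } h.1
    · exact ihr _ _ _ _ _ _ _ _ _ _ { H with ha2 := k } h.2
  | n3 m l r ihl ihr =>
    intro x0 x1 y0 y1 a1 b1 a2 b2 a3 b3 H h
    simp only [trChk, Bool.and_eq_true] at h
    rcases le_total (10000 * u3.r) m with k | k
    · exact ihl _ _ _ _ _ _ _ _ _ _ { H with hb3 := k } h.1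
    · exact ihr _ _ _ _ _ _ _ _ _ _ { H with ha3 := k } h.2

end Pool.Agent.MP_a07d0e_nt

end

section

namespace Pool.Agent.MP_a07d0e_nt

def w1 : Wd := ⟨⟨46, 100⟩, ⟨67, 100⟩, ⟨57, 100⟩, false, [],
  ⟨rfl, rfl, rfl, rfl⟩⟩
def w2 : Wd := ⟨⟨100, 146⟩, ⟨100, 167⟩, ⟨100, 157⟩, true, [false],
  ⟨rfl, rfl, rfl, rfl⟩⟩
def w3 : Wd := ⟨⟨100, 246⟩, ⟨100, 267⟩, ⟨100, 257⟩, true, [true],
  ⟨rfl, rfl, rfl, rfl⟩⟩
def w4 : Wd := ⟨⟨146, 246⟩, ⟨167, 267⟩, ⟨157, 257⟩, false, [false, false],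
  ⟨rfl, rfl, rfl, rfl⟩⟩
def w5 : Wd := ⟨⟨246, 346⟩, ⟨267, 367⟩, ⟨257, 357⟩, false, [false, true],
  ⟨rfl, rfl, rfl, rfl⟩⟩
def w6 : Wd := ⟨⟨146, 392⟩, ⟨167, 434⟩, ⟨157, 414⟩, false, [true, false],
  ⟨rfl, rfl, rfl, rfl⟩⟩
def w7 : Wd := ⟨⟨246, 592⟩, ⟨267, 634⟩, ⟨257, 614⟩, false, [true, true],
  ⟨rfl, rfl, rfl, rfl⟩⟩
def w8 : Wd := ⟨⟨246, 392⟩, ⟨267, 434⟩, ⟨257, 414⟩, true, [false, false, false],
  ⟨rfl, rfl, rfl, rfl⟩⟩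
def w9 : Wd := ⟨⟨346, 592⟩, ⟨367, 634⟩, ⟨357, 614⟩, true, [false, false, true],
  ⟨rfl, rfl, rfl, rfl⟩⟩
def w10 : Wd := ⟨⟨392, 538⟩, ⟨434, 601⟩, ⟨414, 571⟩, true, [false, true, false],
  ⟨rfl, rfl, rfl, rfl⟩⟩
def w11 : Wd := ⟨⟨592, 838⟩, ⟨634, 901⟩, ⟨614, 871⟩, true, [false, true, true],
  ⟨rfl, rfl, rfl, rfl⟩⟩
def w12 : Wd := ⟨⟨246, 638⟩, ⟨267, 701⟩, ⟨257, 671⟩, true, [true, false, false],
  ⟨rfl, rfl, rfl, rfl⟩⟩
def w13 : Wd := ⟨⟨346, 938⟩, ⟨367, 1001⟩, ⟨357, 971⟩, true, [true, false, true],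
  ⟨rfl, rfl, rfl, rfl⟩⟩
def w14 : Wd := ⟨⟨392, 930⟩, ⟨434, 1035⟩, ⟨414, 985⟩, true, [true, true, false],
  ⟨rfl, rfl, rfl, rfl⟩⟩
def w15 : Wd := ⟨⟨592, 1430⟩, ⟨634, 1535⟩, ⟨614, 1485⟩, true, [true, true, true],
  ⟨rfl, rfl, rfl, rfl⟩⟩
def w16 : Wd := ⟨⟨392, 638⟩, ⟨434, 701⟩, ⟨414, 671⟩, false, [false, false, false, false],
  ⟨rfl, rfl, rfl, rfl⟩⟩
def w17 : Wd := ⟨⟨592, 938⟩, ⟨634, 1001⟩, ⟨614, 971⟩, false, [false, false, false, true],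
  ⟨rfl, rfl, rfl, rfl⟩⟩
def w18 : Wd := ⟨⟨538, 930⟩, ⟨601, 1035⟩, ⟨571, 985⟩, false, [false, false, true, false],
  ⟨rfl, rfl, rfl, rfl⟩⟩
def w19 : Wd := ⟨⟨838, 1430⟩, ⟨901, 1535⟩, ⟨871, 1485⟩, false, [false, false, true, true],
  ⟨rfl, rfl, rfl, rfl⟩⟩
def w20 : Wd := ⟨⟨638, 884⟩, ⟨701, 968⟩, ⟨671, 928⟩, false, [false, true, false, false],
  ⟨rfl, rfl, rfl, rfl⟩⟩
def w21 : Wd := ⟨⟨938, 1284⟩, ⟨1001, 1368⟩, ⟨971, 1328⟩, false, [false, true, false, true],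
  ⟨rfl, rfl, rfl, rfl⟩⟩
def w22 : Wd := ⟨⟨930, 1322⟩, ⟨1035, 1469⟩, ⟨985, 1399⟩, false, [false, true, true, false],
  ⟨rfl, rfl, rfl, rfl⟩⟩
def w23 : Wd := ⟨⟨1430, 2022⟩, ⟨1535, 2169⟩, ⟨1485, 2099⟩, false, [false, true, true, true],
  ⟨rfl, rfl, rfl, rfl⟩⟩
def w24 : Wd := ⟨⟨392, 1030⟩, ⟨434, 1135⟩, ⟨414, 1085⟩, false, [true, false, false, false],
  ⟨rfl, rfl, rfl, rfl⟩⟩
def w25 : Wd := ⟨⟨592, 1530⟩, ⟨634, 1635⟩, ⟨614, 1585⟩, false, [true, false, false, true],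
  ⟨rfl, rfl, rfl, rfl⟩⟩
def w26 : Wd := ⟨⟨538, 1468⟩, ⟨601, 1636⟩, ⟨571, 1556⟩, false, [true, false, true, false],
  ⟨rfl, rfl, rfl, rfl⟩⟩
def w27 : Wd := ⟨⟨838, 2268⟩, ⟨901, 2436⟩, ⟨871, 2356⟩, false, [true, false, true, true],
  ⟨rfl, rfl, rfl, rfl⟩⟩
def w28 : Wd := ⟨⟨638, 1522⟩, ⟨701, 1669⟩, ⟨671, 1599⟩, false, [true, true, false, false],
  ⟨rfl, rfl, rfl, rfl⟩⟩
def w29 : Wd := ⟨⟨938, 2222⟩, ⟨1001, 2369⟩, ⟨971, 2299⟩, false, [true, true, false, true],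
  ⟨rfl, rfl, rfl, rfl⟩⟩
def w30 : Wd := ⟨⟨930, 2252⟩, ⟨1035, 2504⟩, ⟨985, 2384⟩, false, [true, true, true, false],
  ⟨rfl, rfl, rfl, rfl⟩⟩
def w31 : Wd := ⟨⟨1430, 3452⟩, ⟨1535, 3704⟩, ⟨1485, 3584⟩, false, [true, true, true, true],
  ⟨rfl, rfl, rfl, rfl⟩⟩
def w32 : Wd := ⟨⟨638, 1030⟩, ⟨701, 1135⟩, ⟨671, 1085⟩, true, [false, false, false, false, false],
  ⟨rfl, rfl, rfl, rfl⟩⟩
def w33 : Wd := ⟨⟨938, 1530⟩, ⟨1001, 1635⟩, ⟨971, 1585⟩, true, [false, false, false, false, true],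
  ⟨rfl, rfl, rfl, rfl⟩⟩
def w34 : Wd := ⟨⟨930, 1468⟩, ⟨1035, 1636⟩, ⟨985, 1556⟩, true, [false, false, false, true, false],
  ⟨rfl, rfl, rfl, rfl⟩⟩
def w35 : Wd := ⟨⟨1430, 2268⟩, ⟨1535, 2436⟩, ⟨1485, 2356⟩, true, [false, false, false, true, true],
  ⟨rfl, rfl, rfl, rfl⟩⟩
def w36 : Wd := ⟨⟨884, 1522⟩, ⟨968, 1669⟩, ⟨928, 1599⟩, true, [false, false, true, false, false],
  ⟨rfl, rfl, rfl, rfl⟩⟩
def w37 : Wd := ⟨⟨1284, 2222⟩, ⟨1368, 2369⟩, ⟨1328, 2299⟩, true, [false, false, true, false, true],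
  ⟨rfl, rfl, rfl, rfl⟩⟩
def w38 : Wd := ⟨⟨1322, 2252⟩, ⟨1469, 2504⟩, ⟨1399, 2384⟩, true, [false, false, true, true, false],
  ⟨rfl, rfl, rfl, rfl⟩⟩
def w39 : Wd := ⟨⟨2022, 3452⟩, ⟨2169, 3704⟩, ⟨2099, 3584⟩, true, [false, false, true, true, true],
  ⟨rfl, rfl, rfl, rfl⟩⟩
def w40 : Wd := ⟨⟨1030, 1422⟩, ⟨1135, 1569⟩, ⟨1085, 1499⟩, true, [false, true, false, false, false],
  ⟨rfl, rfl, rfl, rfl⟩⟩
def w41 : Wd := ⟨⟨1530, 2122⟩, ⟨1635, 2269⟩, ⟨1585, 2199⟩, true, [false, true, false, false, true],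
  ⟨rfl, rfl, rfl, rfl⟩⟩
def w42 : Wd := ⟨⟨1468, 2006⟩, ⟨1636, 2237⟩, ⟨1556, 2127⟩, true, [false, true, false, true, false],
  ⟨rfl, rfl, rfl, rfl⟩⟩
def w43 : Wd := ⟨⟨2268, 3106⟩, ⟨2436, 3337⟩, ⟨2356, 3227⟩, true, [false, true, false, true, true],
  ⟨rfl, rfl, rfl, rfl⟩⟩
def w44 : Wd := ⟨⟨1522, 2160⟩, ⟨1669, 2370⟩, ⟨1599, 2270⟩, true, [false, true, true, false, false],
  ⟨rfl, rfl, rfl, rfl⟩⟩
def w45 : Wd := ⟨⟨2222, 3160⟩, ⟨2369, 3370⟩, ⟨2299, 3270⟩, true, [false, true, true, false, true],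
  ⟨rfl, rfl, rfl, rfl⟩⟩
def w46 : Wd := ⟨⟨2252, 3182⟩, ⟨2504, 3539⟩, ⟨2384, 3369⟩, true, [false, true, true, true, false],
  ⟨rfl, rfl, rfl, rfl⟩⟩
def w47 : Wd := ⟨⟨3452, 4882⟩, ⟨3704, 5239⟩, ⟨3584, 5069⟩, true, [false, true, true, true, true],
  ⟨rfl, rfl, rfl, rfl⟩⟩
def w48 : Wd := ⟨⟨638, 1668⟩, ⟨701, 1836⟩, ⟨671, 1756⟩, true, [true, false, false, false, false],
  ⟨rfl, rfl, rfl, rfl⟩⟩
def w49 : Wd := ⟨⟨938, 2468⟩, ⟨1001, 2636⟩, ⟨971, 2556⟩, true, [true, false, false, false, true],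
  ⟨rfl, rfl, rfl, rfl⟩⟩
def w50 : Wd := ⟨⟨930, 2398⟩, ⟨1035, 2671⟩, ⟨985, 2541⟩, true, [true, false, false, true, false],
  ⟨rfl, rfl, rfl, rfl⟩⟩
def w51 : Wd := ⟨⟨1430, 3698⟩, ⟨1535, 3971⟩, ⟨1485, 3841⟩, true, [true, false, false, true, true],
  ⟨rfl, rfl, rfl, rfl⟩⟩
def w52 : Wd := ⟨⟨884, 2406⟩, ⟨968, 2637⟩, ⟨928, 2527⟩, true, [true, false, true, false, false],
  ⟨rfl, rfl, rfl, rfl⟩⟩
def w53 : Wd := ⟨⟨1284, 3506⟩, ⟨1368, 3737⟩, ⟨1328, 3627⟩, true, [true, false, true, false, true],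
  ⟨rfl, rfl, rfl, rfl⟩⟩
def w54 : Wd := ⟨⟨1322, 3574⟩, ⟨1469, 3973⟩, ⟨1399, 3783⟩, true, [true, false, true, true, false],
  ⟨rfl, rfl, rfl, rfl⟩⟩
def w55 : Wd := ⟨⟨2022, 5474⟩, ⟨2169, 5873⟩, ⟨2099, 5683⟩, true, [true, false, true, true, true],
  ⟨rfl, rfl, rfl, rfl⟩⟩
def w56 : Wd := ⟨⟨1030, 2452⟩, ⟨1135, 2704⟩, ⟨1085, 2584⟩, true, [true, true, false, false, false],
  ⟨rfl, rfl, rfl, rfl⟩⟩
def w57 : Wd := ⟨⟨1530, 3652⟩, ⟨1635, 3904⟩, ⟨1585, 3784⟩, true, [true, true, false, false, true],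
  ⟨rfl, rfl, rfl, rfl⟩⟩
def w58 : Wd := ⟨⟨1468, 3474⟩, ⟨1636, 3873⟩, ⟨1556, 3683⟩, true, [true, true, false, true, false],
  ⟨rfl, rfl, rfl, rfl⟩⟩
def w59 : Wd := ⟨⟨2268, 5374⟩, ⟨2436, 5773⟩, ⟨2356, 5583⟩, true, [true, true, false, true, true],
  ⟨rfl, rfl, rfl, rfl⟩⟩
def w60 : Wd := ⟨⟨1522, 3682⟩, ⟨1669, 4039⟩, ⟨1599, 3869⟩, true, [true, true, true, false, false],
  ⟨rfl, rfl, rfl, rfl⟩⟩
def w61 : Wd := ⟨⟨2222, 5382⟩, ⟨2369, 5739⟩, ⟨2299, 5569⟩, true, [true, true, true, false, true],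
  ⟨rfl, rfl, rfl, rfl⟩⟩
def w62 : Wd := ⟨⟨2252, 5434⟩, ⟨2504, 6043⟩, ⟨2384, 5753⟩, true, [true, true, true, true, false],
  ⟨rfl, rfl, rfl, rfl⟩⟩
def w63 : Wd := ⟨⟨3452, 8334⟩, ⟨3704, 8943⟩, ⟨3584, 8653⟩, true, [true, true, true, true, true],
  ⟨rfl, rfl, rfl, rfl⟩⟩
def w64 : Wd := ⟨⟨1030, 1668⟩, ⟨1135, 1836⟩, ⟨1085, 1756⟩, false, [false, false, false, false, false, false],
  ⟨rfl, rfl, rfl, rfl⟩⟩
def w65 : Wd := ⟨⟨1530, 2468⟩, ⟨1635, 2636⟩, ⟨1585, 2556⟩, false, [false, false, false, false, false, true],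
  ⟨rfl, rfl, rfl, rfl⟩⟩
def w66 : Wd := ⟨⟨1468, 2398⟩, ⟨1636, 2671⟩, ⟨1556, 2541⟩, false, [false, false, false, false, true, false],
  ⟨rfl, rfl, rfl, rfl⟩⟩
def w67 : Wd := ⟨⟨2268, 3698⟩, ⟨2436, 3971⟩, ⟨2356, 3841⟩, false, [false, false, false, false, true, true],
  ⟨rfl, rfl, rfl, rfl⟩⟩
def w68 : Wd := ⟨⟨1522, 2406⟩, ⟨1669, 2637⟩, ⟨1599, 2527⟩, false, [false, false, false, true, false, false],
  ⟨rfl, rfl, rfl, rfl⟩⟩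
def w69 : Wd := ⟨⟨2222, 3506⟩, ⟨2369, 3737⟩, ⟨2299, 3627⟩, false, [false, false, false, true, false, true],
  ⟨rfl, rfl, rfl, rfl⟩⟩
def w70 : Wd := ⟨⟨2252, 3574⟩, ⟨2504, 3973⟩, ⟨2384, 3783⟩, false, [false, false, false, true, true, false],
  ⟨rfl, rfl, rfl, rfl⟩⟩
def w71 : Wd := ⟨⟨3452, 5474⟩, ⟨3704, 5873⟩, ⟨3584, 5683⟩, false, [false, false, false, true, true, true],
  ⟨rfl, rfl, rfl, rfl⟩⟩
def w72 : Wd := ⟨⟨1422, 2452⟩, ⟨1569, 2704⟩, ⟨1499, 2584⟩, false, [false, false, true, false, false, false],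
  ⟨rfl, rfl, rfl, rfl⟩⟩
def w73 : Wd := ⟨⟨2122, 3652⟩, ⟨2269, 3904⟩, ⟨2199, 3784⟩, false, [false, false, true, false, false, true],
  ⟨rfl, rfl, rfl, rfl⟩⟩
def w74 : Wd := ⟨⟨2006, 3474⟩, ⟨2237, 3873⟩, ⟨2127, 3683⟩, false, [false, false, true, false, true, false],
  ⟨rfl, rfl, rfl, rfl⟩⟩
def w75 : Wd := ⟨⟨3106, 5374⟩, ⟨3337, 5773⟩, ⟨3227, 5583⟩, false, [false, false, true, false, true, true],
  ⟨rfl, rfl, rfl, rfl⟩⟩
def w76 : Wd := ⟨⟨2160, 3682⟩, ⟨2370, 4039⟩, ⟨2270, 3869⟩, false, [false, false, true, true, false, false],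
  ⟨rfl, rfl, rfl, rfl⟩⟩
def w77 : Wd := ⟨⟨3160, 5382⟩, ⟨3370, 5739⟩, ⟨3270, 5569⟩, false, [false, false, true, true, false, true],
  ⟨rfl, rfl, rfl, rfl⟩⟩
def w78 : Wd := ⟨⟨3182, 5434⟩, ⟨3539, 6043⟩, ⟨3369, 5753⟩, false, [false, false, true, true, true, false],
  ⟨rfl, rfl, rfl, rfl⟩⟩
def w80 : Wd := ⟨⟨1668, 2306⟩, ⟨1836, 2537⟩, ⟨1756, 2427⟩, false, [false, true, false, false, false, false],
  ⟨rfl, rfl, rfl, rfl⟩⟩
def w81 : Wd := ⟨⟨2468, 3406⟩, ⟨2636, 3637⟩, ⟨2556, 3527⟩, false, [false, true, false, false, false, true],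
  ⟨rfl, rfl, rfl, rfl⟩⟩
def w82 : Wd := ⟨⟨2398, 3328⟩, ⟨2671, 3706⟩, ⟨2541, 3526⟩, false, [false, true, false, false, true, false],
  ⟨rfl, rfl, rfl, rfl⟩⟩
def w84 : Wd := ⟨⟨2406, 3290⟩, ⟨2637, 3605⟩, ⟨2527, 3455⟩, false, [false, true, false, true, false, false],
  ⟨rfl, rfl, rfl, rfl⟩⟩
def w85 : Wd := ⟨⟨3506, 4790⟩, ⟨3737, 5105⟩, ⟨3627, 4955⟩, false, [false, true, false, true, false, true],
  ⟨rfl, rfl, rfl, rfl⟩⟩
def w86 : Wd := ⟨⟨3574, 4896⟩, ⟨3973, 5442⟩, ⟨3783, 5182⟩, false, [false, true, false, true, true, false],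
  ⟨rfl, rfl, rfl, rfl⟩⟩
def w88 : Wd := ⟨⟨2452, 3482⟩, ⟨2704, 3839⟩, ⟨2584, 3669⟩, false, [false, true, true, false, false, false],
  ⟨rfl, rfl, rfl, rfl⟩⟩
def w90 : Wd := ⟨⟨3474, 4942⟩, ⟨3873, 5509⟩, ⟨3683, 5239⟩, false, [false, true, true, false, true, false],
  ⟨rfl, rfl, rfl, rfl⟩⟩
def w96 : Wd := ⟨⟨1030, 2698⟩, ⟨1135, 2971⟩, ⟨1085, 2841⟩, false, [true, false, false, false, false, false],
  ⟨rfl, rfl, rfl, rfl⟩⟩
def w97 : Wd := ⟨⟨1530, 3998⟩, ⟨1635, 4271⟩, ⟨1585, 4141⟩, false, [true, false, false, false, false, true],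
  ⟨rfl, rfl, rfl, rfl⟩⟩
def w98 : Wd := ⟨⟨1468, 3866⟩, ⟨1636, 4307⟩, ⟨1556, 4097⟩, false, [true, false, false, false, true, false],
  ⟨rfl, rfl, rfl, rfl⟩⟩
def w100 : Wd := ⟨⟨1522, 3928⟩, ⟨1669, 4306⟩, ⟨1599, 4126⟩, false, [true, false, false, true, false, false],
  ⟨rfl, rfl, rfl, rfl⟩⟩
def w101 : Wd := ⟨⟨2222, 5728⟩, ⟨2369, 6106⟩, ⟨2299, 5926⟩, false, [true, false, false, true, false, true],
  ⟨rfl, rfl, rfl, rfl⟩⟩
def w102 : Wd := ⟨⟨2252, 5826⟩, ⟨2504, 6477⟩, ⟨2384, 6167⟩, false, [true, false, false, true, true, false],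
  ⟨rfl, rfl, rfl, rfl⟩⟩
def w103 : Wd := ⟨⟨3452, 8926⟩, ⟨3704, 9577⟩, ⟨3584, 9267⟩, false, [true, false, false, true, true, true],
  ⟨rfl, rfl, rfl, rfl⟩⟩
def w104 : Wd := ⟨⟨1422, 3874⟩, ⟨1569, 4273⟩, ⟨1499, 4083⟩, false, [true, false, true, false, false, false],
  ⟨rfl, rfl, rfl, rfl⟩⟩
def w105 : Wd := ⟨⟨2122, 5774⟩, ⟨2269, 6173⟩, ⟨2199, 5983⟩, false, [true, false, true, false, false, true],
  ⟨rfl, rfl, rfl, rfl⟩⟩
def w106 : Wd := ⟨⟨2006, 5480⟩, ⟨2237, 6110⟩, ⟨2127, 5810⟩, false, [true, false, true, false, true, false],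
  ⟨rfl, rfl, rfl, rfl⟩⟩
def w108 : Wd := ⟨⟨2160, 5842⟩, ⟨2370, 6409⟩, ⟨2270, 6139⟩, false, [true, false, true, true, false, false],
  ⟨rfl, rfl, rfl, rfl⟩⟩
def w112 : Wd := ⟨⟨1668, 3974⟩, ⟨1836, 4373⟩, ⟨1756, 4183⟩, false, [true, true, false, false, false, false],
  ⟨rfl, rfl, rfl, rfl⟩⟩
def w113 : Wd := ⟨⟨2468, 5874⟩, ⟨2636, 6273⟩, ⟨2556, 6083⟩, false, [true, true, false, false, false, true],
  ⟨rfl, rfl, rfl, rfl⟩⟩
def w115 : Wd := ⟨⟨3698, 8826⟩, ⟨3971, 9477⟩, ⟨3841, 9167⟩, false, [true, true, false, false, true, true],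
  ⟨rfl, rfl, rfl, rfl⟩⟩
def w116 : Wd := ⟨⟨2406, 5696⟩, ⟨2637, 6242⟩, ⟨2527, 5982⟩, false, [true, true, false, true, false, false],
  ⟨rfl, rfl, rfl, rfl⟩⟩
def w117 : Wd := ⟨⟨3506, 8296⟩, ⟨3737, 8842⟩, ⟨3627, 8582⟩, false, [true, true, false, true, false, true],
  ⟨rfl, rfl, rfl, rfl⟩⟩
def w118 : Wd := ⟨⟨3574, 8470⟩, ⟨3973, 9415⟩, ⟨3783, 8965⟩, false, [true, true, false, true, true, false],
  ⟨rfl, rfl, rfl, rfl⟩⟩
def w119 : Wd := ⟨⟨5474, 12970⟩, ⟨5873, 13915⟩, ⟨5683, 13465⟩, false, [true, true, false, true, true, true],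
  ⟨rfl, rfl, rfl, rfl⟩⟩
def w121 : Wd := ⟨⟨3652, 8834⟩, ⟨3904, 9443⟩, ⟨3784, 9153⟩, false, [true, true, true, false, false, true],
  ⟨rfl, rfl, rfl, rfl⟩⟩
def w126 : Wd := ⟨⟨5434, 13120⟩, ⟨6043, 14590⟩, ⟨5753, 13890⟩, false, [true, true, true, true, true, false],
  ⟨rfl, rfl, rfl, rfl⟩⟩

end Pool.Agent.MP_a07d0e_nt

end

section

namespace Pool.Agent.MP_a07d0e_nt

def Cov (s2 s3 : Bool) (x0 x1 y0 y1 a1 b1 a2 b2 a3 b3 : ℕ) : Prop :=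
  ∀ (u1 u2 u3 : St) (τ : ℝ), Good u1 u2 u3 τ → u3.L ≤ u2.L →
    InBox u1 u2 u3 s2 s3 x0 x1 y0 y1 a1 b1 a2 b2 a3 b3 → Next u1 u2 u3 τ

variable {s2 s3 : Bool} {x0 x1 y0 y1 a1 b1 a2 b2 a3 b3 : ℕ}

lemma Cov.chk (t : Tr) (h : trChk s2 s3 t x0 x1 y0 y1 a1 b1 a2 b2 a3 b3 = true) :
    Cov s2 s3 x0 x1 y0 y1 a1 b1 a2 b2 a3 b3 :=
  fun _ _ _ _ G h32 H => trChk_sound G h32 t _ _ _ _ _ _ _ _ _ _ H h

lemma Cov.nx (m : ℕ) (l : Cov s2 s3 x0 m y0 y1 a1 b1 a2 b2 a3 b3)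
    (r : Cov s2 s3 m x1 y0 y1 a1 b1 a2 b2 a3 b3) : Cov s2 s3 x0 x1 y0 y1 a1 b1 a2 b2 a3 b3 := by
  intro u1 u2 u3 τ G h32 H
  rcases le_total (102400 * u2.L) (m * u1.L) with k | k
  · exact l _ _ _ _ G h32 { H with hx1 := k }
  · exact r _ _ _ _ G h32 { H with hx0 := k }

lemma Cov.ny (m : ℕ) (l : Cov s2 s3 x0 x1 y0 m a1 b1 a2 b2 a3 b3)
    (r : Cov s2 s3 x0 x1 m y1 a1 b1 a2 b2 a3 b3) : Cov s2 s3 x0 x1 y0 y1 a1 b1 a2 b2 a3 b3 := by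
  intro u1 u2 u3 τ G h32 H
  rcases le_total (102400 * u3.L) (m * u1.L) with k | k
  · exact l _ _ _ _ G h32 { H with hy1 := k }
  · exact r _ _ _ _ G h32 { H with hy0 := k }

lemma Cov.n1 (m : ℕ) (l : Cov s2 s3 x0 x1 y0 y1 a1 m a2 b2 a3 b3)
    (r : Cov s2 s3 x0 x1 y0 y1 m b1 a2 b2 a3 b3) : Cov s2 s3 x0 x1 y0 y1 a1 b1 a2 b2 a3 b3 := by
  intro u1 u2 u3 τ G h32 H
  rcases le_total (10000 * u1.r) m with k | k
  · exact l _ _ _ _ G h32 { H with hb1 := k }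
  · exact r _ _ _ _ G h32 { H with ha1 := k }

lemma Cov.n2 (m : ℕ) (l : Cov s2 s3 x0 x1 y0 y1 a1 b1 a2 m a3 b3)
    (r : Cov s2 s3 x0 x1 y0 y1 a1 b1 m b2 a3 b3) : Cov s2 s3 x0 x1 y0 y1 a1 b1 a2 b2 a3 b3 := by
  intro u1 u2 u3 τ G h32 H
  rcases le_total (10000 * u2.r) m with k | k
  · exact l _ _ _ _ G h32 { H with hb2 := k }
  · exact r _ _ _ _ G h32 { H with ha2 := k }

lemma Cov.n3 (m : ℕ) (l : Cov s2 s3 x0 x1 y0 y1 a1 b1 a2 b2 a3 m)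
    (r : Cov s2 s3 x0 x1 y0 y1 a1 b1 a2 b2 m b3) : Cov s2 s3 x0 x1 y0 y1 a1 b1 a2 b2 a3 b3 := by
  intro u1 u2 u3 τ G h32 H
  rcases le_total (10000 * u3.r) m with k | k
  · exact l _ _ _ _ G h32 { H with hb3 := k }
  · exact r _ _ _ _ G h32 { H with ha3 := k }

end Pool.Agent.MP_a07d0e_nt

end

section

set_option maxRecDepth 100000

namespace Pool.Agent.MP_a07d0e_nt

noncomputable def t0 : Tr :=
(.nx 44585 (.nx 38815 (.ny 36217 (.lf (.cons w3 w2 w1 (.cons w4 w3 w3 (.cons w32 w7 w7 (.cons w65 w14 w14 (.cons w18 w6 w9 (.cons w9 w3 w4 (.last w2 w1 w1))))))))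
 (.lf (.cons w3 w1 w2 (.cons w8 w3 w3 (.cons w32 w7 w14 (.cons w65 w14 w14 (.cons w18 w18 w13 (.cons w9 w9 w6 (.cons w4 w1 w1 (.last w2 w2 w2)))))))))
) (.ny 38815 (.nx 41600 (.ny 36217 (.nx 40183 (.lf (.cons w3 w2 w1 (.cons w8 w3 w3 (.cons w32 w14 w7 (.cons w18 w6 w9 (.cons w9 w3 w4 (.last w2 w1 w1)))))))
 (.lf (.cons w3 w2 w1 (.cons w8 w3 w3 (.cons w32 w14 w7 (.cons w65 w28 w29 (.cons w18 w24 w9 (.cons w9 w3 w4 (.last w2 w1 w1))))))))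
) (.lf (.cons w3 w2 w1 (.cons w8 w3 w3 (.cons w32 w7 w14 (.cons w18 w13 w9 (.cons w9 w6 w9 (.cons w4 w1 w1 (.last w2 w2 w2))))))))
) (.ny 36217 (.nx 43067 (.lf (.cons w3 w2 w1 (.cons w8 w3 w3 (.cons w32 w7 w7 (.cons w65 w28 w14 (.cons w18 w12 w9 (.cons w9 w3 w4 (.last w2 w1 w1))))))))
 (.lf (.cons w3 w2 w1 (.cons w7 w5 w4 (.cons w16 w7 w7 (.cons w18 w12 w9 (.cons w9 w3 w4 (.last w2 w1 w1)))))))
) (.nx 43067 (.ny 37494 (.lf (.cons w3 w2 w1 (.cons w7 w5 w4 (.cons w16 w7 w7 (.cons w9 w6 w9 (.cons w4 w1 w1 (.last w2 w2 w2)))))))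
 (.lf (.cons w3 w2 w1 (.cons w7 w5 w4 (.cons w14 w10 w8 (.cons w28 w21 w17 (.cons w18 w6 w9 (.cons w9 w3 w4 (.last w2 w1 w1))))))))
) (.lf (.cons w3 w2 w1 (.cons w7 w5 w4 (.cons w14 w10 w8 (.cons w28 w21 w17 (.cons w9 w12 w9 (.cons w4 w1 w1 (.last w2 w2 w2))))))))
))) (.ny 41600 (.nx 41600 (.nx 40183 (.lf (.cons w3 w1 w2 (.cons w8 w3 w3 (.cons w32 w7 w14 (.cons w65 w28 w29 (.cons w37 w13 w18 (.cons w18 w13 w9 (.cons w9 w6 w9 (.last w2 w1 w1)))))))))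
 (.nx 40885 (.nx 40532 (.ny 39664 (.lf (.cons w3 w2 w1 (.cons w7 w5 w8 (.cons w14 w10 w17 (.cons w32 w14 w14 (.cons w18 w13 w9 (.cons w9 w6 w9 (.last w2 w1 w1))))))))
 (.n1 3943 (.lf (.cons w3 w2 w1 (.cons w7 w5 w8 (.cons w14 w10 w17 (.cons w117 w81 w69 (.cons w18 w13 w18 (.cons w9 w6 w9 (.last w2 w1 w1))))))))
 (.ny 40096 (.nx 40357 (.lf (.cons w3 w2 w1 (.cons w7 w5 w8 (.cons w14 w17 w10 (.cons w37 w13 w18 (.cons w18 w13 w9 (.cons w9 w9 w6 (.last w2 w1 w1))))))))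
 (.lf (.cons w3 w2 w1 (.cons w7 w5 w8 (.cons w14 w10 w17 (.cons w18 w13 w18 (.cons w9 w6 w9 (.last w2 w1 w1)))))))
) (.lf (.cons w3 w2 w1 (.cons w7 w5 w8 (.cons w14 w17 w10 (.cons w117 w69 w81 (.cons w18 w13 w18 (.cons w9 w6 w9 (.last w2 w1 w1))))))))
))) (.lf (.cons w3 w2 w1 (.cons w7 w5 w8 (.cons w14 w10 w17 (.cons w18 w13 w9 (.cons w9 w6 w9 (.last w2 w1 w1)))))))
) (.lf (.cons w3 w2 w1 (.cons w7 w5 w4 (.cons w14 w10 w17 (.cons w18 w13 w9 (.cons w9 w6 w9 (.last w2 w1 w1)))))))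
)) (.lf (.cons w3 w2 w1 (.cons w7 w5 w4 (.cons w14 w20 w17 (.cons w56 w21 w17 (.cons w9 w6 w9 (.cons w4 w1 w1 (.last w2 w2 w2))))))))
) (.lf (.cons w3 w1 w2 (.cons w7 w8 w5 (.cons w14 w17 w10 (.cons w9 w9 w6 (.last w2 w1 w1))))))
))) (.ny 44585 (.nx 51212 (.lf (.cons w3 w2 w1 (.cons w7 w5 w4 (.cons w9 w6 w4 (.cons w4 w3 w2 (.last w2 w1 w1))))))
 (.lf (.cons w3 w2 w1 (.cons w7 w5 w4 (.last w2 w1 w1))))
) (.nx 51212 (.lf (.cons w3 w1 w2 (.cons w6 w5 w5 (.last w2 w1 w1))))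
 (.ny 51212 (.lf (.cons w3 w2 w1 (.last w2 w1 w1)))
 (.lf (.cons w3 w2 w3 (.cons w12 w10 w7 (.cons w7 w5 w6 (.cons w4 w3 w3 (.cons w3 w2 w2 (.last w2 w1 w1)))))))
))))

theorem c0 : Cov false false 33792 58824 33792 102400 3660 4227 3660 4227 3660 4227 :=
  Cov.chk t0 (by decide +kernel)

noncomputable def t2 : Tr :=
(.nx 58824 (.nx 44585 (.nx 38815 (.lf (.cons w3 w1 w2 (.cons w6 w3 w5 (.cons w4 w2 w3 (.last w2 w1 w1)))))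
 (.lf (.cons w3 w1 w1 (.cons w3 w3 w2 (.cons w4 w4 w3 (.last w2 w1 w1)))))
) (.ny 44585 (.nx 51212 (.lf (.cons w3 w1 w1 (.cons w3 w3 w2 (.last w2 w1 w1))))
 (.ny 38815 (.lf (.cons w3 w4 w2 (.cons w14 w9 w8 (.cons w7 w8 w5 (.cons w9 w5 w3 (.cons w19 w20 w7 (.cons w18 w11 w14 (.cons w7 w6 w3 (.cons w15 w26 w14 (.cons w6 w3 w4 (.cons w3 w3 w2 (.last w2 w1 w1))))))))))))
 (.nx 54886 (.lf (.cons w3 w4 w2 (.cons w9 w5 w3 (.cons w7 w6 w3 (.cons w7 w4 w5 (.cons w14 w9 w5 (.cons w3 w3 w2 (.last w2 w1 w1))))))))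
 (.lf (.cons w3 w4 w2 (.cons w3 w3 w3 (.cons w7 w6 w3 (.cons w8 w5 w3 (.cons w4 w4 w3 (.last w2 w1 w1)))))))
))) (.nx 51212 (.lf (.cons w3 w1 w2 (.cons w3 w3 w2 (.last w2 w1 w1))))
 (.lf (.cons w3 w2 w2 (.cons w12 w9 w10 (.cons w25 w18 w20 (.cons w50 w37 w40 (.cons w15 w16 w11 (.cons w7 w4 w5 (.cons w7 w9 w10 (.cons w3 w3 w2 (.last w2 w1 w1))))))))))
))) (.ny 58824 (.nx 77612 (.ny 44585 (.nx 67568 (.ny 38815 (.lf (.cons w3 w4 w2 (.cons w6 w3 w3 (.cons w14 w7 w12 (.cons w15 w14 w7 (.cons w24 w13 w14 (.cons w96 w53 w29 (.cons w97 w104 w58 (.cons w100 w27 w30 (.cons w50 w27 w15 (.cons w51 w52 w15 (.cons w25 w13 w7 (.cons w14 w7 w7 (.cons w7 w6 w3 (.cons w6 w3 w4 (.last w2 w1 w1))))))))))))))))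
 (.lf (.cons w3 w4 w2 (.cons w3 w3 w3 (.cons w7 w6 w3 (.cons w9 w8 w3 (.cons w4 w2 w1 (.last w2 w1 w1)))))))
) (.lf (.cons w3 w2 w2 (.cons w7 w9 w8 (.cons w6 w3 w3 (.cons w8 w5 w3 (.cons w9 w8 w6 (.cons w4 w4 w3 (.last w2 w1 w1))))))))
) (.nx 67568 (.ny 51212 (.nx 63045 (.lf (.cons w3 w2 w2 (.cons w3 w3 w3 (.cons w8 w5 w3 (.cons w17 w10 w7 (.cons w4 w4 w3 (.last w2 w1 w1)))))))
 (.lf (.cons w3 w2 w2 (.cons w3 w3 w3 (.cons w7 w6 w3 (.cons w15 w13 w7 (.cons w4 w4 w3 (.last w2 w1 w1)))))))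
) (.lf (.cons w3 w2 w2 (.cons w8 w5 w3 (.cons w32 w11 w7 (.cons w4 w4 w3 (.last w2 w1 w1))))))
) (.lf (.cons w3 w2 w2 (.cons w3 w3 w3 (.cons w7 w6 w6 (.cons w14 w13 w12 (.cons w4 w4 w3 (.last w2 w1 w1)))))))
)) (.ny 44585 (.nx 89149 (.lf (.cons w3 w2 w2 (.cons w7 w8 w5 (.cons w4 w5 w3 (.cons w6 w3 w3 (.cons w9 w8 w3 (.cons w2 w2 w1 (.last w2 w1 w1))))))))
 (.nx 95545 (.lf (.cons w3 w2 w2 (.cons w4 w5 w3 (.cons w6 w7 w3 (.cons w6 w3 w3 (.last w2 w1 w1))))))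
 (.ny 38815 (.ny 36217 (.lf (.cons w3 w4 w2 (.cons w8 w5 w3 (.cons w32 w22 w7 (.cons w65 w44 w29 (.cons w65 w45 w56 (.cons w18 w40 w9 (.cons w9 w5 w4 (.cons w2 w2 w1 (.cons w5 w4 w2 (.last w4 w3 w1)))))))))))
 (.lf (.cons w3 w2 w2 (.cons w8 w5 w3 (.cons w32 w11 w7 (.cons w18 w21 w9 (.cons w9 w10 w9 (.cons w4 w2 w1 (.last w2 w1 w1))))))))
) (.ny 41600 (.lf (.cons w3 w2 w2 (.cons w7 w8 w5 (.cons w14 w16 w10 (.cons w29 w33 w20 (.cons w16 w11 w7 (.cons w32 w22 w14 (.cons w65 w45 w28 (.cons w13 w7 w6 (.cons w6 w7 w3 (.cons w2 w2 w1 (.last w2 w1 w1))))))))))))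
 (.lf (.cons w3 w2 w2 (.cons w7 w8 w5 (.cons w14 w16 w10 (.cons w28 w33 w21 (.cons w6 w7 w3 (.cons w2 w2 w1 (.last w2 w1 w1))))))))
)))) (.nx 89149 (.lf (.cons w3 w2 w2 (.cons w6 w3 w3 (.cons w3 w3 w3 (.cons w2 w2 w1 (.last w2 w1 w1))))))
 (.ny 51212 (.lf (.cons w3 w2 w2 (.cons w7 w8 w5 (.cons w9 w8 w6 (.cons w2 w2 w1 (.last w2 w1 w1))))))
 (.lf (.cons w3 w2 w2 (.cons w7 w8 w5 (.cons w2 w2 w1 (.last w2 w1 w1)))))
)))) (.nx 77612 (.lf (.cons w6 w5 w8 (.cons w3 w2 w2 (.cons w4 w4 w3 (.last w2 w1 w1)))))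
 (.ny 77612 (.nx 89149 (.ny 67568 (.lf (.cons w3 w2 w2 (.cons w4 w4 w3 (.last w2 w1 w1))))
 (.lf (.cons w12 w5 w8 (.cons w3 w2 w2 (.cons w2 w2 w1 (.last w2 w1 w1)))))
) (.lf (.cons w3 w5 w4 (.cons w3 w2 w2 (.cons w4 w4 w3 (.last w2 w1 w1)))))
) (.nx 89149 (.lf (.cons w6 w5 w4 (.cons w3 w2 w2 (.last w2 w1 w1))))
 (.ny 89149 (.lf (.cons w3 w5 w4 (.cons w3 w2 w2 (.last w2 w1 w1))))
 (.lf (.cons w3 w5 w4 (.cons w2 w2 w3 (.last w2 w1 w1))))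
))))))

theorem c2 : Cov true false 33792 102400 33792 102400 3660 4227 3660 4227 3660 4227 :=
  Cov.chk t2 (by decide +kernel)

noncomputable def t3 : Tr :=
(.nx 58824 (.nx 44585 (.nx 38815 (.lf (.cons w3 w2 w1 (.cons w6 w5 w3 (.cons w4 w3 w2 (.last w2 w1 w1)))))
 (.lf (.cons w3 w2 w1 (.cons w6 w5 w3 (.cons w4 w3 w2 (.last w2 w1 w1)))))
) (.ny 44585 (.lf (.cons w3 w2 w1 (.cons w4 w3 w2 (.last w2 w1 w1))))
 (.nx 51212 (.lf (.cons w3 w2 w1 (.cons w3 w2 w3 (.last w2 w1 w1))))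
 (.lf (.cons w3 w2 w2 (.cons w12 w10 w9 (.cons w4 w3 w2 (.last w2 w1 w1)))))
))) (.ny 58824 (.nx 77612 (.ny 44585 (.nx 67568 (.lf (.cons w3 w2 w2 (.cons w3 w2 w1 (.cons w7 w8 w3 (.last w2 w1 w1)))))
 (.ny 38815 (.lf (.cons w7 w6 w3 (.cons w14 w12 w6 (.cons w29 w48 w13 (.cons w28 w25 w26 (.cons w15 w14 w7 (.cons w14 w7 w7 (.cons w3 w2 w2 (.cons w3 w2 w1 (.last w2 w1 w1))))))))))
 (.lf (.cons w3 w3 w3 (.cons w3 w2 w2 (.cons w3 w2 w1 (.last w2 w1 w1)))))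
)) (.nx 67568 (.lf (.cons w3 w2 w2 (.cons w4 w3 w2 (.last w2 w1 w1))))
 (.lf (.cons w3 w3 w3 (.cons w3 w2 w2 (.cons w8 w3 w4 (.last w2 w1 w1)))))
)) (.ny 44585 (.nx 89149 (.ny 38815 (.nx 83181 (.lf (.cons w12 w9 w5 (.cons w13 w16 w5 (.cons w3 w4 w2 (.cons w4 w3 w1 (.last w2 w1 w1))))))
 (.nx 86113 (.lf (.cons w12 w9 w5 (.cons w13 w16 w5 (.cons w3 w2 w2 (.last w2 w1 w1)))))
 (.lf (.cons w6 w9 w5 (.cons w13 w16 w10 (.cons w3 w4 w2 (.cons w2 w3 w1 (.last w2 w1 w1))))))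
)) (.lf (.cons w3 w3 w3 (.cons w7 w7 w7 (.cons w6 w4 w2 (.cons w3 w2 w1 (.last w2 w1 w1))))))
) (.nx 95545 (.ny 38815 (.lf (.cons w13 w9 w5 (.cons w6 w9 w5 (.cons w7 w7 w3 (.cons w14 w14 w13 (.cons w9 w6 w5 (.cons w3 w2 w2 (.last w2 w1 w1))))))))
 (.lf (.cons w6 w9 w5 (.cons w9 w13 w5 (.cons w9 w6 w5 (.cons w3 w2 w2 (.last w2 w1 w1))))))
) (.ny 38815 (.nx 98913 (.lf (.cons w13 w9 w5 (.cons w6 w9 w5 (.cons w9 w6 w5 (.cons w6 w4 w2 (.cons w2 w3 w1 (.last w2 w1 w1)))))))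
 (.nx 100641 (.lf (.cons w26 w18 w10 (.cons w13 w9 w5 (.cons w6 w9 w5 (.cons w9 w12 w5 (.cons w38 w48 w11 (.cons w6 w4 w2 (.cons w2 w3 w1 (.last w2 w1 w1)))))))))
 (.ny 36217 (.ny 34983 (.lf (.cons w7 w7 w3 (.cons w9 w6 w5 (.cons w19 w25 w10 (.cons w9 w13 w8 (.cons w4 w3 w1 (.cons w2 w3 w1 (.cons w10 w7 w4 (.cons w5 w6 w3 (.cons w2 w4 w1 (.last w2 w2 w1)))))))))))
 (.lf (.cons w14 w7 w7 (.cons w7 w7 w6 (.cons w9 w12 w5 (.cons w18 w26 w17 (.cons w9 w13 w8 (.cons w2 w3 w2 (.last w2 w1 w1))))))))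
) (.ny 37494 (.lf (.cons w7 w7 w7 (.cons w7 w7 w3 (.cons w9 w12 w5 (.cons w18 w26 w17 (.cons w9 w13 w8 (.cons w2 w3 w2 (.last w2 w1 w1))))))))
 (.ny 38149 (.lf (.cons w7 w7 w7 (.cons w9 w6 w5 (.cons w19 w48 w11 (.cons w33 w26 w10 (.cons w4 w6 w2 (.cons w2 w3 w1 (.last w2 w1 w1))))))))
 (.lf (.cons w13 w18 w10 (.cons w9 w13 w5 (.cons w9 w6 w5 (.cons w19 w48 w11 (.cons w18 w26 w17 (.cons w4 w6 w2 (.cons w2 w3 w1 (.last w2 w1 w1)))))))))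
))))) (.nx 98913 (.lf (.cons w3 w3 w3 (.cons w29 w25 w13 (.cons w7 w7 w7 (.cons w7 w7 w3 (.cons w6 w4 w2 (.cons w2 w3 w1 (.last w2 w1 w1))))))))
 (.lf (.cons w13 w9 w10 (.cons w6 w9 w5 (.cons w7 w7 w3 (.cons w14 w14 w13 (.cons w113 w117 w53 (.cons w29 w29 w27 (.cons w29 w29 w13 (.cons w6 w4 w2 (.cons w2 w3 w1 (.last w2 w1 w1)))))))))))
)))) (.nx 89149 (.lf (.cons w3 w3 w3 (.cons w3 w4 w2 (.cons w3 w2 w2 (.cons w6 w5 w4 (.last w2 w1 w1))))))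
 (.ny 51212 (.nx 95545 (.lf (.cons w3 w3 w3 (.cons w7 w7 w7 (.cons w3 w4 w2 (.cons w3 w2 w1 (.last w2 w1 w1))))))
 (.ny 47784 (.lf (.cons w3 w3 w3 (.cons w7 w7 w7 (.cons w7 w7 w3 (.cons w2 w3 w2 (.last w2 w1 w1))))))
 (.lf (.cons w3 w3 w3 (.cons w7 w7 w7 (.cons w6 w4 w2 (.cons w3 w2 w1 (.last w2 w1 w1))))))
)) (.lf (.cons w3 w3 w3 (.cons w14 w7 w7 (.cons w3 w2 w2 (.last w2 w1 w1)))))
)))) (.nx 77612 (.lf (.cons w6 w8 w5 (.cons w3 w2 w2 (.cons w4 w3 w4 (.last w2 w1 w1)))))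
 (.ny 77612 (.nx 89149 (.ny 67568 (.nx 83181 (.lf (.cons w6 w4 w5 (.cons w3 w2 w2 (.last w2 w1 w1))))
 (.lf (.cons w12 w9 w5 (.cons w13 w32 w10 (.cons w6 w8 w5 (.cons w3 w2 w2 (.last w2 w1 w1))))))
) (.lf (.cons w6 w4 w5 (.cons w3 w2 w2 (.last w2 w1 w1))))
) (.lf (.cons w6 w9 w5 (.cons w13 w16 w10 (.cons w6 w8 w5 (.cons w3 w2 w2 (.last w2 w1 w1))))))
) (.nx 89149 (.lf (.cons w6 w4 w5 (.cons w3 w2 w2 (.last w2 w1 w1))))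
 (.ny 89149 (.lf (.cons w9 w6 w5 (.cons w4 w6 w5 (.cons w2 w3 w2 (.last w2 w1 w1)))))
 (.lf (.cons w3 w4 w5 (.cons w2 w3 w2 (.last w2 w1 w1))))
))))))

theorem c3 : Cov false true 33792 102400 33792 102400 3660 4227 3660 4227 3660 4227 :=
  Cov.chk t3 (by decide +kernel)

noncomputable def t6 : Tr :=
(.ny 36217 (.lf (.cons w3 w2 w1 (.cons w4 w3 w3 (.cons w32 w7 w7 (.cons w65 w14 w14 (.cons w18 w6 w9 (.cons w9 w3 w4 (.last w2 w1 w1))))))))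
 (.nx 37494 (.lf (.cons w3 w1 w2 (.cons w4 w3 w3 (.cons w32 w7 w7 (.cons w18 w9 w13 (.cons w9 w9 w6 (.last w2 w1 w1)))))))
 (.lf (.cons w3 w2 w1 (.cons w8 w3 w3 (.cons w32 w14 w7 (.cons w65 w14 w14 (.cons w18 w13 w9 (.cons w9 w6 w9 (.cons w4 w1 w1 (.last w2 w2 w2)))))))))
))

theorem c6 : Cov false false 33792 38815 33792 102400 5773 7321 3660 4227 3660 4227 :=
  Cov.chk t6 (by decide +kernel)

noncomputable def t10 : Tr :=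
(.nx 40885 (.nx 40532 (.lf (.cons w3 w1 w2 (.cons w7 w8 w5 (.cons w32 w7 w7 (.cons w32 w14 w14 (.cons w65 w28 w29 (.cons w37 w18 w13 (.cons w18 w9 w13 (.cons w9 w9 w6 (.last w2 w1 w1))))))))))
 (.n1 6160 (.ny 40532 (.n1 5966 (.n2 3943 (.lf (.cons w3 w2 w1 (.cons w7 w5 w8 (.cons w14 w10 w17 (.cons w117 w81 w69 (.cons w37 w26 w18 (.cons w18 w13 w9 (.cons w9 w9 w6 (.last w2 w1 w1)))))))))
 (.lf (.cons w3 w2 w1 (.cons w7 w5 w8 (.cons w14 w10 w17 (.cons w37 w13 w18 (.cons w18 w13 w9 (.cons w9 w9 w6 (.last w2 w1 w1))))))))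
) (.n2 3943 (.nx 40708 (.n2 3801 (.lf (.cons w3 w2 w1 (.cons w7 w5 w8 (.cons w32 w14 w7 (.cons w65 w29 w28 (.cons w37 w18 w13 (.cons w18 w9 w13 (.cons w9 w9 w6 (.last w2 w1 w1)))))))))
 (.lf (.cons w3 w2 w1 (.cons w7 w5 w8 (.cons w14 w10 w17 (.cons w117 w81 w69 (.cons w37 w13 w18 (.cons w18 w13 w9 (.cons w9 w9 w6 (.last w2 w1 w1)))))))))
) (.lf (.cons w3 w2 w1 (.cons w7 w5 w8 (.cons w14 w10 w17 (.cons w37 w13 w18 (.cons w18 w13 w9 (.cons w9 w9 w6 (.last w2 w1 w1))))))))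
) (.n2 4085 (.lf (.cons w3 w2 w1 (.cons w7 w5 w8 (.cons w14 w10 w17 (.cons w37 w26 w18 (.cons w18 w13 w9 (.cons w9 w9 w6 (.last w2 w1 w1))))))))
 (.lf (.cons w3 w2 w1 (.cons w7 w5 w8 (.cons w14 w10 w17 (.cons w37 w13 w18 (.cons w18 w13 w9 (.cons w9 w9 w6 (.last w2 w1 w1))))))))
))) (.n1 5966 (.lf (.cons w3 w1 w2 (.cons w7 w8 w5 (.cons w14 w17 w10 (.cons w117 w69 w81 (.cons w37 w13 w18 (.cons w18 w13 w9 (.cons w9 w9 w6 (.last w2 w1 w1)))))))))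
 (.n2 3943 (.lf (.cons w3 w2 w1 (.cons w7 w5 w8 (.cons w14 w10 w17 (.cons w117 w81 w69 (.cons w119 w86 w71 (.cons w37 w18 w26 (.cons w18 w9 w13 (.cons w9 w6 w9 (.last w2 w1 w1))))))))))
 (.lf (.cons w3 w1 w2 (.cons w7 w8 w5 (.cons w14 w17 w10 (.cons w37 w13 w18 (.cons w18 w13 w9 (.cons w9 w9 w6 (.last w2 w1 w1))))))))
))) (.ny 40532 (.n3 3943 (.lf (.cons w3 w2 w1 (.cons w7 w5 w8 (.cons w32 w14 w7 (.cons w65 w29 w28 (.cons w37 w13 w18 (.cons w18 w13 w9 (.cons w9 w9 w6 (.last w2 w1 w1)))))))))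
 (.lf (.cons w3 w2 w1 (.cons w7 w5 w8 (.cons w32 w14 w7 (.cons w65 w29 w28 (.cons w37 w13 w18 (.cons w18 w13 w9 (.cons w9 w9 w6 (.last w2 w1 w1)))))))))
) (.ny 40708 (.n1 6353 (.n2 3943 (.n3 3943 (.nx 40708 (.nx 40620 (.lf (.cons w3 w2 w1 (.cons w7 w5 w8 (.cons w14 w17 w10 (.cons w37 w26 w37 (.cons w37 w13 w18 (.cons w18 w13 w9 (.cons w9 w9 w6 (.last w2 w1 w1)))))))))
 (.lf (.cons w3 w2 w1 (.cons w7 w5 w8 (.cons w14 w10 w17 (.cons w117 w81 w69 (.cons w37 w26 w18 (.cons w18 w13 w9 (.cons w9 w9 w6 (.last w2 w1 w1)))))))))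
) (.lf (.cons w3 w2 w1 (.cons w7 w5 w8 (.cons w14 w10 w17 (.cons w37 w13 w18 (.cons w18 w13 w9 (.cons w9 w9 w6 (.last w2 w1 w1))))))))
) (.lf (.cons w3 w2 w1 (.cons w7 w5 w8 (.cons w14 w10 w17 (.cons w37 w18 w26 (.cons w18 w9 w13 (.cons w9 w6 w9 (.last w2 w1 w1))))))))
) (.lf (.cons w3 w2 w1 (.cons w7 w5 w8 (.cons w14 w17 w10 (.cons w117 w69 w81 (.cons w37 w26 w18 (.cons w18 w13 w9 (.cons w9 w9 w6 (.last w2 w1 w1)))))))))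
) (.n2 3943 (.nx 40708 (.n2 3801 (.lf (.cons w3 w2 w1 (.cons w7 w5 w8 (.cons w14 w10 w17 (.cons w117 w81 w69 (.cons w37 w26 w37 (.cons w37 w13 w18 (.cons w18 w13 w9 (.cons w9 w6 w9 (.last w2 w1 w1))))))))))
 (.lf (.cons w3 w2 w1 (.cons w7 w5 w8 (.cons w14 w10 w17 (.cons w117 w81 w69 (.cons w37 w26 w37 (.cons w37 w13 w18 (.cons w18 w13 w9 (.cons w9 w6 w9 (.last w2 w1 w1))))))))))
) (.lf (.cons w3 w2 w1 (.cons w7 w5 w8 (.cons w14 w10 w17 (.cons w117 w81 w69 (.cons w37 w26 w18 (.cons w18 w13 w9 (.cons w9 w9 w6 (.last w2 w1 w1)))))))))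
) (.nx 40708 (.nx 40620 (.lf (.cons w3 w1 w2 (.cons w7 w8 w5 (.cons w14 w17 w10 (.cons w37 w26 w37 (.cons w37 w13 w18 (.cons w18 w9 w13 (.cons w9 w9 w6 (.last w2 w1 w1)))))))))
 (.lf (.cons w3 w1 w2 (.cons w7 w8 w5 (.cons w14 w17 w10 (.cons w118 w71 w43 (.cons w117 w69 w81 (.cons w37 w26 w18 (.cons w18 w13 w9 (.cons w9 w9 w6 (.last w2 w1 w1))))))))))
) (.lf (.cons w3 w2 w1 (.cons w7 w5 w8 (.cons w14 w10 w17 (.cons w37 w13 w18 (.cons w18 w13 w9 (.cons w9 w9 w6 (.last w2 w1 w1))))))))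
))) (.lf (.cons w3 w1 w2 (.cons w7 w8 w5 (.cons w14 w17 w10 (.cons w117 w69 w81 (.cons w37 w26 w18 (.cons w18 w13 w9 (.cons w9 w9 w6 (.last w2 w1 w1)))))))))
)))) (.nx 41241 (.n1 6160 (.n2 3943 (.nx 41063 (.lf (.cons w3 w2 w1 (.cons w7 w5 w8 (.cons w14 w17 w10 (.cons w37 w13 w18 (.cons w18 w13 w9 (.cons w9 w9 w6 (.last w2 w1 w1))))))))
 (.lf (.cons w3 w2 w1 (.cons w7 w5 w8 (.cons w14 w10 w17 (.cons w18 w13 w9 (.cons w9 w6 w9 (.last w2 w1 w1)))))))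
) (.lf (.cons w3 w2 w1 (.cons w7 w5 w8 (.cons w14 w10 w17 (.cons w117 w81 w69 (.cons w18 w13 w18 (.cons w9 w6 w9 (.last w2 w1 w1))))))))
) (.lf (.cons w3 w2 w1 (.cons w7 w5 w8 (.cons w14 w10 w17 (.cons w117 w81 w69 (.cons w37 w13 w18 (.cons w18 w13 w9 (.cons w9 w6 w9 (.last w2 w1 w1)))))))))
) (.lf (.cons w3 w2 w1 (.cons w7 w5 w8 (.cons w14 w10 w17 (.cons w18 w13 w18 (.cons w9 w6 w9 (.last w2 w1 w1)))))))
))

theorem c10 : Cov false false 40183 41600 40183 102400 5773 6547 3660 4227 3660 4227 :=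
  Cov.chk t10 (by decide +kernel)

noncomputable def t12 : Tr :=
(.nx 43067 (.ny 40886 (.n1 6547 (.lf (.cons w3 w2 w1 (.cons w7 w5 w4 (.cons w14 w10 w8 (.cons w29 w20 w17 (.cons w18 w13 w9 (.cons w9 w6 w9 (.cons w4 w1 w1 (.last w2 w2 w2)))))))))
 (.nx 42327 (.ny 39837 (.lf (.cons w3 w2 w1 (.cons w7 w5 w4 (.cons w16 w7 w7 (.cons w32 w14 w14 (.cons w18 w13 w9 (.cons w9 w6 w9 (.last w2 w1 w1))))))))
 (.lf (.cons w3 w2 w1 (.cons w7 w5 w4 (.cons w14 w17 w10 (.cons w29 w20 w17 (.cons w58 w40 w34 (.cons w113 w42 w69 (.cons w18 w13 w18 (.cons w9 w6 w9 (.last w2 w1 w1))))))))))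
) (.lf (.cons w3 w2 w1 (.cons w7 w5 w4 (.cons w14 w10 w8 (.cons w29 w20 w17 (.cons w36 w13 w9 (.cons w9 w6 w9 (.cons w4 w1 w1 (.last w2 w2 w2)))))))))
)) (.ny 41962 (.lf (.cons w3 w2 w1 (.cons w7 w5 w4 (.cons w14 w17 w10 (.cons w18 w13 w9 (.cons w9 w6 w9 (.last w2 w1 w1)))))))
 (.lf (.cons w3 w1 w2 (.cons w7 w8 w5 (.cons w14 w17 w10 (.cons w117 w69 w81 (.cons w18 w6 w9 (.cons w4 w1 w1 (.last w2 w2 w2))))))))
)) (.lf (.cons w3 w2 w1 (.cons w7 w5 w4 (.cons w14 w10 w8 (.cons w29 w20 w17 (.cons w9 w6 w9 (.cons w4 w1 w1 (.last w2 w2 w2))))))))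
)

theorem c12 : Cov false false 41600 44585 38815 102400 5773 7321 3660 4227 3660 4227 :=
  Cov.chk t12 (by decide +kernel)

noncomputable def t15 : Tr :=
(.nx 58824 (.nx 44585 (.nx 38815 (.lf (.cons w3 w1 w2 (.cons w6 w3 w2 (.cons w7 w3 w4 (.cons w4 w2 w3 (.last w2 w1 w1))))))
 (.lf (.cons w3 w1 w1 (.cons w3 w3 w2 (.cons w4 w4 w3 (.last w2 w1 w1)))))
) (.ny 44585 (.nx 51212 (.lf (.cons w3 w1 w1 (.cons w3 w3 w2 (.cons w2 w2 w1 (.last w2 w1 w1)))))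
 (.ny 38815 (.lf (.cons w3 w4 w2 (.cons w14 w9 w8 (.cons w7 w8 w5 (.cons w9 w5 w6 (.cons w9 w10 w7 (.cons w19 w20 w14 (.cons w7 w6 w3 (.cons w6 w3 w4 (.cons w3 w3 w2 (.last w2 w1 w1)))))))))))
 (.lf (.cons w3 w4 w2 (.cons w3 w3 w3 (.cons w7 w6 w3 (.cons w14 w24 w14 (.cons w29 w24 w14 (.cons w13 w7 w8 (.cons w6 w3 w2 (.last w2 w1 w1)))))))))
)) (.nx 51212 (.lf (.cons w3 w1 w2 (.cons w3 w3 w2 (.last w2 w1 w1))))
 (.ny 51212 (.lf (.cons w3 w4 w2 (.cons w7 w6 w3 (.cons w7 w6 w7 (.cons w14 w13 w14 (.cons w8 w5 w6 (.cons w8 w5 w3 (.cons w4 w4 w3 (.last w2 w1 w1)))))))))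
 (.lf (.cons w3 w2 w2 (.cons w12 w9 w10 (.cons w4 w2 w3 (.last w2 w1 w1)))))
)))) (.ny 58824 (.nx 77612 (.ny 44585 (.nx 67568 (.ny 38815 (.nx 63045 (.lf (.cons w3 w4 w2 (.cons w6 w6 w3 (.cons w9 w5 w3 (.cons w19 w20 w7 (.cons w18 w11 w14 (.cons w33 w20 w13 (.cons w16 w5 w6 (.cons w8 w5 w3 (.cons w3 w3 w2 (.last w2 w1 w1)))))))))))
 (.ny 36217 (.lf (.cons w3 w4 w2 (.cons w6 w3 w3 (.cons w14 w7 w6 (.cons w15 w14 w14 (.cons w7 w9 w5 (.cons w16 w10 w6 (.cons w8 w5 w3 (.cons w9 w8 w3 (.cons w2 w2 w1 (.last w2 w1 w1)))))))))))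
 (.lf (.cons w3 w4 w2 (.cons w6 w6 w3 (.cons w14 w7 w12 (.cons w15 w14 w7 (.cons w7 w7 w7 (.cons w7 w6 w3 (.cons w3 w3 w2 (.last w2 w1 w1)))))))))
)) (.lf (.cons w3 w4 w2 (.cons w3 w3 w3 (.cons w7 w6 w3 (.cons w8 w5 w3 (.cons w9 w8 w3 (.cons w4 w2 w1 (.last w2 w1 w1))))))))
) (.lf (.cons w3 w4 w2 (.cons w7 w8 w5 (.cons w6 w3 w3 (.cons w12 w6 w3 (.cons w8 w5 w6 (.cons w8 w5 w3 (.cons w9 w8 w6 (.cons w4 w4 w3 (.last w2 w1 w1))))))))))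
) (.nx 67568 (.ny 51212 (.lf (.cons w3 w2 w2 (.cons w3 w3 w3 (.cons w7 w6 w3 (.cons w15 w13 w7 (.cons w9 w8 w6 (.cons w4 w4 w3 (.last w2 w1 w1))))))))
 (.lf (.cons w3 w2 w2 (.cons w8 w5 w3 (.cons w32 w11 w7 (.cons w4 w4 w3 (.last w2 w1 w1))))))
) (.lf (.cons w3 w2 w2 (.cons w3 w3 w3 (.cons w7 w6 w6 (.cons w14 w13 w12 (.cons w7 w12 w7 (.cons w4 w4 w3 (.last w2 w1 w1))))))))
)) (.ny 44585 (.nx 89149 (.lf (.cons w3 w2 w2 (.cons w12 w9 w10 (.cons w7 w8 w5 (.cons w4 w5 w3 (.cons w6 w3 w3 (.cons w12 w6 w3 (.cons w9 w8 w3 (.cons w2 w2 w1 (.last w2 w1 w1))))))))))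
 (.nx 95545 (.lf (.cons w3 w2 w2 (.cons w4 w5 w3 (.cons w6 w7 w3 (.cons w6 w3 w3 (.last w2 w1 w1))))))
 (.ny 38815 (.nx 98913 (.lf (.cons w3 w4 w2 (.cons w4 w5 w3 (.cons w16 w11 w7 (.cons w6 w7 w3 (.cons w4 w2 w1 (.last w2 w1 w1)))))))
 (.lf (.cons w3 w4 w2 (.cons w8 w5 w3 (.cons w32 w11 w7 (.cons w13 w7 w6 (.cons w6 w7 w3 (.cons w2 w2 w1 (.cons w5 w4 w2 (.cons w4 w6 w3 (.last w2 w3 w1))))))))))
) (.nx 98913 (.lf (.cons w3 w2 w2 (.cons w7 w8 w5 (.cons w14 w16 w10 (.cons w29 w33 w20 (.cons w6 w7 w3 (.cons w3 w3 w3 (.last w2 w1 w1))))))))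
 (.ny 41600 (.nx 100641 (.lf (.cons w3 w2 w2 (.cons w8 w5 w3 (.cons w32 w11 w7 (.cons w6 w7 w3 (.cons w2 w2 w1 (.last w2 w1 w1)))))))
 (.lf (.cons w3 w2 w2 (.cons w8 w5 w3 (.cons w32 w11 w7 (.cons w13 w7 w6 (.cons w6 w7 w3 (.cons w2 w2 w1 (.last w2 w1 w1))))))))
) (.lf (.cons w3 w2 w2 (.cons w7 w8 w5 (.cons w6 w7 w6 (.cons w3 w3 w3 (.last w2 w1 w1))))))
))))) (.nx 89149 (.lf (.cons w3 w2 w2 (.cons w3 w3 w3 (.cons w4 w4 w3 (.last w2 w1 w1)))))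
 (.ny 51212 (.nx 95545 (.lf (.cons w3 w2 w2 (.cons w7 w8 w5 (.cons w3 w3 w3 (.last w2 w1 w1)))))
 (.lf (.cons w3 w2 w2 (.cons w7 w8 w5 (.cons w14 w16 w10 (.cons w28 w33 w21 (.cons w56 w66 w42 (.cons w9 w8 w6 (.cons w2 w2 w1 (.last w2 w1 w1)))))))))
) (.lf (.cons w3 w2 w2 (.cons w12 w9 w5 (.cons w3 w3 w3 (.last w2 w1 w1)))))
)))) (.nx 77612 (.lf (.cons w12 w5 w8 (.cons w3 w2 w2 (.cons w6 w4 w5 (.cons w12 w9 w10 (.cons w4 w4 w3 (.last w2 w1 w1)))))))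
 (.ny 77612 (.nx 89149 (.lf (.cons w3 w2 w2 (.cons w3 w3 w3 (.cons w4 w4 w3 (.last w2 w1 w1)))))
 (.lf (.cons w3 w2 w2 (.cons w4 w4 w3 (.last w2 w1 w1))))
) (.nx 89149 (.lf (.cons w6 w5 w8 (.cons w3 w2 w2 (.last w2 w1 w1))))
 (.ny 89149 (.lf (.cons w3 w5 w4 (.cons w3 w2 w2 (.last w2 w1 w1))))
 (.lf (.cons w3 w5 w4 (.cons w3 w2 w2 (.last w2 w1 w1))))
))))))

theorem c15 : Cov true false 33792 102400 33792 102400 5773 7321 3660 4227 3660 4227 :=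
  Cov.chk t15 (by decide +kernel)

noncomputable def t29 : Tr :=
(.lf (.cons w3 w2 w1 (.cons w8 w3 w3 (.cons w32 w7 w7 (.cons w18 w13 w9 (.cons w36 w26 w19 (.cons w72 w27 w19 (.cons w37 w24 w18 (.cons w9 w12 w9 (.cons w4 w1 w1 (.last w2 w2 w2)))))))))))


theorem c29 : Cov false false 38815 41600 36217 38815 5773 7321 5773 7321 3660 4227 :=
  Cov.chk t29 (by decide +kernel)

noncomputable def t30 : Tr :=
(.ny 37494 (.ny 36850 (.lf (.cons w3 w2 w1 (.cons w8 w3 w3 (.cons w32 w7 w7 (.cons w65 w28 w29 (.cons w18 w24 w9 (.cons w9 w3 w4 (.last w2 w1 w1))))))))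
 (.lf (.cons w3 w2 w1 (.cons w7 w5 w4 (.cons w14 w10 w8 (.cons w17 w7 w6 (.cons w32 w14 w14 (.cons w65 w29 w28 (.cons w37 w24 w18 (.cons w9 w12 w9 (.cons w4 w1 w1 (.last w2 w2 w2)))))))))))
) (.n1 6547 (.lf (.cons w3 w2 w1 (.cons w7 w5 w4 (.cons w16 w7 w7 (.cons w36 w13 w9 (.cons w73 w52 w19 (.cons w72 w27 w38 (.cons w37 w24 w18 (.cons w9 w12 w9 (.cons w4 w1 w1 (.last w2 w2 w2)))))))))))
 (.lf (.cons w3 w2 w1 (.cons w7 w5 w4 (.cons w17 w7 w6 (.cons w18 w13 w9 (.cons w37 w49 w37 (.cons w72 w27 w19 (.cons w37 w24 w18 (.cons w9 w12 w9 (.cons w4 w1 w1 (.last w2 w2 w2)))))))))))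
))

theorem c30 : Cov false false 41600 43067 36217 38815 5773 7321 5773 7321 3660 4227 :=
  Cov.chk t30 (by decide +kernel)

noncomputable def t31 : Tr :=
(.ny 37494 (.n1 6547 (.nx 43819 (.lf (.cons w3 w2 w1 (.cons w7 w5 w4 (.cons w16 w7 w7 (.cons w65 w28 w14 (.cons w65 w29 w28 (.cons w18 w24 w9 (.cons w9 w3 w4 (.last w2 w1 w1)))))))))
 (.lf (.cons w3 w2 w1 (.cons w7 w5 w4 (.cons w14 w10 w8 (.cons w29 w20 w17 (.cons w18 w24 w9 (.cons w9 w6 w4 (.last w2 w1 w1))))))))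
) (.lf (.cons w3 w2 w1 (.cons w7 w5 w4 (.cons w16 w7 w7 (.cons w65 w28 w14 (.cons w65 w29 w28 (.cons w18 w24 w18 (.cons w9 w6 w4 (.last w2 w1 w1)))))))))
) (.n1 6547 (.nx 43819 (.nx 43441 (.ny 38149 (.n1 6160 (.n2 6547 (.lf (.cons w3 w2 w1 (.cons w7 w5 w4 (.cons w14 w10 w8 (.cons w29 w20 w17 (.cons w58 w40 w34 (.cons w113 w84 w69 (.cons w116 w81 w69 (.cons w18 w24 w18 (.cons w9 w3 w4 (.last w2 w1 w1)))))))))))
 (.lf (.cons w3 w2 w1 (.cons w7 w5 w4 (.cons w28 w10 w17 (.cons w29 w40 w17 (.cons w18 w24 w9 (.cons w9 w3 w4 (.last w2 w1 w1))))))))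
) (.ny 37820 (.lf (.cons w3 w2 w1 (.cons w7 w5 w4 (.cons w32 w14 w7 (.cons w65 w28 w29 (.cons w37 w24 w18 (.cons w9 w12 w9 (.cons w4 w1 w1 (.last w2 w2 w2)))))))))
 (.n2 6547 (.n2 6160 (.lf (.cons w3 w2 w1 (.cons w7 w5 w4 (.cons w14 w10 w8 (.cons w29 w20 w17 (.cons w58 w40 w34 (.cons w113 w84 w69 (.cons w116 w81 w69 (.cons w18 w24 w18 (.cons w9 w3 w4 (.last w2 w1 w1)))))))))))
 (.lf (.cons w3 w2 w1 (.cons w7 w5 w4 (.cons w28 w10 w17 (.cons w29 w40 w17 (.cons w18 w24 w18 (.cons w9 w3 w4 (.last w2 w1 w1))))))))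
) (.lf (.cons w3 w2 w1 (.cons w7 w5 w4 (.cons w28 w10 w17 (.cons w29 w40 w17 (.cons w113 w42 w69 (.cons w18 w24 w18 (.cons w9 w3 w4 (.last w2 w1 w1)))))))))
))) (.n2 6547 (.lf (.cons w3 w2 w1 (.cons w7 w5 w4 (.cons w28 w10 w17 (.cons w29 w40 w17 (.cons w58 w40 w34 (.cons w113 w42 w69 (.cons w113 w85 w69 (.cons w59 w43 w35 (.cons w18 w24 w18 (.cons w9 w3 w4 (.last w2 w1 w1))))))))))))
 (.lf (.cons w3 w2 w1 (.cons w7 w5 w4 (.cons w28 w10 w17 (.cons w29 w40 w17 (.cons w18 w24 w18 (.cons w9 w3 w4 (.last w2 w1 w1))))))))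
)) (.lf (.cons w3 w2 w1 (.cons w7 w5 w4 (.cons w14 w10 w8 (.cons w29 w20 w17 (.cons w58 w40 w34 (.cons w113 w84 w69 (.cons w116 w81 w69 (.cons w113 w85 w69 (.cons w59 w43 w35 (.cons w18 w24 w9 (.cons w9 w3 w4 (.last w2 w1 w1)))))))))))))
) (.lf (.cons w3 w2 w1 (.cons w7 w5 w4 (.cons w14 w10 w8 (.cons w29 w20 w17 (.cons w9 w12 w9 (.cons w4 w1 w1 (.last w2 w2 w2))))))))
) (.nx 43819 (.ny 38149 (.n1 6934 (.nx 43441 (.lf (.cons w3 w2 w1 (.cons w7 w5 w4 (.cons w32 w7 w7 (.cons w65 w28 w29 (.cons w65 w29 w56 (.cons w37 w24 w18 (.cons w9 w12 w9 (.cons w4 w1 w1 (.last w2 w2 w2))))))))))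
 (.n2 6547 (.lf (.cons w3 w2 w1 (.cons w7 w5 w4 (.cons w14 w10 w8 (.cons w29 w20 w17 (.cons w58 w40 w34 (.cons w18 w24 w18 (.cons w9 w3 w4 (.last w2 w1 w1)))))))))
 (.lf (.cons w3 w2 w1 (.cons w7 w5 w4 (.cons w14 w10 w8 (.cons w29 w20 w17 (.cons w18 w12 w9 (.cons w9 w3 w4 (.last w2 w1 w1))))))))
)) (.lf (.cons w3 w2 w1 (.cons w7 w5 w4 (.cons w32 w7 w7 (.cons w65 w28 w29 (.cons w65 w29 w56 (.cons w37 w24 w18 (.cons w9 w12 w9 (.cons w4 w1 w1 (.last w2 w2 w2))))))))))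
) (.n1 6934 (.n2 6547 (.n2 6160 (.lf (.cons w3 w2 w1 (.cons w7 w5 w4 (.cons w14 w10 w8 (.cons w29 w20 w17 (.cons w58 w40 w34 (.cons w113 w84 w69 (.cons w116 w81 w69 (.cons w113 w85 w69 (.cons w59 w43 w35 (.cons w18 w24 w18 (.cons w9 w3 w4 (.last w2 w1 w1)))))))))))))
 (.lf (.cons w3 w2 w1 (.cons w7 w5 w4 (.cons w28 w10 w17 (.cons w29 w40 w17 (.cons w113 w42 w69 (.cons w113 w85 w69 (.cons w18 w24 w18 (.cons w9 w3 w4 (.last w2 w1 w1))))))))))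
) (.lf (.cons w3 w2 w1 (.cons w7 w5 w4 (.cons w28 w10 w17 (.cons w29 w40 w17 (.cons w113 w42 w69 (.cons w113 w85 w69 (.cons w59 w43 w35 (.cons w18 w24 w18 (.cons w9 w3 w4 (.last w2 w1 w1)))))))))))
) (.n2 6547 (.nx 43441 (.ny 38481 (.n2 6160 (.lf (.cons w3 w2 w1 (.cons w7 w5 w4 (.cons w28 w10 w17 (.cons w9 w6 w9 (.cons w4 w1 w1 (.last w2 w2 w2)))))))
 (.lf (.cons w3 w2 w1 (.cons w7 w5 w4 (.cons w28 w10 w17 (.cons w29 w40 w17 (.cons w37 w24 w18 (.cons w9 w12 w9 (.cons w4 w1 w1 (.last w2 w2 w2)))))))))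
) (.lf (.cons w3 w2 w1 (.cons w7 w5 w4 (.cons w28 w10 w17 (.cons w9 w6 w9 (.cons w4 w1 w1 (.last w2 w2 w2)))))))
) (.lf (.cons w3 w2 w1 (.cons w7 w5 w4 (.cons w14 w10 w8 (.cons w29 w20 w17 (.cons w58 w40 w34 (.cons w113 w84 w69 (.cons w116 w81 w69 (.cons w18 w24 w18 (.cons w9 w3 w4 (.last w2 w1 w1)))))))))))
) (.nx 43441 (.nx 43254 (.lf (.cons w3 w2 w1 (.cons w7 w5 w4 (.cons w28 w10 w17 (.cons w29 w40 w17 (.cons w37 w24 w18 (.cons w9 w12 w9 (.cons w4 w1 w1 (.last w2 w2 w2)))))))))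
 (.lf (.cons w3 w2 w1 (.cons w7 w5 w4 (.cons w28 w10 w17 (.cons w29 w40 w17 (.cons w113 w42 w69 (.cons w113 w85 w69 (.cons w59 w43 w35 (.cons w18 w12 w18 (.cons w9 w3 w4 (.last w2 w1 w1)))))))))))
) (.lf (.cons w3 w2 w1 (.cons w7 w5 w4 (.cons w28 w10 w17 (.cons w29 w40 w17 (.cons w18 w12 w9 (.cons w9 w3 w4 (.last w2 w1 w1))))))))
)))) (.lf (.cons w3 w2 w1 (.cons w7 w5 w4 (.cons w14 w10 w8 (.cons w29 w20 w17 (.cons w58 w40 w34 (.cons w113 w84 w69 (.cons w116 w81 w69 (.cons w18 w24 w9 (.cons w9 w6 w4 (.last w2 w1 w1)))))))))))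
)))

theorem c31 : Cov false false 43067 44585 36217 38815 5773 7321 5773 7321 3660 4227 :=
  Cov.chk t31 (by decide +kernel)

noncomputable def t32 : Tr :=
(.ny 41600 (.nx 41600 (.nx 40183 (.lf (.cons w3 w1 w2 (.cons w8 w3 w3 (.cons w32 w7 w7 (.cons w32 w14 w14 (.cons w65 w29 w28 (.cons w65 w29 w56 (.cons w18 w13 w18 (.cons w9 w6 w9 (.cons w4 w1 w1 (.last w2 w2 w2)))))))))))
 (.ny 40183 (.lf (.cons w3 w2 w1 (.cons w7 w5 w4 (.cons w28 w10 w17 (.cons w29 w20 w34 (.cons w16 w7 w7 (.cons w32 w14 w14 (.cons w18 w13 w9 (.cons w9 w6 w9 (.cons w4 w1 w1 (.last w2 w2 w2)))))))))))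
 (.nx 40885 (.lf (.cons w3 w1 w2 (.cons w7 w4 w5 (.cons w16 w7 w7 (.cons w32 w14 w14 (.cons w37 w13 w18 (.cons w18 w13 w9 (.cons w9 w6 w9 (.last w2 w1 w1)))))))))
 (.n1 6547 (.lf (.cons w3 w1 w2 (.cons w7 w4 w5 (.cons w14 w17 w10 (.cons w18 w13 w9 (.cons w9 w6 w9 (.last w2 w1 w1)))))))
 (.ny 40885 (.ny 40532 (.lf (.cons w3 w1 w2 (.cons w7 w8 w5 (.cons w32 w14 w7 (.cons w65 w29 w28 (.cons w18 w13 w9 (.cons w9 w6 w9 (.last w2 w1 w1))))))))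
 (.lf (.cons w3 w1 w2 (.cons w7 w5 w8 (.cons w14 w10 w17 (.cons w29 w17 w40 (.cons w113 w69 w42 (.cons w59 w35 w43 (.cons w18 w13 w18 (.cons w9 w6 w9 (.last w2 w1 w1))))))))))
) (.lf (.cons w3 w1 w2 (.cons w7 w4 w5 (.cons w14 w10 w17 (.cons w29 w17 w20 (.cons w18 w13 w18 (.cons w9 w6 w9 (.last w2 w1 w1))))))))
))))) (.nx 43067 (.ny 40183 (.nx 42327 (.lf (.cons w3 w2 w1 (.cons w7 w5 w4 (.cons w14 w17 w10 (.cons w29 w20 w17 (.cons w58 w40 w34 (.cons w113 w42 w69 (.cons w113 w85 w69 (.cons w59 w43 w35 (.cons w119 w86 w71 (.cons w18 w13 w9 (.cons w9 w6 w9 (.cons w4 w1 w1 (.last w2 w2 w2))))))))))))))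
 (.ny 39493 (.lf (.cons w3 w2 w1 (.cons w7 w5 w4 (.cons w28 w10 w17 (.cons w29 w40 w17 (.cons w113 w84 w69 (.cons w113 w42 w69 (.cons w29 w17 w21 (.cons w9 w6 w9 (.cons w4 w1 w1 (.last w2 w2 w2)))))))))))
 (.lf (.cons w3 w2 w1 (.cons w7 w5 w4 (.cons w14 w17 w10 (.cons w29 w20 w17 (.cons w58 w40 w34 (.cons w113 w42 w69 (.cons w59 w86 w70 (.cons w59 w43 w35 (.cons w18 w6 w9 (.cons w9 w3 w4 (.last w2 w1 w1))))))))))))
)) (.nx 42327 (.n1 6547 (.ny 40885 (.nx 41962 (.lf (.cons w3 w1 w2 (.cons w7 w8 w5 (.cons w14 w17 w10 (.cons w36 w13 w9 (.cons w9 w6 w9 (.last w2 w1 w1)))))))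
 (.lf (.cons w3 w2 w1 (.cons w7 w5 w8 (.cons w14 w10 w17 (.cons w18 w6 w9 (.cons w4 w1 w1 (.last w2 w2 w2)))))))
) (.lf (.cons w3 w1 w2 (.cons w7 w8 w5 (.cons w14 w17 w10 (.cons w9 w6 w9 (.last w2 w1 w1))))))
) (.lf (.cons w3 w1 w2 (.cons w7 w8 w5 (.cons w14 w17 w10 (.cons w118 w71 w43 (.cons w117 w69 w81 (.cons w36 w13 w9 (.cons w9 w6 w9 (.cons w4 w1 w1 (.last w2 w2 w2))))))))))
) (.lf (.cons w3 w2 w1 (.cons w7 w8 w5 (.cons w14 w17 w10 (.cons w9 w6 w9 (.cons w4 w1 w1 (.last w2 w2 w2)))))))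
)) (.ny 40183 (.n1 6547 (.lf (.cons w3 w2 w1 (.cons w7 w5 w4 (.cons w14 w10 w8 (.cons w29 w20 w17 (.cons w58 w40 w34 (.cons w29 w17 w21 (.cons w58 w69 w42 (.cons w18 w24 w9 (.cons w9 w6 w4 (.last w2 w1 w1)))))))))))
 (.nx 43819 (.n2 6547 (.lf (.cons w3 w2 w1 (.cons w7 w5 w4 (.cons w28 w10 w17 (.cons w9 w6 w9 (.cons w4 w1 w1 (.last w2 w2 w2)))))))
 (.lf (.cons w3 w2 w1 (.cons w7 w5 w4 (.cons w28 w10 w17 (.cons w29 w40 w17 (.cons w113 w42 w69 (.cons w29 w17 w21 (.cons w58 w69 w42 (.cons w18 w12 w18 (.cons w9 w3 w4 (.last w2 w1 w1)))))))))))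
) (.lf (.cons w3 w2 w1 (.cons w7 w5 w4 (.cons w14 w10 w8 (.cons w29 w20 w17 (.cons w18 w12 w9 (.cons w9 w6 w4 (.last w2 w1 w1))))))))
)) (.lf (.cons w3 w2 w1 (.cons w7 w5 w4 (.cons w14 w17 w10 (.cons w9 w6 w9 (.cons w4 w1 w1 (.last w2 w2 w2)))))))
))) (.lf (.cons w3 w1 w2 (.cons w7 w4 w5 (.cons w14 w17 w10 (.cons w9 w6 w9 (.cons w4 w1 w1 (.last w2 w2 w2)))))))
)

theorem c32 : Cov false false 38815 44585 38815 102400 5773 7321 5773 7321 3660 4227 :=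
  Cov.chk t32 (by decide +kernel)

noncomputable def t39 : Tr :=
(.nx 95545 (.ny 38815 (.nx 92292 (.ny 36217 (.nx 90707 (.ny 34983 (.lf (.cons w7 w7 w3 (.cons w13 w9 w8 (.cons w3 w2 w2 (.last w2 w1 w1)))))
 (.lf (.cons w14 w15 w7 (.cons w7 w7 w3 (.cons w6 w4 w2 (.cons w2 w3 w1 (.last w2 w1 w1))))))
) (.lf (.cons w14 w7 w7 (.cons w7 w7 w6 (.cons w28 w14 w13 (.cons w29 w28 w26 (.cons w9 w6 w5 (.cons w3 w2 w1 (.last w2 w1 w1))))))))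
) (.ny 37494 (.lf (.cons w7 w7 w7 (.cons w7 w7 w3 (.cons w3 w4 w2 (.cons w2 w3 w1 (.last w2 w1 w1))))))
 (.nx 90707 (.n1 6547 (.n2 6547 (.lf (.cons w24 w18 w10 (.cons w12 w9 w5 (.cons w7 w7 w3 (.cons w3 w4 w1 (.last w2 w1 w1))))))
 (.n1 6160 (.lf (.cons w14 w25 w13 (.cons w29 w25 w26 (.cons w7 w7 w7 (.cons w7 w7 w3 (.cons w3 w4 w1 (.last w2 w1 w1)))))))
 (.lf (.cons w12 w18 w10 (.cons w12 w9 w5 (.cons w7 w7 w3 (.cons w3 w4 w1 (.last w2 w1 w1))))))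
)) (.lf (.cons w12 w9 w10 (.cons w14 w7 w7 (.cons w7 w7 w3 (.cons w3 w4 w1 (.last w2 w1 w1))))))
) (.n1 6547 (.nx 91496 (.ny 38149 (.n2 6547 (.n1 6160 (.lf (.cons w6 w9 w5 (.cons w7 w7 w3 (.cons w3 w4 w1 (.last w2 w1 w1)))))
 (.n2 6160 (.lf (.cons w24 w18 w10 (.cons w12 w9 w5 (.cons w7 w7 w3 (.cons w3 w4 w1 (.last w2 w1 w1))))))
 (.lf (.cons w7 w7 w7 (.cons w7 w7 w3 (.cons w3 w4 w1 (.last w2 w1 w1)))))
)) (.lf (.cons w7 w7 w7 (.cons w7 w7 w3 (.cons w3 w4 w1 (.last w2 w1 w1)))))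
) (.lf (.cons w14 w25 w13 (.cons w29 w25 w26 (.cons w7 w7 w7 (.cons w7 w7 w3 (.cons w3 w4 w1 (.last w2 w1 w1)))))))
) (.lf (.cons w6 w9 w5 (.cons w7 w7 w3 (.cons w3 w4 w2 (.cons w2 w3 w1 (.last w2 w1 w1))))))
) (.ny 38149 (.lf (.cons w7 w7 w7 (.cons w7 w7 w3 (.cons w3 w2 w2 (.last w2 w1 w1)))))
 (.n2 6547 (.lf (.cons w14 w25 w13 (.cons w29 w25 w26 (.cons w7 w7 w7 (.cons w7 w7 w3 (.cons w3 w4 w1 (.last w2 w1 w1)))))))
 (.nx 91496 (.lf (.cons w12 w18 w10 (.cons w12 w9 w5 (.cons w7 w7 w3 (.cons w3 w4 w1 (.last w2 w1 w1))))))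
 (.n1 6934 (.lf (.cons w49 w36 w21 (.cons w12 w18 w5 (.cons w7 w7 w3 (.cons w3 w4 w1 (.last w2 w1 w1))))))
 (.lf (.cons w24 w18 w10 (.cons w12 w9 w5 (.cons w9 w6 w5 (.cons w3 w2 w1 (.last w2 w1 w1))))))
)))))))) (.ny 36217 (.lf (.cons w14 w7 w7 (.cons w7 w7 w6 (.cons w28 w14 w13 (.cons w9 w6 w5 (.cons w3 w2 w2 (.last w2 w1 w1)))))))
 (.nx 93904 (.ny 37494 (.lf (.cons w7 w7 w7 (.cons w7 w7 w3 (.cons w9 w6 w5 (.cons w3 w4 w1 (.last w2 w1 w1))))))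
 (.n1 6547 (.lf (.cons w6 w9 w5 (.cons w9 w6 w5 (.cons w3 w4 w1 (.last w2 w1 w1)))))
 (.ny 38149 (.lf (.cons w7 w7 w7 (.cons w7 w7 w3 (.cons w3 w4 w2 (.cons w2 w3 w1 (.last w2 w1 w1))))))
 (.lf (.cons w26 w19 w11 (.cons w49 w37 w20 (.cons w12 w9 w5 (.cons w9 w6 w5 (.cons w3 w2 w1 (.last w2 w1 w1)))))))
))) (.lf (.cons w6 w9 w5 (.cons w9 w6 w5 (.cons w3 w4 w1 (.last w2 w1 w1)))))
))) (.lf (.cons w3 w3 w3 (.cons w14 w25 w13 (.cons w29 w25 w26 (.cons w7 w7 w7 (.cons w7 w7 w3 (.cons w3 w4 w2 (.cons w2 w3 w1 (.last w2 w1 w1)))))))))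
) (.ny 38815 (.ny 36217 (.nx 98913 (.lf (.cons w7 w7 w3 (.cons w9 w6 w5 (.cons w6 w4 w2 (.cons w2 w3 w1 (.last w2 w1 w1))))))
 (.nx 100641 (.lf (.cons w7 w7 w3 (.cons w9 w6 w5 (.cons w19 w25 w10 (.cons w9 w13 w8 (.cons w2 w3 w2 (.last w2 w1 w1)))))))
 (.n1 6547 (.lf (.cons w7 w7 w3 (.cons w6 w9 w5 (.cons w26 w33 w10 (.cons w6 w4 w2 (.cons w2 w3 w1 (.cons w10 w7 w4 (.cons w5 w6 w3 (.cons w8 w9 w5 (.last w2 w2 w1))))))))))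
 (.n2 6547 (.lf (.cons w7 w7 w3 (.cons w9 w6 w5 (.cons w19 w25 w10 (.cons w9 w13 w8 (.cons w2 w3 w2 (.cons w2 w3 w1 (.cons w9 w9 w5 (.cons w6 w5 w3 (.cons w8 w9 w5 (.cons w2 w2 w2 (.last w2 w2 w1))))))))))))
 (.ny 34983 (.n1 6934 (.lf (.cons w7 w7 w3 (.cons w14 w28 w13 (.cons w29 w56 w13 (.cons w117 w113 w104 (.cons w58 w113 w53 (.cons w59 w59 w27 (.cons w24 w18 w10 (.cons w9 w12 w5 (.cons w9 w13 w8 (.cons w2 w3 w2 (.cons w2 w3 w1 (.cons w10 w7 w4 (.cons w5 w6 w3 (.cons w8 w9 w5 (.last w2 w2 w1))))))))))))))))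
 (.lf (.cons w7 w7 w3 (.cons w14 w14 w6 (.cons w29 w28 w13 (.cons w58 w56 w26 (.cons w117 w113 w104 (.cons w116 w113 w53 (.cons w24 w18 w10 (.cons w12 w9 w5 (.cons w13 w9 w8 (.cons w3 w2 w2 (.cons w2 w3 w1 (.cons w10 w7 w4 (.cons w5 w6 w3 (.cons w8 w9 w5 (.last w2 w2 w1))))))))))))))))
) (.lf (.cons w7 w7 w3 (.cons w9 w6 w5 (.cons w33 w26 w10 (.cons w4 w6 w2 (.cons w2 w3 w1 (.last w2 w1 w1)))))))
))))) (.lf (.cons w7 w7 w7 (.cons w7 w7 w3 (.cons w9 w6 w5 (.cons w19 w25 w20 (.cons w33 w26 w10 (.cons w16 w13 w5 (.cons w2 w3 w2 (.last w2 w1 w1)))))))))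
) (.ny 41600 (.ny 40183 (.lf (.cons w13 w9 w5 (.cons w6 w9 w5 (.cons w9 w6 w5 (.cons w36 w25 w11 (.cons w33 w26 w20 (.cons w16 w13 w5 (.cons w4 w3 w1 (.last w2 w1 w1)))))))))
 (.lf (.cons w13 w9 w5 (.cons w6 w9 w5 (.cons w7 w7 w3 (.cons w14 w14 w13 (.cons w6 w4 w2 (.cons w2 w3 w1 (.last w2 w1 w1))))))))
) (.lf (.cons w3 w3 w3 (.cons w9 w13 w5 (.cons w9 w6 w5 (.cons w7 w7 w3 (.cons w6 w4 w2 (.cons w2 w3 w1 (.last w2 w1 w1))))))))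
)))

theorem c39 : Cov false true 89149 102400 33792 44585 5773 7321 5773 7321 3660 4227 :=
  Cov.chk t39 (by decide +kernel)

noncomputable def t40 : Tr :=
(.nx 89149 (.lf (.cons w3 w3 w3 (.cons w7 w7 w7 (.cons w3 w2 w2 (.cons w2 w3 w2 (.last w2 w1 w1))))))
 (.ny 51212 (.nx 95545 (.lf (.cons w3 w3 w3 (.cons w7 w7 w7 (.cons w3 w4 w2 (.cons w3 w2 w1 (.last w2 w1 w1))))))
 (.ny 47784 (.lf (.cons w3 w3 w3 (.cons w7 w7 w7 (.cons w7 w7 w3 (.cons w3 w2 w2 (.last w2 w1 w1))))))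
 (.lf (.cons w3 w3 w3 (.cons w7 w7 w7 (.cons w15 w15 w12 (.cons w6 w4 w2 (.cons w2 w3 w1 (.last w2 w1 w1)))))))
)) (.lf (.cons w3 w3 w3 (.cons w14 w7 w7 (.cons w3 w2 w2 (.last w2 w1 w1)))))
))

theorem c40 : Cov false true 77612 102400 44585 58824 5773 7321 5773 7321 3660 4227 :=
  Cov.chk t40 (by decide +kernel)

noncomputable def t41 : Tr :=
(.nx 77612 (.lf (.cons w6 w8 w5 (.cons w3 w2 w2 (.cons w4 w3 w2 (.last w2 w1 w1)))))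
 (.ny 77612 (.nx 89149 (.ny 67568 (.nx 83181 (.lf (.cons w6 w4 w5 (.cons w3 w2 w2 (.last w2 w1 w1))))
 (.lf (.cons w6 w3 w3 (.cons w3 w2 w2 (.last w2 w1 w1))))
) (.lf (.cons w6 w4 w5 (.cons w3 w2 w2 (.last w2 w1 w1))))
) (.ny 67568 (.lf (.cons w3 w3 w3 (.cons w2 w3 w2 (.last w2 w1 w1))))
 (.lf (.cons w12 w9 w10 (.cons w12 w9 w5 (.cons w13 w32 w10 (.cons w6 w8 w5 (.cons w3 w2 w2 (.last w2 w1 w1)))))))
)) (.nx 89149 (.lf (.cons w6 w8 w5 (.cons w3 w2 w2 (.last w2 w1 w1))))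
 (.ny 89149 (.lf (.cons w6 w4 w5 (.cons w3 w2 w2 (.last w2 w1 w1))))
 (.lf (.cons w3 w4 w5 (.cons w2 w3 w2 (.last w2 w1 w1))))
))))

theorem c41 : Cov false true 58824 102400 58824 102400 5773 7321 5773 7321 3660 4227 :=
  Cov.chk t41 (by decide +kernel)

noncomputable def t42 : Tr :=
(.nx 36217 (.nx 34983 (.ny 34382 (.n1 6547 (.n1 6160 (.lf (.cons w3 w1 w1 (.cons w12 w7 w7 (.cons w6 w3 w3 (.cons w24 w13 w13 (.cons w50 w26 w24 (.cons w18 w8 w10 (.cons w8 w5 w5 (.last w2 w1 w1)))))))))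
 (.nx 34382 (.nx 34086 (.lf (.cons w3 w1 w1 (.cons w6 w3 w3 (.cons w24 w13 w13 (.cons w50 w26 w24 (.cons w101 w52 w49 (.cons w101 w49 w53 (.cons w36 w17 w10 (.cons w9 w5 w4 (.cons w2 w1 w2 (.last w2 w1 w1)))))))))))
 (.lf (.cons w3 w1 w1 (.cons w12 w7 w7 (.cons w6 w3 w3 (.cons w24 w13 w13 (.cons w50 w26 w24 (.cons w18 w8 w10 (.cons w8 w5 w5 (.last w2 w1 w1)))))))))
) (.lf (.cons w3 w1 w1 (.cons w12 w7 w7 (.cons w6 w3 w3 (.cons w24 w13 w13 (.cons w50 w26 w24 (.cons w9 w8 w5 (.cons w4 w1 w2 (.last w2 w1 w1)))))))))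
)) (.n1 6934 (.nx 34382 (.ny 34086 (.n2 6547 (.nx 34086 (.n3 3943 (.lf (.cons w3 w1 w1 (.cons w6 w3 w3 (.cons w15 w7 w7 (.cons w30 w15 w15 (.cons w63 w31 w31 (.cons w36 w17 w10 (.cons w9 w5 w4 (.cons w2 w1 w2 (.last w2 w1 w1))))))))))
 (.n1 6740 (.lf (.cons w3 w1 w1 (.cons w6 w3 w3 (.cons w15 w7 w7 (.cons w50 w13 w24 (.cons w100 w53 w49 (.cons w36 w17 w10 (.cons w9 w5 w4 (.cons w2 w1 w2 (.last w2 w1 w1))))))))))
 (.lf (.cons w3 w1 w1 (.cons w6 w3 w3 (.cons w15 w7 w7 (.cons w30 w15 w15 (.cons w63 w31 w31 (.cons w36 w17 w10 (.cons w9 w5 w4 (.cons w2 w1 w2 (.last w2 w1 w1))))))))))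
)) (.lf (.cons w3 w1 w1 (.cons w6 w3 w3 (.cons w15 w7 w7 (.cons w50 w13 w24 (.cons w101 w52 w49 (.cons w36 w17 w10 (.cons w9 w5 w4 (.cons w2 w1 w2 (.last w2 w1 w1))))))))))
) (.lf (.cons w3 w1 w1 (.cons w6 w3 w3 (.cons w24 w13 w13 (.cons w50 w13 w24 (.cons w101 w52 w49 (.cons w36 w17 w10 (.cons w9 w5 w4 (.cons w2 w1 w2 (.last w2 w1 w1))))))))))
) (.lf (.cons w3 w1 w1 (.cons w6 w3 w3 (.cons w24 w13 w13 (.cons w50 w26 w24 (.cons w9 w8 w10 (.cons w4 w2 w2 (.last w2 w1 w1))))))))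
) (.lf (.cons w3 w1 w1 (.cons w12 w7 w7 (.cons w6 w3 w3 (.cons w24 w13 w13 (.cons w50 w13 w24 (.cons w18 w8 w10 (.cons w8 w5 w5 (.last w2 w1 w1)))))))))
) (.nx 34382 (.ny 34086 (.n2 6547 (.ny 33939 (.n1 7127 (.nx 34086 (.n2 6160 (.lf (.cons w3 w1 w1 (.cons w6 w3 w3 (.cons w15 w7 w7 (.cons w30 w15 w15 (.cons w37 w20 w17 (.cons w9 w8 w10 (.cons w4 w2 w2 (.last w2 w1 w1)))))))))
 (.lf (.cons w3 w1 w1 (.cons w6 w3 w3 (.cons w15 w7 w7 (.cons w30 w15 w15 (.cons w37 w20 w17 (.cons w9 w8 w5 (.cons w4 w1 w2 (.last w2 w1 w1)))))))))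
) (.lf (.cons w3 w1 w1 (.cons w6 w3 w3 (.cons w15 w7 w7 (.cons w30 w15 w15 (.cons w36 w17 w10 (.cons w9 w5 w4 (.cons w2 w1 w2 (.last w2 w1 w1)))))))))
) (.nx 34086 (.lf (.cons w3 w1 w1 (.cons w6 w3 w3 (.cons w15 w7 w7 (.cons w30 w15 w15 (.cons w63 w31 w31 (.cons w36 w17 w21 (.cons w9 w8 w10 (.cons w4 w2 w2 (.last w2 w1 w1))))))))))
 (.n3 3943 (.lf (.cons w3 w1 w1 (.cons w6 w3 w3 (.cons w15 w7 w7 (.cons w30 w15 w15 (.cons w36 w17 w10 (.cons w9 w5 w4 (.cons w2 w1 w2 (.last w2 w1 w1)))))))))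
 (.lf (.cons w3 w1 w1 (.cons w6 w3 w3 (.cons w15 w7 w7 (.cons w30 w15 w15 (.cons w36 w17 w10 (.cons w9 w5 w4 (.cons w2 w1 w2 (.last w2 w1 w1)))))))))
))) (.lf (.cons w3 w1 w1 (.cons w6 w3 w3 (.cons w15 w7 w7 (.cons w30 w15 w15 (.cons w18 w10 w17 (.cons w9 w5 w4 (.cons w2 w1 w2 (.last w2 w1 w1)))))))))
) (.nx 34086 (.ny 33939 (.n2 6934 (.lf (.cons w3 w1 w1 (.cons w6 w3 w3 (.cons w15 w7 w7 (.cons w30 w15 w15 (.cons w63 w31 w31 (.cons w37 w20 w17 (.cons w9 w8 w5 (.cons w4 w2 w2 (.last w2 w1 w1))))))))))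
 (.n1 7127 (.lf (.cons w3 w1 w1 (.cons w6 w3 w3 (.cons w15 w7 w7 (.cons w50 w13 w24 (.cons w101 w52 w49 (.cons w36 w17 w10 (.cons w9 w5 w4 (.cons w2 w1 w2 (.last w2 w1 w1))))))))))
 (.n3 3943 (.lf (.cons w3 w1 w1 (.cons w6 w3 w3 (.cons w15 w7 w7 (.cons w50 w13 w24 (.cons w101 w52 w49 (.cons w37 w20 w17 (.cons w9 w8 w5 (.cons w4 w2 w2 (.last w2 w1 w1))))))))))
 (.lf (.cons w3 w1 w1 (.cons w6 w3 w3 (.cons w15 w7 w7 (.cons w50 w13 w24 (.cons w101 w52 w49 (.cons w36 w17 w10 (.cons w9 w5 w4 (.cons w2 w1 w2 (.last w2 w1 w1))))))))))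
))) (.lf (.cons w3 w1 w1 (.cons w6 w3 w3 (.cons w15 w7 w7 (.cons w50 w13 w24 (.cons w18 w10 w17 (.cons w9 w5 w4 (.cons w2 w1 w2 (.last w2 w1 w1)))))))))
) (.lf (.cons w3 w1 w1 (.cons w6 w3 w3 (.cons w24 w13 w13 (.cons w50 w13 w24 (.cons w101 w52 w49 (.cons w36 w17 w10 (.cons w9 w5 w4 (.cons w2 w1 w2 (.last w2 w1 w1))))))))))
)) (.lf (.cons w3 w1 w1 (.cons w6 w3 w3 (.cons w24 w13 w13 (.cons w50 w13 w24 (.cons w100 w53 w49 (.cons w18 w10 w17 (.cons w9 w5 w4 (.cons w2 w1 w2 (.last w2 w1 w1))))))))))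
) (.n2 6547 (.nx 34681 (.lf (.cons w3 w1 w1 (.cons w6 w3 w3 (.cons w15 w7 w7 (.cons w50 w13 w24 (.cons w101 w52 w49 (.cons w36 w17 w10 (.cons w9 w5 w4 (.cons w2 w1 w2 (.last w2 w1 w1))))))))))
 (.lf (.cons w3 w1 w1 (.cons w6 w3 w3 (.cons w24 w13 w13 (.cons w50 w13 w24 (.cons w18 w8 w5 (.cons w4 w2 w2 (.last w2 w1 w1))))))))
) (.lf (.cons w3 w1 w1 (.cons w6 w3 w3 (.cons w24 w13 w13 (.cons w50 w13 w24 (.cons w18 w8 w10 (.cons w8 w5 w5 (.last w2 w1 w1))))))))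
)))) (.lf (.cons w3 w1 w1 (.cons w12 w7 w7 (.cons w6 w3 w3 (.cons w24 w13 w13 (.cons w50 w26 w24 (.cons w9 w8 w5 (.cons w4 w2 w2 (.last w2 w1 w1)))))))))
) (.lf (.cons w3 w1 w1 (.cons w13 w6 w7 (.cons w6 w3 w3 (.cons w24 w13 w13 (.cons w50 w13 w24 (.cons w9 w8 w5 (.cons w4 w2 w2 (.last w2 w1 w1)))))))))
) (.lf (.cons w3 w1 w1 (.cons w7 w6 w4 (.cons w13 w6 w7 (.cons w6 w3 w3 (.cons w12 w6 w6 (.cons w9 w4 w5 (.cons w2 w1 w2 (.last w2 w1 w1)))))))))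
)

theorem c42 : Cov true true 33792 38815 33792 102400 5773 7321 5773 7321 3660 4227 :=
  Cov.chk t42 (by decide +kernel)

noncomputable def t56 : Tr :=
(.nx 43067 (.ny 40183 (.nx 42327 (.n1 6547 (.lf (.cons w3 w2 w1 (.cons w7 w5 w4 (.cons w14 w10 w8 (.cons w29 w20 w17 (.cons w58 w40 w34 (.cons w18 w13 w18 (.cons w9 w6 w9 (.last w2 w1 w1)))))))))
 (.n2 3943 (.lf (.cons w3 w2 w1 (.cons w7 w5 w4 (.cons w14 w10 w8 (.cons w29 w20 w17 (.cons w58 w40 w34 (.cons w113 w84 w69 (.cons w116 w81 w69 (.cons w113 w85 w69 (.cons w59 w43 w35 (.cons w119 w86 w71 (.cons w18 w13 w18 (.cons w9 w6 w9 (.last w2 w1 w1))))))))))))))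
 (.lf (.cons w3 w2 w1 (.cons w7 w5 w4 (.cons w14 w10 w8 (.cons w29 w20 w17 (.cons w58 w40 w34 (.cons w113 w84 w69 (.cons w116 w81 w69 (.cons w113 w85 w69 (.cons w59 w43 w35 (.cons w18 w13 w9 (.cons w9 w6 w9 (.last w2 w1 w1)))))))))))))
)) (.lf (.cons w3 w2 w1 (.cons w7 w5 w4 (.cons w14 w10 w8 (.cons w29 w20 w17 (.cons w18 w13 w9 (.cons w9 w6 w9 (.last w2 w1 w1))))))))
) (.n1 6547 (.lf (.cons w3 w2 w1 (.cons w7 w5 w4 (.cons w28 w10 w17 (.cons w29 w40 w17 (.cons w18 w9 w13 (.cons w9 w9 w6 (.last w2 w1 w1))))))))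
 (.lf (.cons w3 w2 w1 (.cons w7 w5 w4 (.cons w28 w10 w17 (.cons w29 w40 w17 (.cons w58 w40 w34 (.cons w113 w42 w69 (.cons w59 w43 w35 (.cons w18 w13 w9 (.cons w9 w6 w9 (.last w2 w1 w1)))))))))))
)) (.lf (.cons w3 w2 w1 (.cons w7 w5 w4 (.cons w14 w10 w8 (.cons w29 w20 w17 (.cons w9 w6 w9 (.cons w4 w1 w1 (.last w2 w2 w2))))))))
)

theorem c56 : Cov false false 41600 44585 38815 41600 5773 7321 3660 4227 5773 7321 :=
  Cov.chk t56 (by decide +kernel)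

noncomputable def t64 : Tr :=
(.nx 36217 (.lf (.cons w3 w1 w2 (.cons w4 w3 w3 (.cons w16 w7 w7 (.cons w7 w5 w5 (.cons w28 w21 w21 (.cons w58 w21 w40 (.cons w18 w6 w9 (.cons w9 w3 w4 (.last w2 w1 w1))))))))))
 (.nx 37494 (.lf (.cons w3 w2 w1 (.cons w4 w3 w3 (.cons w16 w7 w7 (.cons w65 w14 w14 (.cons w18 w9 w13 (.cons w9 w9 w6 (.cons w4 w1 w1 (.last w2 w2 w1)))))))))
 (.ny 36217 (.ny 34983 (.lf (.cons w3 w2 w1 (.cons w8 w3 w3 (.cons w32 w14 w7 (.cons w65 w28 w29 (.cons w18 w12 w9 (.cons w9 w3 w4 (.last w2 w1 w1))))))))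
 (.ny 35595 (.lf (.cons w3 w2 w1 (.cons w8 w3 w3 (.cons w32 w14 w7 (.cons w65 w28 w29 (.cons w69 w29 w25 (.cons w69 w58 w50 (.cons w37 w18 w13 (.cons w18 w9 w13 (.cons w9 w9 w6 (.last w2 w1 w1)))))))))))
 (.lf (.cons w3 w2 w1 (.cons w8 w3 w3 (.cons w32 w14 w7 (.cons w9 w6 w9 (.cons w4 w1 w1 (.last w2 w2 w2)))))))
)) (.lf (.cons w3 w2 w1 (.cons w8 w3 w3 (.cons w32 w7 w7 (.cons w32 w14 w14 (.cons w65 w29 w28 (.cons w18 w13 w18 (.cons w9 w6 w9 (.cons w4 w1 w1 (.last w2 w2 w2))))))))))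
)))

theorem c64 : Cov false false 33792 38815 33792 102400 3660 4227 5773 7321 5773 7321 :=
  Cov.chk t64 (by decide +kernel)

noncomputable def t73 : Tr :=
(.nx 58824 (.nx 44585 (.lf (.cons w3 w1 w1 (.cons w3 w3 w2 (.cons w4 w2 w3 (.last w2 w1 w1)))))
 (.ny 44585 (.nx 51212 (.lf (.cons w3 w1 w1 (.cons w3 w3 w2 (.last w2 w1 w1))))
 (.ny 38815 (.lf (.cons w3 w4 w2 (.cons w3 w3 w3 (.cons w7 w6 w3 (.cons w15 w13 w14 (.cons w6 w3 w4 (.cons w3 w3 w2 (.last w2 w1 w1))))))))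
 (.ny 41600 (.lf (.cons w3 w4 w2 (.cons w9 w5 w3 (.cons w14 w8 w5 (.cons w29 w32 w21 (.cons w7 w6 w6 (.cons w7 w6 w3 (.cons w15 w13 w14 (.cons w13 w7 w8 (.cons w6 w3 w2 (.last w2 w1 w1)))))))))))
 (.lf (.cons w3 w4 w2 (.cons w3 w3 w3 (.cons w7 w6 w3 (.cons w15 w13 w7 (.cons w60 w53 w29 (.cons w31 w52 w29 (.cons w56 w27 w15 (.cons w113 w54 w31 (.cons w28 w26 w15 (.cons w8 w5 w6 (.cons w8 w5 w3 (.cons w4 w4 w3 (.last w2 w1 w1))))))))))))))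
))) (.nx 51212 (.lf (.cons w3 w1 w1 (.cons w3 w3 w2 (.last w2 w1 w1))))
 (.ny 51212 (.lf (.cons w3 w2 w2 (.cons w12 w9 w10 (.cons w25 w18 w10 (.cons w15 w17 w10 (.cons w7 w4 w5 (.cons w4 w2 w3 (.last w2 w1 w1))))))))
 (.lf (.cons w3 w2 w2 (.cons w4 w2 w3 (.last w2 w1 w1))))
)))) (.ny 58824 (.nx 77612 (.ny 44585 (.nx 67568 (.ny 38815 (.lf (.cons w3 w4 w2 (.cons w3 w3 w3 (.cons w7 w6 w3 (.cons w6 w3 w4 (.last w2 w1 w1))))))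
 (.lf (.cons w3 w4 w2 (.cons w3 w3 w3 (.cons w7 w6 w3 (.cons w15 w13 w7 (.cons w15 w26 w14 (.cons w13 w7 w8 (.cons w6 w3 w4 (.last w2 w1 w1)))))))))
) (.lf (.cons w3 w2 w2 (.cons w7 w9 w8 (.cons w6 w3 w3 (.cons w3 w3 w3 (.cons w7 w6 w3 (.cons w2 w2 w1 (.last w2 w1 w1))))))))
) (.nx 67568 (.ny 51212 (.lf (.cons w3 w2 w2 (.cons w3 w3 w3 (.cons w8 w5 w3 (.cons w32 w11 w7 (.cons w4 w4 w3 (.last w2 w1 w1)))))))
 (.lf (.cons w3 w2 w2 (.cons w4 w2 w3 (.last w2 w1 w1))))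
) (.lf (.cons w3 w2 w2 (.cons w3 w3 w3 (.cons w7 w6 w6 (.cons w4 w4 w3 (.last w2 w1 w1))))))
)) (.ny 44585 (.nx 89149 (.lf (.cons w3 w2 w2 (.cons w7 w8 w5 (.cons w4 w5 w3 (.cons w3 w3 w3 (.last w2 w1 w1))))))
 (.nx 95545 (.lf (.cons w3 w2 w2 (.cons w4 w5 w3 (.cons w6 w7 w6 (.cons w3 w3 w3 (.last w2 w1 w1))))))
 (.ny 38815 (.nx 98913 (.ny 36217 (.lf (.cons w3 w4 w2 (.cons w8 w5 w3 (.cons w32 w22 w7 (.cons w18 w10 w9 (.cons w9 w5 w4 (.last w2 w1 w1)))))))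
 (.lf (.cons w3 w2 w2 (.cons w8 w5 w3 (.cons w32 w11 w7 (.cons w18 w17 w13 (.cons w6 w7 w3 (.cons w2 w2 w1 (.last w2 w1 w1))))))))
) (.ny 36217 (.ny 34983 (.lf (.cons w3 w4 w2 (.cons w8 w5 w3 (.cons w32 w22 w7 (.cons w65 w44 w29 (.cons w18 w20 w9 (.cons w9 w5 w4 (.cons w2 w2 w1 (.cons w5 w4 w2 (.cons w4 w6 w3 (.last w2 w3 w1)))))))))))
 (.lf (.cons w3 w4 w2 (.cons w8 w5 w3 (.cons w32 w22 w7 (.cons w9 w10 w9 (.cons w4 w2 w1 (.last w2 w1 w1)))))))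
) (.lf (.cons w3 w4 w1 (.cons w8 w5 w3 (.cons w32 w11 w7 (.cons w32 w22 w14 (.cons w65 w45 w28 (.cons w18 w21 w18 (.cons w9 w10 w9 (.cons w4 w2 w1 (.last w2 w1 w1))))))))))
)) (.ny 41600 (.lf (.cons w3 w2 w2 (.cons w8 w5 w3 (.cons w32 w11 w7 (.cons w32 w22 w14 (.cons w18 w17 w13 (.cons w73 w35 w26 (.cons w37 w34 w24 (.cons w9 w17 w12 (.cons w4 w2 w1 (.last w2 w1 w1)))))))))))
 (.nx 98913 (.lf (.cons w3 w2 w2 (.cons w7 w8 w5 (.cons w6 w7 w6 (.cons w3 w3 w3 (.last w2 w1 w1))))))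
 (.lf (.cons w3 w2 w2 (.cons w7 w8 w5 (.cons w13 w7 w6 (.cons w6 w7 w3 (.cons w2 w2 w1 (.last w2 w1 w1)))))))
))))) (.nx 89149 (.lf (.cons w3 w2 w2 (.cons w12 w9 w5 (.cons w3 w3 w3 (.cons w2 w2 w1 (.last w2 w1 w1))))))
 (.ny 51212 (.lf (.cons w3 w2 w2 (.cons w7 w8 w5 (.cons w9 w8 w6 (.cons w4 w4 w3 (.last w2 w1 w1))))))
 (.lf (.cons w3 w2 w2 (.cons w7 w8 w5 (.cons w2 w2 w1 (.last w2 w1 w1)))))
)))) (.nx 77612 (.lf (.cons w6 w5 w8 (.cons w3 w2 w2 (.cons w4 w4 w3 (.last w2 w1 w1)))))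
 (.ny 77612 (.nx 89149 (.lf (.cons w12 w5 w8 (.cons w3 w2 w2 (.cons w4 w4 w3 (.last w2 w1 w1)))))
 (.lf (.cons w3 w5 w4 (.cons w3 w2 w2 (.cons w4 w4 w3 (.last w2 w1 w1)))))
) (.nx 89149 (.lf (.cons w6 w5 w4 (.cons w3 w2 w2 (.last w2 w1 w1))))
 (.ny 89149 (.lf (.cons w3 w5 w4 (.cons w3 w2 w2 (.last w2 w1 w1))))
 (.lf (.cons w6 w5 w4 (.cons w3 w2 w2 (.last w2 w1 w1))))
))))))

theorem c73 : Cov true false 33792 102400 33792 102400 3660 4227 5773 7321 5773 7321 :=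
  Cov.chk t73 (by decide +kernel)

noncomputable def t77 : Tr :=
(.nx 77612 (.nx 67568 (.nx 63045 (.lf (.cons w3 w4 w4 (.cons w7 w8 w9 (.cons w14 w16 w18 (.cons w24 w10 w7 (.cons w6 w5 w3 (.cons w3 w2 w3 (.last w2 w1 w1))))))))
 (.ny 63045 (.lf (.cons w3 w4 w4 (.cons w7 w9 w8 (.cons w6 w5 w3 (.cons w3 w2 w3 (.last w2 w1 w1))))))
 (.nx 65267 (.lf (.cons w3 w4 w4 (.cons w7 w8 w9 (.cons w14 w16 w18 (.cons w12 w10 w7 (.cons w6 w5 w3 (.cons w3 w2 w3 (.last w2 w1 w1))))))))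
 (.lf (.cons w3 w4 w4 (.cons w7 w9 w8 (.cons w14 w18 w16 (.cons w13 w7 w11 (.cons w6 w3 w5 (.cons w3 w3 w2 (.last w2 w1 w1))))))))
))) (.ny 67568 (.lf (.cons w3 w4 w4 (.cons w7 w9 w8 (.cons w14 w18 w16 (.cons w12 w5 w7 (.cons w6 w5 w3 (.cons w3 w2 w3 (.last w2 w1 w1))))))))
 (.nx 72416 (.ny 69950 (.lf (.cons w3 w4 w4 (.cons w7 w16 w9 (.cons w14 w18 w16 (.cons w56 w37 w66 (.cons w13 w11 w7 (.cons w6 w5 w3 (.cons w3 w3 w2 (.last w2 w1 w1)))))))))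
 (.lf (.cons w3 w4 w4 (.cons w7 w16 w9 (.cons w14 w16 w18 (.cons w56 w66 w37 (.cons w9 w10 w10 (.cons w9 w5 w5 (.cons w6 w5 w3 (.cons w3 w3 w2 (.last w2 w1 w1))))))))))
) (.lf (.cons w3 w4 w4 (.cons w7 w9 w8 (.cons w14 w18 w16 (.cons w9 w10 w10 (.cons w9 w5 w5 (.cons w12 w7 w5 (.cons w13 w24 w10 (.cons w6 w6 w5 (.cons w3 w3 w2 (.last w2 w1 w1)))))))))))
))) (.ny 77612 (.nx 89149 (.ny 67568 (.nx 83181 (.lf (.cons w3 w4 w4 (.cons w7 w9 w8 (.cons w6 w5 w3 (.cons w14 w20 w7 (.cons w15 w22 w14 (.cons w13 w17 w7 (.cons w52 w35 w15 (.cons w27 w34 w30 (.cons w14 w11 w7 (.cons w13 w16 w7 (.cons w7 w5 w6 (.cons w3 w4 w3 (.last w2 w1 w1))))))))))))))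
 (.ny 63045 (.lf (.cons w3 w4 w4 (.cons w6 w5 w3 (.cons w9 w5 w5 (.cons w7 w9 w9 (.cons w14 w18 w18 (.cons w29 w37 w36 (.cons w13 w17 w7 (.cons w14 w11 w7 (.cons w7 w5 w6 (.cons w3 w4 w3 (.last w2 w1 w1))))))))))))
 (.lf (.cons w3 w4 w4 (.cons w6 w5 w3 (.cons w12 w5 w6 (.cons w25 w22 w24 (.cons w24 w11 w13 (.cons w13 w17 w7 (.cons w16 w5 w5 (.cons w9 w5 w8 (.cons w2 w2 w2 (.last w2 w1 w1)))))))))))
)) (.lf (.cons w3 w4 w4 (.cons w7 w9 w8 (.cons w9 w5 w5 (.cons w12 w5 w7 (.cons w6 w5 w3 (.cons w3 w2 w3 (.last w2 w1 w1))))))))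
) (.lf (.cons w3 w4 w4 (.cons w14 w16 w9 (.cons w6 w5 w3 (.cons w3 w5 w3 (.cons w7 w5 w6 (.cons w6 w8 w3 (.cons w2 w2 w1 (.last w2 w1 w1)))))))))
) (.nx 89149 (.nx 83181 (.lf (.cons w3 w4 w4 (.cons w9 w5 w5 (.cons w4 w5 w5 (.cons w6 w5 w3 (.cons w4 w2 w2 (.last w2 w1 w1)))))))
 (.lf (.cons w3 w4 w4 (.cons w7 w9 w16 (.cons w4 w5 w5 (.cons w6 w5 w3 (.cons w4 w2 w2 (.last w2 w1 w1)))))))
) (.ny 89149 (.lf (.cons w3 w4 w4 (.cons w4 w5 w5 (.cons w3 w5 w3 (.cons w2 w2 w1 (.last w2 w1 w1))))))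
 (.nx 95545 (.lf (.cons w3 w4 w4 (.cons w4 w5 w5 (.cons w6 w5 w7 (.cons w3 w5 w3 (.last w2 w1 w1))))))
 (.ny 95545 (.lf (.cons w3 w4 w4 (.cons w8 w5 w5 (.cons w6 w5 w7 (.cons w3 w5 w3 (.last w2 w1 w1))))))
 (.nx 98913 (.lf (.cons w3 w4 w4 (.cons w8 w5 w5 (.cons w32 w11 w22 (.cons w18 w17 w21 (.cons w6 w7 w5 (.cons w2 w2 w2 (.last w2 w1 w1))))))))
 (.nx 100641 (.lf (.cons w3 w4 w4 (.cons w8 w5 w5 (.cons w32 w11 w11 (.cons w13 w7 w10 (.cons w6 w7 w5 (.cons w2 w1 w2 (.last w2 w1 w1))))))))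
 (.lf (.cons w3 w4 w4 (.cons w8 w5 w5 (.cons w32 w11 w11 (.cons w32 w22 w22 (.cons w65 w45 w44 (.cons w18 w21 w17 (.cons w9 w10 w17 (.cons w4 w2 w2 (.last w2 w1 w1))))))))))
))))))))

theorem c77 : Cov true true 58824 102400 58824 102400 3660 4227 5773 7321 5773 7321 :=
  Cov.chk t77 (by decide +kernel)

noncomputable def t78 : Tr :=
(.nx 36217 (.nx 34983 (.lf (.cons w3 w2 w1 (.cons w4 w3 w3 (.cons w32 w7 w7 (.cons w18 w9 w6 (.cons w4 w1 w1 (.last w2 w1 w1)))))))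
 (.lf (.cons w3 w2 w1 (.cons w4 w3 w3 (.cons w16 w7 w7 (.cons w7 w5 w5 (.cons w28 w21 w21 (.cons w29 w21 w40 (.cons w116 w85 w81 (.cons w18 w6 w9 (.cons w9 w3 w4 (.last w2 w1 w1)))))))))))
) (.ny 36217 (.ny 34983 (.n2 6547 (.lf (.cons w3 w2 w1 (.cons w4 w3 w3 (.cons w16 w7 w7 (.cons w7 w5 w5 (.cons w28 w21 w21 (.cons w29 w21 w40 (.cons w116 w85 w81 (.cons w9 w6 w4 (.last w2 w1 w1))))))))))
 (.lf (.cons w3 w2 w1 (.cons w4 w3 w3 (.cons w16 w7 w7 (.cons w7 w5 w5 (.cons w28 w21 w21 (.cons w29 w21 w40 (.cons w9 w6 w4 (.last w2 w1 w1)))))))))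
) (.lf (.cons w3 w2 w1 (.cons w4 w3 w3 (.cons w16 w7 w7 (.cons w36 w13 w9 (.cons w72 w27 w19 (.cons w37 w48 w18 (.cons w9 w12 w9 (.cons w4 w1 w1 (.last w2 w2 w2))))))))))
) (.nx 37494 (.lf (.cons w3 w1 w2 (.cons w4 w3 w3 (.cons w16 w7 w7 (.cons w32 w14 w14 (.cons w18 w9 w13 (.cons w9 w9 w6 (.cons w4 w1 w1 (.last w2 w2 w2)))))))))
 (.nx 38149 (.lf (.cons w3 w2 w1 (.cons w8 w3 w3 (.cons w32 w7 w7 (.cons w32 w14 w14 (.cons w18 w13 w9 (.cons w9 w6 w9 (.cons w4 w1 w1 (.last w2 w2 w2)))))))))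
 (.lf (.cons w3 w2 w1 (.cons w8 w3 w3 (.cons w32 w7 w7 (.cons w32 w14 w14 (.cons w65 w29 w28 (.cons w18 w13 w18 (.cons w9 w6 w9 (.cons w4 w1 w1 (.last w2 w2 w2))))))))))
))))

theorem c78 : Cov false false 33792 38815 33792 102400 5773 7321 5773 7321 5773 7321 :=
  Cov.chk t78 (by decide +kernel)

noncomputable def t84 : Tr :=
(.nx 43819 (.n1 6160 (.ny 36850 (.nx 43441 (.lf (.cons w3 w2 w1 (.cons w7 w5 w4 (.cons w32 w7 w7 (.cons w65 w28 w29 (.cons w37 w24 w18 (.cons w9 w12 w9 (.cons w9 w3 w4 (.last w2 w1 w1)))))))))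
 (.n2 6547 (.lf (.cons w3 w2 w1 (.cons w7 w5 w4 (.cons w14 w10 w8 (.cons w29 w20 w17 (.cons w18 w24 w18 (.cons w9 w3 w4 (.last w2 w1 w1))))))))
 (.lf (.cons w3 w2 w1 (.cons w7 w5 w4 (.cons w14 w10 w8 (.cons w29 w20 w17 (.cons w18 w12 w9 (.cons w9 w3 w4 (.last w2 w1 w1))))))))
)) (.n2 6547 (.n2 6160 (.lf (.cons w3 w2 w1 (.cons w7 w5 w4 (.cons w14 w10 w8 (.cons w29 w20 w17 (.cons w58 w40 w34 (.cons w113 w84 w69 (.cons w116 w81 w69 (.cons w113 w85 w69 (.cons w59 w43 w35 (.cons w18 w24 w9 (.cons w9 w3 w4 (.last w2 w1 w1)))))))))))))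
 (.lf (.cons w3 w2 w1 (.cons w7 w5 w4 (.cons w14 w10 w8 (.cons w29 w20 w17 (.cons w58 w40 w34 (.cons w113 w84 w69 (.cons w116 w81 w69 (.cons w18 w24 w18 (.cons w9 w3 w4 (.last w2 w1 w1)))))))))))
) (.lf (.cons w3 w2 w1 (.cons w7 w5 w4 (.cons w14 w10 w8 (.cons w29 w20 w17 (.cons w58 w40 w34 (.cons w113 w84 w69 (.cons w116 w81 w69 (.cons w113 w85 w69 (.cons w59 w43 w70 (.cons w18 w24 w18 (.cons w9 w3 w4 (.last w2 w1 w1)))))))))))))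
)) (.ny 36850 (.lf (.cons w3 w2 w1 (.cons w7 w5 w4 (.cons w32 w7 w7 (.cons w65 w28 w29 (.cons w65 w29 w56 (.cons w37 w48 w18 (.cons w9 w12 w9 (.cons w9 w3 w4 (.last w2 w1 w1))))))))))
 (.n2 6547 (.nx 43441 (.n2 6160 (.lf (.cons w3 w2 w1 (.cons w7 w5 w4 (.cons w14 w10 w8 (.cons w29 w20 w17 (.cons w37 w24 w18 (.cons w9 w12 w9 (.cons w4 w1 w1 (.last w2 w2 w2)))))))))
 (.ny 37171 (.lf (.cons w3 w2 w1 (.cons w7 w5 w4 (.cons w14 w10 w8 (.cons w29 w20 w17 (.cons w37 w24 w18 (.cons w9 w12 w9 (.cons w4 w1 w1 (.last w2 w2 w2)))))))))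
 (.lf (.cons w3 w2 w1 (.cons w7 w5 w4 (.cons w14 w10 w8 (.cons w29 w20 w17 (.cons w58 w40 w34 (.cons w116 w81 w69 (.cons w113 w85 w69 (.cons w59 w43 w35 (.cons w18 w24 w18 (.cons w9 w3 w4 (.last w2 w1 w1))))))))))))
)) (.lf (.cons w3 w2 w1 (.cons w7 w5 w4 (.cons w14 w10 w8 (.cons w29 w20 w17 (.cons w58 w40 w34 (.cons w18 w24 w18 (.cons w9 w3 w4 (.last w2 w1 w1)))))))))
) (.n2 6934 (.lf (.cons w3 w2 w1 (.cons w7 w5 w4 (.cons w14 w10 w8 (.cons w29 w20 w17 (.cons w58 w40 w34 (.cons w116 w81 w69 (.cons w113 w85 w69 (.cons w59 w86 w70 (.cons w59 w43 w35 (.cons w18 w24 w18 (.cons w9 w3 w4 (.last w2 w1 w1)))))))))))))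
 (.lf (.cons w3 w2 w1 (.cons w7 w5 w4 (.cons w14 w10 w8 (.cons w29 w20 w17 (.cons w58 w40 w34 (.cons w116 w81 w69 (.cons w18 w24 w18 (.cons w9 w3 w4 (.last w2 w1 w1))))))))))
)))) (.lf (.cons w3 w2 w1 (.cons w7 w5 w4 (.cons w14 w10 w8 (.cons w29 w20 w17 (.cons w58 w40 w34 (.cons w113 w84 w69 (.cons w116 w81 w69 (.cons w18 w12 w9 (.cons w9 w6 w4 (.last w2 w1 w1)))))))))))
)

theorem c84 : Cov false false 43067 44585 36217 37494 5773 6547 5773 7321 5773 7321 :=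
  Cov.chk t84 (by decide +kernel)

noncomputable def t89 : Tr :=
(.n1 6934 (.lf (.cons w3 w2 w1 (.cons w7 w5 w4 (.cons w14 w10 w8 (.cons w29 w20 w17 (.cons w18 w24 w9 (.cons w9 w6 w4 (.last w2 w1 w1))))))))
 (.lf (.cons w3 w2 w1 (.cons w7 w5 w4 (.cons w14 w10 w8 (.cons w29 w20 w17 (.cons w58 w40 w34 (.cons w113 w84 w69 (.cons w116 w81 w69 (.cons w113 w85 w69 (.cons w59 w43 w70 (.cons w18 w24 w9 (.cons w9 w6 w4 (.last w2 w1 w1)))))))))))))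
)

theorem c89 : Cov false false 43819 44585 37494 38815 6547 7321 5773 7321 5773 7321 :=
  Cov.chk t89 (by decide +kernel)

noncomputable def t94 : Tr :=
(.ny 40885 (.n1 6934 (.n2 6547 (.nx 41241 (.nx 41063 (.lf (.cons w3 w2 w1 (.cons w7 w8 w5 (.cons w14 w17 w10 (.cons w29 w40 w34 (.cons w37 w13 w18 (.cons w18 w13 w9 (.cons w9 w6 w9 (.last w2 w1 w1)))))))))
 (.lf (.cons w3 w2 w1 (.cons w7 w8 w5 (.cons w14 w17 w10 (.cons w29 w40 w17 (.cons w113 w42 w69 (.cons w116 w81 w69 (.cons w59 w43 w35 (.cons w18 w13 w18 (.cons w9 w6 w9 (.last w2 w1 w1)))))))))))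
) (.lf (.cons w3 w2 w1 (.cons w7 w5 w4 (.cons w14 w17 w10 (.cons w29 w40 w17 (.cons w18 w13 w9 (.cons w9 w6 w9 (.last w2 w1 w1))))))))
) (.lf (.cons w3 w2 w1 (.cons w7 w8 w5 (.cons w14 w17 w10 (.cons w29 w20 w34 (.cons w113 w42 w69 (.cons w113 w85 w69 (.cons w59 w43 w35 (.cons w117 w81 w69 (.cons w18 w13 w18 (.cons w9 w6 w9 (.last w2 w1 w1))))))))))))
) (.n2 6547 (.nx 41241 (.n2 6160 (.lf (.cons w3 w2 w1 (.cons w7 w8 w5 (.cons w14 w17 w10 (.cons w29 w40 w17 (.cons w37 w13 w18 (.cons w18 w13 w9 (.cons w9 w6 w9 (.last w2 w1 w1)))))))))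
 (.lf (.cons w3 w2 w1 (.cons w7 w8 w5 (.cons w28 w10 w17 (.cons w29 w20 w34 (.cons w37 w13 w18 (.cons w18 w13 w9 (.cons w9 w6 w9 (.last w2 w1 w1)))))))))
) (.lf (.cons w3 w2 w1 (.cons w7 w5 w4 (.cons w14 w17 w10 (.cons w29 w40 w17 (.cons w113 w42 w69 (.cons w113 w85 w69 (.cons w59 w43 w35 (.cons w18 w13 w9 (.cons w9 w6 w9 (.last w2 w1 w1)))))))))))
) (.n2 6934 (.lf (.cons w3 w2 w1 (.cons w7 w8 w5 (.cons w28 w10 w17 (.cons w29 w20 w34 (.cons w58 w40 w34 (.cons w116 w81 w69 (.cons w59 w43 w35 (.cons w117 w81 w69 (.cons w18 w13 w18 (.cons w9 w6 w9 (.last w2 w1 w1))))))))))))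
 (.lf (.cons w3 w2 w1 (.cons w7 w8 w5 (.cons w28 w10 w17 (.cons w29 w20 w34 (.cons w58 w40 w34 (.cons w116 w81 w69 (.cons w18 w13 w18 (.cons w9 w6 w9 (.last w2 w1 w1))))))))))
))) (.n2 6547 (.n1 6934 (.lf (.cons w3 w2 w1 (.cons w7 w5 w8 (.cons w14 w10 w17 (.cons w118 w43 w71 (.cons w117 w81 w69 (.cons w18 w18 w13 (.cons w9 w9 w6 (.last w2 w1 w1)))))))))
 (.n3 6547 (.nx 41241 (.lf (.cons w3 w1 w2 (.cons w7 w5 w8 (.cons w28 w17 w10 (.cons w29 w34 w20 (.cons w37 w13 w18 (.cons w18 w13 w9 (.cons w9 w9 w6 (.last w2 w1 w1)))))))))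
 (.lf (.cons w3 w2 w1 (.cons w7 w5 w8 (.cons w14 w17 w10 (.cons w18 w13 w9 (.cons w9 w6 w9 (.last w2 w1 w1)))))))
) (.lf (.cons w3 w2 w1 (.cons w7 w5 w8 (.cons w28 w10 w17 (.cons w29 w20 w34 (.cons w18 w18 w13 (.cons w9 w9 w6 (.last w2 w1 w1))))))))
)) (.lf (.cons w3 w1 w2 (.cons w7 w8 w5 (.cons w28 w17 w10 (.cons w29 w34 w20 (.cons w113 w69 w42 (.cons w113 w69 w85 (.cons w59 w35 w43 (.cons w18 w13 w18 (.cons w9 w6 w9 (.last w2 w1 w1)))))))))))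
))

theorem c94 : Cov false false 40885 41600 40183 102400 6547 7321 5773 7321 5773 7321 :=
  Cov.chk t94 (by decide +kernel)

noncomputable def t96 : Tr :=
(.ny 44585 (.nx 51212 (.ny 38815 (.n2 6547 (.lf (.cons w3 w2 w1 (.cons w7 w5 w4 (.cons w14 w10 w8 (.cons w28 w21 w17 (.cons w56 w42 w34 (.cons w9 w6 w4 (.cons w4 w3 w2 (.last w2 w1 w1)))))))))
 (.lf (.cons w3 w2 w1 (.cons w7 w5 w4 (.cons w14 w10 w8 (.cons w28 w21 w17 (.cons w9 w6 w4 (.cons w4 w3 w2 (.last w2 w1 w1))))))))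
) (.lf (.cons w3 w2 w1 (.cons w7 w5 w4 (.cons w14 w10 w8 (.cons w28 w21 w17 (.cons w9 w6 w4 (.last w2 w1 w1)))))))
) (.lf (.cons w3 w2 w1 (.cons w12 w5 w5 (.cons w7 w5 w8 (.cons w4 w3 w2 (.last w2 w1 w1))))))
) (.nx 51212 (.lf (.cons w3 w1 w1 (.cons w6 w5 w5 (.cons w25 w10 w10 (.cons w9 w4 w6 (.last w2 w1 w1))))))
 (.ny 51212 (.lf (.cons w3 w2 w1 (.cons w6 w5 w5 (.last w2 w1 w1))))
 (.lf (.cons w3 w3 w2 (.cons w12 w7 w10 (.cons w7 w6 w5 (.cons w14 w12 w10 (.cons w4 w3 w3 (.cons w3 w2 w2 (.last w2 w1 w1))))))))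
)))

theorem c96 : Cov false false 44585 58824 33792 102400 5773 7321 5773 7321 5773 7321 :=
  Cov.chk t96 (by decide +kernel)

noncomputable def t103 : Tr :=
(.nx 98913 (.lf (.cons w2 w3 w3 (.cons w5 w3 w3 (.cons w11 w7 w7 (.last w2 w1 w1)))))
 (.lf (.cons w2 w3 w3 (.cons w5 w3 w3 (.cons w7 w7 w5 (.cons w14 w14 w21 (.cons w12 w18 w9 (.last w2 w1 w1)))))))
)

theorem c103 : Cov false false 95545 102400 89149 95545 5773 7321 5773 7321 5773 7321 :=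
  Cov.chk t103 (by decide +kernel)

noncomputable def t105 : Tr :=
(.lf (.cons w2 w3 w3 (.cons w5 w3 w3 (.cons w9 w13 w9 (.cons w9 w6 w9 (.last w2 w1 w1))))))


theorem c105 : Cov false false 98913 102400 95545 98913 5773 7321 5773 7321 5773 7321 :=
  Cov.chk t105 (by decide +kernel)

noncomputable def t108 : Tr :=
(.nx 101517 (.lf (.cons w2 w3 w3 (.cons w5 w3 w3 (.cons w42 w50 w29 (.cons w42 w50 w58 (.cons w18 w26 w18 (.cons w9 w13 w9 (.last w2 w1 w1))))))))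
 (.n2 6547 (.ny 101517 (.lf (.cons w2 w3 w3 (.cons w5 w3 w3 (.cons w42 w50 w58 (.cons w18 w13 w18 (.cons w11 w7 w7 (.last w2 w1 w1)))))))
 (.n2 6160 (.lf (.cons w2 w3 w3 (.cons w5 w3 w3 (.cons w42 w50 w29 (.cons w42 w50 w58 (.cons w11 w7 w7 (.last w2 w1 w1)))))))
 (.n1 6160 (.lf (.cons w2 w3 w3 (.cons w5 w3 w3 (.cons w42 w50 w29 (.cons w45 w61 w57 (.cons w11 w7 w7 (.last w2 w1 w1)))))))
 (.n3 6547 (.n3 6160 (.lf (.cons w2 w3 w3 (.cons w5 w3 w3 (.cons w18 w26 w18 (.cons w11 w7 w7 (.last w2 w1 w1))))))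
 (.lf (.cons w2 w3 w3 (.cons w5 w3 w3 (.cons w42 w50 w58 (.cons w18 w26 w18 (.cons w11 w7 w7 (.last w2 w1 w1)))))))
) (.lf (.cons w2 w3 w3 (.cons w3 w3 w5 (.cons w58 w50 w42 (.cons w37 w26 w37 (.cons w75 w105 w74 (.cons w72 w53 w37 (.cons w9 w13 w18 (.last w2 w1 w1)))))))))
)))) (.ny 101517 (.lf (.cons w2 w3 w3 (.cons w5 w3 w3 (.cons w18 w26 w18 (.cons w13 w9 w9 (.last w2 w1 w1))))))
 (.n3 6547 (.nx 101958 (.lf (.cons w2 w3 w3 (.cons w5 w3 w3 (.cons w9 w13 w18 (.last w2 w1 w1)))))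
 (.lf (.cons w3 w2 w3 (.cons w5 w3 w3 (.cons w18 w26 w18 (.cons w11 w7 w7 (.last w2 w1 w1))))))
) (.nx 101958 (.lf (.cons w2 w3 w3 (.cons w5 w3 w3 (.cons w42 w50 w58 (.cons w18 w26 w18 (.cons w11 w7 w7 (.last w2 w1 w1)))))))
 (.n1 6160 (.ny 101958 (.lf (.cons w3 w2 w3 (.cons w5 w3 w3 (.cons w18 w26 w18 (.cons w11 w7 w7 (.last w2 w1 w1))))))
 (.n2 6934 (.lf (.cons w3 w3 w2 (.cons w3 w3 w5 (.cons w50 w58 w42 (.cons w26 w37 w37 (.cons w105 w75 w74 (.cons w53 w72 w37 (.cons w13 w9 w18 (.last w2 w1 w1)))))))))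
 (.n3 6934 (.lf (.cons w3 w2 w3 (.cons w5 w3 w3 (.cons w18 w13 w18 (.last w2 w1 w1)))))
 (.lf (.cons w3 w3 w2 (.cons w5 w3 w3 (.cons w42 w50 w58 (.cons w18 w26 w18 (.cons w13 w9 w9 (.last w2 w1 w1)))))))
))) (.n2 6934 (.ny 101958 (.lf (.cons w2 w3 w3 (.cons w5 w3 w3 (.cons w42 w50 w58 (.cons w18 w26 w18 (.cons w11 w7 w7 (.last w2 w1 w1)))))))
 (.n3 6934 (.nx 102179 (.lf (.cons w2 w3 w3 (.cons w5 w3 w3 (.cons w42 w50 w58 (.cons w18 w13 w18 (.last w2 w1 w1))))))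
 (.lf (.cons w3 w2 w3 (.cons w5 w3 w3 (.cons w42 w29 w50 (.cons w72 w37 w53 (.cons w9 w18 w13 (.last w2 w1 w1)))))))
) (.lf (.cons w3 w3 w2 (.cons w3 w3 w5 (.cons w15 w15 w23 (.cons w23 w15 w15 (.cons w18 w18 w26 (.cons w11 w7 w7 (.last w2 w1 w1))))))))
)) (.n3 6934 (.lf (.cons w3 w2 w3 (.cons w3 w5 w3 (.cons w15 w23 w15 (.cons w23 w15 w15 (.cons w18 w26 w18 (.cons w11 w7 w7 (.last w2 w1 w1))))))))
 (.nx 102179 (.lf (.cons w2 w3 w3 (.cons w5 w3 w3 (.cons w23 w15 w15 (.cons w18 w26 w18 (.cons w11 w7 w7 (.last w2 w1 w1)))))))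
 (.lf (.cons w3 w2 w3 (.cons w3 w5 w3 (.cons w15 w23 w15 (.cons w26 w37 w37 (.cons w18 w13 w18 (.last w2 w1 w1)))))))
)))))))))

theorem c108 : Cov false false 100641 102400 100641 102400 5773 6547 5773 7321 5773 7321 :=
  Cov.chk t108 (by decide +kernel)

noncomputable def t112 : Tr :=
(.nx 58824 (.nx 44585 (.lf (.cons w3 w1 w1 (.cons w6 w3 w2 (.cons w7 w3 w4 (.cons w4 w2 w3 (.last w2 w1 w1))))))
 (.ny 44585 (.nx 51212 (.lf (.cons w3 w1 w1 (.cons w3 w3 w2 (.cons w2 w2 w1 (.last w2 w1 w1)))))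
 (.ny 38815 (.lf (.cons w3 w4 w2 (.cons w14 w9 w8 (.cons w7 w8 w5 (.cons w28 w33 w21 (.cons w9 w5 w6 (.cons w9 w5 w3 (.cons w19 w20 w7 (.cons w18 w11 w14 (.cons w7 w6 w3 (.cons w6 w3 w4 (.cons w3 w3 w2 (.last w2 w1 w1)))))))))))))
 (.nx 54886 (.lf (.cons w3 w1 w1 (.cons w3 w3 w2 (.last w2 w1 w1))))
 (.lf (.cons w3 w4 w2 (.cons w3 w3 w3 (.cons w7 w6 w3 (.cons w8 w5 w3 (.cons w4 w4 w3 (.last w2 w1 w1)))))))
))) (.nx 51212 (.lf (.cons w3 w1 w1 (.cons w3 w3 w2 (.last w2 w1 w1))))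
 (.ny 51212 (.lf (.cons w3 w4 w2 (.cons w12 w9 w10 (.cons w25 w18 w10 (.cons w25 w18 w21 (.cons w50 w37 w42 (.cons w15 w17 w10 (.cons w7 w4 w5 (.cons w4 w2 w3 (.last w2 w1 w1))))))))))
 (.lf (.cons w3 w2 w2 (.cons w12 w9 w10 (.cons w4 w2 w3 (.last w2 w1 w1)))))
)))) (.ny 58824 (.nx 77612 (.ny 44585 (.nx 67568 (.ny 38815 (.nx 63045 (.lf (.cons w3 w4 w2 (.cons w6 w6 w3 (.cons w9 w5 w3 (.cons w19 w20 w7 (.cons w18 w11 w14 (.cons w73 w45 w56 (.cons w73 w44 w29 (.cons w73 w88 w58 (.cons w76 w23 w30 (.cons w32 w21 w13 (.cons w8 w5 w6 (.cons w9 w8 w3 (.cons w4 w2 w1 (.last w2 w1 w1)))))))))))))))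
 (.lf (.cons w3 w4 w2 (.cons w6 w3 w3 (.cons w14 w7 w12 (.cons w15 w14 w7 (.cons w24 w13 w7 (.cons w48 w26 w14 (.cons w97 w52 w29 (.cons w97 w104 w58 (.cons w100 w27 w30 (.cons w50 w27 w15 (.cons w51 w52 w15 (.cons w25 w13 w7 (.cons w14 w7 w7 (.cons w7 w6 w3 (.cons w3 w3 w2 (.last w2 w1 w1)))))))))))))))))
) (.lf (.cons w3 w4 w2 (.cons w3 w3 w3 (.cons w7 w6 w3 (.cons w15 w13 w7 (.cons w12 w7 w9 (.cons w6 w3 w2 (.last w2 w1 w1))))))))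
) (.lf (.cons w3 w4 w2 (.cons w7 w8 w5 (.cons w6 w3 w3 (.cons w12 w12 w7 (.cons w25 w24 w14 (.cons w8 w5 w3 (.cons w9 w8 w6 (.cons w4 w4 w3 (.last w2 w1 w1))))))))))
) (.nx 67568 (.ny 51212 (.lf (.cons w3 w2 w2 (.cons w3 w3 w3 (.cons w7 w6 w6 (.cons w8 w5 w3 (.cons w32 w11 w7 (.cons w4 w4 w3 (.last w2 w1 w1))))))))
 (.lf (.cons w3 w2 w2 (.cons w4 w2 w3 (.last w2 w1 w1))))
) (.lf (.cons w3 w2 w2 (.cons w3 w3 w3 (.cons w7 w6 w6 (.cons w14 w13 w12 (.cons w4 w4 w3 (.last w2 w1 w1)))))))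
)) (.ny 44585 (.nx 89149 (.lf (.cons w3 w2 w2 (.cons w12 w9 w5 (.cons w7 w8 w5 (.cons w4 w5 w3 (.cons w6 w3 w3 (.cons w6 w6 w3 (.cons w25 w24 w7 (.cons w14 w7 w7 (.cons w4 w2 w1 (.last w2 w1 w1)))))))))))
 (.nx 95545 (.ny 38815 (.lf (.cons w3 w4 w2 (.cons w4 w5 w3 (.cons w6 w7 w3 (.cons w6 w3 w3 (.last w2 w1 w1))))))
 (.nx 92292 (.lf (.cons w3 w2 w2 (.cons w4 w5 w3 (.cons w6 w3 w3 (.last w2 w1 w1)))))
 (.lf (.cons w3 w2 w2 (.cons w8 w5 w3 (.cons w6 w7 w3 (.cons w3 w3 w3 (.last w2 w1 w1))))))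
)) (.ny 38815 (.nx 98913 (.lf (.cons w3 w4 w2 (.cons w4 w5 w3 (.cons w16 w11 w7 (.cons w6 w7 w3 (.cons w4 w2 w1 (.last w2 w1 w1)))))))
 (.lf (.cons w3 w4 w2 (.cons w8 w5 w3 (.cons w32 w11 w7 (.cons w32 w22 w14 (.cons w13 w7 w6 (.cons w6 w7 w3 (.cons w2 w2 w1 (.cons w5 w4 w2 (.cons w11 w9 w5 (.last w4 w3 w1)))))))))))
) (.ny 41600 (.lf (.cons w3 w2 w2 (.cons w8 w5 w3 (.cons w32 w11 w7 (.cons w32 w22 w14 (.cons w65 w44 w29 (.cons w18 w17 w13 (.cons w6 w7 w3 (.cons w4 w2 w1 (.last w2 w1 w1))))))))))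
 (.lf (.cons w3 w2 w2 (.cons w7 w8 w5 (.cons w14 w16 w10 (.cons w29 w33 w20 (.cons w6 w7 w6 (.cons w3 w3 w3 (.last w2 w1 w1))))))))
)))) (.nx 89149 (.lf (.cons w3 w2 w2 (.cons w12 w9 w5 (.cons w3 w3 w3 (.cons w4 w4 w3 (.last w2 w1 w1))))))
 (.ny 51212 (.nx 95545 (.lf (.cons w3 w2 w2 (.cons w7 w8 w5 (.cons w3 w3 w3 (.last w2 w1 w1)))))
 (.lf (.cons w3 w2 w2 (.cons w7 w8 w5 (.cons w14 w16 w10 (.cons w28 w33 w21 (.cons w56 w66 w42 (.cons w9 w8 w6 (.cons w2 w2 w1 (.last w2 w1 w1)))))))))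
) (.lf (.cons w3 w2 w2 (.cons w12 w9 w5 (.cons w3 w3 w3 (.last w2 w1 w1)))))
)))) (.nx 77612 (.lf (.cons w6 w5 w8 (.cons w3 w2 w2 (.cons w4 w2 w3 (.last w2 w1 w1)))))
 (.ny 77612 (.nx 89149 (.ny 67568 (.lf (.cons w3 w2 w2 (.cons w4 w4 w3 (.last w2 w1 w1))))
 (.lf (.cons w12 w5 w8 (.cons w3 w2 w2 (.cons w2 w2 w1 (.last w2 w1 w1)))))
) (.ny 67568 (.lf (.cons w3 w2 w2 (.cons w4 w4 w3 (.last w2 w1 w1))))
 (.nx 95545 (.lf (.cons w12 w5 w8 (.cons w3 w2 w2 (.cons w2 w2 w1 (.last w2 w1 w1)))))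
 (.lf (.cons w3 w2 w2 (.last w2 w1 w1)))
))) (.nx 89149 (.lf (.cons w6 w5 w4 (.cons w3 w2 w2 (.last w2 w1 w1))))
 (.ny 89149 (.lf (.cons w6 w5 w8 (.cons w3 w2 w2 (.last w2 w1 w1))))
 (.lf (.cons w6 w5 w4 (.cons w3 w2 w2 (.last w2 w1 w1))))
))))))

theorem c112 : Cov true false 33792 102400 33792 102400 5773 7321 5773 7321 5773 7321 :=
  Cov.chk t112 (by decide +kernel)

noncomputable def t113 : Tr :=
(.nx 44585 (.lf (.cons w3 w1 w1 (.cons w6 w2 w3 (.cons w7 w4 w3 (.cons w4 w3 w2 (.last w2 w1 w1))))))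
 (.ny 44585 (.lf (.cons w3 w2 w1 (.cons w4 w3 w2 (.last w2 w1 w1))))
 (.nx 51212 (.lf (.cons w3 w1 w1 (.cons w3 w2 w3 (.last w2 w1 w1))))
 (.ny 51212 (.lf (.cons w3 w2 w1 (.cons w3 w2 w3 (.last w2 w1 w1))))
 (.lf (.cons w3 w2 w2 (.cons w12 w10 w9 (.cons w4 w3 w2 (.last w2 w1 w1)))))
))))

theorem c113 : Cov false true 33792 58824 33792 102400 5773 7321 5773 7321 5773 7321 :=
  Cov.chk t113 (by decide +kernel)

noncomputable def t117 : Tr :=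
(.nx 44585 (.nx 38815 (.nx 36217 (.n1 6547 (.lf (.cons w3 w1 w1 (.cons w13 w6 w7 (.cons w6 w3 w3 (.cons w24 w13 w13 (.cons w50 w24 w26 (.cons w28 w14 w14 (.cons w9 w4 w5 (.cons w4 w1 w1 (.last w2 w1 w1))))))))))
 (.nx 34983 (.n1 6934 (.lf (.cons w3 w1 w1 (.cons w12 w7 w7 (.cons w6 w3 w3 (.cons w24 w13 w13 (.cons w50 w24 w26 (.cons w101 w49 w52 (.cons w28 w14 w14 (.cons w9 w4 w5 (.cons w4 w1 w1 (.last w2 w1 w1)))))))))))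
 (.nx 34382 (.n2 6547 (.n3 6547 (.n1 7127 (.lf (.cons w3 w1 w1 (.cons w12 w7 w7 (.cons w6 w3 w3 (.cons w24 w13 w13 (.cons w50 w24 w26 (.cons w101 w49 w52 (.cons w101 w98 w104 (.cons w31 w15 w15 (.cons w9 w8 w10 (.cons w4 w2 w2 (.last w2 w1 w1))))))))))))
 (.nx 34086 (.lf (.cons w3 w1 w1 (.cons w6 w3 w3 (.cons w24 w13 w13 (.cons w50 w24 w26 (.cons w101 w49 w52 (.cons w57 w29 w28 (.cons w28 w7 w7 (.cons w9 w4 w5 (.cons w2 w1 w2 (.last w2 w1 w1)))))))))))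
 (.lf (.cons w3 w1 w1 (.cons w6 w3 w3 (.cons w24 w13 w13 (.cons w50 w26 w24 (.cons w36 w10 w17 (.cons w9 w4 w5 (.cons w2 w1 w2 (.last w2 w1 w1)))))))))
)) (.lf (.cons w3 w1 w1 (.cons w12 w7 w7 (.cons w6 w3 w3 (.cons w24 w13 w13 (.cons w50 w24 w26 (.cons w101 w49 w52 (.cons w28 w14 w14 (.cons w9 w4 w5 (.cons w2 w2 w1 (.last w2 w1 w1)))))))))))
) (.lf (.cons w3 w1 w1 (.cons w12 w7 w7 (.cons w6 w3 w3 (.cons w24 w13 w13 (.cons w50 w26 w24 (.cons w101 w52 w49 (.cons w28 w14 w14 (.cons w9 w5 w4 (.cons w4 w1 w1 (.last w2 w1 w1)))))))))))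
) (.lf (.cons w3 w1 w1 (.cons w12 w7 w7 (.cons w6 w3 w3 (.cons w24 w13 w13 (.cons w50 w26 w24 (.cons w101 w52 w49 (.cons w18 w10 w8 (.cons w8 w5 w5 (.last w2 w1 w1))))))))))
)) (.lf (.cons w3 w1 w1 (.cons w13 w6 w7 (.cons w6 w3 w3 (.cons w24 w13 w13 (.cons w9 w5 w8 (.cons w4 w2 w2 (.last w2 w1 w1))))))))
)) (.lf (.cons w3 w1 w1 (.cons w7 w6 w4 (.cons w14 w12 w9 (.cons w13 w6 w7 (.cons w6 w3 w3 (.cons w9 w5 w4 (.cons w2 w2 w1 (.last w2 w1 w1)))))))))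
) (.ny 38815 (.lf (.cons w3 w1 w1 (.cons w7 w6 w4 (.cons w14 w12 w9 (.cons w12 w7 w7 (.cons w6 w3 w3 (.cons w12 w6 w6 (.cons w4 w2 w2 (.last w2 w1 w1)))))))))
 (.lf (.cons w3 w1 w1 (.cons w7 w6 w4 (.cons w14 w12 w9 (.cons w29 w24 w18 (.cons w59 w49 w37 (.cons w28 w13 w9 (.cons w14 w13 w9 (.cons w29 w26 w18 (.cons w13 w12 w7 (.cons w6 w3 w3 (.cons w4 w1 w1 (.last w2 w1 w1)))))))))))))
)) (.ny 44585 (.nx 51212 (.ny 38815 (.lf (.cons w3 w1 w1 (.cons w7 w6 w4 (.cons w12 w7 w7 (.cons w6 w3 w3 (.last w2 w1 w1))))))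
 (.lf (.cons w3 w1 w1 (.cons w7 w6 w4 (.cons w14 w24 w9 (.cons w29 w24 w18 (.cons w9 w5 w4 (.cons w2 w2 w1 (.last w2 w1 w1))))))))
) (.lf (.cons w3 w2 w1 (.cons w6 w4 w3 (.cons w3 w3 w2 (.cons w7 w6 w4 (.cons w4 w2 w1 (.last w2 w1 w1)))))))
) (.nx 51212 (.nx 47784 (.lf (.cons w3 w1 w1 (.cons w8 w5 w5 (.cons w2 w2 w2 (.last w2 w1 w1)))))
 (.lf (.cons w3 w1 w1 (.cons w9 w4 w5 (.last w2 w1 w1))))
) (.ny 51212 (.lf (.cons w3 w2 w1 (.cons w3 w3 w2 (.cons w7 w6 w4 (.cons w2 w2 w1 (.last w2 w1 w1))))))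
 (.lf (.cons w7 w4 w4 (.cons w12 w5 w7 (.cons w6 w5 w6 (.cons w3 w2 w3 (.cons w7 w4 w6 (.last w2 w1 w1)))))))
))))

theorem c117 : Cov true true 33792 58824 33792 102400 5773 7321 5773 7321 5773 7321 :=
  Cov.chk t117 (by decide +kernel)

end Pool.Agent.MP_a07d0e_nt

end

section

namespace Pool.Agent.MP_a07d0e_nt

noncomputable def T (b : Bool) (t : ℝ) : ℝ := 1 / (dg b + t)

def En : ℕ → Set ℝ
  | 0 => Set.Icc (3660 / 10000) (7321 / 10000)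
  | n + 1 => T false '' En n ∪ T true '' En n

def E : Set ℝ := ⋂ n, En n

lemma En_sub {n : ℕ} {t : ℝ} (h : t ∈ En n) : InI t := by
  induction n generalizing t with
  | zero => exact h
  | succ n ih =>
    rcases h with ⟨u, hu, rfl⟩ | ⟨u, hu, rfl⟩
    · exact (InX_T false (ih hu)).1
    · exact (InX_T true (ih hu)).1

lemma En_compact (n : ℕ) : IsCompact (En n) := by
  induction n with
  | zero => exact isCompact_Icc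
  | succ n ih =>
    have : ∀ b, ContinuousOn (T b) (En n) := by
      intro b
      apply ContinuousOn.div continuousOn_const (by fun_prop)
      intro t ht
      have := (En_sub ht).nonneg
      have := dg_ge b
      positivity
    exact (ih.image_of_continuousOn (this false)).union (ih.image_of_continuousOn (this true))

lemma E_compact : IsCompact E :=
  (En_compact 0).of_isClosed_subset (isClosed_iInter fun n => (En_compact n).isClosed)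
    (Set.iInter_subset _ 0)

lemma E_InI {t : ℝ} (h : t ∈ E) : InI t := En_sub (Set.mem_iInter.1 h 0)

lemma T_mem {t : ℝ} (h : t ∈ E) (b : Bool) : T b t ∈ E := by
  refine Set.mem_iInter.2 fun n => ?_
  cases n with
  | zero => exact (InX_T b (E_InI h)).1
  | succ n =>
    cases b
    · exact Or.inl ⟨t, Set.mem_iInter.1 h n, rfl⟩
    · exact Or.inr ⟨t, Set.mem_iInter.1 h n, rfl⟩

lemma wd_mem (l : List Bool) {t : ℝ} (h : t ∈ E) : wd l t ∈ E := by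
  induction l with
  | nil => exact h
  | cons b l ih => exact T_mem ih b

lemma E_nonempty : E.Nonempty := by
  have h5 : Real.sqrt 5 * Real.sqrt 5 = 5 := Real.mul_self_sqrt (by norm_num)
  have h0 : 0 ≤ Real.sqrt 5 := Real.sqrt_nonneg 5
  have h1 : 2 ≤ Real.sqrt 5 := by nlinarith
  have h2 : Real.sqrt 5 ≤ 23 / 10 := by nlinarith
  refine ⟨(Real.sqrt 5 - 1) / 2, Set.mem_iInter.2 fun n => ?_⟩
  induction n with
  | zero => constructor <;> linarith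
  | succ n ih =>
    refine Or.inl ⟨_, ih, ?_⟩
    simp only [T, dg, Bool.false_eq_true, if_false]
    rw [div_eq_iff (by linarith)]
    nlinarith

lemma gauss_T (d : ℤ) {t : ℝ} (h0 : 0 ≤ t) (h1 : t < 1) :
    gauss (1 / (d + t)) = t ∧ ⌊(1 / ((d : ℝ) + t))⁻¹⌋ = d := by
  simp only [gauss, one_div, inv_inv]
  refine ⟨by rw [Int.fract_intCast_add, Int.fract_eq_self.2 ⟨h0, h1⟩], ?_⟩
  rw [Int.floor_eq_iff]; constructor <;> linarith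

lemma InI.lt_one {t : ℝ} (h : InI t) : t < 1 := by have := h.2; linarith

lemma gauss_Tb (b : Bool) {t : ℝ} (h : InI t) :
    gauss (T b t) = t ∧ ⌊(T b t)⁻¹⌋ ≤ 2 := by
  cases b
  · have := gauss_T 1 h.nonneg h.lt_one
    simp only [T, dg, Bool.false_eq_true, if_false]
    push_cast at this
    exact ⟨this.1, by rw [this.2]; norm_num⟩
  · have := gauss_T 2 h.nonneg h.lt_one
    simp only [T, dg, if_true]
    push_cast at this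
    exact ⟨this.1, by rw [this.2]⟩

lemma E_gauss {t : ℝ} (h : t ∈ E) : gauss t ∈ E ∧ ⌊t⁻¹⌋ ≤ 2 ∧ ∃ b, t = T b (gauss t) := by
  have key : ∀ n, gauss t ∈ En n ∧ ⌊t⁻¹⌋ ≤ 2 ∧ ∃ b, t = T b (gauss t) := by
    intro n
    rcases Set.mem_iInter.1 h (n + 1) with ⟨u, hu, rfl⟩ | ⟨u, hu, rfl⟩
    · have := gauss_Tb false (En_sub hu)
      rw [this.1]; exact ⟨hu, this.2, false, rfl⟩
    · have := gauss_Tb true (En_sub hu)
      rw [this.1]; exact ⟨hu, this.2, true, rfl⟩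
  exact ⟨Set.mem_iInter.2 fun n => (key n).1, (key 0).2⟩

lemma E_iter {t : ℝ} (h : t ∈ E) (n : ℕ) : gauss^[n] t ∈ E := by
  induction n with
  | zero => exact h
  | succ n ih => rw [Function.iterate_succ_apply']; exact (E_gauss ih).1

lemma E_not_rat (b : ℕ) : ∀ a : ℤ, ((a : ℝ) / b) ∉ E := by
  induction b using Nat.strong_induction_on with
  | _ b ih =>
    intro a h
    have hI := E_InI h
    have hb : (0 : ℝ) < b := by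
      rcases Nat.eq_zero_or_pos b with rfl | hb
      · have := hI.1; norm_num at this
      · exact_mod_cast hb
    have h0 : (0 : ℝ) < a := by
      have := hI.1
      rw [le_div_iff₀ hb] at this; linarith
    have h1 : (a : ℝ) < b := by
      have := hI.lt_one
      rwa [div_lt_one hb] at this
    have h0' : 0 < a := by exact_mod_cast h0
    have h1' : a < b := by exact_mod_cast h1
    obtain ⟨hg, -, c, hc⟩ := E_gauss h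
    have hn := (E_InI hg).nonneg
    have hd := dg_ge c
    have e : gauss ((a : ℝ) / b) = (((b : ℤ) - (cond c 2 1) * a : ℤ) : ℝ) / (a.toNat : ℕ) := by
      have e1 : ((a.toNat : ℕ) : ℝ) = a := by
        have : ((a.toNat : ℕ) : ℤ) = a := Int.toNat_of_nonneg h0'.le
        exact_mod_cast this
      have e2 : ((cond c 2 1 : ℤ) : ℝ) = dg c := by cases c <;> simp [dg]
      rw [e1]; push_cast; rw [e2]
      simp only [T] at hc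
      generalize gauss ((a : ℝ) / b) = g at hc hn ⊢
      have h3 : dg c + g ≠ 0 := by positivity
      field_simp at hc ⊢
      linarith
    rw [e] at hg
    exact ih a.toNat (by omega) _ hg

lemma E_irr {t : ℝ} (h : t ∈ E) : Irrational t := by
  rintro ⟨q, rfl⟩
  apply E_not_rat q.den q.num
  rwa [Rat.cast_def] at h

lemma mem_Bset {t : ℝ} (h : t ∈ E) (d e : ℤ) (hd : 1 ≤ d) (hd3 : d ≤ 3) (he : 1 ≤ e) (he3 : e ≤ 3)
    {j : ℕ} (hj : 2 ≤ j) : 1 / (d + 1 / (e + t)) ∈ Bset 2 j := by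
  have hI := E_InI h
  have hn := hI.nonneg
  have hp : 0 < t := by have := hI.1; linarith
  have hd' : (1 : ℝ) ≤ d := by exact_mod_cast hd
  have he' : (1 : ℝ) ≤ e := by exact_mod_cast he
  have k1 : 0 < 1 / (e + t) := by positivity
  have k2 : 1 / (e + t) < 1 := by rw [div_lt_one (by positivity)]; linarith
  obtain ⟨g1, g2⟩ := gauss_T d k1.le k2
  obtain ⟨g3, g4⟩ := gauss_T e hn hI.lt_one
  have hq : ∀ k, quot (1 / (d + 1 / (e + t))) (k + 3) ≤ 2 := by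
    intro k
    simp only [quot]
    have : k + 3 - 1 = k + 1 + 1 := by omega
    rw [this, Function.iterate_succ_apply, Function.iterate_succ_apply, g1, g3]
    exact (E_gauss (E_iter h k)).2.1
  have hq1 : quot (1 / (d + 1 / (e + t))) 1 = d := by simpa [quot] using g2
  have hq2 : quot (1 / (d + 1 / (e + t))) 2 = e := by
    simp only [quot]
    have : 2 - 1 = 1 := rfl
    rw [this, Function.iterate_one, g1, g4]
  refine ⟨?_, by positivity, ?_, ?_, ?_⟩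
  · have := (E_irr h).intCast_add e
    have := this.inv.intCast_add d
    simpa only [one_div] using this.inv
  · rw [div_lt_one (by positivity)]; linarith
  · intro k hk _
    rcases (by omega : k = 1 ∨ k = 2 ∨ 3 ≤ k) with rfl | rfl | hk3
    · rw [hq1]; push_cast; omega
    · rw [hq2]; push_cast; omega
    · obtain ⟨m, rfl⟩ := Nat.exists_eq_add_of_le' hk3
      have := hq m; push_cast; omega
  · intro k hk
    obtain ⟨m, rfl⟩ := Nat.exists_eq_add_of_le' (by omega : 3 ≤ k)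
    have := hq m; push_cast; omega

end Pool.Agent.MP_a07d0e_nt

end
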